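import Pool.Agent.H97.BP.PartB

/-!
# Bridge to the finite formulation on `Fin 3 → Fin n`
-/

set_option autoImplicit false

namespace Pool.Agent.H97.BP

open Finset H974

/-- the embedding of the finite cube -/
def emb (n : ℕ) : (Fin 3 → Fin n) ↪ Pt :=
  ⟨fun v i => ((v i : ℕ) : ℤ) + 1, fun u v h => by
    funext i
    have := congrFun h i
    apply Fin.ext
    simpa using this⟩

theorem emb_apply {n : ℕ} (v : Fin 3 → Fin n) (i : Fin 3) : emb n v i = ((v i : ℕ) : ℤ) + 1 := rfl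

theorem emb_map (n : ℕ) : (univ : Finset (Fin 3 → Fin n)).map (emb n) = Finset.Icc (1 : Pt) (fun _ => (n : ℤ)) := by
  ext x
  rw [Finset.mem_map, Finset.mem_Icc]
  constructor
  · rintro ⟨v, -, rfl⟩
    constructor
    · intro i
      show (1 : ℤ) ≤ ((v i : ℕ) : ℤ) + 1
      omega
    · intro i
      show ((v i : ℕ) : ℤ) + 1 ≤ n
      have := (v i).2
      omega
  · rintro ⟨h1, h2⟩
    have h1' : ∀ i, (1 : ℤ) ≤ x i := h1
    have h2' : ∀ i, x i ≤ (n : ℤ) := h2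
    refine ⟨fun i => ⟨(x i - 1).toNat, by have := h1' i; have := h2' i; omega⟩, mem_univ _, ?_⟩
    funext i
    show (((x i - 1).toNat : ℕ) : ℤ) + 1 = x i
    have := h1' i
    omega

theorem adj_emb {n : ℕ} {u v : Fin 3 → Fin n} : Adj (emb n u) (emb n v) ↔
    (∑ i : Fin 3, Int.natAbs (((u i : ℕ) : ℤ) - ((v i : ℕ) : ℤ))) = 1 := by
  unfold Adj
  have : ∀ i : Fin 3, (emb n u i - emb n v i).natAbs = Int.natAbs (((u i : ℕ) : ℤ) - ((v i : ℕ) : ℤ)) := by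
    intro i
    rw [emb_apply, emb_apply]
    congr 1
    ring
  rw [Finset.sum_congr rfl (fun i _ => this i)]

/-- percolation in the finite formulation -/
def Perc (n : ℕ) (A : Finset (Fin 3 → Fin n)) : Prop :=
  ∀ S : Set (Fin 3 → Fin n), (↑A : Set (Fin 3 → Fin n)) ⊆ S →
    (∀ v : Fin 3 → Fin n,
      2 ≤ Set.ncard {u : Fin 3 → Fin n | u ∈ S ∧
        (∑ i : Fin 3, Int.natAbs (((u i : ℕ) : ℤ) - ((v i : ℕ) : ℤ))) = 1} →
      v ∈ S) →
    S = Set.univ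

theorem perc_iff {n : ℕ} (A : Finset (Fin 3 → Fin n)) :
    Perc n A ↔ Spn (1 : Pt) (fun _ => (n : ℤ)) (A.map (emb n)) := by
  have hbox : ∀ x : Pt, x ∈ Set.Icc (1 : Pt) (fun _ => (n : ℤ)) ↔ ∃ v, emb n v = x := by
    intro x
    rw [← Finset.coe_Icc, ← emb_map, Finset.mem_coe, Finset.mem_map]
    simp
  constructor
  · intro h x hx
    have hsub : ((A.map (emb n) : Finset Pt) : Set Pt) ∩ Set.Icc (1 : Pt) (fun _ => (n : ℤ)) = ((A.map (emb n) : Finset Pt) : Set Pt) := by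
      apply Set.inter_eq_left.2
      intro y hy
      obtain ⟨v, -, rfl⟩ := Finset.mem_map.1 (Finset.mem_coe.1 hy)
      exact (hbox _).2 ⟨v, rfl⟩
    rw [hsub]
    set C := Cl ((A.map (emb n) : Finset Pt) : Set Pt) with hC
    have hS := h {v | emb n v ∈ C} (by
      intro v hv
      exact subset_Cl _ (Finset.mem_coe.2 (Finset.mem_map.2 ⟨v, hv, rfl⟩))) (by
      intro v hv
      have h1 : 1 < Set.ncard {u : Fin 3 → Fin n | u ∈ {v | emb n v ∈ C} ∧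
        (∑ i : Fin 3, Int.natAbs (((u i : ℕ) : ℤ) - ((v i : ℕ) : ℤ))) = 1} := hv
      rw [Set.one_lt_ncard_iff (Set.toFinite _)] at h1
      obtain ⟨u, u', hu, hu', hne⟩ := h1
      exact Cl_closed _ (emb n v) (emb n u) (emb n u') hu.1 hu'.1 (fun h => hne ((emb n).injective h))
        (adj_emb.2 hu.2) (adj_emb.2 hu'.2))
    obtain ⟨v, rfl⟩ := (hbox x).1 hx
    have : v ∈ {v | emb n v ∈ C} := by rw [hS]; exact Set.mem_univ v
    exact this
  · intro h S hAS hS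
    rw [Set.eq_univ_iff_forall]
    intro v
    have h1 := h ((hbox (emb n v)).2 ⟨v, rfl⟩) ((emb n) '' S) (by
      rintro y ⟨hy, -⟩
      obtain ⟨u, hu, rfl⟩ := Finset.mem_map.1 (Finset.mem_coe.1 hy)
      exact ⟨u, hAS hu, rfl⟩) (by
      rintro y z z' ⟨u, hu, rfl⟩ ⟨u', hu', rfl⟩ hne h2 h3
      have hy : y ∈ Set.Icc (1 : Pt) (fun _ => (n : ℤ)) :=
        closed_Icc _ _ y (emb n u) (emb n u') ((hbox _).2 ⟨u, rfl⟩) ((hbox _).2 ⟨u', rfl⟩) hne h2 h3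
      obtain ⟨w, rfl⟩ := (hbox y).1 hy
      refine ⟨w, hS w ?_, rfl⟩
      show 1 < Set.ncard _
      rw [Set.one_lt_ncard_iff (Set.toFinite _)]
      exact ⟨u, u', ⟨hu, adj_emb.1 h2⟩, ⟨hu', adj_emb.1 h3⟩, fun h => hne (by rw [h])⟩)
    obtain ⟨w, hw, hwv⟩ := h1
    rwa [← (emb n).injective hwv]

open Classical in
theorem sum_eq_uu (n : ℕ) (p : ℝ) :
    ∑ A : Finset (Fin 3 → Fin n), (if Perc n A
      then p ^ A.card * (1 - p) ^ (Fintype.card (Fin 3 → Fin n) - A.card) else 0)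
      = uu p (1 : Pt) (fun _ => (n : ℤ)) := by
  unfold uu
  rw [← emb_map, Pr_map]
  unfold Pr Ex
  rw [Finset.powerset_univ]
  apply Finset.sum_congr rfl
  intro A _
  rw [Finset.prod_const, Finset.prod_const, Finset.card_sdiff_of_subset (Finset.subset_univ A), Finset.card_univ]
  show _ = p ^ A.card * (1 - p) ^ (Fintype.card (Fin 3 → Fin n) - A.card) *
    ind (Spn (1 : Pt) (fun _ => (n : ℤ)) (A.map (emb n)))
  by_cases h : Perc n A
  · rw [if_pos h, ind_of ((perc_iff A).1 h), mul_one]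
  · rw [if_neg h, ind_not_of (fun h' => h ((perc_iff A).2 h')), mul_zero]

/-- monotonicity in the parameter -/
theorem uu_mono {p p' : ℝ} (hp0 : 0 ≤ p) (hpp : p ≤ p') (hp1 : p' ≤ 1) (a b : Pt) : uu p a b ≤ uu p' a b :=
  Pr_mono_param (okc hp0 (hpp.trans hp1)) (okc (hp0.trans hpp) hp1) (fun _ => hpp)
    (fun _ _ h _ hS => Spn_mono h hS)

/-- everything is spanned for `p = 1` -/
theorem uu_one (a b : Pt) : uu 1 a b = 1 := by
  have h1 := Pr_full 1 (Finset.Subset.refl (Finset.Icc a b))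
  rw [one_pow] at h1
  apply le_antisymm (Pr_le_one (okc zero_le_one le_rfl) _ _)
  refine le_trans h1.ge ?_
  apply Pr_mono (okc zero_le_one le_rfl)
  intro F _ hF x hx
  exact subset_Cl _ ⟨Finset.mem_coe.2 (hF (Finset.mem_Icc.2 hx)), hx⟩

/-- the critical probability -/
noncomputable def pc (n : ℕ) : ℝ := sInf {p : ℝ | 0 ≤ p ∧ p ≤ 1 ∧ 1 / 2 ≤ uu p (1 : Pt) (fun _ => (n : ℤ))}

theorem pc_bdd (n : ℕ) : BddBelow {p : ℝ | 0 ≤ p ∧ p ≤ 1 ∧ 1 / 2 ≤ uu p (1 : Pt) (fun _ => (n : ℤ))} :=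
  ⟨0, fun _ h => h.1⟩

theorem pc_le {n : ℕ} {p : ℝ} (h0 : 0 ≤ p) (h1 : p ≤ 1) (h : 1 / 2 ≤ uu p (1 : Pt) (fun _ => (n : ℤ))) :
    pc n ≤ p := csInf_le (pc_bdd n) ⟨h0, h1, h⟩

theorem le_pc {n : ℕ} {p : ℝ} (h1 : p ≤ 1) (h : uu p (1 : Pt) (fun _ => (n : ℤ)) < 1 / 2) :
    p ≤ pc n := by
  have hne : {p : ℝ | 0 ≤ p ∧ p ≤ 1 ∧ 1 / 2 ≤ uu p (1 : Pt) (fun _ => (n : ℤ))}.Nonempty :=
    ⟨1, zero_le_one, le_rfl, by rw [uu_one]; norm_num⟩
  apply le_csInf hne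
  rintro x ⟨hx0, hx1, hx⟩
  by_contra hc
  push Not at hc
  have := uu_mono hx0 hc.le h1 (1 : Pt) (fun _ => (n : ℤ))
  linarith

end Pool.Agent.H97.BP
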