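import Pool.Agent.H97.BP.DBound

/-!
# The cost of growing a box
-/

set_option autoImplicit false

namespace Pool.Agent.H97.BP

open Finset

/-- the properties of the rate function which are used -/
structure GoodG (G : ℝ → ℝ) (Lip : ℝ) : Prop where
  nonneg : ∀ z, 0 ≤ z → 0 ≤ G z
  anti : ∀ x y, 0 ≤ x → x ≤ y → G y ≤ G x
  conv : ∀ x y h, 0 ≤ x → x ≤ y → 0 ≤ h → G y - G (y + h) ≤ G x - G (x + h)
  lip : ∀ x y, 0 ≤ x → x ≤ y → G x - G y ≤ Lip * (y - x)

theorem goodG_shift {Z : ℝ} (hZ : 0 < Z) : GoodG (fun z => gr (z + Z)) (dg (rr Z)) where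
  nonneg z hz := gr_nonneg (by linarith)
  anti x y hx hxy := gr_anti (by linarith) (by linarith)
  conv x y h hx hxy hh := by
    have := gr_conv (x := x + Z) (y := y + Z) (h := h) (by linarith) (by linarith) hh
    rw [show y + h + Z = y + Z + h by ring, show x + h + Z = x + Z + h by ring]
    exact this
  lip x y hx hxy := by
    have := gr_lip (x := x + Z) (y := y + Z) hZ (by linarith) (by linarith)
    rw [show y - x = y + Z - (x + Z) by ring]
    exact this

/-- there is a lattice path from the origin to `x` of cost at most `w` -/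
inductive Cost (G : ℝ → ℝ) (q : ℝ) : (Fin 3 → ℕ) → ℝ → Prop
  | zero : Cost G q 0 0
  | step {x : Fin 3 → ℕ} {w : ℝ} (i : Fin 3) : Cost G q x w →
      Cost G q (x + Pi.single i 1) (w + G (q * ar x i))
  | mono {x : Fin 3 → ℕ} {w w' : ℝ} : Cost G q x w → w ≤ w' → Cost G q x w'

theorem ar_mono {x y : Fin 3 → ℕ} (h : x ≤ y) (i : Fin 3) : ar x i ≤ ar y i :=
  Finset.prod_le_prod' (fun j _ => h j)

section

variable {G : ℝ → ℝ} {Lip q : ℝ}

theorem Cost.nonneg (hG : GoodG G Lip) (hq : 0 ≤ q) {x : Fin 3 → ℕ} {w : ℝ} (h : Cost G q x w) :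
    0 ≤ w := by
  induction h with
  | zero => exact le_rfl
  | step i _ ih => exact add_nonneg ih (hG.nonneg _ (by positivity))
  | mono _ h ih => exact ih.trans h

theorem cost_up (hG : GoodG G Lip) (hq : 0 ≤ q) {x : Fin 3 → ℕ} {w : ℝ} (h : Cost G q x w) :
    ∀ (n : ℕ) (y : Fin 3 → ℕ), x ≤ y → ∑ i, (y i - x i) = n →
      Cost G q y (w + ∑ i, ((y i : ℝ) - x i) * G (q * ar x i)) := by
  intro n
  induction n with
  | zero =>
    intro y hxy hn
    have : y = x := by
      funext i
      have h1 := (Finset.sum_eq_zero_iff.1 hn) i (mem_univ i)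
      have h2 : x i ≤ y i := hxy i
      omega
    rw [this]
    simpa using h
  | succ n ih =>
    intro y hxy hn
    obtain ⟨i, hi⟩ : ∃ i, x i < y i := by
      by_contra hc
      push Not at hc
      have : ∑ i, (y i - x i) = 0 := Finset.sum_eq_zero (fun i _ => by have := hc i; omega)
      omega
    set y' := Function.update y i (y i - 1) with hy'
    have hy'i : y' i = y i - 1 := by simp [hy']
    have hy'o : ∀ j, j ≠ i → y' j = y j := fun j hj => by simp [hy', hj]
    have hyy : y' + Pi.single i 1 = y := by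
      funext j
      by_cases hj : j = i
      · subst hj; simp [hy'i]; omega
      · simp [hy'o j hj, Pi.single_eq_of_ne hj]
    have hxy' : x ≤ y' := by
      intro j
      by_cases hj : j = i
      · rw [hj, hy'i]; show x i ≤ y i - 1; omega
      · rw [hy'o j hj]; exact hxy j
    have h1 := ih y' hxy' (by
      rw [← Finset.sum_erase_add _ _ (mem_univ i)] at hn ⊢
      have : ∑ j ∈ univ.erase i, (y' j - x j) = ∑ j ∈ univ.erase i, (y j - x j) :=
        Finset.sum_congr rfl (fun j hj => by rw [hy'o j (Finset.ne_of_mem_erase hj)])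
      rw [this, hy'i]
      omega)
    have h2 := Cost.step i h1
    rw [hyy] at h2
    refine Cost.mono h2 ?_
    have h3 : G (q * ar y' i) ≤ G (q * ar x i) := by
      apply hG.anti _ _ (by positivity)
      apply mul_le_mul_of_nonneg_left _ hq
      exact_mod_cast ar_mono hxy' i
    have h4 : ∑ j, ((y j : ℝ) - x j) * G (q * ar x j)
        = ∑ j, ((y' j : ℝ) - x j) * G (q * ar x j) + G (q * ar x i) := by
      rw [← Finset.sum_erase_add _ _ (mem_univ i), ← Finset.sum_erase_add _ (fun j => ((y' j : ℝ) - x j) * G (q * ar x j)) (mem_univ i)]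
      have : ∑ j ∈ univ.erase i, ((y' j : ℝ) - x j) * G (q * ar x j)
          = ∑ j ∈ univ.erase i, ((y j : ℝ) - x j) * G (q * ar x j) :=
        Finset.sum_congr rfl (fun j hj => by rw [hy'o j (Finset.ne_of_mem_erase hj)])
      rw [this, hy'i, Nat.cast_sub (by omega : 1 ≤ y i)]
      push_cast
      ring
    rw [h4]
    linarith

theorem cost_up' (hG : GoodG G Lip) (hq : 0 ≤ q) {x y : Fin 3 → ℕ} {w : ℝ} (h : Cost G q x w)
    (hxy : x ≤ y) : Cost G q y (w + ∑ i, ((y i : ℝ) - x i) * G (q * ar x i)) :=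
  cost_up hG hq h _ y hxy rfl

theorem cost_exists (hG : GoodG G Lip) (hq : 0 ≤ q) (x : Fin 3 → ℕ) :
    Cost G q x (∑ i, (x i : ℝ) * G 0) := by
  have h := cost_up' hG hq (Cost.zero (G := G) (q := q)) (fun i => Nat.zero_le (x i))
  have : ∀ i, ar (0 : Fin 3 → ℕ) i = 0 := by
    intro i; fin_cases i <;> rfl
  simpa [this] using h

theorem cost_merge (hG : GoodG G Lip) (hq : 0 ≤ q) {x1 x2 x : Fin 3 → ℕ} {w1 w2 : ℝ}
    (h1 : Cost G q x1 w1) (h2 : Cost G q x2 w2) (hx1 : x1 ≤ x) (hx2 : x2 ≤ x)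
    (hx : ∀ i, x i ≤ x1 i + x2 i + 1) : Cost G q x (w1 + w2 + 3 * G 0) := by
  set v : Fin 3 → ℕ := fun i => x i - x2 i with hv
  have hvx : ∀ i, v i + x2 i = x i := fun i => by have : x2 i ≤ x i := hx2 i; simp only [hv]; omega
  have hv1 : ∀ i, v i ≤ x1 i + 1 := fun i => by have := hx i; simp only [hv]; omega
  have key : ∀ y w, Cost G q y w → Cost G q (x1 ⊔ (y + v)) (w1 + w + 3 * G 0) := by
    intro y w h
    induction h with
    | zero =>
      have h3 := cost_up' hG hq h1 (y := x1 ⊔ (0 + v)) le_sup_left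
      refine Cost.mono h3 ?_
      have : ∑ i, ((((x1 ⊔ (0 + v)) i : ℕ) : ℝ) - x1 i) * G (q * ar x1 i) ≤ ∑ _i : Fin 3, G 0 := by
        apply Finset.sum_le_sum
        intro i _
        have e1 : (((x1 ⊔ (0 + v)) i : ℕ) : ℝ) - x1 i ≤ 1 := by
          have : (x1 ⊔ (0 + v)) i ≤ x1 i + 1 := by
            show max (x1 i) (0 + v i) ≤ _
            have := hv1 i
            omega
          have : (((x1 ⊔ (0 + v)) i : ℕ) : ℝ) ≤ x1 i + 1 := by exact_mod_cast this
          linarith
        have e2 : G (q * ar x1 i) ≤ G 0 := hG.anti _ _ le_rfl (by positivity)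
        have e3 : 0 ≤ G (q * ar x1 i) := hG.nonneg _ (by positivity)
        nlinarith
      rw [Finset.sum_const, Finset.card_univ, Fintype.card_fin] at this
      simp only [nsmul_eq_mul] at this
      push_cast at this
      linarith
    | @step y w i _ ih =>
      by_cases hc : x1 i ≤ y i + v i
      · have e1 : x1 ⊔ (y + Pi.single i 1 + v) = x1 ⊔ (y + v) + Pi.single i 1 := by
          funext j
          show max (x1 j) (y j + (Pi.single i 1 : Fin 3 → ℕ) j + v j) = max (x1 j) (y j + v j) + (Pi.single i 1 : Fin 3 → ℕ) j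
          by_cases hj : j = i
          · subst hj
            rw [Pi.single_eq_same]
            omega
          · rw [Pi.single_eq_of_ne hj]; simp
        rw [e1]
        have h3 := Cost.step i ih
        refine Cost.mono h3 ?_
        have e2 : G (q * ar (x1 ⊔ (y + v)) i) ≤ G (q * ar y i) := by
          apply hG.anti _ _ (by positivity)
          apply mul_le_mul_of_nonneg_left _ hq
          exact_mod_cast ar_mono (x := y) (y := x1 ⊔ (y + v)) (fun j => le_trans (Nat.le_add_right (y j) (v j)) (le_max_right _ _)) i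
        linarith
      · have e1 : x1 ⊔ (y + Pi.single i 1 + v) = x1 ⊔ (y + v) := by
          funext j
          show max (x1 j) (y j + (Pi.single i 1 : Fin 3 → ℕ) j + v j) = max (x1 j) (y j + v j)
          by_cases hj : j = i
          · subst hj
            rw [Pi.single_eq_same]
            omega
          · rw [Pi.single_eq_of_ne hj]; simp
        rw [e1]
        refine Cost.mono ih ?_
        have : 0 ≤ G (q * ar y i) := hG.nonneg _ (by positivity)
        linarith
    | mono _ h ih => exact Cost.mono ih (by linarith)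
  have h3 := key x2 w2 h2
  have e : x1 ⊔ (x2 + v) = x := by
    funext j
    show max (x1 j) (x2 j + v j) = x j
    have g1 := hvx j
    have g2 : x1 j ≤ x j := hx1 j
    omega
  rwa [e] at h3

theorem fin3_third (i j : Fin 3) : ∃ l, l ≠ i ∧ l ≠ j := by revert i j; decide

theorem fin3_all (i j l k : Fin 3) (h1 : i ≠ j) (h2 : l ≠ i) (h3 : l ≠ j) :
    k = j ∨ k = i ∨ k = l := by revert i j l k; decide

theorem fin3_cases (j : Fin 3) : j = 0 ∨ j = 1 ∨ j = 2 := by revert j; decide

/-! ### The optimal cost -/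

/-- the optimal cost -/
noncomputable def cst (G : ℝ → ℝ) (q : ℝ) (x : Fin 3 → ℕ) : ℝ := sInf {w | Cost G q x w}

theorem cst_bdd (hG : GoodG G Lip) (hq : 0 ≤ q) (x : Fin 3 → ℕ) : BddBelow {w | Cost G q x w} :=
  ⟨0, fun _ hw => Cost.nonneg hG hq hw⟩

theorem cst_le (hG : GoodG G Lip) (hq : 0 ≤ q) {x : Fin 3 → ℕ} {w : ℝ} (h : Cost G q x w) :
    cst G q x ≤ w := csInf_le (cst_bdd hG hq x) h

theorem le_cst (hG : GoodG G Lip) (hq : 0 ≤ q) {x : Fin 3 → ℕ} {c : ℝ}
    (h : ∀ w, Cost G q x w → c ≤ w) : c ≤ cst G q x :=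
  le_csInf ⟨_, cost_exists hG hq x⟩ h

theorem cst_nonneg (hG : GoodG G Lip) (hq : 0 ≤ q) (x : Fin 3 → ℕ) : 0 ≤ cst G q x :=
  le_cst hG hq (fun _ hw => Cost.nonneg hG hq hw)

theorem cst_le_sum (hG : GoodG G Lip) (hq : 0 ≤ q) (x : Fin 3 → ℕ) :
    cst G q x ≤ ∑ i, (x i : ℝ) * G 0 := cst_le hG hq (cost_exists hG hq x)

theorem cst_up (hG : GoodG G Lip) (hq : 0 ≤ q) {x y : Fin 3 → ℕ} (hxy : x ≤ y) :
    cst G q y ≤ cst G q x + ∑ i, ((y i : ℝ) - x i) * G (q * ar x i) := by
  have : cst G q y - ∑ i, ((y i : ℝ) - x i) * G (q * ar x i) ≤ cst G q x := by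
    apply le_cst hG hq
    intro w hw
    have := cst_le hG hq (cost_up' hG hq hw hxy)
    linarith
  linarith

theorem cst_merge (hG : GoodG G Lip) (hq : 0 ≤ q) {x1 x2 x : Fin 3 → ℕ}
    (hx1 : x1 ≤ x) (hx2 : x2 ≤ x) (hx : ∀ i, x i ≤ x1 i + x2 i + 1) :
    cst G q x ≤ cst G q x1 + cst G q x2 + 3 * G 0 := by
  have : cst G q x - cst G q x2 - 3 * G 0 ≤ cst G q x1 := by
    apply le_cst hG hq
    intro w1 hw1
    have : cst G q x - w1 - 3 * G 0 ≤ cst G q x2 := by
      apply le_cst hG hq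
      intro w2 hw2
      have := cst_le hG hq (cost_merge hG hq hw1 hw2 hx1 hx2 hx)
      linarith
    linarith
  linarith

/-! ### The potential -/

/-- potential of a sorted triple -/
noncomputable def Ps (G : ℝ → ℝ) (q : ℝ) (a b c : ℕ) : ℝ :=
  3 * ∑ k ∈ range c, G (q * ((k : ℝ) * k)) + 2 * ∑ k ∈ Ico c b, G (q * ((c : ℝ) * k))
    + ((a : ℝ) - b) * G (q * ((b : ℝ) * c))

theorem tele (hG : GoodG G Lip) {x h : ℝ} (hx : 0 ≤ x) (hh : 0 ≤ h) (n : ℕ) :
    G x - G (x + n * h) ≤ n * (G x - G (x + h)) := by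
  induction n with
  | zero => simp
  | succ n ih =>
    have := hG.conv x (x + n * h) h hx (by nlinarith [mul_nonneg (Nat.cast_nonneg (α := ℝ) n) hh]) hh
    rw [show x + n * h + h = x + ((n + 1 : ℕ) : ℝ) * h by push_cast; ring] at this
    push_cast at *
    linarith

theorem psA (a b c : ℕ) : Ps G q (a + 1) b c = Ps G q a b c + G (q * ((b : ℝ) * c)) := by
  unfold Ps
  push_cast
  ring

theorem psB (hG : GoodG G Lip) (hq : 0 ≤ q) {a b c M : ℕ} (hcb : c ≤ b) (hba : b < a)
    (hcM : c ≤ M) (hL : 0 ≤ Lip) :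
    Ps G q a (b + 1) c ≤ Ps G q a b c + G (q * ((a : ℝ) * c)) + 2 * Lip * q * M := by
  have e1 : Ps G q a (b + 1) c - Ps G q a b c
      = G (q * ((b : ℝ) * c)) + (G (q * ((b : ℝ) * c)) - G (q * (((b + 1 : ℕ) : ℝ) * c)))
        - ((a : ℝ) - b) * (G (q * ((b : ℝ) * c)) - G (q * (((b + 1 : ℕ) : ℝ) * c))) := by
    unfold Ps
    rw [Finset.sum_Ico_succ_top hcb, show q * ((c : ℝ) * b) = q * ((b : ℝ) * c) by ring]
    push_cast
    ring
  have hqc : 0 ≤ q * (c : ℝ) := by positivity
  have e2 := tele hG (x := q * ((b : ℝ) * c)) (h := q * c) (by positivity) hqc (a - b)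
  have e3 : q * ((b : ℝ) * c) + ((a - b : ℕ) : ℝ) * (q * c) = q * ((a : ℝ) * c) := by
    rw [Nat.cast_sub hba.le]; ring
  have e4 : q * ((b : ℝ) * c) + q * c = q * (((b + 1 : ℕ) : ℝ) * c) := by push_cast; ring
  rw [e3, e4, Nat.cast_sub hba.le] at e2
  have e5 := hG.lip (q * ((b : ℝ) * c)) (q * (((b + 1 : ℕ) : ℝ) * c)) (by positivity) (by
    rw [← e4]; linarith)
  have e6 : Lip * (q * (((b + 1 : ℕ) : ℝ) * c) - q * ((b : ℝ) * c)) ≤ 2 * Lip * q * M := by
    have : q * (((b + 1 : ℕ) : ℝ) * c) - q * ((b : ℝ) * c) = q * c := by push_cast; ring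
    rw [this]
    have hc' : (c : ℝ) ≤ M := by exact_mod_cast hcM
    have : Lip * q * c ≤ Lip * q * M := mul_le_mul_of_nonneg_left hc' (by positivity)
    have : 0 ≤ Lip * q * M := by positivity
    linarith
  linarith

theorem psC (hG : GoodG G Lip) (hq : 0 ≤ q) {a b c M : ℕ} (hcb : c < b) (hba : b ≤ a)
    (hbM : b ≤ M) (hL : 0 ≤ Lip) :
    Ps G q a b (c + 1) ≤ Ps G q a b c + G (q * ((a : ℝ) * b)) + 2 * Lip * q * M := by
  set D : ℕ → ℝ := fun k => G (q * ((c : ℝ) * k)) - G (q * (((c + 1 : ℕ) : ℝ) * k)) with hD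
  have e1 : Ps G q a b (c + 1) - Ps G q a b c
      = G (q * ((c : ℝ) * c)) - 2 * ∑ k ∈ Ico (c + 1) b, D k - ((a : ℝ) - b) * D b := by
    unfold Ps
    rw [Finset.sum_range_succ, Finset.sum_eq_sum_Ico_succ_bot hcb]
    simp only [hD]
    rw [Finset.sum_sub_distrib, show q * ((b : ℝ) * c) = q * ((c : ℝ) * b) by ring,
      show q * ((b : ℝ) * ((c + 1 : ℕ) : ℝ)) = q * (((c + 1 : ℕ) : ℝ) * b) by ring]
    ring
  have hDle : ∀ k : ℕ, k ≤ M → D k ≤ Lip * q * M := by
    intro k hk
    have hk' : (k : ℝ) ≤ M := by exact_mod_cast hk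
    have h1 : q * (((c + 1 : ℕ) : ℝ) * k) - q * ((c : ℝ) * k) = q * k := by push_cast; ring
    have h2 := hG.lip (q * ((c : ℝ) * k)) (q * (((c + 1 : ℕ) : ℝ) * k)) (by positivity) (by
      have : 0 ≤ q * (k : ℝ) := by positivity
      linarith)
    rw [h1] at h2
    have : Lip * (q * k) ≤ Lip * q * M := by
      rw [← mul_assoc]
      exact mul_le_mul_of_nonneg_left hk' (by positivity)
    exact h2.trans this
  -- first: from b*b to a*b
  have hqb : 0 ≤ q * (b : ℝ) := by positivity
  have e2 := tele hG (x := q * ((b : ℝ) * b)) (h := q * b) (by positivity) hqb (a - b)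
  have e3 : q * ((b : ℝ) * b) + ((a - b : ℕ) : ℝ) * (q * b) = q * ((a : ℝ) * b) := by
    rw [Nat.cast_sub hba]; ring
  rw [e3, Nat.cast_sub hba] at e2
  have hcb' : (c : ℝ) ≤ b := by exact_mod_cast hcb.le
  have hab' : (0:ℝ) ≤ (a : ℝ) - b := by
    have : (b : ℝ) ≤ a := by exact_mod_cast hba
    linarith
  have e4 : G (q * ((b : ℝ) * b)) - G (q * ((b : ℝ) * b) + q * b) ≤ D b := by
    have := hG.conv (q * ((c : ℝ) * b)) (q * ((b : ℝ) * b)) (q * b) (by positivity)
      (by apply mul_le_mul_of_nonneg_left _ hq; nlinarith) hqb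
    rw [show q * ((c : ℝ) * b) + q * b = q * (((c + 1 : ℕ) : ℝ) * b) by push_cast; ring] at this
    exact this
  have e5 : G (q * ((b : ℝ) * b)) - G (q * ((a : ℝ) * b)) ≤ ((a : ℝ) - b) * D b :=
    e2.trans (mul_le_mul_of_nonneg_left e4 hab')
  -- second: from c*c to b*b
  have e6 : ∀ b' : ℕ, c + 1 ≤ b' → G (q * ((c : ℝ) * c)) - G (q * ((b' : ℝ) * b'))
      ≤ 2 * ∑ k ∈ Ico (c + 1) b', D k + D c + D b' := by
    intro b' hb'
    induction b', hb' using Nat.le_induction with
    | base =>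
      rw [Finset.Ico_self, Finset.sum_empty]
      have : D c + D (c+1) = G (q * ((c : ℝ) * c)) - G (q * (((c + 1 : ℕ) : ℝ) * ((c + 1 : ℕ) : ℝ))) := by
        simp only [hD]
        rw [show q * ((c : ℝ) * ((c + 1 : ℕ) : ℝ)) = q * (((c + 1 : ℕ) : ℝ) * c) by ring]
        ring
      linarith
    | succ n hn ih =>
      rw [Finset.sum_Ico_succ_top hn]
      have hcn : (c : ℝ) ≤ n := by exact_mod_cast (by omega : c ≤ n)
      have g1 : G (q * ((n : ℝ) * n)) - G (q * ((n : ℝ) * n) + q * n) ≤ D n := by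
        have := hG.conv (q * ((c : ℝ) * n)) (q * ((n : ℝ) * n)) (q * n) (by positivity)
          (by apply mul_le_mul_of_nonneg_left _ hq; nlinarith) (by positivity)
        rw [show q * ((c : ℝ) * n) + q * n = q * (((c + 1 : ℕ) : ℝ) * n) by push_cast; ring] at this
        exact this
      have g2 : G (q * ((n : ℝ) * n) + q * n) - G (q * (((n + 1 : ℕ) : ℝ) * ((n + 1 : ℕ) : ℝ))) ≤ D (n + 1) := by
        have := hG.conv (q * ((c : ℝ) * ((n + 1 : ℕ) : ℝ))) (q * ((n : ℝ) * ((n + 1 : ℕ) : ℝ)))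
          (q * ((n + 1 : ℕ) : ℝ)) (by positivity)
          (by apply mul_le_mul_of_nonneg_left _ hq; exact mul_le_mul_of_nonneg_right hcn (by positivity)) (by positivity)
        rw [show q * ((c : ℝ) * ((n + 1 : ℕ) : ℝ)) + q * ((n + 1 : ℕ) : ℝ) = q * (((c + 1 : ℕ) : ℝ) * ((n + 1 : ℕ) : ℝ)) by push_cast; ring,
          show q * ((n : ℝ) * ((n + 1 : ℕ) : ℝ)) + q * ((n + 1 : ℕ) : ℝ) = q * (((n + 1 : ℕ) : ℝ) * ((n + 1 : ℕ) : ℝ)) by push_cast; ring,
          show q * ((n : ℝ) * ((n + 1 : ℕ) : ℝ)) = q * ((n : ℝ) * n) + q * n by push_cast; ring] at this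
        exact this
      linarith
  have e7 := e6 b hcb
  have e8 := hDle c (by omega)
  have e9 := hDle b hbM
  linarith

/-- sorted values -/
def mxx (u v w : ℕ) : ℕ := max u (max v w)
def mdd (u v w : ℕ) : ℕ := max (min u v) (min (max u v) w)
def mnn (u v w : ℕ) : ℕ := min u (min v w)

/-- potential of a triple -/
noncomputable def Psy (G : ℝ → ℝ) (q : ℝ) (u v w : ℕ) : ℝ :=
  Ps G q (mxx u v w) (mdd u v w) (mnn u v w)

theorem Psy_swap1 (u v w : ℕ) : Psy G q u v w = Psy G q v u w := by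
  unfold Psy
  rw [show mxx u v w = mxx v u w by unfold mxx; omega,
    show mdd u v w = mdd v u w by unfold mdd; omega,
    show mnn u v w = mnn v u w by unfold mnn; omega]

theorem Psy_swap2 (u v w : ℕ) : Psy G q u v w = Psy G q u w v := by
  unfold Psy
  rw [show mxx u v w = mxx u w v by unfold mxx; omega,
    show mdd u v w = mdd u w v by unfold mdd; omega,
    show mnn u v w = mnn u w v by unfold mnn; omega]

theorem Psy_sorted {a b c : ℕ} (h1 : c ≤ b) (h2 : b ≤ a) : Psy G q a b c = Ps G q a b c := by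
  unfold Psy
  rw [show mxx a b c = a by unfold mxx; omega,
    show mdd a b c = b by unfold mdd; omega,
    show mnn a b c = c by unfold mnn; omega]

theorem Psy_step (hG : GoodG G Lip) (hq : 0 ≤ q) (hL : 0 ≤ Lip) {u v w M : ℕ}
    (hv : v ≤ M) (hw : w ≤ M) :
    Psy G q (u + 1) v w ≤ Psy G q u v w + G (q * ((v : ℝ) * w)) + 2 * Lip * q * M := by
  have herr : 0 ≤ 2 * Lip * q * M := by positivity
  have main : ∀ v w : ℕ, v ≤ M → w ≤ M → w ≤ v →
      Psy G q (u + 1) v w ≤ Psy G q u v w + G (q * ((v : ℝ) * w)) + 2 * Lip * q * M := by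
    intro v w hv hw hwv
    by_cases h1 : v ≤ u
    · rw [Psy_sorted hwv (by omega), Psy_sorted hwv h1, psA]
      linarith
    · by_cases h2 : w ≤ u
      · rw [Psy_swap1 (u+1) v w, Psy_swap1 u v w, Psy_sorted (by omega) (by omega), Psy_sorted h2 (by omega)]
        exact psB hG hq h2 (by omega) hw hL
      · rw [Psy_swap1 (u+1) v w, Psy_swap1 u v w, Psy_swap2 v (u+1) w, Psy_swap2 v u w,
          Psy_sorted (by omega) (by omega), Psy_sorted (by omega) (by omega)]
        exact psC hG hq (by omega) hwv hw hL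
  rcases le_total w v with h | h
  · exact main v w hv hw h
  · rw [Psy_swap2 (u+1) v w, Psy_swap2 u v w, mul_comm (v : ℝ) (w : ℝ)]
    exact main w v hw hv h

theorem ar0 (x : Fin 3 → ℕ) : ar x 0 = x 1 * x 2 := by
  unfold ar
  rw [show (univ.erase 0 : Finset (Fin 3)) = {1, 2} by decide, Finset.prod_pair (by decide)]

theorem ar1 (x : Fin 3 → ℕ) : ar x 1 = x 0 * x 2 := by
  unfold ar
  rw [show (univ.erase 1 : Finset (Fin 3)) = {0, 2} by decide, Finset.prod_pair (by decide)]

theorem ar2 (x : Fin 3 → ℕ) : ar x 2 = x 0 * x 1 := by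
  unfold ar
  rw [show (univ.erase 2 : Finset (Fin 3)) = {0, 1} by decide, Finset.prod_pair (by decide)]

theorem path_lb (hG : GoodG G Lip) (hq : 0 ≤ q) (hL : 0 ≤ Lip) {M : ℕ} {x : Fin 3 → ℕ} {w : ℝ}
    (h : Cost G q x w) (hM : ∀ i, x i ≤ M) :
    Psy G q (x 0) (x 1) (x 2) ≤ w + 2 * Lip * q * M * ((x 0 : ℝ) + x 1 + x 2) := by
  induction h with
  | zero => simp [Psy, Ps, mxx, mdd, mnn]
  | @step x w i _ ih =>
    have hM' : ∀ j, x j ≤ M := fun j => le_trans (by
      show x j ≤ x j + (Pi.single i 1 : Fin 3 → ℕ) j; omega) (hM j)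
    have ih' := ih hM'
    rcases fin3_cases i with rfl | rfl | rfl
    · have s1 := Psy_step hG hq hL (u := x 0) (hM' 1) (hM' 2)
      have a0 : (x + Pi.single 0 1 : Fin 3 → ℕ) 0 = x 0 + 1 := by simp
      have a1 : (x + Pi.single 0 1 : Fin 3 → ℕ) 1 = x 1 := by simp
      have a2 : (x + Pi.single 0 1 : Fin 3 → ℕ) 2 = x 2 := by simp
      rw [a0, a1, a2, ar0]
      push_cast at *
      linarith
    · have s1 := Psy_step hG hq hL (u := x 1) (hM' 0) (hM' 2)
      have a0 : (x + Pi.single 1 1 : Fin 3 → ℕ) 0 = x 0 := by simp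
      have a1 : (x + Pi.single 1 1 : Fin 3 → ℕ) 1 = x 1 + 1 := by simp
      have a2 : (x + Pi.single 1 1 : Fin 3 → ℕ) 2 = x 2 := by simp
      rw [a0, a1, a2, ar1, Psy_swap1 _ (x 1 + 1)]
      rw [Psy_swap1 (x 0)] at ih'
      push_cast at *
      linarith
    · have s1 := Psy_step hG hq hL (u := x 2) (hM' 0) (hM' 1)
      have a0 : (x + Pi.single 2 1 : Fin 3 → ℕ) 0 = x 0 := by simp
      have a1 : (x + Pi.single 2 1 : Fin 3 → ℕ) 1 = x 1 := by simp
      have a2 : (x + Pi.single 2 1 : Fin 3 → ℕ) 2 = x 2 + 1 := by simp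
      rw [a0, a1, a2, ar2, Psy_swap2 _ _ (x 2 + 1), Psy_swap1 _ (x 2 + 1)]
      rw [Psy_swap2 (x 0), Psy_swap1 (x 0)] at ih'
      push_cast at *
      linarith
  | mono _ h ih => exact (ih hM).trans (by linarith)

theorem Ps_ge1 (hG : GoodG G Lip) (hq : 0 ≤ q) {a b c K : ℕ} (h : K ≤ c) (hba : b ≤ a) :
    3 * ∑ k ∈ range K, G (q * ((k : ℝ) * k)) ≤ Ps G q a b c := by
  unfold Ps
  have h1 : ∑ k ∈ range K, G (q * ((k : ℝ) * k)) ≤ ∑ k ∈ range c, G (q * ((k : ℝ) * k)) :=
    Finset.sum_le_sum_of_subset_of_nonneg (Finset.range_subset_range.2 h)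
      (fun k _ _ => hG.nonneg _ (by positivity))
  have h2 : 0 ≤ ∑ k ∈ Ico c b, G (q * ((c : ℝ) * k)) :=
    Finset.sum_nonneg (fun k _ => hG.nonneg _ (by positivity))
  have h3 : 0 ≤ ((a : ℝ) - b) * G (q * ((b : ℝ) * c)) := by
    apply mul_nonneg _ (hG.nonneg _ (by positivity))
    have : (b : ℝ) ≤ a := by exact_mod_cast hba
    linarith
  linarith

theorem Ps_ge2 (hG : GoodG G Lip) (hq : 0 ≤ q) {a b c K A : ℕ} (hA : A ≤ a) (hb : b ≤ K)
    (hc : c ≤ K) (hKA : K ≤ A) :
    ((A : ℝ) - K) * G (q * ((K : ℝ) * K)) ≤ Ps G q a b c := by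
  unfold Ps
  have h1 : 0 ≤ ∑ k ∈ range c, G (q * ((k : ℝ) * k)) :=
    Finset.sum_nonneg (fun k _ => hG.nonneg _ (by positivity))
  have h2 : 0 ≤ ∑ k ∈ Ico c b, G (q * ((c : ℝ) * k)) :=
    Finset.sum_nonneg (fun k _ => hG.nonneg _ (by positivity))
  have hA' : (A : ℝ) ≤ a := by exact_mod_cast hA
  have hb' : (b : ℝ) ≤ K := by exact_mod_cast hb
  have hc' : (c : ℝ) ≤ K := by exact_mod_cast hc
  have hKA' : (K : ℝ) ≤ A := by exact_mod_cast hKA
  have h3 : G (q * ((K : ℝ) * K)) ≤ G (q * ((b : ℝ) * c)) := by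
    apply hG.anti _ _ (by positivity)
    apply mul_le_mul_of_nonneg_left _ hq
    exact mul_le_mul hb' hc' (by positivity) (by positivity)
  have h4 : 0 ≤ G (q * ((K : ℝ) * K)) := hG.nonneg _ (by positivity)
  have h5 : ((A : ℝ) - K) * G (q * ((K : ℝ) * K)) ≤ ((a : ℝ) - b) * G (q * ((b : ℝ) * c)) :=
    mul_le_mul (by linarith) h3 h4 (by linarith)
  linarith

/-- the lower bound for the cost of a long box -/
theorem cst_lb (hG : GoodG G Lip) (hq : 0 ≤ q) (hL : 0 ≤ Lip) {M K A : ℕ} {x : Fin 3 → ℕ}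
    (hM : ∀ i, x i ≤ M) (hKM : K ≤ M) (hKA : K < A) (hA : ∃ j, A ≤ x j)
    (hbig : 3 * ∑ k ∈ range K, G (q * ((k : ℝ) * k)) ≤ ((A : ℝ) - K) * G (q * ((K : ℝ) * K))) :
    3 * ∑ k ∈ range K, G (q * ((k : ℝ) * k))
      ≤ cst G q x + K * G (q * ((A : ℝ) * K)) + 6 * Lip * q * M ^ 2 := by
  have hsumM : ∀ y : Fin 3 → ℕ, (∀ i, y i ≤ M) →
      2 * Lip * q * M * ((y 0 : ℝ) + y 1 + y 2) ≤ 6 * Lip * q * M ^ 2 := by
    intro y hy
    have h0 : (y 0 : ℝ) ≤ M := by exact_mod_cast hy 0
    have h1 : (y 1 : ℝ) ≤ M := by exact_mod_cast hy 1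
    have h2 : (y 2 : ℝ) ≤ M := by exact_mod_cast hy 2
    have h3 : 0 ≤ 2 * Lip * q * M := by positivity
    nlinarith [mul_le_mul_of_nonneg_left (by linarith : (y 0 : ℝ) + y 1 + y 2 ≤ 3 * M) h3]
  have hK0 : 0 ≤ (K : ℝ) * G (q * ((A : ℝ) * K)) := mul_nonneg (by positivity) (hG.nonneg _ (by positivity))
  -- all coordinates at least K
  have case1 : ∀ (y : Fin 3 → ℕ) (w : ℝ), Cost G q y w → (∀ i, y i ≤ M) → (∀ i, K ≤ y i) →
      3 * ∑ k ∈ range K, G (q * ((k : ℝ) * k)) ≤ w + 6 * Lip * q * M ^ 2 := by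
    intro y w hw hyM hyK
    have h1 := path_lb hG hq hL hw hyM
    have h2 := hsumM y hyM
    have g0 := hyK 0
    have g1 := hyK 1
    have g2 := hyK 2
    have h3 : 3 * ∑ k ∈ range K, G (q * ((k : ℝ) * k)) ≤ Psy G q (y 0) (y 1) (y 2) := by
      unfold Psy
      apply Ps_ge1 hG hq
      · unfold mnn; omega
      · unfold mdd mxx; omega
    linarith
  have key : ∀ w, Cost G q x w → 3 * ∑ k ∈ range K, G (q * ((k : ℝ) * k))
      - K * G (q * ((A : ℝ) * K)) - 6 * Lip * q * M ^ 2 ≤ w := by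
    intro w hw
    by_cases hall : ∀ i, K ≤ x i
    · have := case1 x w hw hM hall
      linarith
    · by_cases htwo : ∃ i, ∀ j, j ≠ i → K ≤ x j
      · obtain ⟨i, hi⟩ := htwo
        have hxi : x i < K := by
          by_contra h
          apply hall
          intro j
          by_cases hj : j = i
          · rw [hj]; omega
          · exact hi j hj
        set y := Function.update x i K with hy
        have hyi : y i = K := by simp [hy]
        have hyo : ∀ j, j ≠ i → y j = x j := fun j hj => by simp [hy, hj]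
        have hxy : x ≤ y := by
          intro j
          by_cases hj : j = i
          · rw [hj, hyi]; exact hxi.le
          · rw [hyo j hj]
        have h1 := cost_up' hG hq hw hxy
        have h2 := case1 y _ h1 (fun j => by
          by_cases hj : j = i
          · rw [hj, hyi]; exact hKM
          · rw [hyo j hj]; exact hM j) (fun j => by
          by_cases hj : j = i
          · rw [hj, hyi]
          · rw [hyo j hj]; exact hi j hj)
        have h3 : ∑ j, ((y j : ℝ) - x j) * G (q * ar x j) ≤ K * G (q * ((A : ℝ) * K)) := by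
          rw [← Finset.sum_erase_add _ _ (mem_univ i)]
          have e1 : ∑ j ∈ univ.erase i, ((y j : ℝ) - x j) * G (q * ar x j) = 0 := by
            apply Finset.sum_eq_zero
            intro j hj
            rw [hyo j (Finset.ne_of_mem_erase hj)]; ring
          rw [e1, zero_add, hyi]
          have e2 : A * K ≤ ar x i := by
            obtain ⟨j, hj⟩ := hA
            have hji : j ≠ i := by rintro rfl; omega
            unfold ar
            obtain ⟨l, hl1, hl2⟩ := fin3_third i j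
            rw [← Finset.mul_prod_erase _ _ (Finset.mem_erase.2 ⟨hji, mem_univ j⟩),
              ← Finset.mul_prod_erase _ _ (Finset.mem_erase.2 ⟨hl2, Finset.mem_erase.2 ⟨hl1, mem_univ l⟩⟩)]
            have e3 : (((univ.erase i).erase j).erase l : Finset (Fin 3)) = ∅ := by
              rw [← Finset.card_eq_zero, Finset.card_erase_of_mem (Finset.mem_erase.2 ⟨hl2, Finset.mem_erase.2 ⟨hl1, mem_univ l⟩⟩),
                Finset.card_erase_of_mem (Finset.mem_erase.2 ⟨hji, mem_univ j⟩), Finset.card_erase_of_mem (mem_univ i)]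
              rfl
            rw [e3, Finset.prod_empty, mul_one]
            exact Nat.mul_le_mul hj (hi l hl1)
          have e4 : G (q * ar x i) ≤ G (q * ((A : ℝ) * K)) := by
            apply hG.anti _ _ (by positivity)
            apply mul_le_mul_of_nonneg_left _ hq
            exact_mod_cast e2
          have e5 : 0 ≤ G (q * ar x i) := hG.nonneg _ (by positivity)
          have e6 : (0:ℝ) ≤ x i := by positivity
          have e7 : (0:ℝ) ≤ K := by positivity
          calc ((K : ℝ) - x i) * G (q * ar x i) ≤ K * G (q * ar x i) :=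
                mul_le_mul_of_nonneg_right (by linarith) e5
            _ ≤ K * G (q * ((A : ℝ) * K)) := mul_le_mul_of_nonneg_left e4 e7
        linarith
      · -- at most one coordinate is at least K
        push Not at htwo
        have h1 := path_lb hG hq hL hw hM
        have h2 := hsumM x hM
        obtain ⟨j, hj⟩ := hA
        obtain ⟨i, hij, hi⟩ := htwo j
        obtain ⟨l, hlj, hl⟩ := htwo i
        have hlj' : l ≠ j := by rintro rfl; omega
        have h3 : ((A : ℝ) - K) * G (q * ((K : ℝ) * K)) ≤ Psy G q (x 0) (x 1) (x 2) := by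
          unfold Psy
          have hall : ∀ k, k = j ∨ k = i ∨ k = l := fun k => fin3_all i j l k hij hlj hlj'
          have hb : mdd (x 0) (x 1) (x 2) ≤ K ∧ A ≤ mxx (x 0) (x 1) (x 2) := by
            have s : ∀ k, k = j ∨ x k < K := by
              intro k
              rcases hall k with rfl | rfl | rfl
              · exact Or.inl rfl
              · exact Or.inr hi
              · exact Or.inr hl
            have s0 := s 0
            have s1 := s 1
            have s2 := s 2
            unfold mdd mxx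
            have : j = 0 ∨ j = 1 ∨ j = 2 := fin3_cases j
            rcases this with rfl | rfl | rfl
            · have t1 : x 1 < K := s1.resolve_left (by decide)
              have t2 : x 2 < K := s2.resolve_left (by decide)
              omega
            · have t1 : x 0 < K := s0.resolve_left (by decide)
              have t2 : x 2 < K := s2.resolve_left (by decide)
              omega
            · have t1 : x 0 < K := s0.resolve_left (by decide)
              have t2 : x 1 < K := s1.resolve_left (by decide)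
              omega
          apply Ps_ge2 hG hq hb.2 hb.1 _ hKA.le
          have := hb.1
          unfold mdd at this
          unfold mnn
          omega
        linarith
  have := le_cst hG hq key
  linarith

end

end Pool.Agent.H97.BP
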