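import Pool.Agent.H97.BP.Cost

/-!
# The upper bound for the probability that a box is spanned
-/

set_option autoImplicit false

namespace Pool.Agent.H97.BP

open Finset H974

/-- probability that a box is spanned -/
noncomputable def uu (p : ℝ) (a b : Pt) : ℝ := Pr (fun _ => p) (Finset.Icc a b) (Spn a b)

/-- probability of the growth from one box to another -/
noncomputable def PD (p : ℝ) (a' b' a b : Pt) : ℝ :=
  Pr (fun _ => p) (Finset.Icc a b \ Finset.Icc a' b') (Dev a' b' a b)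

theorem Spn_mono {a b : Pt} {F F' : Finset Pt} (h : F ⊆ F') (hS : Spn a b F) : Spn a b F' :=
  hS.trans (Cl_mono (Set.inter_subset_inter_left _ (by exact_mod_cast h)))

theorem Spn_local {a b : Pt} (F : Finset Pt) (W : Finset Pt) (hW : Finset.Icc a b ⊆ W) :
    Spn a b F ↔ Spn a b (F ∩ W) := by
  have : ((F ∩ W : Finset Pt) : Set Pt) ∩ Set.Icc a b = (F : Set Pt) ∩ Set.Icc a b := by
    ext x
    simp only [Set.mem_inter_iff, Finset.mem_coe, Finset.mem_inter]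
    constructor
    · rintro ⟨⟨h1, _⟩, h2⟩; exact ⟨h1, h2⟩
    · rintro ⟨h1, h2⟩; exact ⟨⟨h1, hW (Finset.mem_Icc.2 h2)⟩, h2⟩
  unfold Spn
  rw [this]

theorem uu_eq {p : ℝ} {a b : Pt} {W : Finset Pt} (hW : Finset.Icc a b ⊆ W) :
    Pr (fun _ => p) W (Spn a b) = uu p a b := by
  unfold uu
  apply Pr_local hW
  intro F _
  exact Spn_local F _ (Finset.Subset.refl _)

theorem Dev_local {a' b' a b : Pt} {F : Finset Pt} (hF : F ⊆ Finset.Icc a b) :
    Dev a' b' a b F ↔ Dev a' b' a b (F ∩ (Finset.Icc a b \ Finset.Icc a' b')) := by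
  have : Set.Icc a' b' ∪ (F : Set Pt) = Set.Icc a' b' ∪ ((F ∩ (Finset.Icc a b \ Finset.Icc a' b') : Finset Pt) : Set Pt) := by
    ext x
    simp only [Set.mem_union, Finset.mem_coe, Finset.mem_inter, Finset.mem_sdiff]
    constructor
    · rintro (h | h)
      · exact Or.inl h
      · by_cases hx : x ∈ Set.Icc a' b'
        · exact Or.inl hx
        · exact Or.inr ⟨h, hF h, fun h' => hx (Finset.mem_Icc.1 h')⟩
    · rintro (h | ⟨h, _⟩)
      · exact Or.inl h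
      · exact Or.inr h
  unfold Dev
  rw [this]

/-- the recursive bound -/
theorem rec_bound {p : ℝ} (hp0 : 0 ≤ p) (hp1 : p ≤ 1) {a b : Pt} (hab : a ≤ b) (S T : ℤ)
    (hT : 3 < T) (hTphi : T ≤ phi a b) (X : ℝ) (hX : 0 ≤ X)
    (h1 : ∀ a1 b1 : Pt, a1 ≤ b1 → a ≤ a1 → b1 ≤ b → S ≤ phi a1 b1 → phi a1 b1 < T →
      uu p a1 b1 * PD p a1 b1 a b ≤ X)
    (h2 : ∀ a1 b1 a2 b2 : Pt, a1 ≤ b1 → a2 ≤ b2 → Near a1 b1 a2 b2 → a ≤ a1 ⊓ a2 → b1 ⊔ b2 ≤ b →
      phi a1 b1 < S → phi a2 b2 < S → T ≤ phi (a1 ⊓ a2) (b1 ⊔ b2) →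
      uu p a1 b1 * uu p a2 b2 * PD p (a1 ⊓ a2) (b1 ⊔ b2) a b ≤ X) :
    uu p a b ≤ 2 * ((Finset.Icc a b).card : ℝ) ^ 4 * X := by
  classical
  have hok := okc (E := Pt) hp0 hp1
  set R := Finset.Icc a b with hR
  set I1 : Finset (Pt × Pt) := (R ×ˢ R).filter (fun c => c.1 ≤ c.2 ∧ S ≤ phi c.1 c.2 ∧ phi c.1 c.2 < T) with hI1
  set I2 : Finset ((Pt × Pt) × (Pt × Pt)) := ((R ×ˢ R) ×ˢ (R ×ˢ R)).filter (fun c =>
    c.1.1 ≤ c.1.2 ∧ c.2.1 ≤ c.2.2 ∧ Near c.1.1 c.1.2 c.2.1 c.2.2 ∧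
    phi c.1.1 c.1.2 < S ∧ phi c.2.1 c.2.2 < S ∧ T ≤ phi (c.1.1 ⊓ c.2.1) (c.1.2 ⊔ c.2.2)) with hI2
  set E1 : Pt × Pt → Finset Pt → Prop := fun c F => Spn c.1 c.2 F ∧ Dev c.1 c.2 a b F with hE1
  set E2 : (Pt × Pt) × (Pt × Pt) → Finset Pt → Prop := fun c F =>
    DisjOcc (Spn c.1.1 c.1.2) (Spn c.2.1 c.2.2) (F ∩ Finset.Icc (c.1.1 ⊓ c.2.1) (c.1.2 ⊔ c.2.2)) ∧
    Dev (c.1.1 ⊓ c.2.1) (c.1.2 ⊔ c.2.2) a b F with hE2
  have hincl : ∀ F, F ⊆ R → Spn a b F → (∃ c ∈ I1, E1 c F) ∨ (∃ c ∈ I2, E2 c F) := by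
    intro F hF hS
    have hFI : (F : Set Pt) ⊆ Set.Icc a b := by
      intro x hx
      exact Finset.mem_Icc.1 (hF hx)
    have hFI' : (F : Set Pt) ∩ Set.Icc a b = F := Set.inter_eq_left.2 hFI
    unfold Spn at hS
    rw [hFI'] at hS
    have hCl : Cl (F : Set Pt) = Set.Icc a b :=
      Set.Subset.antisymm (Cl_min hFI (closed_Icc a b)) hS
    have hspn : ∀ (X : Finset Pt) (a1 b1 : Pt), Cl (X : Set Pt) = Set.Icc a1 b1 → Spn a1 b1 X := by
      intro X a1 b1 h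
      unfold Spn
      rw [← h]
      apply Cl_mono
      intro x hx
      exact ⟨hx, subset_Cl _ hx⟩
    have hdev : ∀ a1 b1, Dev a1 b1 a b F := by
      intro a1 b1
      unfold Dev
      exact hS.trans (Cl_mono Set.subset_union_right)
    rcases chain_lemma S T hT _ F a b rfl hab hCl hTphi with
      ⟨X, hXF, a1, b1, g1, g2, g3, g4, g5, g6⟩ |
      ⟨X, hXF, Y, hYF, hd, a1, b1, a2, b2, g1, g2, g3, g4, g5, g6, g7, g8, g9, g10⟩
    · left
      refine ⟨(a1, b1), ?_, Spn_mono hXF (hspn X a1 b1 g2), hdev a1 b1⟩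
      rw [hI1, Finset.mem_filter, Finset.mem_product, hR, Finset.mem_Icc, Finset.mem_Icc]
      exact ⟨⟨⟨g3, g1.trans g4⟩, ⟨g3.trans g1, g4⟩⟩, g1, g5, g6⟩
    · right
      have ha1 : a ≤ a1 := g6.trans inf_le_left
      have ha2 : a ≤ a2 := g6.trans inf_le_right
      have hb1 : b1 ≤ b := le_sup_left.trans g7
      have hb2 : b2 ≤ b := le_sup_right.trans g7
      refine ⟨((a1, b1), (a2, b2)), ?_, ⟨X, Y, ?_, ?_, hd, hspn X a1 b1 g3, hspn Y a2 b2 g4⟩, hdev _ _⟩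
      · rw [hI2, Finset.mem_filter, Finset.mem_product, Finset.mem_product, Finset.mem_product, hR]
        simp only [Finset.mem_Icc]
        exact ⟨⟨⟨⟨ha1, g1.trans hb1⟩, ⟨ha1.trans g1, hb1⟩⟩, ⟨⟨ha2, g2.trans hb2⟩, ⟨ha2.trans g2, hb2⟩⟩⟩,
          g1, g2, g5, g8, g9, g10⟩
      · intro x hx
        rw [Finset.mem_inter, Finset.mem_Icc]
        have : x ∈ Set.Icc a1 b1 := g3 ▸ subset_Cl _ hx
        exact ⟨hXF hx, inf_le_left.trans this.1, this.2.trans le_sup_left⟩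
      · intro x hx
        rw [Finset.mem_inter, Finset.mem_Icc]
        have : x ∈ Set.Icc a2 b2 := g4 ▸ subset_Cl _ hx
        exact ⟨hYF hx, inf_le_right.trans this.1, this.2.trans le_sup_right⟩
  have hb1 : ∀ c ∈ I1, Pr (fun _ => p) R (E1 c) ≤ X := by
    rintro ⟨a1, b1⟩ hc
    rw [hI1, Finset.mem_filter, Finset.mem_product, hR, Finset.mem_Icc, Finset.mem_Icc] at hc
    obtain ⟨⟨⟨g1, g2⟩, ⟨g3, g4⟩⟩, g5, g6, g7⟩ := hc
    have hsub : Finset.Icc a1 b1 ⊆ R := Finset.Icc_subset_Icc g1 g4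
    have e : Pr (fun _ => p) R (fun F => Spn a1 b1 F ∧ Dev a1 b1 a b F) = uu p a1 b1 * PD p a1 b1 a b := by
      have e1 := Pr_indep (p := fun _ => p) (U := R) (S := Finset.Icc a1 b1) (T := R \ Finset.Icc a1 b1) hsub
        Finset.sdiff_subset Finset.disjoint_sdiff (A := Spn a1 b1) (B := Dev a1 b1 a b)
        (fun F _ => Spn_local F _ (Finset.Subset.refl _)) (fun F hF => Dev_local hF)
      have e2 : Pr (fun _ => p) R (Dev a1 b1 a b) = PD p a1 b1 a b :=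
        Pr_local Finset.sdiff_subset (fun F hF => Dev_local hF)
      rw [e1, uu_eq hsub, e2]
    have h3 := h1 a1 b1 g5 g1 g4 g6 g7
    rw [← e] at h3
    exact h3
  have hb2 : ∀ c ∈ I2, Pr (fun _ => p) R (E2 c) ≤ X := by
    rintro ⟨⟨a1, b1⟩, ⟨a2, b2⟩⟩ hc
    rw [hI2, Finset.mem_filter, Finset.mem_product, Finset.mem_product, Finset.mem_product, hR] at hc
    simp only [Finset.mem_Icc] at hc
    obtain ⟨⟨⟨⟨g1, g2⟩, ⟨g3, g4⟩⟩, ⟨⟨g5, g6⟩, ⟨g7, g8⟩⟩⟩, g9, g10, g11, g12, g13, g14⟩ := hc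
    have hsub : Finset.Icc (a1 ⊓ a2) (b1 ⊔ b2) ⊆ R :=
      Finset.Icc_subset_Icc (le_inf g1 g5) (sup_le g4 g8)
    have hsub1 : Finset.Icc a1 b1 ⊆ Finset.Icc (a1 ⊓ a2) (b1 ⊔ b2) :=
      Finset.Icc_subset_Icc inf_le_left le_sup_left
    have hsub2 : Finset.Icc a2 b2 ⊆ Finset.Icc (a1 ⊓ a2) (b1 ⊔ b2) :=
      Finset.Icc_subset_Icc inf_le_right le_sup_right
    set R2 := Finset.Icc (a1 ⊓ a2) (b1 ⊔ b2) with hR2
    have e : Pr (fun _ => p) R (fun F => DisjOcc (Spn a1 b1) (Spn a2 b2) (F ∩ R2) ∧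
          Dev (a1 ⊓ a2) (b1 ⊔ b2) a b F)
        = Pr (fun _ => p) R2 (DisjOcc (Spn a1 b1) (Spn a2 b2)) * PD p (a1 ⊓ a2) (b1 ⊔ b2) a b := by
      have hl : ∀ F, F ⊆ R → ((fun F => DisjOcc (Spn a1 b1) (Spn a2 b2) (F ∩ R2)) F ↔
          (fun F => DisjOcc (Spn a1 b1) (Spn a2 b2) (F ∩ R2)) (F ∩ R2)) := by
        intro F _
        show DisjOcc (Spn a1 b1) (Spn a2 b2) (F ∩ R2) ↔ DisjOcc (Spn a1 b1) (Spn a2 b2) (F ∩ R2 ∩ R2)
        rw [Finset.inter_assoc F R2 R2, Finset.inter_self R2]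
      have e1 := Pr_indep (p := fun _ => p) (U := R) (S := R2) (T := R \ R2) hsub
        Finset.sdiff_subset Finset.disjoint_sdiff
        (A := fun F => DisjOcc (Spn a1 b1) (Spn a2 b2) (F ∩ R2)) (B := Dev (a1 ⊓ a2) (b1 ⊔ b2) a b)
        hl (fun F hF => Dev_local hF)
      have e2 : Pr (fun _ => p) R (Dev (a1 ⊓ a2) (b1 ⊔ b2) a b) = PD p (a1 ⊓ a2) (b1 ⊔ b2) a b :=
        Pr_local Finset.sdiff_subset (fun F hF => Dev_local hF)
      have e3 : Pr (fun _ => p) R (fun F => DisjOcc (Spn a1 b1) (Spn a2 b2) (F ∩ R2))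
          = Pr (fun _ => p) R2 (DisjOcc (Spn a1 b1) (Spn a2 b2)) := by
        rw [Pr_local (S' := R2) (A := fun F => DisjOcc (Spn a1 b1) (Spn a2 b2) (F ∩ R2)) hsub hl]
        apply Pr_congr
        intro F hF
        rw [Finset.inter_eq_left.2 hF]
      rw [e1, e2, e3]
    show Pr (fun _ => p) R (fun F => DisjOcc (Spn a1 b1) (Spn a2 b2) (F ∩ R2) ∧
          Dev (a1 ⊓ a2) (b1 ⊔ b2) a b F) ≤ X
    rw [e]
    have hbk := bk hok (S := R2) (A := Spn a1 b1) (B := Spn a2 b2)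
      (fun F G h _ hS => Spn_mono h hS) (fun F G h _ hS => Spn_mono h hS)
    rw [uu_eq hsub1, uu_eq hsub2] at hbk
    have h3 := h2 a1 b1 a2 b2 g9 g10 g11 (le_inf g1 g5) (sup_le g4 g8) g12 g13 g14
    exact (mul_le_mul_of_nonneg_right hbk (Pr_nonneg hok _ _)).trans h3
  have hcard1 : (I1.card : ℝ) ≤ (R.card : ℝ) ^ 4 := by
    have : I1.card ≤ R.card ^ 4 := by
      refine (Finset.card_filter_le _ _).trans ?_
      rw [Finset.card_product]
      have hRpos : 1 ≤ R.card := Finset.card_pos.2 ⟨a, by rw [hR, Finset.mem_Icc]; exact ⟨le_rfl, hab⟩⟩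
      calc R.card * R.card = R.card ^ 2 := by ring
        _ ≤ R.card ^ 4 := Nat.pow_le_pow_right hRpos (by norm_num)
    exact_mod_cast this
  have hcard2 : (I2.card : ℝ) ≤ (R.card : ℝ) ^ 4 := by
    have : I2.card ≤ R.card ^ 4 := by
      refine (Finset.card_filter_le _ _).trans ?_
      rw [Finset.card_product, Finset.card_product]
      apply le_of_eq
      ring
    exact_mod_cast this
  calc uu p a b ≤ Pr (fun _ => p) R (fun F => (∃ c ∈ I1, E1 c F) ∨ (∃ c ∈ I2, E2 c F)) :=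
        Pr_mono hok (fun F hF hS => hincl F hF hS)
    _ ≤ Pr (fun _ => p) R (fun F => ∃ c ∈ I1, E1 c F) + Pr (fun _ => p) R (fun F => ∃ c ∈ I2, E2 c F) :=
        Pr_or_le hok _ _ _
    _ ≤ ∑ c ∈ I1, Pr (fun _ => p) R (E1 c) + ∑ c ∈ I2, Pr (fun _ => p) R (E2 c) :=
        add_le_add (Pr_exists_le hok _ _ _) (Pr_exists_le hok _ _ _)
    _ ≤ ∑ _c ∈ I1, X + ∑ _c ∈ I2, X := add_le_add (Finset.sum_le_sum hb1) (Finset.sum_le_sum hb2)
    _ = (I1.card : ℝ) * X + (I2.card : ℝ) * X := by simp only [Finset.sum_const, nsmul_eq_mul]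
    _ ≤ (R.card : ℝ) ^ 4 * X + (R.card : ℝ) ^ 4 * X :=
        add_le_add (mul_le_mul_of_nonneg_right hcard1 hX) (mul_le_mul_of_nonneg_right hcard2 hX)
    _ = _ := by ring

theorem dm_cast {a b : Pt} (hab : a ≤ b) (i : Fin 3) : ((dm a b i : ℕ) : ℤ) = b i - a i + 1 := by
  have : a i ≤ b i := hab i
  unfold dm
  omega

theorem sum_dm {a b : Pt} (hab : a ≤ b) : ∑ i, (dm a b i : ℝ) = (phi a b : ℝ) := by
  unfold phi
  push_cast
  apply Finset.sum_congr rfl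
  intro i _
  have := dm_cast hab i
  have h : ((dm a b i : ℕ) : ℝ) = (((dm a b i : ℕ) : ℤ) : ℝ) := by norm_cast
  rw [h, this]
  push_cast
  ring

theorem dm_mono {a b a' b' : Pt} (h1 : a ≤ a') (h2 : b' ≤ b) : dm a' b' ≤ dm a b := by
  intro i
  have g1 : a i ≤ a' i := h1 i
  have g2 : b' i ≤ b i := h2 i
  show (b' i - a' i + 1).toNat ≤ (b i - a i + 1).toNat
  omega

theorem card_Icc_le {a b : Pt} {M : ℕ} (hM : ∀ i, dm a b i ≤ M) :
    ((Finset.Icc a b).card : ℝ) ≤ (M : ℝ) ^ 3 := by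
  have : (Finset.Icc a b).card ≤ M ^ 3 := by
    rw [Pi.card_Icc]
    calc ∏ i, (Finset.Icc (a i) (b i)).card ≤ ∏ _i : Fin 3, M := by
          apply Finset.prod_le_prod'
          intro i _
          rw [Int.card_Icc]
          have := hM i
          unfold dm at this
          omega
      _ = M ^ 3 := by rw [Finset.prod_const, Finset.card_univ, Fintype.card_fin]
  exact_mod_cast this

/-- the growth bound in the form used below -/
theorem PD_le {p q Z δ : ℝ} {M s : ℕ} (hp0 : 0 ≤ p) (hp1 : p ≤ 1) (hq0 : 0 < q)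
    (hq : Real.exp (-q) = 1 - p) (hZ : 0 < Z) (hδ0 : 0 ≤ δ)
    (hδ : 6 * p * (fo Z)⁻¹ ^ 6 * M * s ≤ δ * gr (q * ((M : ℝ) * M) + Z))
    {a b a1 b1 : Pt} (g2 : a ≤ a1) (g1 : a1 ≤ b1) (g3 : b1 ≤ b) (hM : ∀ i, dm a b i ≤ M)
    (g4 : phi a b - 2 * s ≤ phi a1 b1) :
    PD p a1 b1 a b ≤ Real.exp (6 * gr Z) * Real.exp (-((1 - δ) *
            ∑ j, ((dm a b j : ℝ) - dm a1 b1 j) * gr (q * ar (dm a1 b1) j + Z))) := by
  have hG : GoodG (fun z => gr (z + Z)) (dg (rr Z)) := goodG_shift hZ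
  have hκ : 0 < (fo Z)⁻¹ := inv_pos.2 (fo_pos hZ)
  have hD := D_bound hp0 hp1 hq0 hq hZ g2 g1 g3 M hM
  refine hD.trans ?_
  rw [← Real.exp_add]
  apply Real.exp_le_exp.2
  have hdm1 : dm a1 b1 ≤ dm a b := dm_mono g2 g3
  have hDj : ∀ j, 0 ≤ (dm a b j : ℝ) - dm a1 b1 j := by
    intro j
    have : (dm a1 b1 j : ℝ) ≤ dm a b j := by exact_mod_cast hdm1 j
    linarith
  have hD0 : 0 ≤ ∑ j, ((dm a b j : ℝ) - dm a1 b1 j) := Finset.sum_nonneg (fun j _ => hDj j)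
  have hD2 : ∑ j, ((dm a b j : ℝ) - dm a1 b1 j) ≤ 2 * s := by
    rw [Finset.sum_sub_distrib, sum_dm (g2.trans (g1.trans g3)), sum_dm g1]
    have : (phi a b : ℝ) - 2 * s ≤ phi a1 b1 := by exact_mod_cast g4
    linarith
  have hGmin : ∀ j, gr (q * ((M : ℝ) * M) + Z) ≤ gr (q * ar (dm a1 b1) j + Z) := by
    intro j
    apply hG.anti _ _ (by positivity)
    apply mul_le_mul_of_nonneg_left _ hq0.le
    have : ar (dm a1 b1) j ≤ M * M := by
      unfold ar
      calc ∏ l ∈ univ.erase j, dm a1 b1 l ≤ ∏ _l ∈ univ.erase j, M :=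
            Finset.prod_le_prod' (fun l _ => (hdm1 l).trans (hM l))
        _ = M * M := by
            rw [Finset.prod_const, Finset.card_erase_of_mem (mem_univ j), Finset.card_univ, Fintype.card_fin]
            ring
    exact_mod_cast this
  have hsumge : (∑ j, ((dm a b j : ℝ) - dm a1 b1 j)) * gr (q * ((M : ℝ) * M) + Z)
      ≤ ∑ j, ((dm a b j : ℝ) - dm a1 b1 j) * gr (q * ar (dm a1 b1) j + Z) := by
    rw [Finset.sum_mul]
    apply Finset.sum_le_sum
    intro j _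
    exact mul_le_mul_of_nonneg_left (hGmin j) (hDj j)
  generalize (∑ j, ((dm a b j : ℝ) - dm a1 b1 j)) = D at *
  generalize (∑ j, ((dm a b j : ℝ) - dm a1 b1 j) * gr (q * ar (dm a1 b1) j + Z)) = SS at *
  generalize gr (q * ((M : ℝ) * M) + Z) = g0 at *
  have h0 : 0 ≤ 3 * p * (fo Z)⁻¹ ^ 6 * M := by positivity
  have e2 : 3 * p * (fo Z)⁻¹ ^ 6 * M * D ^ 2 ≤ (6 * p * (fo Z)⁻¹ ^ 6 * M * s) * D := by
    calc 3 * p * (fo Z)⁻¹ ^ 6 * M * D ^ 2 = (3 * p * (fo Z)⁻¹ ^ 6 * M) * (D * D) := by ring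
      _ ≤ (3 * p * (fo Z)⁻¹ ^ 6 * M) * (D * (2 * s)) :=
          mul_le_mul_of_nonneg_left (mul_le_mul_of_nonneg_left hD2 hD0) h0
      _ = _ := by ring
  have e3 : (6 * p * (fo Z)⁻¹ ^ 6 * M * s) * D ≤ (δ * g0) * D := mul_le_mul_of_nonneg_right hδ hD0
  have e4 : δ * (D * g0) ≤ δ * SS := mul_le_mul_of_nonneg_left hsumge hδ0
  linarith

theorem alpha_real {u P N g C1 S C δ : ℝ} (hu : u ≤ N * Real.exp (-((1 - δ) * C1)))
    (hP : P ≤ Real.exp (6 * g) * Real.exp (-((1 - δ) * S))) (hP0 : 0 ≤ P) (hN : 1 ≤ N) (hg : 0 ≤ g)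
    (hδ : 0 ≤ 1 - δ) (hup : C ≤ C1 + S) :
    u * P ≤ Real.exp (9 * g) * N ^ 2 * Real.exp (-((1 - δ) * C)) := by
  have hN0 : 0 ≤ N := by linarith
  have e1 : u * P ≤ (N * Real.exp (-((1 - δ) * C1))) * (Real.exp (6 * g) * Real.exp (-((1 - δ) * S))) :=
    mul_le_mul hu hP hP0 (mul_nonneg hN0 (Real.exp_pos _).le)
  have e2 : (N * Real.exp (-((1 - δ) * C1))) * (Real.exp (6 * g) * Real.exp (-((1 - δ) * S)))
      = N * Real.exp (6 * g - (1 - δ) * (C1 + S)) := by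
    rw [show 6 * g - (1 - δ) * (C1 + S) = -((1 - δ) * C1) + (6 * g + -((1 - δ) * S)) by ring,
      Real.exp_add, Real.exp_add]
    ring
  have e3 : Real.exp (9 * g) * N ^ 2 * Real.exp (-((1 - δ) * C)) = N ^ 2 * Real.exp (9 * g - (1 - δ) * C) := by
    rw [show 9 * g - (1 - δ) * C = 9 * g + -((1 - δ) * C) by ring, Real.exp_add]
    ring
  rw [e3]
  rw [e2] at e1
  refine e1.trans ?_
  have e4 : N ≤ N ^ 2 := by nlinarith
  have e5 : Real.exp (6 * g - (1 - δ) * (C1 + S)) ≤ Real.exp (9 * g - (1 - δ) * C) := by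
    apply Real.exp_le_exp.2
    have := mul_le_mul_of_nonneg_left hup hδ
    linarith
  exact mul_le_mul e4 e5 (Real.exp_pos _).le (by positivity)

theorem beta_real {u1 u2 P N g C1 C2 C3 S C δ : ℝ} (hu1 : u1 ≤ N * Real.exp (-((1 - δ) * C1)))
    (hu2 : u2 ≤ N * Real.exp (-((1 - δ) * C2)))
    (hP : P ≤ Real.exp (6 * g) * Real.exp (-((1 - δ) * S))) (hP0 : 0 ≤ P) (hu20 : 0 ≤ u2)
    (hN : 1 ≤ N) (hg : 0 ≤ g)
    (hδ : 0 ≤ 1 - δ) (hδ0 : 0 ≤ δ) (hup : C ≤ C3 + S) (hmg : C3 ≤ C1 + C2 + 3 * g) :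
    u1 * u2 * P ≤ Real.exp (9 * g) * N ^ 2 * Real.exp (-((1 - δ) * C)) := by
  have hN0 : 0 ≤ N := by linarith
  have e0 : u1 * u2 ≤ (N * Real.exp (-((1 - δ) * C1))) * (N * Real.exp (-((1 - δ) * C2))) :=
    mul_le_mul hu1 hu2 hu20 (mul_nonneg hN0 (Real.exp_pos _).le)
  have e1 : u1 * u2 * P ≤ ((N * Real.exp (-((1 - δ) * C1))) * (N * Real.exp (-((1 - δ) * C2))))
      * (Real.exp (6 * g) * Real.exp (-((1 - δ) * S))) :=
    mul_le_mul e0 hP hP0 (mul_nonneg (mul_nonneg hN0 (Real.exp_pos _).le) (mul_nonneg hN0 (Real.exp_pos _).le))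
  have e2 : ((N * Real.exp (-((1 - δ) * C1))) * (N * Real.exp (-((1 - δ) * C2))))
      * (Real.exp (6 * g) * Real.exp (-((1 - δ) * S)))
      = N ^ 2 * Real.exp (6 * g - (1 - δ) * (C1 + C2 + S)) := by
    rw [show 6 * g - (1 - δ) * (C1 + C2 + S) = -((1 - δ) * C1) + (-((1 - δ) * C2) + (6 * g + -((1 - δ) * S))) by ring,
      Real.exp_add, Real.exp_add, Real.exp_add]
    ring
  have e3 : Real.exp (9 * g) * N ^ 2 * Real.exp (-((1 - δ) * C)) = N ^ 2 * Real.exp (9 * g - (1 - δ) * C) := by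
    rw [show 9 * g - (1 - δ) * C = 9 * g + -((1 - δ) * C) by ring, Real.exp_add]
    ring
  rw [e3]
  rw [e2] at e1
  refine e1.trans ?_
  apply mul_le_mul_of_nonneg_left _ (by positivity)
  apply Real.exp_le_exp.2
  have h1 : C ≤ C1 + C2 + 3 * g + S := by linarith
  have h2 := mul_le_mul_of_nonneg_left h1 hδ
  have h3 : 0 ≤ δ * g := mul_nonneg hδ0 hg
  nlinarith

/-- the main induction -/
theorem main_ind {p q Z Z' δ H : ℝ} {M s : ℕ} (hp0 : 0 ≤ p) (hp1 : p ≤ 1) (hq0 : 0 < q)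
    (hq : Real.exp (-q) = 1 - p) (hZ : 0 < Z) (hδ0 : 0 ≤ δ) (hδ1 : δ ≤ 1)
    (hgr : ∀ z, 0 < z → z ≤ Z' → 3 * gr Z ≤ gr z)
    (hsmall : q * ((s : ℝ) + 3) ^ 2 ≤ Z')
    (hδ : 6 * p * (fo Z)⁻¹ ^ 6 * M * s ≤ δ * gr (q * ((M : ℝ) * M) + Z))
    (hH : 2 * (M : ℝ) ^ 12 * Real.exp (9 * gr Z) ≤ H) (hM1 : 1 ≤ M) :
    ∀ (k : ℕ) (a b : Pt), a ≤ b → (∀ i, dm a b i ≤ M) → phi a b ≤ k * s →
      uu p a b ≤ H ^ (2 ^ k - 1) * Real.exp (-((1 - δ) * cst (fun z => gr (z + Z)) q (dm a b))) := by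
  set G : ℝ → ℝ := fun z => gr (z + Z) with hGdef
  have hG : GoodG G (dg (rr Z)) := goodG_shift hZ
  have hG0 : G 0 = gr Z := by simp [hGdef]
  have hgrZ : 0 ≤ gr Z := gr_nonneg hZ
  have hok := okc (E := Pt) hp0 hp1
  have hM1' : (1:ℝ) ≤ M := by exact_mod_cast hM1
  have hMp : (1:ℝ) ≤ (M:ℝ) ^ 12 := one_le_pow₀ hM1'
  have hexp9 : (1:ℝ) ≤ Real.exp (9 * gr Z) := Real.one_le_exp (by positivity)
  have hH1 : 1 ≤ H := by nlinarith
  have hH3 : Real.exp (3 * gr Z) ≤ H := by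
    have : Real.exp (3 * gr Z) ≤ Real.exp (9 * gr Z) := Real.exp_le_exp.2 (by linarith)
    nlinarith
  have hκ : 0 < (fo Z)⁻¹ := inv_pos.2 (fo_pos hZ)
  intro k
  induction k with
  | zero =>
    intro a b hab _ hphi
    exfalso
    rw [phi3] at hphi
    have h0 : a 0 ≤ b 0 := hab 0
    have h1 : a 1 ≤ b 1 := hab 1
    have h2 : a 2 ≤ b 2 := hab 2
    simp at hphi
    omega
  | succ k ih =>
    intro a b hab hM hphi
    set x := dm a b with hx
    have hxpos : ∀ i, 1 ≤ x i := dm_pos hab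
    have hC0 : 0 ≤ cst G q x := cst_nonneg hG hq0.le x
    -- the power of H
    have hpow : H ^ (2 ^ (k + 1) - 1) = H * (H ^ (2 ^ k - 1)) ^ 2 := by
      rw [← pow_mul, ← pow_succ']
      congr 1
      have : 1 ≤ 2 ^ k := Nat.one_le_two_pow
      rw [pow_succ]
      omega
    set N := H ^ (2 ^ k - 1) with hN
    have hN1 : 1 ≤ N := one_le_pow₀ hH1
    rw [hpow]
    obtain ⟨i, -, hi⟩ := Finset.exists_max_image (univ : Finset (Fin 3)) x ⟨0, mem_univ 0⟩
    by_cases hseed : q * (ar x i : ℝ) ≤ Z'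
    · -- seeds
      have hsb := seed_bound hp0 hp1 hq0 hq hab i
      have har : 0 < q * (ar x i : ℝ) := by
        have := ar_pos hxpos i
        positivity
      have hg := hgr _ har hseed
      have hCle : cst G q x ≤ 3 * (x i : ℝ) * gr Z := by
        refine (cst_le_sum hG hq0.le x).trans ?_
        rw [hG0, ← Finset.sum_mul]
        apply mul_le_mul_of_nonneg_right _ hgrZ
        calc ∑ j, (x j : ℝ) ≤ ∑ _j : Fin 3, (x i : ℝ) :=
              Finset.sum_le_sum (fun j _ => by exact_mod_cast hi j (mem_univ j))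
          _ = 3 * (x i : ℝ) := by rw [Finset.sum_const, Finset.card_univ, Fintype.card_fin]; ring
      have hxi1 : (1:ℝ) ≤ x i := by exact_mod_cast hxpos i
      have h3 : uu p a b ≤ Real.exp (3 * gr Z) * Real.exp (-((1 - δ) * cst G q x)) := by
        refine hsb.trans ?_
        rw [← Real.exp_add]
        apply Real.exp_le_exp.2
        have e1 : ((x i : ℝ) - 1) * (3 * gr Z) ≤ ((x i : ℝ) - 1) * gr (q * ar x i) :=
          mul_le_mul_of_nonneg_left hg (by linarith)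
        have e2 : (1 - δ) * cst G q x ≤ cst G q x := by nlinarith
        have e3 : ((dm a b i : ℝ) - 1) * gr (q * ar (dm a b) i) = ((x i : ℝ) - 1) * gr (q * ar x i) := rfl
        rw [e3]
        nlinarith
      refine h3.trans ?_
      apply mul_le_mul_of_nonneg_right _ (Real.exp_pos _).le
      have : 1 ≤ N ^ 2 := one_le_pow₀ hN1
      nlinarith
    · -- large boxes
      push Not at hseed
      have hxs : ((s : ℝ) + 3) < x i := by
        have e1 : ar x i ≤ x i * x i := by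
          unfold ar
          calc ∏ j ∈ univ.erase i, x j ≤ ∏ _j ∈ univ.erase i, x i :=
                Finset.prod_le_prod' (fun j _ => hi j (mem_univ j))
            _ = x i * x i := by
                rw [Finset.prod_const, Finset.card_erase_of_mem (mem_univ i), Finset.card_univ, Fintype.card_fin]
                ring
        have e2 : (ar x i : ℝ) ≤ (x i : ℝ) * x i := by exact_mod_cast e1
        by_contra hc
        push Not at hc
        have e3 : (x i : ℝ) * x i ≤ ((s : ℝ) + 3) ^ 2 := by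
          have : (0:ℝ) ≤ x i := by positivity
          nlinarith
        have e4 : q * (ar x i : ℝ) ≤ q * ((s : ℝ) + 3) ^ 2 := mul_le_mul_of_nonneg_left (e2.trans e3) hq0.le
        linarith
      have hphis : (s : ℤ) + 3 < phi a b := by
        have e1 : (x i : ℝ) ≤ ∑ j, (x j : ℝ) :=
          Finset.single_le_sum (f := fun j => (x j : ℝ)) (fun j _ => by positivity) (mem_univ i)
        rw [hx, sum_dm hab] at e1
        have : ((s : ℝ) + 3) < (phi a b : ℝ) := by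
          have := hxs
          rw [hx] at this
          linarith
        exact_mod_cast this
      -- growth bound
      have hPD : ∀ a1 b1 : Pt, a1 ≤ b1 → a ≤ a1 → b1 ≤ b → phi a b - 2 * s ≤ phi a1 b1 →
          PD p a1 b1 a b ≤ Real.exp (6 * gr Z) * Real.exp (-((1 - δ) *
            ∑ j, ((x j : ℝ) - dm a1 b1 j) * G (q * ar (dm a1 b1) j))) := by
        intro a1 b1 g1 g2 g3 g4
        exact PD_le hp0 hp1 hq0 hq hZ hδ0 hδ g2 g1 g3 hM g4
      -- the two kinds of terms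
      set X := Real.exp (9 * gr Z) * N ^ 2 * Real.exp (-((1 - δ) * cst G q x)) with hX
      have hX0 : 0 ≤ X := by positivity
      have hδ' : 0 ≤ 1 - δ := by linarith
      have hrec := rec_bound hp0 hp1 hab (phi a b - 2 * s) (phi a b - s) (by omega) (by omega) X hX0
        (by
          intro a1 b1 g1 g2 g3 g4 g5
          have hM1 : ∀ i, dm a1 b1 i ≤ M := fun i => (dm_mono g2 g3 i).trans (hM i)
          have i1 := ih a1 b1 g1 hM1 (by push_cast at hphi; linarith)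
          have i2 := hPD a1 b1 g1 g2 g3 g4
          have hPD0 : 0 ≤ PD p a1 b1 a b := Pr_nonneg hok _ _
          have hup := cst_up hG hq0.le (dm_mono g2 g3)
          exact alpha_real i1 i2 hPD0 hN1 hgrZ hδ' hup)
        (by
          intro a1 b1 a2 b2 g1 g2 g3 g4 g5 g6 g7 g8
          have ha1 : a ≤ a1 := g4.trans inf_le_left
          have ha2 : a ≤ a2 := g4.trans inf_le_right
          have hb1 : b1 ≤ b := le_sup_left.trans g5
          have hb2 : b2 ≤ b := le_sup_right.trans g5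
          have hM1 : ∀ i, dm a1 b1 i ≤ M := fun i => (dm_mono ha1 hb1 i).trans (hM i)
          have hM2 : ∀ i, dm a2 b2 i ≤ M := fun i => (dm_mono ha2 hb2 i).trans (hM i)
          have hs0 : (0:ℤ) ≤ s := by positivity
          have i1 := ih a1 b1 g1 hM1 (by push_cast at hphi; linarith)
          have i2 := ih a2 b2 g2 hM2 (by push_cast at hphi; linarith)
          have h12 : a1 ⊓ a2 ≤ b1 ⊔ b2 := inf_le_left.trans (g1.trans le_sup_left)
          have i3 := hPD (a1 ⊓ a2) (b1 ⊔ b2) h12 g4 g5 (by linarith)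
          have hPD0 : 0 ≤ PD p (a1 ⊓ a2) (b1 ⊔ b2) a b := Pr_nonneg hok _ _
          have hu2 : 0 ≤ uu p a2 b2 := Pr_nonneg hok _ _
          have hup := cst_up hG hq0.le (dm_mono g4 g5)
          have hmg := cst_merge hG hq0.le (x1 := dm a1 b1) (x2 := dm a2 b2) (x := dm (a1 ⊓ a2) (b1 ⊔ b2))
            (dm_mono inf_le_left le_sup_left) (dm_mono inf_le_right le_sup_right) (by
              intro i
              have e1 := near_side g3 i
              have e2 := dm_cast g1 i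
              have e3 := dm_cast g2 i
              have e4 := dm_cast h12 i
              omega)
          rw [hG0] at hmg
          exact beta_real i1 i2 i3 hPD0 hu2 hN1 hgrZ hδ' hδ0 hup hmg)
      refine hrec.trans ?_
      have hcard : ((Finset.Icc a b).card : ℝ) ^ 4 ≤ (M : ℝ) ^ 12 := by
        calc ((Finset.Icc a b).card : ℝ) ^ 4 ≤ ((M : ℝ) ^ 3) ^ 4 :=
              pow_le_pow_left₀ (by positivity) (card_Icc_le hM) 4
          _ = (M : ℝ) ^ 12 := by ring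
      calc 2 * ((Finset.Icc a b).card : ℝ) ^ 4 * X ≤ 2 * (M : ℝ) ^ 12 * X := by
            apply mul_le_mul_of_nonneg_right _ hX0
            linarith
        _ = (2 * (M : ℝ) ^ 12 * Real.exp (9 * gr Z)) * (N ^ 2 * Real.exp (-((1 - δ) * cst G q x))) := by
            rw [hX]; ring
        _ ≤ H * (N ^ 2 * Real.exp (-((1 - δ) * cst G q x))) :=
            mul_le_mul_of_nonneg_right hH (by positivity)
        _ = _ := by ring

end Pool.Agent.H97.BP
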