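import Pool.Agent.H97.BP.Prob

/-!
# Lower bounds for sequences without double gaps, with some prescribed double gaps
-/

set_option autoImplicit false

namespace Pool.Agent.H97.BP

open Finset H974

section

variable {E : Type*} [DecidableEq E]

/-- layer `j` is occupied -/
def Xh (B : ℕ → Finset E) (j : ℕ) (F : Finset E) : Prop := (F ∩ B j).Nonempty

/-- the condition at position `j` -/
def Cj (B Y : ℕ → Finset E) (D : ℕ → Prop) (j : ℕ) (F : Finset E) : Prop :=
  (D j → Xh B j F ∧ ¬ Xh B (j + 1) F ∧ ¬ Xh B (j + 2) F ∧ Xh Y j F ∧ Xh B (j + 3) F) ∧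
  (¬ D j → (∀ j', D j' → j ≠ j' + 1) → Xh B j F ∨ Xh B (j + 1) F)

/-- all conditions from position `n` on -/
def Suf (B Y : ℕ → Finset E) (D : ℕ → Prop) (K n : ℕ) (F : Finset E) : Prop :=
  (∀ j, n ≤ j → j < K → Cj B Y D j F) ∧ Xh B K F

theorem Pr_add_le {p : E → ℝ} (hp : Ok p) {S : Finset E} {A B C : Finset E → Prop}
    (hd : ∀ F, F ⊆ S → ¬ (A F ∧ B F)) (hA : ∀ F, F ⊆ S → A F → C F) (hB : ∀ F, F ⊆ S → B F → C F) :
    Pr p S A + Pr p S B ≤ Pr p S C := by
  unfold Pr
  rw [← Ex_add]
  apply Ex_mono hp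
  intro F hF
  have h1 := hd F hF
  by_cases a : A F
  · have b : ¬ B F := fun b => h1 ⟨a, b⟩
    rw [ind_of a, ind_not_of b, ind_of (hA F hF a)]; norm_num
  · by_cases b : B F
    · rw [ind_not_of a, ind_of b, ind_of (hB F hF b)]; norm_num
    · rw [ind_not_of a, ind_not_of b]
      simpa using ind_nonneg (C F)

theorem Pr_sum_le {p : E → ℝ} (hp : Ok p) {S : Finset E} {ι : Type*} (T : Finset ι)
    {A : ι → Finset E → Prop} {C : Finset E → Prop}
    (hd : ∀ i ∈ T, ∀ j ∈ T, i ≠ j → ∀ F, F ⊆ S → ¬ (A i F ∧ A j F))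
    (hA : ∀ i ∈ T, ∀ F, F ⊆ S → A i F → C F) :
    ∑ i ∈ T, Pr p S (A i) ≤ Pr p S C := by
  classical
  unfold Pr
  rw [← Ex_sum]
  apply Ex_mono hp
  intro F hF
  by_cases h : ∃ i ∈ T, A i F
  · obtain ⟨i, hi, hAi⟩ := h
    rw [ind_of (hA i hi F hF hAi), Finset.sum_eq_single i]
    · rw [ind_of hAi]
    · intro j hj hji
      exact ind_not_of (fun hAj => hd j hj i hi hji F hF ⟨hAj, hAi⟩)
    · intro h; exact absurd hi h
  · push Not at h
    rw [Finset.sum_eq_zero (fun i hi => ind_not_of (h i hi))]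
    exact ind_nonneg _

theorem Xh_local {B : ℕ → Finset E} {j : ℕ} {W : Finset E} (h : B j ⊆ W) (F : Finset E) :
    Xh B j F ↔ Xh B j (F ∩ W) := by
  unfold Xh
  rw [Finset.inter_assoc, Finset.inter_eq_right.2 h]

theorem Suf_local {B Y Λ : ℕ → Finset E} {D : ℕ → Prop} {K n : ℕ}
    (hB : ∀ j, B j ⊆ Λ j) (hY : ∀ j, D j → Y j ⊆ Λ (j + 2)) (hDK : ∀ j, D j → j + 3 ≤ K)
    (hnK : n ≤ K) (F : Finset E) :
    Suf B Y D K n F ↔ Suf B Y D K n (F ∩ (Finset.Icc n K).biUnion Λ) := by
  have hW : ∀ j, n ≤ j → j ≤ K → Λ j ⊆ (Finset.Icc n K).biUnion Λ := fun j h1 h2 =>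
    Finset.subset_biUnion_of_mem Λ (Finset.mem_Icc.2 ⟨h1, h2⟩)
  have hX : ∀ j, n ≤ j → j ≤ K → (Xh B j F ↔ Xh B j (F ∩ (Finset.Icc n K).biUnion Λ)) :=
    fun j h1 h2 => Xh_local ((hB j).trans (hW j h1 h2)) F
  unfold Suf
  rw [← hX K hnK le_rfl]
  apply and_congr_left
  intro _
  apply forall_congr'
  intro j
  apply forall_congr'
  intro hj
  apply forall_congr'
  intro hjK
  unfold Cj
  by_cases hD : D j
  · have h3 := hDK j hD
    rw [← hX j hj (by omega), ← hX (j+1) (by omega) (by omega), ← hX (j+2) (by omega) (by omega),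
      ← hX (j+3) (by omega) (by omega), ← Xh_local ((hY j hD).trans (hW (j+2) (by omega) (by omega))) F]
  · rw [← hX j hj (by omega), ← hX (j+1) (by omega) (by omega)]
    simp only [hD, false_imp_iff, true_and]

open Classical in
/-- number of prescribed gaps -/
noncomputable def cnt (D : ℕ → Prop) (n K : ℕ) : ℕ := ((Finset.Icc n K).filter D).card

theorem cnt_step_not {D : ℕ → Prop} {n K : ℕ} (h : ¬ D n) : cnt D n K = cnt D (n + 1) K := by
  classical
  unfold cnt
  congr 1
  ext j
  simp only [Finset.mem_filter, Finset.mem_Icc]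
  constructor
  · rintro ⟨⟨h1, h2⟩, h3⟩
    refine ⟨⟨?_, h2⟩, h3⟩
    rcases Nat.lt_or_ge n j with h4 | h4
    · exact h4
    · exfalso; apply h; rw [show n = j by omega]; exact h3
  · rintro ⟨⟨h1, h2⟩, h3⟩
    exact ⟨⟨by omega, h2⟩, h3⟩

theorem cnt_step {D : ℕ → Prop} {n K : ℕ} (h : D n) (hn : n ≤ K) :
    cnt D n K = cnt D (n + 1) K + 1 := by
  classical
  unfold cnt
  rw [← Finset.card_insert_of_notMem (a := n) (s := (Finset.Icc (n+1) K).filter D)]
  · congr 1
    ext j
    simp only [Finset.mem_filter, Finset.mem_Icc, Finset.mem_insert]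
    constructor
    · rintro ⟨⟨h1, h2⟩, h3⟩
      rcases Nat.lt_or_ge n j with h4 | h4
      · exact Or.inr ⟨⟨h4, h2⟩, h3⟩
      · exact Or.inl (by omega)
    · rintro (rfl | ⟨⟨h1, h2⟩, h3⟩)
      · exact ⟨⟨le_rfl, hn⟩, h⟩
      · exact ⟨⟨by omega, h2⟩, h3⟩
  · simp

omit [DecidableEq E] in
theorem three_le {a b c x : ℝ} (ha : 0 ≤ a) (ha1 : a ≤ 1) (hb : 0 ≤ b) (hb1 : b ≤ 1)
    (hc : 0 ≤ c) (hc1 : c ≤ 1) (hx : 0 ≤ x) : a * (b * (c * x)) ≤ x := by
  have h1 : c * x ≤ x := mul_le_of_le_one_left hx hc1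
  have h1' : 0 ≤ c * x := mul_nonneg hc hx
  have h2 : b * (c * x) ≤ c * x := mul_le_of_le_one_left h1' hb1
  have h2' : 0 ≤ b * (c * x) := mul_nonneg hb h1'
  have h3 : a * (b * (c * x)) ≤ b * (c * x) := mul_le_of_le_one_left h2' ha1
  linarith

theorem suf_bound {p q : ℝ} (hp0 : 0 ≤ p) (hp1 : p ≤ 1) (hq0 : 0 < q) (hq : Real.exp (-q) = 1 - p)
    {S : Finset E} {B Y Λ : ℕ → Finset E} {D : ℕ → Prop} {K : ℕ} {c ρ : ℝ}
    (hΛS : ∀ j, j ≤ K → Λ j ⊆ S) (hΛd : ∀ i j, i ≠ j → Disjoint (Λ i) (Λ j))
    (hB : ∀ j, B j ⊆ Λ j) (hY : ∀ j, D j → Y j ⊆ Λ (j + 2)) (hYB : ∀ j, D j → Disjoint (Y j) (B (j + 2)))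
    (hDK : ∀ j, D j → j + 3 ≤ K) (hDs : ∀ j j', D j → D j' → j < j' → j + 3 ≤ j')
    (z : ℕ → ℝ) (hz : ∀ j, z j = q * (B j).card) (n₀ : ℕ) (hz0 : ∀ j, n₀ ≤ j → 0 < z j)
    (hzm : ∀ j, n₀ ≤ j → z j ≤ z (j + 1)) (hc0 : 0 ≤ c) (hcK : c ≤ fo (z K)) (hρ0 : 0 ≤ ρ)
    (hρ : ∀ j, D j → ρ ≤ fo (z j) * (1 - fo (z (j + 1))) * ((1 - fo (z (j + 2))) * fo (q * (Y j).card))
      * fo (z (j + 3))) :
    ∀ (d n : ℕ), n + d = K → n₀ ≤ n → (∀ j, D j → j < n → j + 3 ≤ n) →
      c * (∏ j ∈ Finset.Icc n K, be (z j)) * ρ ^ (cnt D n K) ≤ Pr (fun _ => p) S (Suf B Y D K n) ∧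
      (fo (z n) / be (z n)) * (c * (∏ j ∈ Finset.Icc n K, be (z j)) * ρ ^ (cnt D n K))
        ≤ Pr (fun _ => p) S (fun F => Xh B n F ∧ Suf B Y D K n F) := by
  have hok := okc (E := E) hp0 hp1
  have hhit : ∀ j, j ≤ K → Pr (fun _ => p) S (Xh B j) = fo (z j) := by
    intro j hj
    have := Pr_hit p ((hB j).trans (hΛS j hj))
    unfold Xh
    rw [this, hz]
    unfold fo
    rw [← hq, ← Real.exp_nat_mul]
    congr 2
    ring
  have hWd : ∀ (n : ℕ) (j : ℕ), j < n → Disjoint (Λ j) ((Finset.Icc n K).biUnion Λ) := by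
    intro n j hj
    rw [Finset.disjoint_biUnion_right]
    intro i hi
    exact hΛd j i (by have := (Finset.mem_Icc.1 hi).1; omega)
  have hWS : ∀ n, (Finset.Icc n K).biUnion Λ ⊆ S := fun n =>
    Finset.biUnion_subset.2 (fun j hj => hΛS j (Finset.mem_Icc.1 hj).2)
  have hWsub : ∀ n j, n ≤ j → j ≤ K → Λ j ⊆ (Finset.Icc n K).biUnion Λ := fun n j h1 h2 =>
    Finset.subset_biUnion_of_mem Λ (Finset.mem_Icc.2 ⟨h1, h2⟩)
  intro d
  induction d using Nat.strong_induction_on with
  | _ d ih =>
    intro n hnd hn₀ hok_n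
    have hzn := hz0 n hn₀
    have hfn := fo_pos hzn
    have hfn1 := fo_lt_one (z n)
    have hbn := be_pos (z n)
    have hbn1 := be_le_one hzn
    have hfb1 := fo_div_be_le_one hzn
    by_cases hnK : n = K
    · -- the end
      subst hnK
      have hDn : ¬ D n := fun h => by have := hDK n h; omega
      have hcn : cnt D n n = 0 := by
        rw [cnt_step_not hDn]; simp [cnt]
      have hS : Pr (fun _ => p) S (Suf B Y D n n) = fo (z n) := by
        rw [← hhit n le_rfl]
        apply Pr_congr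
        intro F _
        constructor
        · intro h; exact h.2
        · intro h; exact ⟨fun j h1 h2 => by omega, h⟩
      have hS' : Pr (fun _ => p) S (fun F => Xh B n F ∧ Suf B Y D n n F) = fo (z n) := by
        rw [← hS]
        apply Pr_congr
        intro F _
        constructor
        · intro h; exact h.2
        · intro h; exact ⟨h.2, h⟩
      rw [hcn, pow_zero, mul_one, Finset.Icc_self, Finset.prod_singleton, hS, hS']
      constructor
      · nlinarith
      · have : fo (z n) / be (z n) * (c * be (z n)) = fo (z n) * c := by field_simp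
        rw [this]
        nlinarith
    · have hnK' : n < K := by omega
      by_cases hD : D n
      · -- a prescribed double gap
        have h3 := hDK n hD
        have hD1 : ¬ D (n + 1) := fun h => by have := hDs n (n+1) hD h (by omega); omega
        have hD2 : ¬ D (n + 2) := fun h => by have := hDs n (n+2) hD h (by omega); omega
        have hok3 : ∀ j, D j → j < n + 3 → j + 3 ≤ n + 3 := by
          intro j hj hlt
          rcases Nat.lt_or_ge n j with h4 | h4
          · have := hDs n j hD hj h4; omega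
          · omega
        obtain ⟨-, i2⟩ := ih (d - 3) (by omega) (n + 3) (by omega) (by omega) hok3
        set W3 := c * (∏ j ∈ Finset.Icc (n+3) K, be (z j)) * ρ ^ (cnt D (n+3) K) with hW3
        have hW30 : 0 ≤ W3 := by
          rw [hW3]
          apply mul_nonneg (mul_nonneg hc0 (Finset.prod_nonneg (fun j _ => (be_pos _).le))) (pow_nonneg hρ0 _)
        -- product formula
        have e1 : Pr (fun _ => p) S (fun F => ¬ Xh B (n+2) F ∧ Xh Y n F)
            = (1 - fo (z (n+2))) * fo (q * (Y n).card) := by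
          have hYS : Y n ⊆ S := (hY n hD).trans (hΛS _ (by omega))
          have hBS : B (n+2) ⊆ S := (hB _).trans (hΛS _ (by omega))
          have g := Pr_indep (p := fun _ => p) (U := S) (S := B (n+2)) (T := Y n) hBS hYS (hYB n hD).symm
            (A := fun F => ¬ Xh B (n+2) F) (B := Xh Y n)
            (fun F _ => by rw [← Xh_local (Finset.Subset.refl _) F])
            (fun F _ => Xh_local (Finset.Subset.refl _) F)
          rw [g, Pr_not, hhit _ (by omega)]
          congr 1
          have := Pr_hit p hYS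
          unfold Xh
          rw [this]
          unfold fo
          rw [← hq, ← Real.exp_nat_mul]
          congr 2
          ring
        have e2 : Pr (fun _ => p) S (fun F => (¬ Xh B (n+2) F ∧ Xh Y n F) ∧
            (Xh B (n+3) F ∧ Suf B Y D K (n+3) F))
            = ((1 - fo (z (n+2))) * fo (q * (Y n).card)) *
              Pr (fun _ => p) S (fun F => Xh B (n+3) F ∧ Suf B Y D K (n+3) F) := by
          rw [← e1]
          exact Pr_indep (p := fun _ => p) (U := S) (S := Λ (n+2)) (T := (Finset.Icc (n+3) K).biUnion Λ)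
            (hΛS _ (by omega)) (hWS _) (hWd (n+3) (n+2) (by omega))
            (A := fun F => ¬ Xh B (n+2) F ∧ Xh Y n F)
            (B := fun F => Xh B (n+3) F ∧ Suf B Y D K (n+3) F)
            (fun F _ => by rw [← Xh_local (hB _) F, ← Xh_local (hY n hD) F])
            (fun F _ => by
              rw [← Suf_local hB hY hDK (by omega) F, ← Xh_local ((hB _).trans (hWsub (n+3) (n+3) le_rfl (by omega))) F])
        have e3 : Pr (fun _ => p) S (fun F => ¬ Xh B (n+1) F ∧ ((¬ Xh B (n+2) F ∧ Xh Y n F) ∧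
            (Xh B (n+3) F ∧ Suf B Y D K (n+3) F)))
            = (1 - fo (z (n+1))) * (((1 - fo (z (n+2))) * fo (q * (Y n).card)) *
              Pr (fun _ => p) S (fun F => Xh B (n+3) F ∧ Suf B Y D K (n+3) F)) := by
          rw [← e2, ← hhit (n+1) (by omega), ← Pr_not]
          exact Pr_indep (p := fun _ => p) (U := S) (S := Λ (n+1)) (T := (Finset.Icc (n+2) K).biUnion Λ)
            (hΛS _ (by omega)) (hWS _) (hWd (n+2) (n+1) (by omega))
            (A := fun F => ¬ Xh B (n+1) F)
            (B := fun F => (¬ Xh B (n+2) F ∧ Xh Y n F) ∧ (Xh B (n+3) F ∧ Suf B Y D K (n+3) F))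
            (fun F _ => by rw [← Xh_local (hB _) F])
            (fun F _ => by
              have h5 : (Finset.Icc (n+3) K).biUnion Λ ⊆ (Finset.Icc (n+2) K).biUnion Λ :=
                Finset.biUnion_subset_biUnion_of_subset_left _ (Finset.Icc_subset_Icc (by omega) le_rfl)
              have h6 : Suf B Y D K (n+3) F ↔ Suf B Y D K (n+3) (F ∩ (Finset.Icc (n+2) K).biUnion Λ) := by
                rw [Suf_local hB hY hDK (by omega) F, Suf_local hB hY hDK (by omega) (F ∩ (Finset.Icc (n+2) K).biUnion Λ),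
                  Finset.inter_assoc, Finset.inter_eq_right.2 h5]
              rw [← h6, ← Xh_local ((hB (n+3)).trans (hWsub (n+2) (n+3) (by omega) (by omega))) F,
                ← Xh_local ((hB (n+2)).trans (hWsub (n+2) (n+2) (by omega) (by omega))) F,
                ← Xh_local ((hY n hD).trans (hWsub (n+2) (n+2) (by omega) (by omega))) F])
        have e4 : Pr (fun _ => p) S (fun F => Xh B n F ∧ (¬ Xh B (n+1) F ∧ ((¬ Xh B (n+2) F ∧ Xh Y n F) ∧
            (Xh B (n+3) F ∧ Suf B Y D K (n+3) F))))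
            = fo (z n) * ((1 - fo (z (n+1))) * (((1 - fo (z (n+2))) * fo (q * (Y n).card)) *
              Pr (fun _ => p) S (fun F => Xh B (n+3) F ∧ Suf B Y D K (n+3) F))) := by
          rw [← e3, ← hhit n (by omega)]
          exact Pr_indep (p := fun _ => p) (U := S) (S := Λ n) (T := (Finset.Icc (n+1) K).biUnion Λ)
            (hΛS _ (by omega)) (hWS _) (hWd (n+1) n (by omega))
            (A := Xh B n)
            (B := fun F => ¬ Xh B (n+1) F ∧ ((¬ Xh B (n+2) F ∧ Xh Y n F) ∧ (Xh B (n+3) F ∧ Suf B Y D K (n+3) F)))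
            (fun F _ => Xh_local (hB _) F)
            (fun F _ => by
              have h5 : (Finset.Icc (n+3) K).biUnion Λ ⊆ (Finset.Icc (n+1) K).biUnion Λ :=
                Finset.biUnion_subset_biUnion_of_subset_left _ (Finset.Icc_subset_Icc (by omega) le_rfl)
              have h6 : Suf B Y D K (n+3) F ↔ Suf B Y D K (n+3) (F ∩ (Finset.Icc (n+1) K).biUnion Λ) := by
                rw [Suf_local hB hY hDK (by omega) F, Suf_local hB hY hDK (by omega) (F ∩ (Finset.Icc (n+1) K).biUnion Λ),
                  Finset.inter_assoc, Finset.inter_eq_right.2 h5]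
              rw [← h6, ← Xh_local ((hB (n+3)).trans (hWsub (n+1) (n+3) (by omega) (by omega))) F,
                ← Xh_local ((hB (n+2)).trans (hWsub (n+1) (n+2) (by omega) (by omega))) F,
                ← Xh_local ((hB (n+1)).trans (hWsub (n+1) (n+1) (by omega) (by omega))) F,
                ← Xh_local ((hY n hD).trans (hWsub (n+1) (n+2) (by omega) (by omega))) F])
        have hincl : Pr (fun _ => p) S (fun F => Xh B n F ∧ (¬ Xh B (n+1) F ∧ ((¬ Xh B (n+2) F ∧ Xh Y n F) ∧
            (Xh B (n+3) F ∧ Suf B Y D K (n+3) F)))) ≤ Pr (fun _ => p) S (fun F => Xh B n F ∧ Suf B Y D K n F) := by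
          apply Pr_mono hok
          rintro F _ ⟨a1, a2, ⟨a3, a4⟩, a5, a6, a7⟩
          refine ⟨a1, ?_, a7⟩
          intro j hj hjK
          by_cases hj0 : j = n
          · subst hj0
            exact ⟨fun _ => ⟨a1, a2, a3, a4, a5⟩, fun h => absurd hD h⟩
          by_cases hj1 : j = n + 1
          · subst hj1
            exact ⟨fun h => absurd h hD1, fun _ h => absurd rfl (h n hD)⟩
          by_cases hj2 : j = n + 2
          · subst hj2
            exact ⟨fun h => absurd h hD2, fun _ _ => Or.inr a5⟩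
          exact a6 j (by omega) hjK
        have hfo3 : 0 < fo (z (n+3)) := fo_pos (hz0 _ (by omega))
        have hbe3 := be_pos (z (n+3))
        have hbe31 := be_le_one (hz0 (n+3) (by omega))
        -- the value
        have hval : ρ * W3 ≤ fo (z n) * ((1 - fo (z (n+1))) * (((1 - fo (z (n+2))) * fo (q * (Y n).card)) *
              Pr (fun _ => p) S (fun F => Xh B (n+3) F ∧ Suf B Y D K (n+3) F))) := by
          have h7 : fo (z (n+3)) * W3 ≤ Pr (fun _ => p) S (fun F => Xh B (n+3) F ∧ Suf B Y D K (n+3) F) := by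
            refine le_trans ?_ i2
            apply mul_le_mul_of_nonneg_right _ hW30
            rw [le_div_iff₀ hbe3]
            nlinarith
          have h8 : 0 ≤ fo (z n) * (1 - fo (z (n+1))) * ((1 - fo (z (n+2))) * fo (q * (Y n).card)) := by
            have a1 := fo_lt_one (z (n+1))
            have a2 := fo_lt_one (z (n+2))
            have a3 : 0 ≤ fo (q * (Y n).card) := by
              have := fo_mono (x := 0) (y := q * ((Y n).card : ℝ)) (by positivity)
              simpa [fo] using this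
            apply mul_nonneg (mul_nonneg hfn.le (by linarith)) (mul_nonneg (by linarith) a3)
          calc ρ * W3 ≤ (fo (z n) * (1 - fo (z (n+1))) * ((1 - fo (z (n+2))) * fo (q * (Y n).card)) * fo (z (n+3))) * W3 :=
                mul_le_mul_of_nonneg_right (hρ n hD) hW30
            _ = (fo (z n) * (1 - fo (z (n+1))) * ((1 - fo (z (n+2))) * fo (q * (Y n).card))) * (fo (z (n+3)) * W3) := by ring
            _ ≤ (fo (z n) * (1 - fo (z (n+1))) * ((1 - fo (z (n+2))) * fo (q * (Y n).card))) *
                Pr (fun _ => p) S (fun F => Xh B (n+3) F ∧ Suf B Y D K (n+3) F) :=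
                mul_le_mul_of_nonneg_left h7 h8
            _ = _ := by ring
        have hW : c * (∏ j ∈ Finset.Icc n K, be (z j)) * ρ ^ (cnt D n K) ≤ ρ * W3 := by
          rw [cnt_step hD (by omega), cnt_step_not hD1, cnt_step_not hD2]
          have hprod : ∏ j ∈ Finset.Icc n K, be (z j) ≤ ∏ j ∈ Finset.Icc (n+3) K, be (z j) := by
            rw [← Finset.mul_prod_Ioc_eq_prod_Icc (by omega : n ≤ K)]
            have h9 : ∀ a, Finset.Ioc a K = Finset.Icc (a+1) K := fun a => by
              ext x; simp only [Finset.mem_Ioc, Finset.mem_Icc]; omega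
            rw [h9, ← Finset.mul_prod_Ioc_eq_prod_Icc (by omega : n + 1 ≤ K), h9,
              ← Finset.mul_prod_Ioc_eq_prod_Icc (by omega : n + 1 + 1 ≤ K), h9]
            have p0 : 0 ≤ ∏ j ∈ Finset.Icc (n+1+1+1) K, be (z j) := Finset.prod_nonneg (fun j _ => (be_pos _).le)
            have b0 := be_pos (z n)
            have b1 := be_pos (z (n+1))
            have b2 := be_pos (z (n+1+1))
            have c1 := be_le_one (hz0 (n+1) (by omega))
            have c2 := be_le_one (hz0 (n+1+1) (by omega))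
            exact three_le b0.le hbn1 b1.le c1 b2.le c2 p0
          rw [hW3, pow_succ]
          calc c * (∏ j ∈ Finset.Icc n K, be (z j)) * (ρ ^ (cnt D (n+1+1+1) K) * ρ)
              = (c * (ρ ^ (cnt D (n+1+1+1) K) * ρ)) * (∏ j ∈ Finset.Icc n K, be (z j)) := by ring
            _ ≤ (c * (ρ ^ (cnt D (n+1+1+1) K) * ρ)) * (∏ j ∈ Finset.Icc (n+3) K, be (z j)) := by
                apply mul_le_mul_of_nonneg_left hprod
                positivity
            _ = _ := by ring
        have hmain : c * (∏ j ∈ Finset.Icc n K, be (z j)) * ρ ^ (cnt D n K)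
            ≤ Pr (fun _ => p) S (fun F => Xh B n F ∧ Suf B Y D K n F) :=
          hW.trans (hval.trans (e4 ▸ hincl))
        refine ⟨hmain.trans (Pr_mono hok (fun F _ h => h.2)), ?_⟩
        have hW0 : 0 ≤ c * (∏ j ∈ Finset.Icc n K, be (z j)) * ρ ^ (cnt D n K) :=
          mul_nonneg (mul_nonneg hc0 (Finset.prod_nonneg (fun j _ => (be_pos _).le))) (pow_nonneg hρ0 _)
        nlinarith
      · -- an ordinary position
        have hok1 : ∀ j, D j → j < n + 1 → j + 3 ≤ n + 1 := by
          intro j hj hlt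
          have hne : j ≠ n := fun h => hD (h ▸ hj)
          have := hok_n j hj (by omega)
          omega
        obtain ⟨i1, i2⟩ := ih (d - 1) (by omega) (n + 1) (by omega) (by omega) hok1
        set W1 := c * (∏ j ∈ Finset.Icc (n+1) K, be (z j)) * ρ ^ (cnt D (n+1) K) with hW1
        have hW10 : 0 ≤ W1 :=
          mul_nonneg (mul_nonneg hc0 (Finset.prod_nonneg (fun j _ => (be_pos _).le))) (pow_nonneg hρ0 _)
        have hW : c * (∏ j ∈ Finset.Icc n K, be (z j)) * ρ ^ (cnt D n K) = be (z n) * W1 := by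
          rw [cnt_step_not hD, ← Finset.mul_prod_Ioc_eq_prod_Icc (by omega : n ≤ K)]
          have h9 : Finset.Ioc n K = Finset.Icc (n+1) K := by
            ext x; simp only [Finset.mem_Ioc, Finset.mem_Icc]; omega
          rw [h9, hW1]
          ring
        rw [hW]
        have hCn : ∀ F, Cj B Y D n F ↔ (Xh B n F ∨ Xh B (n+1) F) := by
          intro F
          unfold Cj
          constructor
          · intro h
            apply h.2 hD
            intro j' hj' hne
            have := hok_n j' hj' (by omega)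
            omega
          · intro h
            exact ⟨fun h' => absurd h' hD, fun _ _ => h⟩
        have hSn : ∀ F, Suf B Y D K n F ↔ ((Xh B n F ∨ Xh B (n+1) F) ∧ Suf B Y D K (n+1) F) := by
          intro F
          constructor
          · rintro ⟨h1, h2⟩
            exact ⟨(hCn F).1 (h1 n le_rfl hnK'), fun j hj hjK => h1 j (by omega) hjK, h2⟩
          · rintro ⟨h1, h2, h3⟩
            refine ⟨fun j hj hjK => ?_, h3⟩
            rcases Nat.lt_or_ge n j with h4 | h4
            · exact h2 j h4 hjK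
            · rw [show j = n by omega]; exact (hCn F).2 h1
        have hlS : ∀ F, F ⊆ S → (Suf B Y D K (n+1) F ↔ Suf B Y D K (n+1) (F ∩ (Finset.Icc (n+1) K).biUnion Λ)) :=
          fun F _ => Suf_local hB hY hDK (by omega) F
        have hlXS : ∀ F, F ⊆ S → ((Xh B (n+1) F ∧ Suf B Y D K (n+1) F) ↔
            (Xh B (n+1) (F ∩ (Finset.Icc (n+1) K).biUnion Λ) ∧ Suf B Y D K (n+1) (F ∩ (Finset.Icc (n+1) K).biUnion Λ))) :=
          fun F hF => by
            rw [← hlS F hF, ← Xh_local ((hB (n+1)).trans (hWsub (n+1) (n+1) le_rfl (by omega))) F]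
        have e1 : Pr (fun _ => p) S (fun F => Xh B n F ∧ Suf B Y D K (n+1) F)
            = fo (z n) * Pr (fun _ => p) S (Suf B Y D K (n+1)) := by
          rw [← hhit n (by omega)]
          exact Pr_indep (p := fun _ => p) (U := S) (S := Λ n) (T := (Finset.Icc (n+1) K).biUnion Λ)
            (hΛS _ (by omega)) (hWS _) (hWd (n+1) n (by omega)) (A := Xh B n) (B := Suf B Y D K (n+1))
            (fun F _ => Xh_local (hB _) F) hlS
        have e2 : Pr (fun _ => p) S (fun F => ¬ Xh B n F ∧ (Xh B (n+1) F ∧ Suf B Y D K (n+1) F))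
            = (1 - fo (z n)) * Pr (fun _ => p) S (fun F => Xh B (n+1) F ∧ Suf B Y D K (n+1) F) := by
          rw [← hhit n (by omega), ← Pr_not]
          exact Pr_indep (p := fun _ => p) (U := S) (S := Λ n) (T := (Finset.Icc (n+1) K).biUnion Λ)
            (hΛS _ (by omega)) (hWS _) (hWd (n+1) n (by omega)) (A := fun F => ¬ Xh B n F)
            (B := fun F => Xh B (n+1) F ∧ Suf B Y D K (n+1) F)
            (fun F _ => by rw [← Xh_local (hB _) F]) hlXS
        constructor
        · have h1 : Pr (fun _ => p) S (fun F => Xh B n F ∧ Suf B Y D K (n+1) F) +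
              Pr (fun _ => p) S (fun F => ¬ Xh B n F ∧ (Xh B (n+1) F ∧ Suf B Y D K (n+1) F))
              ≤ Pr (fun _ => p) S (Suf B Y D K n) := by
            apply Pr_add_le hok
            · rintro F _ ⟨⟨a, _⟩, b, _⟩; exact b a
            · rintro F _ ⟨a, b⟩; exact (hSn F).2 ⟨Or.inl a, b⟩
            · rintro F _ ⟨_, b, c⟩; exact (hSn F).2 ⟨Or.inr b, c⟩
          refine le_trans ?_ h1
          rw [e1, e2]
          have hch := be_char' hzn
          have hmono : fo (z n) / be (z n) ≤ fo (z (n+1)) / be (z (n+1)) := fo_div_be_mono hzn (hzm n hn₀)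
          have h2 : (fo (z n) / be (z n)) * W1 ≤ Pr (fun _ => p) S (fun F => Xh B (n+1) F ∧ Suf B Y D K (n+1) F) :=
            (mul_le_mul_of_nonneg_right hmono hW10).trans i2
          have h3 : be (z n) = fo (z n) + (1 - fo (z n)) * (fo (z n) / be (z n)) := by
            have := be_char hzn
            field_simp
            nlinarith
          calc be (z n) * W1 = fo (z n) * W1 + (1 - fo (z n)) * ((fo (z n) / be (z n)) * W1) := by
                conv_lhs => rw [h3]
                ring
            _ ≤ _ := by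
                apply add_le_add
                · exact mul_le_mul_of_nonneg_left i1 hfn.le
                · exact mul_le_mul_of_nonneg_left h2 (by linarith)
        · have h1 : Pr (fun _ => p) S (fun F => Xh B n F ∧ Suf B Y D K (n+1) F)
              ≤ Pr (fun _ => p) S (fun F => Xh B n F ∧ Suf B Y D K n F) := by
            apply Pr_mono hok
            rintro F _ ⟨a, b⟩
            exact ⟨a, (hSn F).2 ⟨Or.inl a, b⟩⟩
          refine le_trans ?_ h1
          rw [e1]
          have : fo (z n) / be (z n) * (be (z n) * W1) = fo (z n) * W1 := by field_simp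
          rw [this]
          exact mul_le_mul_of_nonneg_left i1 hfn.le

end

end Pool.Agent.H97.BP
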