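import Pool.Agent.H97.BP.Det
import Pool.Agent.H97.BP.Suf
import Pool.Agent.H97.BP.Ind

/-!
# The growth events inside a cube
-/

set_option autoImplicit false

namespace Pool.Agent.H97.BP

open Finset H974

noncomputable def B0 (j : ℕ) : Finset Pt := Finset.Icc ![(j : ℤ), 1, 1] ![(j : ℤ), j - 2, j - 2]
noncomputable def B1 (cap : ℕ → ℕ) (j : ℕ) : Finset Pt :=
  Finset.Icc ![1, (j : ℤ), 1] ![(cap j : ℤ), j, j - 2]
noncomputable def B2 (cap : ℕ → ℕ) (j : ℕ) : Finset Pt :=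
  Finset.Icc ![1, 1, (j : ℤ)] ![(cap j : ℤ), j - 2, j]
noncomputable def Yy (e : ℕ → ℕ) (j : ℕ) : Finset Pt :=
  Finset.Icc ![(j : ℤ) + 2, 1, 1] ![(j : ℤ) + 2, e j, e j] \ B0 (j + 2)
open Classical in
noncomputable def L0 (D : ℕ → Prop) (e : ℕ → ℕ) (j : ℕ) : Finset Pt :=
  B0 j ∪ (if 2 ≤ j ∧ D (j - 2) then Yy e (j - 2) else ∅)

theorem mem_B0 {j : ℕ} {x : Pt} : x ∈ B0 j ↔ x 0 = j ∧ (1 ≤ x 1 ∧ x 1 ≤ (j : ℤ) - 2) ∧
    (1 ≤ x 2 ∧ x 2 ≤ (j : ℤ) - 2) := by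
  unfold B0
  rw [Finset.mem_Icc, ← Set.mem_Icc, mem_Icc3]
  simp only [Matrix.cons_val_zero, Matrix.cons_val_one, Matrix.cons_val]
  constructor
  · rintro ⟨⟨a, b⟩, c, d⟩; exact ⟨le_antisymm b a, c, d⟩
  · rintro ⟨a, c, d⟩; exact ⟨⟨a.ge, a.le⟩, c, d⟩

theorem mem_B1 {cap : ℕ → ℕ} {j : ℕ} {x : Pt} : x ∈ B1 cap j ↔ x 1 = j ∧ (1 ≤ x 0 ∧ x 0 ≤ cap j) ∧
    (1 ≤ x 2 ∧ x 2 ≤ (j : ℤ) - 2) := by
  unfold B1
  rw [Finset.mem_Icc, ← Set.mem_Icc, mem_Icc3]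
  simp only [Matrix.cons_val_zero, Matrix.cons_val_one, Matrix.cons_val]
  constructor
  · rintro ⟨c, ⟨a, b⟩, d⟩; exact ⟨le_antisymm b a, c, d⟩
  · rintro ⟨a, c, d⟩; exact ⟨c, ⟨a.ge, a.le⟩, d⟩

theorem mem_B2 {cap : ℕ → ℕ} {j : ℕ} {x : Pt} : x ∈ B2 cap j ↔ x 2 = j ∧ (1 ≤ x 0 ∧ x 0 ≤ cap j) ∧
    (1 ≤ x 1 ∧ x 1 ≤ (j : ℤ) - 2) := by
  unfold B2
  rw [Finset.mem_Icc, ← Set.mem_Icc, mem_Icc3]
  simp only [Matrix.cons_val_zero, Matrix.cons_val_one, Matrix.cons_val]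
  constructor
  · rintro ⟨c, d, ⟨a, b⟩⟩; exact ⟨le_antisymm b a, c, d⟩
  · rintro ⟨a, c, d⟩; exact ⟨c, d, ⟨a.ge, a.le⟩⟩

theorem mem_Yy {e : ℕ → ℕ} {j : ℕ} {x : Pt} : x ∈ Yy e j ↔ (x 0 = (j : ℤ) + 2 ∧ (1 ≤ x 1 ∧ x 1 ≤ e j) ∧
    (1 ≤ x 2 ∧ x 2 ≤ e j)) ∧ x ∉ B0 (j + 2) := by
  unfold Yy
  rw [Finset.mem_sdiff, Finset.mem_Icc, ← Set.mem_Icc, mem_Icc3]
  simp only [Matrix.cons_val_zero, Matrix.cons_val_one, Matrix.cons_val]
  apply and_congr_left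
  intro _
  constructor
  · rintro ⟨⟨a, b⟩, c, d⟩; exact ⟨le_antisymm b a, c, d⟩
  · rintro ⟨a, c, d⟩; exact ⟨⟨a.ge, a.le⟩, c, d⟩

theorem card_vec (a b : Pt) : (Finset.Icc a b).card
    = (b 0 + 1 - a 0).toNat * (b 1 + 1 - a 1).toNat * (b 2 + 1 - a 2).toNat := by
  rw [Pi.card_Icc, Fin.prod_univ_three, Int.card_Icc, Int.card_Icc, Int.card_Icc]

theorem card_B0 (j : ℕ) (hj : 2 ≤ j) : (B0 j).card = (j - 2) * (j - 2) := by
  unfold B0
  rw [card_vec]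
  simp only [Matrix.cons_val_zero, Matrix.cons_val_one, Matrix.cons_val]
  have e1 : ((j : ℤ) + 1 - j).toNat = 1 := by omega
  have e2 : ((j : ℤ) - 2 + 1 - 1).toNat = j - 2 := by omega
  rw [e1, e2, one_mul]

theorem card_B1 (cap : ℕ → ℕ) (j : ℕ) (hj : 2 ≤ j) : (B1 cap j).card = cap j * (j - 2) := by
  unfold B1
  rw [card_vec]
  simp only [Matrix.cons_val_zero, Matrix.cons_val_one, Matrix.cons_val]
  have e1 : ((j : ℤ) + 1 - j).toNat = 1 := by omega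
  have e2 : ((j : ℤ) - 2 + 1 - 1).toNat = j - 2 := by omega
  have e3 : ((cap j : ℤ) + 1 - 1).toNat = cap j := by omega
  rw [e1, e2, e3, mul_one]

theorem card_B2 (cap : ℕ → ℕ) (j : ℕ) (hj : 2 ≤ j) : (B2 cap j).card = cap j * (j - 2) := by
  unfold B2
  rw [card_vec]
  simp only [Matrix.cons_val_zero, Matrix.cons_val_one, Matrix.cons_val]
  have e1 : ((j : ℤ) + 1 - j).toNat = 1 := by omega
  have e2 : ((j : ℤ) - 2 + 1 - 1).toNat = j - 2 := by omega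
  have e3 : ((cap j : ℤ) + 1 - 1).toNat = cap j := by omega
  rw [e1, e2, e3, mul_one]

theorem card_Yy (e : ℕ → ℕ) (j : ℕ) (hj : j ≤ e j) : (Yy e j).card = e j * e j - j * j := by
  unfold Yy
  rw [Finset.card_sdiff_of_subset, card_B0 _ (by omega), card_vec]
  · simp only [Matrix.cons_val_zero, Matrix.cons_val_one, Matrix.cons_val]
    have e1 : ((j : ℤ) + 2 + 1 - (j + 2)).toNat = 1 := by omega
    have e3 : ((e j : ℤ) + 1 - 1).toNat = e j := by omega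
    rw [e1, e3, one_mul]
    rfl
  · intro x hx
    rw [mem_B0] at hx
    rw [Finset.mem_Icc, ← Set.mem_Icc, mem_Icc3]
    simp only [Matrix.cons_val_zero, Matrix.cons_val_one, Matrix.cons_val]
    push_cast at hx
    omega

theorem Pr_full (p : ℝ) {S B : Finset Pt} (hB : B ⊆ S) :
    Pr (fun _ => p) S (fun F => B ⊆ F) = p ^ B.card := by
  rw [Pr_local (S' := B) hB]
  · have h1 := Pr_compl (fun _ : Pt => 1 - p) B (fun F => B ⊆ F)
    have h2 : (fun e : Pt => 1 - (fun _ : Pt => 1 - p) e) = fun _ => p := by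
      funext e; simp
    rw [h2] at h1
    rw [h1]
    have h3 := Pr_empty_inter (1 - p) (Finset.Subset.refl B)
    rw [show (1 : ℝ) - (1 - p) = p by ring] at h3
    rw [← h3]
    apply Pr_congr
    intro F hF
    constructor
    · intro h
      rw [Finset.inter_eq_left.2 hF]
      rw [Finset.eq_empty_iff_forall_notMem]
      intro x hx
      exact (Finset.mem_sdiff.1 (h (hF hx))).2 hx
    · intro h x hx
      rw [Finset.mem_sdiff]
      refine ⟨hx, fun hxF => ?_⟩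
      have : x ∈ F ∩ B := Finset.mem_inter.2 ⟨hxF, hx⟩
      rw [h] at this
      exact absurd this (by simp)
  · intro F _
    constructor
    · intro h x hx; exact Finset.mem_inter.2 ⟨h hx, hx⟩
    · intro h x hx; exact (Finset.mem_inter.1 (h hx)).1

/-- the trivial data for the two other directions -/
def NoD : ℕ → Prop := fun _ => False
def NoY : ℕ → Finset Pt := fun _ => ∅

/-- the growth event -/
def Ev (D : ℕ → Prop) (e cap : ℕ → ℕ) (K : ℕ) (F : Finset Pt) : Prop :=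
  Finset.Icc (1 : Pt) (fun _ => 2) ⊆ F ∧ (Suf B0 (Yy e) D K 3 F ∧ (Suf (B1 cap) NoY NoD K 3 F ∧
    Suf (B2 cap) NoY NoD K 3 F))

/-- the standing assumptions -/
structure Good (D : ℕ → Prop) (e cap : ℕ → ℕ) (K : ℕ) : Prop where
  h3K : 3 ≤ K
  D3 : ∀ j, D j → 3 ≤ j
  DK : ∀ j, D j → j + 3 ≤ K
  Ds : ∀ j j', D j → D j' → j < j' → j + 3 ≤ j'
  eK : ∀ j, D j → e j ≤ K
  cap2 : ∀ j, 3 ≤ j → cap j + 2 ≤ j
  capD : ∀ n0, D n0 → ∀ n, n0 < n → n ≤ e n0 + 1 → cap n ≤ n0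

section

variable {D : ℕ → Prop} {e cap : ℕ → ℕ} {K : ℕ}

theorem L0_spec {j : ℕ} {x : Pt} : x ∈ L0 D e j ↔ x ∈ B0 j ∨ (2 ≤ j ∧ D (j - 2) ∧ x ∈ Yy e (j - 2)) := by
  classical
  unfold L0
  rw [Finset.mem_union]
  by_cases h : 2 ≤ j ∧ D (j - 2)
  · rw [if_pos h]; tauto
  · rw [if_neg h]
    constructor
    · rintro (h' | h')
      · exact Or.inl h'
      · exact absurd h' (by simp)
    · rintro (h' | ⟨a, b, c⟩)
      · exact Or.inl h'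
      · exact absurd ⟨a, b⟩ h

theorem L0_x0 {j : ℕ} {x : Pt} (hx : x ∈ L0 D e j) : x 0 = j := by
  rcases L0_spec.1 hx with h | ⟨h1, h2, h3⟩
  · exact (mem_B0.1 h).1
  · have := (mem_Yy.1 h3).1.1
    omega

theorem L0_disj (i j : ℕ) (h : i ≠ j) : Disjoint (L0 D e i) (L0 D e j) := by
  rw [Finset.disjoint_left]
  intro x h1 h2
  have := L0_x0 h1
  have := L0_x0 h2
  omega

theorem B0_L0 (j : ℕ) : B0 j ⊆ L0 D e j := fun _ hx => L0_spec.2 (Or.inl hx)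

theorem Yy_L0 (j : ℕ) (h : D j) : Yy e j ⊆ L0 D e (j + 2) := fun _ hx =>
  L0_spec.2 (Or.inr ⟨by omega, by simpa using h, by simpa using hx⟩)

theorem Yy_B0 (j : ℕ) : Disjoint (Yy e j) (B0 (j + 2)) := by
  rw [Finset.disjoint_left]
  intro x hx
  exact (mem_Yy.1 hx).2

theorem mem_cube {x : Pt} : x ∈ Finset.Icc (1 : Pt) (fun _ => (K : ℤ)) ↔
    (1 ≤ x 0 ∧ x 0 ≤ K) ∧ (1 ≤ x 1 ∧ x 1 ≤ K) ∧ (1 ≤ x 2 ∧ x 2 ≤ K) := by
  rw [Finset.mem_Icc, ← Set.mem_Icc, mem_Icc3]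
  rfl

theorem L0_S (hg : Good D e cap K) (j : ℕ) (hj : j ≤ K) : L0 D e j ⊆ Finset.Icc (1 : Pt) (fun _ => (K : ℤ)) := by
  intro x hx
  rw [mem_cube]
  rcases L0_spec.1 hx with h | ⟨h1, h2, h3⟩
  · have := mem_B0.1 h
    omega
  · have h4 := (mem_Yy.1 h3).1
    have h5 := hg.eK _ h2
    have h6 := hg.D3 _ h2
    omega

theorem B1_S (hg : Good D e cap K) (j : ℕ) (hj3 : 3 ≤ j) (hj : j ≤ K) :
    B1 cap j ⊆ Finset.Icc (1 : Pt) (fun _ => (K : ℤ)) := by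
  intro x hx
  rw [mem_cube]
  have := mem_B1.1 hx
  have := hg.cap2 j hj3
  omega

theorem B2_S (hg : Good D e cap K) (j : ℕ) (hj3 : 3 ≤ j) (hj : j ≤ K) :
    B2 cap j ⊆ Finset.Icc (1 : Pt) (fun _ => (K : ℤ)) := by
  intro x hx
  rw [mem_cube]
  have := mem_B2.1 hx
  have := hg.cap2 j hj3
  omega

theorem B1_disj (i j : ℕ) (h : i ≠ j) : Disjoint (B1 cap i) (B1 cap j) := by
  rw [Finset.disjoint_left]
  intro x h1 h2
  have := (mem_B1.1 h1).1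
  have := (mem_B1.1 h2).1
  omega

theorem B2_disj (i j : ℕ) (h : i ≠ j) : Disjoint (B2 cap i) (B2 cap j) := by
  rw [Finset.disjoint_left]
  intro x h1 h2
  have := (mem_B2.1 h1).1
  have := (mem_B2.1 h2).1
  omega

theorem d01 (hg : Good D e cap K) : Disjoint ((Finset.Icc 3 K).biUnion (L0 D e))
    ((Finset.Icc 3 K).biUnion (B1 cap)) := by
  rw [Finset.disjoint_left]
  intro x h1 h2
  obtain ⟨i, hi, h1⟩ := Finset.mem_biUnion.1 h1
  obtain ⟨j, hj, h2⟩ := Finset.mem_biUnion.1 h2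
  rw [Finset.mem_Icc] at hi hj
  have h3 := mem_B1.1 h2
  have h4 := hg.cap2 j hj.1
  rcases L0_spec.1 h1 with h | ⟨g1, g2, g3⟩
  · have := mem_B0.1 h
    omega
  · have h5 := (mem_Yy.1 g3).1
    rcases Nat.lt_or_ge (i - 2) j with h6 | h6
    · have h7 := hg.capD _ g2 j h6 (by omega)
      omega
    · omega

theorem d02 (hg : Good D e cap K) : Disjoint ((Finset.Icc 3 K).biUnion (L0 D e))
    ((Finset.Icc 3 K).biUnion (B2 cap)) := by
  rw [Finset.disjoint_left]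
  intro x h1 h2
  obtain ⟨i, hi, h1⟩ := Finset.mem_biUnion.1 h1
  obtain ⟨j, hj, h2⟩ := Finset.mem_biUnion.1 h2
  rw [Finset.mem_Icc] at hi hj
  have h3 := mem_B2.1 h2
  have h4 := hg.cap2 j hj.1
  rcases L0_spec.1 h1 with h | ⟨g1, g2, g3⟩
  · have := mem_B0.1 h
    omega
  · have h5 := (mem_Yy.1 g3).1
    rcases Nat.lt_or_ge (i - 2) j with h6 | h6
    · have h7 := hg.capD _ g2 j h6 (by omega)
      omega
    · omega

theorem d12 : Disjoint ((Finset.Icc 3 K).biUnion (B1 cap)) ((Finset.Icc 3 K).biUnion (B2 cap)) := by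
  rw [Finset.disjoint_left]
  intro x h1 h2
  obtain ⟨i, hi, h1⟩ := Finset.mem_biUnion.1 h1
  obtain ⟨j, hj, h2⟩ := Finset.mem_biUnion.1 h2
  have h3 := mem_B1.1 h1
  have h4 := mem_B2.1 h2
  omega

theorem dS : Disjoint (Finset.Icc (1 : Pt) (fun _ => 2)) ((Finset.Icc 3 K).biUnion (L0 D e) ∪
    ((Finset.Icc 3 K).biUnion (B1 cap) ∪ (Finset.Icc 3 K).biUnion (B2 cap))) := by
  rw [Finset.disjoint_left]
  intro x h1 h2
  have h3 : (1 ≤ x 0 ∧ x 0 ≤ 2) ∧ (1 ≤ x 1 ∧ x 1 ≤ 2) ∧ (1 ≤ x 2 ∧ x 2 ≤ 2) := by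
    have := h1
    rw [Finset.mem_Icc, ← Set.mem_Icc, mem_Icc3] at this
    exact this
  rw [Finset.mem_union, Finset.mem_union, Finset.mem_biUnion, Finset.mem_biUnion, Finset.mem_biUnion] at h2
  rcases h2 with ⟨i, hi, h⟩ | ⟨i, hi, h⟩ | ⟨i, hi, h⟩
  · have := L0_x0 h
    rw [Finset.mem_Icc] at hi
    omega
  · have := (mem_B1.1 h).1
    rw [Finset.mem_Icc] at hi
    omega
  · have := (mem_B2.1 h).1
    rw [Finset.mem_Icc] at hi
    omega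

theorem SufNo_local {B : ℕ → Finset Pt} (hK : 3 ≤ K) (F : Finset Pt) :
    Suf B NoY NoD K 3 F ↔ Suf B NoY NoD K 3 (F ∩ (Finset.Icc 3 K).biUnion B) :=
  Suf_local (Λ := B) (fun _ => Finset.Subset.refl _) (fun _ h => h.elim) (fun _ h => h.elim) hK F

theorem Suf_local_sup {B Y Λ : ℕ → Finset Pt} {D : ℕ → Prop} {W : Finset Pt}
    (hB : ∀ j, B j ⊆ Λ j) (hY : ∀ j, D j → Y j ⊆ Λ (j + 2)) (hDK : ∀ j, D j → j + 3 ≤ K)
    (hK : 3 ≤ K) (hW : (Finset.Icc 3 K).biUnion Λ ⊆ W) (F : Finset Pt) :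
    Suf B Y D K 3 F ↔ Suf B Y D K 3 (F ∩ W) := by
  rw [Suf_local hB hY hDK hK F, Suf_local hB hY hDK hK (F ∩ W), Finset.inter_assoc,
    Finset.inter_eq_right.2 hW]

theorem Pr_Ev {p : ℝ} (hg : Good D e cap K) :
    Pr (fun _ => p) (Finset.Icc (1 : Pt) (fun _ => (K : ℤ))) (Ev D e cap K) =
      p ^ 8 * (Pr (fun _ => p) (Finset.Icc (1 : Pt) (fun _ => (K : ℤ))) (Suf B0 (Yy e) D K 3) *
      (Pr (fun _ => p) (Finset.Icc (1 : Pt) (fun _ => (K : ℤ))) (Suf (B1 cap) NoY NoD K 3) *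
       Pr (fun _ => p) (Finset.Icc (1 : Pt) (fun _ => (K : ℤ))) (Suf (B2 cap) NoY NoD K 3))) := by
  have h3K := hg.h3K
  set S := Finset.Icc (1 : Pt) (fun _ => (K : ℤ)) with hS
  set W0 := (Finset.Icc 3 K).biUnion (L0 D e) with hW0
  set W1 := (Finset.Icc 3 K).biUnion (B1 cap) with hW1
  set W2 := (Finset.Icc 3 K).biUnion (B2 cap) with hW2
  have s0 : W0 ⊆ S := Finset.biUnion_subset.2 (fun j hj => L0_S hg j (Finset.mem_Icc.1 hj).2)
  have s1 : W1 ⊆ S := Finset.biUnion_subset.2 (fun j hj => B1_S hg j (Finset.mem_Icc.1 hj).1 (Finset.mem_Icc.1 hj).2)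
  have s2 : W2 ⊆ S := Finset.biUnion_subset.2 (fun j hj => B2_S hg j (Finset.mem_Icc.1 hj).1 (Finset.mem_Icc.1 hj).2)
  have sS : Finset.Icc (1 : Pt) (fun _ => 2) ⊆ S := by
    apply Finset.Icc_subset_Icc le_rfl
    intro i
    show (2:ℤ) ≤ K
    omega
  have l0 : ∀ W : Finset Pt, W0 ⊆ W → ∀ F, Suf B0 (Yy e) D K 3 F ↔ Suf B0 (Yy e) D K 3 (F ∩ W) :=
    fun W hW F => Suf_local_sup (Λ := L0 D e) B0_L0 Yy_L0 hg.DK h3K hW F
  have l1 : ∀ W : Finset Pt, W1 ⊆ W → ∀ F, Suf (B1 cap) NoY NoD K 3 F ↔ Suf (B1 cap) NoY NoD K 3 (F ∩ W) :=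
    fun W hW F => Suf_local_sup (Λ := B1 cap) (fun _ => Finset.Subset.refl _) (fun _ h => h.elim) (fun _ h => h.elim) h3K hW F
  have l2 : ∀ W : Finset Pt, W2 ⊆ W → ∀ F, Suf (B2 cap) NoY NoD K 3 F ↔ Suf (B2 cap) NoY NoD K 3 (F ∩ W) :=
    fun W hW F => Suf_local_sup (Λ := B2 cap) (fun _ => Finset.Subset.refl _) (fun _ h => h.elim) (fun _ h => h.elim) h3K hW F
  have e12 : Pr (fun _ => p) S (fun F => Suf (B1 cap) NoY NoD K 3 F ∧ Suf (B2 cap) NoY NoD K 3 F)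
      = Pr (fun _ => p) S (Suf (B1 cap) NoY NoD K 3) * Pr (fun _ => p) S (Suf (B2 cap) NoY NoD K 3) :=
    Pr_indep (p := fun _ => p) s1 s2 d12 (fun F _ => l1 W1 (Finset.Subset.refl _) F)
      (fun F _ => l2 W2 (Finset.Subset.refl _) F)
  have e012 : Pr (fun _ => p) S (fun F => Suf B0 (Yy e) D K 3 F ∧
      (Suf (B1 cap) NoY NoD K 3 F ∧ Suf (B2 cap) NoY NoD K 3 F))
      = Pr (fun _ => p) S (Suf B0 (Yy e) D K 3) *
        Pr (fun _ => p) S (fun F => Suf (B1 cap) NoY NoD K 3 F ∧ Suf (B2 cap) NoY NoD K 3 F) :=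
    Pr_indep (p := fun _ => p) s0 (Finset.union_subset s1 s2)
      (Finset.disjoint_union_right.2 ⟨d01 hg, d02 hg⟩) (A := Suf B0 (Yy e) D K 3)
      (B := fun F => Suf (B1 cap) NoY NoD K 3 F ∧ Suf (B2 cap) NoY NoD K 3 F)
      (fun F _ => l0 W0 (Finset.Subset.refl _) F)
      (fun F _ => by
        show (Suf (B1 cap) NoY NoD K 3 F ∧ Suf (B2 cap) NoY NoD K 3 F) ↔
          (Suf (B1 cap) NoY NoD K 3 (F ∩ (W1 ∪ W2)) ∧ Suf (B2 cap) NoY NoD K 3 (F ∩ (W1 ∪ W2)))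
        rw [← l1 (W1 ∪ W2) Finset.subset_union_left F, ← l2 (W1 ∪ W2) Finset.subset_union_right F])
  have eall : Pr (fun _ => p) S (Ev D e cap K)
      = Pr (fun _ => p) S (fun F => Finset.Icc (1 : Pt) (fun _ => 2) ⊆ F) *
        Pr (fun _ => p) S (fun F => Suf B0 (Yy e) D K 3 F ∧
      (Suf (B1 cap) NoY NoD K 3 F ∧ Suf (B2 cap) NoY NoD K 3 F)) :=
    Pr_indep (p := fun _ => p) sS (Finset.union_subset s0 (Finset.union_subset s1 s2)) dS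
      (A := fun F => Finset.Icc (1 : Pt) (fun _ => 2) ⊆ F)
      (B := fun F => Suf B0 (Yy e) D K 3 F ∧
      (Suf (B1 cap) NoY NoD K 3 F ∧ Suf (B2 cap) NoY NoD K 3 F))
      (fun F _ => by
        constructor
        · intro h x hx; exact Finset.mem_inter.2 ⟨h hx, hx⟩
        · intro h x hx; exact (Finset.mem_inter.1 (h hx)).1)
      (fun F _ => by
        show (Suf B0 (Yy e) D K 3 F ∧ (Suf (B1 cap) NoY NoD K 3 F ∧ Suf (B2 cap) NoY NoD K 3 F)) ↔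
          (Suf B0 (Yy e) D K 3 (F ∩ (W0 ∪ (W1 ∪ W2))) ∧ (Suf (B1 cap) NoY NoD K 3 (F ∩ (W0 ∪ (W1 ∪ W2))) ∧
            Suf (B2 cap) NoY NoD K 3 (F ∩ (W0 ∪ (W1 ∪ W2)))))
        rw [← l0 (W0 ∪ (W1 ∪ W2)) Finset.subset_union_left F,
          ← l1 (W0 ∪ (W1 ∪ W2)) (Finset.subset_union_left.trans Finset.subset_union_right) F,
          ← l2 (W0 ∪ (W1 ∪ W2)) (Finset.subset_union_right.trans Finset.subset_union_right) F])
  rw [eall, e012, e12, Pr_full p sS]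
  congr 2

/-- the event implies that the cube is spanned -/
theorem Ev_spn (hg : Good D e cap K) {F : Finset Pt} (hF : F ⊆ Finset.Icc (1 : Pt) (fun _ => (K : ℤ)))
    (h : Ev D e cap K F) : Spn (1 : Pt) (fun _ => (K : ℤ)) F := by
  obtain ⟨h0, ⟨s0, s0K⟩, ⟨s1, s1K⟩, ⟨s2, s2K⟩⟩ := h
  have h3K := hg.h3K
  have hFs : (F : Set Pt) ∩ Set.Icc (1 : Pt) (fun _ => (K : ℤ)) = F := by
    apply Set.inter_eq_left.2
    intro x hx
    exact Finset.mem_Icc.1 (hF hx)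
  unfold Spn
  rw [hFs]
  have hsub := subset_Cl (F : Set Pt)
  have x0 : ∀ n, Xh B0 n F → XX0 (Cl (F : Set Pt)) n := by
    rintro n ⟨x, hx⟩
    rw [Finset.mem_inter] at hx
    exact ⟨x, hsub hx.1, mem_B0.1 hx.2⟩
  have x1 : ∀ n, Xh (B1 cap) n F → XX1 (Cl (F : Set Pt)) (fun n => (cap n : ℤ)) n := by
    rintro n ⟨x, hx⟩
    rw [Finset.mem_inter] at hx
    exact ⟨x, hsub hx.1, mem_B1.1 hx.2⟩
  have x2 : ∀ n, Xh (B2 cap) n F → XX2 (Cl (F : Set Pt)) (fun n => (cap n : ℤ)) n := by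
    rintro n ⟨x, hx⟩
    rw [Finset.mem_inter] at hx
    exact ⟨x, hsub hx.1, mem_B2.1 hx.2⟩
  refine det_growth (Cl_closed _) h3K (fun n => (cap n : ℤ)) D e ?_ ?_ (x0 K s0K) ?_ ?_ (x1 K s1K) ?_ (x2 K s2K)
    ?_ ?_
  · intro x hx
    exact hsub (h0 (Finset.mem_Icc.2 hx))
  · intro n hn hnK hDn
    have hc := s0 n hn hnK
    by_cases hD : D n
    · exact Or.inl (x0 n (hc.1 hD).1)
    · rcases hc.2 hD (fun j' hj' hne => hDn (by rw [hne]; simpa using hj')) with h | h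
      · exact Or.inl (x0 n h)
      · exact Or.inr (x0 _ h)
  · intro n hDn
    have h1 := hg.DK n hDn
    refine ⟨by omega, hg.eK n hDn, ?_⟩
    have hc := (s0 n (hg.D3 n hDn) (by omega)).1 hDn
    obtain ⟨x, hx⟩ := hc.2.2.2.1
    rw [Finset.mem_inter] at hx
    exact ⟨x, hsub hx.1, (mem_Yy.1 hx.2).1⟩
  · intro n hn hnK
    rcases (s1 n hn hnK).2 id (fun _ h => h.elim) with h | h
    · exact Or.inl (x1 n h)
    · exact Or.inr (x1 _ h)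
  · intro n hn hnK
    rcases (s2 n hn hnK).2 id (fun _ h => h.elim) with h | h
    · exact Or.inl (x2 n h)
    · exact Or.inr (x2 _ h)
  · intro n hn
    have := hg.cap2 n hn
    show (cap n : ℤ) ≤ n - 2
    omega
  · intro n0 hD n hn hne
    have := hg.capD n0 hD n hn hne
    show (cap n : ℤ) ≤ n0
    omega

/-- the set of gaps is determined by the configuration -/
theorem Ev_det (hg : Good D e cap K) {F : Finset Pt} (h : Ev D e cap K F) (j : ℕ) (hj : 3 ≤ j)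
    (hjK : j + 1 < K) : D j ↔ (¬ Xh B0 (j + 1) F ∧ ¬ Xh B0 (j + 2) F) := by
  obtain ⟨_, ⟨s0, s0K⟩, _⟩ := h
  constructor
  · intro hD
    have := (s0 j hj (by omega)).1 hD
    exact ⟨this.2.1, this.2.2.1⟩
  · rintro ⟨h1, h2⟩
    by_contra hD
    have hD1 : ¬ D (j + 1) := by
      intro h3
      exact h1 ((s0 (j+1) (by omega) hjK).1 h3).1
    rcases (s0 (j+1) (by omega) hjK).2 hD1 (fun j' hj' hne => hD (by rw [show j = j' by omega]; exact hj')) with h | h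
    · exact h1 h
    · exact h2 h

end

end Pool.Agent.H97.BP
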