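import Mathlib

/-!
# Bootstrap percolation on the cubic lattice, threshold two: the rate function

`gr z` is the rate of having no two consecutive empty layers when a layer is empty with
probability `exp (-z)`.
-/

set_option autoImplicit false

namespace Pool.Agent.H97.BP

open Real Filter Topology

/-- `√(1 + 4 / (e^z - 1))` -/
noncomputable def rr (z : ℝ) : ℝ := Real.sqrt (1 + 4 / (Real.exp z - 1))

/-- the rate function -/
noncomputable def gr (z : ℝ) : ℝ := Real.log ((rr z ^ 2 + 3) / (2 * (rr z + 1)))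

/-- probability that a layer is not empty -/
noncomputable def fo (z : ℝ) : ℝ := 1 - Real.exp (-z)

/-- growth rate of the probability of having no double gap -/
noncomputable def be (z : ℝ) : ℝ := Real.exp (-gr z)

theorem exp_sub_one_pos {z : ℝ} (hz : 0 < z) : 0 < Real.exp z - 1 := by
  have := Real.add_one_lt_exp hz.ne'
  linarith

theorem le_exp_sub_one {z : ℝ} : z ≤ Real.exp z - 1 := by
  have := Real.add_one_le_exp z
  linarith

theorem rr_sq {z : ℝ} (hz : 0 < z) : rr z ^ 2 = 1 + 4 / (Real.exp z - 1) := by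
  unfold rr
  have := exp_sub_one_pos hz
  rw [Real.sq_sqrt (by positivity)]

theorem one_lt_rr {z : ℝ} (hz : 0 < z) : 1 < rr z := by
  have h1 := rr_sq hz
  have h2 := exp_sub_one_pos hz
  have h3 : 0 < 4 / (Real.exp z - 1) := by positivity
  have h4 : 0 ≤ rr z := Real.sqrt_nonneg _
  nlinarith

theorem exp_eq_rr {z : ℝ} (hz : 0 < z) : Real.exp z = (rr z ^ 2 + 3) / (rr z ^ 2 - 1) := by
  have h1 := rr_sq hz
  have h2 := exp_sub_one_pos hz
  rw [h1]
  field_simp
  ring

theorem rr_anti {x y : ℝ} (hx : 0 < x) (hxy : x ≤ y) : rr y ≤ rr x := by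
  unfold rr
  have h2 := exp_sub_one_pos hx
  have h3 : Real.exp x ≤ Real.exp y := Real.exp_le_exp.2 hxy
  apply Real.sqrt_le_sqrt
  gcongr

theorem gr_nonneg {z : ℝ} (hz : 0 < z) : 0 ≤ gr z := by
  have h := one_lt_rr hz
  unfold gr
  apply Real.log_nonneg
  rw [le_div_iff₀ (by positivity)]
  nlinarith [sq_nonneg (rr z - 1)]

theorem gr_pos {z : ℝ} (hz : 0 < z) : 0 < gr z := by
  have h := one_lt_rr hz
  unfold gr
  apply Real.log_pos
  rw [lt_div_iff₀ (by positivity)]
  nlinarith [sq_pos_of_pos (sub_pos.2 h)]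

theorem be_eq {z : ℝ} (hz : 0 < z) : be z = 2 * (rr z + 1) / (rr z ^ 2 + 3) := by
  have h := one_lt_rr hz
  unfold be gr
  rw [← Real.log_inv, Real.exp_log (by positivity), inv_div]

theorem fo_eq {z : ℝ} (hz : 0 < z) : fo z = 4 / (rr z ^ 2 + 3) := by
  unfold fo
  rw [Real.exp_neg, exp_eq_rr hz]
  have h := one_lt_rr hz
  have h1 : 0 < rr z ^ 2 - 1 := by nlinarith
  field_simp
  ring

theorem fo_pos {z : ℝ} (hz : 0 < z) : 0 < fo z := by
  rw [fo_eq hz]; positivity

theorem fo_lt_one (z : ℝ) : fo z < 1 := by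
  unfold fo
  have := Real.exp_pos (-z)
  linarith

theorem be_pos (z : ℝ) : 0 < be z := Real.exp_pos _

theorem be_le_one {z : ℝ} (hz : 0 < z) : be z ≤ 1 := by
  unfold be
  rw [Real.exp_le_one_iff]
  have := gr_nonneg hz
  linarith

/-- the characteristic equation -/
theorem be_char {z : ℝ} (hz : 0 < z) : be z ^ 2 = fo z * be z + (1 - fo z) * fo z := by
  rw [be_eq hz, fo_eq hz]
  have h := one_lt_rr hz
  field_simp
  ring

theorem be_char' {z : ℝ} (hz : 0 < z) : fo z / be z + (1 - fo z) * fo z / be z ^ 2 = 1 := by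
  have h1 := be_char hz
  have h2 := be_pos z
  field_simp
  linarith

theorem fo_le_be {z : ℝ} (hz : 0 < z) : fo z ≤ be z := by
  rw [be_eq hz, fo_eq hz]
  have h := one_lt_rr hz
  gcongr
  linarith

theorem fo_mono {x y : ℝ} (hxy : x ≤ y) : fo x ≤ fo y := by
  unfold fo
  have : Real.exp (-y) ≤ Real.exp (-x) := Real.exp_le_exp.2 (by linarith)
  linarith

/-- `fo / be` is increasing -/
theorem fo_div_be {z : ℝ} (hz : 0 < z) : fo z / be z = 2 / (rr z + 1) := by
  rw [be_eq hz, fo_eq hz]
  have h := one_lt_rr hz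
  field_simp
  ring

theorem fo_div_be_mono {x y : ℝ} (hx : 0 < x) (hxy : x ≤ y) : fo x / be x ≤ fo y / be y := by
  rw [fo_div_be hx, fo_div_be (hx.trans_le hxy)]
  have h := one_lt_rr (hx.trans_le hxy)
  have h2 := rr_anti hx hxy
  gcongr

theorem fo_div_be_le_one {x : ℝ} (hx : 0 < x) : fo x / be x ≤ 1 := by
  rw [div_le_one (be_pos x)]
  exact fo_le_be hx

/-! ### derivative -/

theorem hasDerivAt_rr {z : ℝ} (hz : 0 < z) :
    HasDerivAt rr (-((rr z ^ 2 + 3) * (rr z ^ 2 - 1) / (8 * rr z))) z := by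
  have h2 := exp_sub_one_pos hz
  have h1 : HasDerivAt (fun z : ℝ => 1 + 4 / (Real.exp z - 1))
      (-(4 * Real.exp z) / (Real.exp z - 1) ^ 2) z := by
    have ha : HasDerivAt (fun z : ℝ => Real.exp z - 1) (Real.exp z) z :=
      (Real.hasDerivAt_exp z).sub_const 1
    have hb := (ha.inv h2.ne').const_mul 4
    have hc := hb.const_add 1
    refine (hc.congr_deriv ?_).congr_of_eventuallyEq ?_
    · ring
    · filter_upwards with x
      simp [div_eq_mul_inv]
  have h3 : (1 + 4 / (Real.exp z - 1)) ≠ 0 := by positivity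
  have h4 := h1.sqrt h3
  refine (h4.congr_deriv ?_)
  have h5 : Real.sqrt (1 + 4 / (Real.exp z - 1)) = rr z := rfl
  rw [h5]
  have h6 := one_lt_rr hz
  have h7 : 0 < rr z ^ 2 - 1 := by nlinarith
  rw [exp_eq_rr hz]
  have h8 : (rr z ^ 2 + 3) / (rr z ^ 2 - 1) - 1 = 4 / (rr z ^ 2 - 1) := by
    field_simp
    ring
  rw [h8]
  field_simp
  ring

/-- the derivative of `gr` in terms of `rr` -/
noncomputable def dg (r : ℝ) : ℝ := (r - 1) ^ 2 * (r + 3) / (8 * r)

theorem hasDerivAt_gr {z : ℝ} (hz : 0 < z) : HasDerivAt gr (-(dg (rr z))) z := by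
  have h := one_lt_rr hz
  have hr := hasDerivAt_rr hz
  have h1 : HasDerivAt (fun x => (rr x ^ 2 + 3) / (2 * (rr x + 1))) _ z :=
    ((hr.pow 2).add_const 3).div ((hr.add_const 1).const_mul 2) (by positivity)
  have h2 := h1.log (by positivity)
  refine h2.congr_deriv ?_
  unfold dg
  have h3 : rr z + 1 ≠ 0 := by positivity
  have h4 : rr z ≠ 0 := by positivity
  have h5 : rr z ^ 2 + 3 ≠ 0 := by positivity
  simp only [Pi.pow_apply]
  field_simp
  ring

theorem dg_nonneg {r : ℝ} (hr : 1 ≤ r) : 0 ≤ dg r := by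
  unfold dg
  have : 0 < r := by linarith
  positivity

theorem dg_mono {r s : ℝ} (hr : 1 ≤ r) (hrs : r ≤ s) : dg r ≤ dg s := by
  unfold dg
  have h0 : 0 < r := by linarith
  have h1 : 0 < s := by linarith
  rw [div_le_div_iff₀ (by positivity) (by positivity)]
  have key : (s - 1) ^ 2 * (s + 3) * r - (r - 1) ^ 2 * (r + 3) * s
      = (s - r) * (r * s * (s + r) + r * s - 3) := by ring
  have h2 : 0 ≤ r * s * (s + r) + r * s - 3 := by
    have : 1 ≤ r * s := by nlinarith
    nlinarith
  nlinarith [mul_nonneg (sub_nonneg.2 hrs) h2]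

theorem gr_anti {x y : ℝ} (hx : 0 < x) (hxy : x ≤ y) : gr y ≤ gr x := by
  have h : AntitoneOn gr (Set.Ioi 0) := by
    apply antitoneOn_of_deriv_nonpos (convex_Ioi 0)
    · intro z hz
      exact (hasDerivAt_gr hz).continuousAt.continuousWithinAt
    · intro z hz
      rw [interior_Ioi] at hz
      exact (hasDerivAt_gr hz).differentiableAt.differentiableWithinAt
    · intro z hz
      rw [interior_Ioi] at hz
      rw [(hasDerivAt_gr hz).deriv]
      have := dg_nonneg (one_lt_rr hz).le
      linarith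
  exact h hx (hx.trans_le hxy : (0:ℝ) < y) hxy

theorem be_mono {x y : ℝ} (hx : 0 < x) (hxy : x ≤ y) : be x ≤ be y := by
  unfold be
  have := gr_anti hx hxy
  exact Real.exp_le_exp.2 (by linarith)

/-- increments of `gr` decrease -/
theorem gr_conv {x y h : ℝ} (hx : 0 < x) (hxy : x ≤ y) (hh : 0 ≤ h) :
    gr y - gr (y + h) ≤ gr x - gr (x + h) := by
  have key : AntitoneOn (fun t => gr t - gr (t + h)) (Set.Ioi 0) := by
    have hd : ∀ z : ℝ, 0 < z → HasDerivAt (fun t => gr t - gr (t + h))
        (-(dg (rr z)) - -(dg (rr (z + h)))) z := by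
      intro z hz
      have h1 := hasDerivAt_gr hz
      have h2 : HasDerivAt (fun t => gr (t + h)) (-(dg (rr (z + h)))) z := by
        have h3 := (hasDerivAt_gr (by linarith : 0 < z + h))
        exact h3.comp_add_const z h
      exact h1.sub h2
    apply antitoneOn_of_deriv_nonpos (convex_Ioi 0)
    · intro z hz
      exact (hd z hz).continuousAt.continuousWithinAt
    · intro z hz
      rw [interior_Ioi] at hz
      exact (hd z hz).differentiableAt.differentiableWithinAt
    · intro z hz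
      rw [interior_Ioi] at hz
      rw [(hd z hz).deriv]
      have hz' : (0:ℝ) < z := hz
      have := dg_mono (one_lt_rr (by linarith : 0 < z + h)).le (rr_anti hz' (by linarith : z ≤ z + h))
      linarith
  exact key hx (hx.trans_le hxy : (0:ℝ) < y) hxy

/-- Lipschitz bound -/
theorem gr_lip {x y Z : ℝ} (hZ : 0 < Z) (hx : Z ≤ x) (hxy : x ≤ y) :
    gr x - gr y ≤ dg (rr Z) * (y - x) := by
  have key : MonotoneOn (fun t => gr t + dg (rr Z) * t) (Set.Ici Z) := by
    have hd : ∀ z : ℝ, 0 < z → HasDerivAt (fun t => gr t + dg (rr Z) * t)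
        (-(dg (rr z)) + dg (rr Z)) z := by
      intro z hz
      have h1 := hasDerivAt_gr hz
      have h2 := (hasDerivAt_id z).const_mul (dg (rr Z))
      exact (h1.add h2).congr_deriv (by simp)
    apply monotoneOn_of_deriv_nonneg (convex_Ici Z)
    · intro z hz
      exact (hd z (hZ.trans_le hz)).continuousAt.continuousWithinAt
    · intro z hz
      rw [interior_Ici] at hz
      exact (hd z (hZ.trans hz)).differentiableAt.differentiableWithinAt
    · intro z hz
      rw [interior_Ici] at hz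
      have hz' : Z < z := hz
      rw [(hd z (hZ.trans hz')).deriv]
      have := dg_mono (one_lt_rr (hZ.trans hz')).le (rr_anti hZ hz'.le)
      linarith
  have := key (show x ∈ Set.Ici Z from hx) (show y ∈ Set.Ici Z from hx.trans hxy) hxy
  simp only at this
  nlinarith

theorem continuousAt_gr {z : ℝ} (hz : 0 < z) : ContinuousAt gr z :=
  (hasDerivAt_gr hz).continuousAt

/-- `gr z ≤ log (1 + 1/z)` -/
theorem gr_le_log {z : ℝ} (hz : 0 < z) : gr z ≤ Real.log (1 + 1 / z) := by
  have h1 := fo_le_be hz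
  have h2 := fo_pos hz
  have h3 : gr z = -Real.log (be z) := by unfold be; rw [Real.log_exp]; ring
  have h4 : Real.log (fo z) ≤ Real.log (be z) := Real.log_le_log h2 h1
  have h5 : -Real.log (fo z) ≤ Real.log (1 + 1 / z) := by
    rw [← Real.log_inv]
    apply Real.log_le_log (by positivity)
    unfold fo
    have h6 := exp_sub_one_pos hz
    have h7 : (1 - Real.exp (-z))⁻¹ = 1 + 1 / (Real.exp z - 1) := by
      rw [Real.exp_neg]
      have := Real.exp_pos z
      field_simp
      ring
    rw [h7]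
    have := @le_exp_sub_one z
    gcongr
  linarith

theorem gr_le_inv {z : ℝ} (hz : 0 < z) : gr z ≤ 1 / z := by
  refine (gr_le_log hz).trans ?_
  have := Real.log_le_sub_one_of_pos (show 0 < 1 + 1 / z by positivity)
  linarith

/-- `gr z → ∞` as `z → 0` -/
theorem gr_large (M : ℝ) : ∃ z₀ : ℝ, 0 < z₀ ∧ ∀ z : ℝ, 0 < z → z ≤ z₀ → M ≤ gr z := by
  refine ⟨Real.log (1 + 4 / (2 * Real.exp |M| + 1) ^ 2), ?_, ?_⟩
  · apply Real.log_pos
    have : 0 < 4 / (2 * Real.exp |M| + 1) ^ 2 := by positivity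
    linarith
  · intro z hz hle
    have h1 : Real.exp z ≤ 1 + 4 / (2 * Real.exp |M| + 1) ^ 2 := by
      rw [← Real.exp_log (show 0 < 1 + 4 / (2 * Real.exp |M| + 1) ^ 2 by positivity)]
      exact Real.exp_le_exp.2 hle
    have h2 := exp_sub_one_pos hz
    have h3 : (2 * Real.exp |M| + 1) ^ 2 ≤ 4 / (Real.exp z - 1) := by
      rw [le_div_iff₀ h2]
      have h4 : Real.exp z - 1 ≤ 4 / (2 * Real.exp |M| + 1) ^ 2 := by linarith
      have h5 : 0 < (2 * Real.exp |M| + 1) ^ 2 := by positivity
      rw [le_div_iff₀ h5] at h4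
      linarith
    have h6 : 2 * Real.exp |M| + 1 ≤ rr z := by
      unfold rr
      apply Real.le_sqrt_of_sq_le
      linarith
    have h7 := one_lt_rr hz
    unfold gr
    rw [Real.le_log_iff_exp_le (by positivity)]
    have h8 : Real.exp M ≤ Real.exp |M| := Real.exp_le_exp.2 (le_abs_self M)
    have h9 : (rr z - 1) / 2 ≤ (rr z ^ 2 + 3) / (2 * (rr z + 1)) := by
      rw [div_le_div_iff₀ (by norm_num) (by positivity)]
      nlinarith
    have := Real.exp_pos |M|
    linarith

end Pool.Agent.H97.BP
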