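import Pool.Agent.H974R2.BK
import Pool.Agent.H97.BP.Gf

/-!
# Probability tools for bootstrap percolation
-/

set_option autoImplicit false

namespace Pool.Agent.H97.BP

open Finset H974

section

variable {E : Type*} [DecidableEq E]

theorem Pr_exists_le {p : E → ℝ} (hp : Ok p) (S : Finset E) {ι : Type*}
    (T : Finset ι) (A : ι → Finset E → Prop) :
    Pr p S (fun F => ∃ i ∈ T, A i F) ≤ ∑ i ∈ T, Pr p S (A i) := by
  classical
  unfold Pr
  rw [← Ex_sum]
  apply Ex_mono hp
  intro F _
  by_cases h : ∃ i ∈ T, A i F
  · rw [ind_of h]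
    obtain ⟨i, hi, hA⟩ := h
    calc (1:ℝ) = ind (A i F) := (ind_of hA).symm
      _ ≤ ∑ j ∈ T, ind (A j F) := Finset.single_le_sum (f := fun j => ind (A j F))
          (fun j _ => ind_nonneg _) hi
  · rw [ind_not_of h]
    exact Finset.sum_nonneg (fun j _ => ind_nonneg _)

theorem Pr_forall {p : E → ℝ} {S : Finset E} {ι : Type*} [DecidableEq ι] (T : Finset ι)
    (W : ι → Finset E) (A : ι → Finset E → Prop) (hW : ∀ i ∈ T, W i ⊆ S)
    (hd : ∀ i ∈ T, ∀ j ∈ T, i ≠ j → Disjoint (W i) (W j))
    (hA : ∀ i ∈ T, ∀ F, F ⊆ S → (A i F ↔ A i (F ∩ W i))) :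
    Pr p S (fun F => ∀ i ∈ T, A i F) = ∏ i ∈ T, Pr p S (A i) := by
  induction T using Finset.induction_on with
  | empty => simp only [Finset.notMem_empty, false_imp_iff, implies_true, Finset.prod_empty]
             exact Pr_true S (fun F _ => trivial)
  | insert a T ha ih =>
    rw [Finset.prod_insert ha, ← ih (fun i hi => hW i (Finset.mem_insert_of_mem hi))
      (fun i hi j hj => hd i (Finset.mem_insert_of_mem hi) j (Finset.mem_insert_of_mem hj))
      (fun i hi => hA i (Finset.mem_insert_of_mem hi))]
    rw [← Pr_indep (S := W a) (T := T.biUnion W) (U := S) (hW a (Finset.mem_insert_self a T))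
      (Finset.biUnion_subset.2 (fun i hi => hW i (Finset.mem_insert_of_mem hi)))]
    · apply Pr_congr
      intro F _
      simp only [Finset.mem_insert, forall_eq_or_imp]
    · rw [Finset.disjoint_biUnion_right]
      intro i hi
      exact hd a (Finset.mem_insert_self a T) i (Finset.mem_insert_of_mem hi)
        (fun h => ha (h ▸ hi))
    · exact hA a (Finset.mem_insert_self a T)
    · intro F hF
      have key : ∀ i ∈ T, (A i F ↔ A i (F ∩ T.biUnion W)) := by
        intro i hi
        rw [hA i (Finset.mem_insert_of_mem hi) F hF,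
          hA i (Finset.mem_insert_of_mem hi) (F ∩ T.biUnion W) (Finset.inter_subset_left.trans hF),
          Finset.inter_assoc, Finset.inter_eq_right.2 (Finset.subset_biUnion_of_mem W hi)]
      constructor
      · intro h i hi
        exact (key i hi).1 (h i hi)
      · intro h i hi
        exact (key i hi).2 (h i hi)

theorem Ex_pow_card (p c : ℝ) (S : Finset E) :
    Ex (fun _ => p) S (fun F => c ^ F.card) = (1 - p + p * c) ^ S.card := by
  induction S using Finset.induction_on with
  | empty => simp [Ex_empty]
  | insert a S ha ih =>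
    rw [Ex_insert _ ha, ih, Finset.card_insert_of_notMem ha]
    have : Ex (fun _ => p) S (fun F => c ^ (insert a F).card)
        = Ex (fun _ => p) S (fun F => c * c ^ F.card) := by
      apply Ex_congr
      intro F hF
      rw [Finset.card_insert_of_notMem (fun h => ha (hF h)), pow_succ, mul_comm]
    rw [this, Ex_mul_left, ih]
    ring

omit [DecidableEq E] in
theorem okc {p : ℝ} (h0 : 0 ≤ p) (h1 : p ≤ 1) : Ok (fun _ : E => p) := fun _ => ⟨h0, h1⟩

theorem Pr_empty_inter (p : ℝ) {S B : Finset E} (hB : B ⊆ S) :
    Pr (fun _ => p) S (fun F => F ∩ B = ∅) = (1 - p) ^ B.card := by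
  rw [Pr_local (S' := B) hB]
  · unfold Pr
    rw [Ex_congr (g := fun F => (0:ℝ) ^ F.card)]
    · rw [Ex_pow_card]; simp
    · intro F hF
      show ind (F ∩ B = ∅) = _
      rw [Finset.inter_eq_left.2 hF]
      by_cases h : F = ∅
      · rw [ind_of h, h]; simp
      · rw [ind_not_of h, zero_pow]
        rwa [Ne, Finset.card_eq_zero]
  · intro F _
    rw [Finset.inter_assoc, Finset.inter_self]

theorem Pr_hit (p : ℝ) {S B : Finset E} (hB : B ⊆ S) :
    Pr (fun _ => p) S (fun F => (F ∩ B).Nonempty) = 1 - (1 - p) ^ B.card := by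
  rw [← Pr_empty_inter p hB, ← Pr_not]
  apply Pr_congr
  intro F _
  rw [Finset.nonempty_iff_ne_empty]

/-- no two consecutive empty layers, with some layers declared occupied -/
def NG (B : ℕ → Finset E) (Fr : ℕ → Prop) (n : ℕ) (F : Finset E) : Prop :=
  ∀ t, t + 1 < n → (Fr t ∨ (F ∩ B t).Nonempty) ∨ (Fr (t + 1) ∨ (F ∩ B (t + 1)).Nonempty)

theorem NG_local (B : ℕ → Finset E) (Fr : ℕ → Prop) (n : ℕ) (W : Finset E)
    (hW : ∀ t < n, B t ⊆ W) (F : Finset E) : NG B Fr n F ↔ NG B Fr n (F ∩ W) := by
  have key : ∀ t < n, F ∩ B t = F ∩ W ∩ B t := by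
    intro t ht
    rw [Finset.inter_assoc, Finset.inter_eq_right.2 (hW t ht)]
  unfold NG
  constructor
  · intro h t ht
    rw [← key t (by omega), ← key (t+1) ht]; exact h t ht
  · intro h t ht
    rw [key t (by omega), key (t+1) ht]; exact h t ht

open Classical in
/-- the number of free layers -/
noncomputable def nfr (Fr : ℕ → Prop) (n : ℕ) : ℕ := ((range n).filter Fr).card

theorem nfr_le_card {Fr : ℕ → Prop} {n : ℕ} (T : Finset ℕ) (h : ∀ t < n, Fr t → t ∈ T) :
    nfr Fr n ≤ T.card := by
  classical
  unfold nfr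
  apply Finset.card_le_card
  intro t ht
  simp only [Finset.mem_filter, Finset.mem_range] at ht
  exact h t ht.1 ht.2

theorem nfr_succ_of {Fr : ℕ → Prop} {n : ℕ} (h : Fr n) : nfr Fr (n + 1) = nfr Fr n + 1 := by
  classical
  unfold nfr
  rw [Finset.range_add_one, Finset.filter_insert, if_pos h, Finset.card_insert_of_notMem (by simp)]

theorem nfr_succ_not {Fr : ℕ → Prop} {n : ℕ} (h : ¬ Fr n) : nfr Fr (n + 1) = nfr Fr n := by
  classical
  unfold nfr
  rw [Finset.range_add_one, Finset.filter_insert, if_neg h]

/-- the gap bound -/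
theorem gap_bound {p : ℝ} (h0 : 0 ≤ p) (h1 : p ≤ 1) {S : Finset E} (B : ℕ → Finset E)
    (Fr : ℕ → Prop) (N : ℕ) (hB : ∀ t < N, B t ⊆ S)
    (hd : ∀ s < N, ∀ t < N, s ≠ t → Disjoint (B s) (B t)) {z : ℝ} (hz : 0 < z)
    (hf : ∀ t < N, 1 - (1 - p) ^ (B t).card ≤ fo z) :
    ∀ n, n ≤ N → Pr (fun _ => p) S (NG B Fr n) ≤ (fo z)⁻¹ ^ (nfr Fr n) * be z ^ n / be z := by
  have hfo := fo_pos hz
  have hbe := be_pos z
  have hbe1 := be_le_one hz
  have hfb := fo_le_be hz
  have hch := be_char hz
  have hok := okc (E := E) h0 h1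
  have hfl := fo_lt_one z
  -- both statements for `n` and `n+1`
  have main : ∀ n, (n ≤ N → Pr (fun _ => p) S (NG B Fr n) ≤ (fo z)⁻¹ ^ (nfr Fr n) * be z ^ n / be z) ∧
      (n + 1 ≤ N → Pr (fun _ => p) S (NG B Fr (n+1)) ≤ (fo z)⁻¹ ^ (nfr Fr (n+1)) * be z ^ (n+1) / be z) := by
    intro n
    induction n with
    | zero =>
      have h2 : 1 ≤ (fo z)⁻¹ := (one_le_inv₀ hfo).2 hfl.le
      constructor
      · intro _
        have : nfr Fr 0 = 0 := by simp [nfr]
        rw [this, pow_zero, pow_zero, one_mul]
        refine (Pr_le_one hok S _).trans ?_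
        rw [le_div_iff₀ hbe]; linarith
      · intro _
        refine (Pr_le_one hok S _).trans ?_
        rw [zero_add, pow_one, mul_div_assoc, div_self hbe.ne', mul_one]
        exact one_le_pow₀ h2
    | succ n ih =>
      refine ⟨ih.2, ?_⟩
      intro hn
      have i0 := ih.1 (by omega)
      have i1 := ih.2 (by omega)
      set T := Pr (fun _ => p) S (NG B Fr (n+1)) with hT
      set P := Pr (fun _ => p) S (NG B Fr n) with hP
      set Q := (fo z)⁻¹ ^ (nfr Fr (n+1)) * be z ^ (n+1) / be z with hQ
      have hT0 : 0 ≤ T := Pr_nonneg hok _ _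
      have hP0 : 0 ≤ P := Pr_nonneg hok _ _
      have hQ0 : 0 ≤ Q := by positivity
      have hsucc : ∀ F, NG B Fr (n+1+1) F → NG B Fr (n+1) F := fun F h t ht => h t (by omega)
      by_cases hfr : Fr (n+1)
      · rw [nfr_succ_of hfr]
        have e1 : Pr (fun _ => p) S (NG B Fr (n+1+1)) ≤ T := Pr_mono hok (fun F _ h => hsucc F h)
        refine e1.trans (i1.trans ?_)
        have : (fo z)⁻¹ ^ (nfr Fr (n+1) + 1) * be z ^ (n+1+1) / be z = Q * (be z / fo z) := by
          rw [hQ, pow_succ, pow_succ (be z)]
          field_simp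
        rw [this]
        have : 1 ≤ be z / fo z := by rw [le_div_iff₀ hfo]; linarith
        nlinarith
      · -- the top layer is not free
        rw [nfr_succ_not hfr]
        set x := 1 - (1 - p) ^ (B (n+1)).card with hx
        have hx0 : 0 ≤ x := by
          rw [hx]; linarith [pow_le_one₀ (n := (B (n+1)).card) (by linarith : 0 ≤ 1 - p) (by linarith : 1 - p ≤ 1)]
        have hx1 : x ≤ 1 := by
          rw [hx]; linarith [pow_nonneg (by linarith : 0 ≤ 1 - p) (B (n+1)).card]
        have hxf : x ≤ fo z := hf _ (by omega)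
        set W := (range (n+1)).biUnion B with hW
        have hWS : W ⊆ S := Finset.biUnion_subset.2 (fun t ht => hB t (by have := Finset.mem_range.1 ht; omega))
        have hBW : Disjoint W (B (n+1)) := by
          rw [hW, Finset.disjoint_biUnion_left]
          intro t ht
          have := Finset.mem_range.1 ht
          exact hd t (by omega) (n+1) (by omega) (by omega)
        have hlocN : ∀ F, F ⊆ S → (NG B Fr (n+1) F ↔ NG B Fr (n+1) (F ∩ W)) := by
          intro F _
          exact NG_local B Fr (n+1) W (fun t ht => Finset.subset_biUnion_of_mem B (Finset.mem_range.2 ht)) F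
        have hlocH : ∀ F, F ⊆ S → ((F ∩ B (n+1)).Nonempty ↔ (F ∩ B (n+1) ∩ B (n+1)).Nonempty) := by
          intro F _
          rw [Finset.inter_assoc, Finset.inter_self]
        have hlocH' : ∀ F, F ⊆ S → (¬ (F ∩ B (n+1)).Nonempty ↔ ¬ (F ∩ B (n+1) ∩ B (n+1)).Nonempty) := by
          intro F _
          rw [Finset.inter_assoc, Finset.inter_self]
        -- U : no gap up to n and layer n occupied
        set U := Pr (fun _ => p) S (fun F => NG B Fr n F ∧ (Fr n ∨ (F ∩ B n).Nonempty)) with hU
        have hUT : U ≤ T := by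
          apply Pr_mono hok
          intro F _ h t ht
          by_cases h2 : t + 1 < n
          · exact h.1 t h2
          · have : t + 1 = n := by omega
            rw [this]; exact Or.inr h.2
        have hU0 : 0 ≤ U := Pr_nonneg hok _ _
        have hlocU : ∀ F, F ⊆ S → ((NG B Fr n F ∧ (Fr n ∨ (F ∩ B n).Nonempty)) ↔
            (NG B Fr n (F ∩ W) ∧ (Fr n ∨ (F ∩ W ∩ B n).Nonempty))) := by
          intro F _
          rw [← NG_local B Fr n W (fun t ht => Finset.subset_biUnion_of_mem B (Finset.mem_range.2 (by omega))) F,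
            Finset.inter_assoc F W, Finset.inter_eq_right.2 (Finset.subset_biUnion_of_mem B (Finset.mem_range.2 (by omega : n < n+1)))]
        have hUb : U ≤ fo z * ((fo z)⁻¹ ^ (nfr Fr (n+1)) * be z ^ n / be z) := by
          by_cases hfn : Fr n
          · rw [nfr_succ_of hfn]
            have e2 : U ≤ P := Pr_mono hok (fun F _ h => h.1)
            refine e2.trans (i0.trans ?_)
            rw [pow_succ]
            apply le_of_eq
            field_simp
          · rw [nfr_succ_not hfn]
            have e2 : U = P * (1 - (1 - p) ^ (B n).card) := by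
              rw [hU, hP, ← Pr_hit p (hB n (by omega))]
              rw [← Pr_indep (S := (range n).biUnion B) (T := B n) (U := S)
                (Finset.biUnion_subset.2 (fun t ht => hB t (by have := Finset.mem_range.1 ht; omega)))
                (hB n (by omega))]
              · apply Pr_congr
                intro F _
                constructor
                · rintro ⟨h1, h2 | h2⟩
                  · exact absurd h2 hfn
                  · exact ⟨h1, h2⟩
                · rintro ⟨h1, h2⟩
                  exact ⟨h1, Or.inr h2⟩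
              · rw [Finset.disjoint_biUnion_left]
                intro t ht
                have := Finset.mem_range.1 ht
                exact hd t (by omega) n (by omega) (by omega)
              · intro F _
                exact NG_local B Fr n _ (fun t ht => Finset.subset_biUnion_of_mem B (Finset.mem_range.2 ht)) F
              · intro F _
                rw [Finset.inter_assoc, Finset.inter_self]
            rw [e2, mul_comm]
            have h3 := hf n (by omega)
            have h4 : 0 ≤ 1 - (1 - p) ^ (B n).card := by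
              linarith [pow_le_one₀ (n := (B n).card) (by linarith : 0 ≤ 1 - p) (by linarith : 1 - p ≤ 1)]
            exact mul_le_mul h3 i0 hP0 hfo.le
        -- split
        have hsplit : Pr (fun _ => p) S (NG B Fr (n+1+1)) ≤ T * x + U * (1 - x) := by
          have e1 : Pr (fun _ => p) S (fun F => NG B Fr (n+1) F ∧ (F ∩ B (n+1)).Nonempty) = T * x := by
            rw [Pr_indep (S := W) (T := B (n+1)) hWS (hB _ (by omega)) hBW hlocN hlocH, Pr_hit p (hB _ (by omega))]
          have e2 : Pr (fun _ => p) S (fun F => (NG B Fr n F ∧ (Fr n ∨ (F ∩ B n).Nonempty)) ∧ ¬ (F ∩ B (n+1)).Nonempty)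
              = U * (1 - x) := by
            rw [Pr_indep (S := W) (T := B (n+1)) hWS (hB _ (by omega)) hBW hlocU hlocH', Pr_not, Pr_hit p (hB _ (by omega))]
          rw [← e1, ← e2]
          refine le_trans ?_ (Pr_or_le hok S _ _)
          apply Pr_mono hok
          intro F _ h
          by_cases hh : (F ∩ B (n+1)).Nonempty
          · exact Or.inl ⟨hsucc F h, hh⟩
          · refine Or.inr ⟨⟨fun t ht => h t (by omega), ?_⟩, hh⟩
            rcases h n (by omega) with h3 | h3
            · exact h3
            · rcases h3 with h4 | h4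
              · exact absurd h4 hfr
              · exact absurd h4 hh
        refine hsplit.trans ?_
        have e3 : T * x + U * (1 - x) ≤ T * fo z + U * (1 - fo z) := by nlinarith
        refine e3.trans ?_
        set V := (fo z)⁻¹ ^ (nfr Fr (n+1)) * be z ^ n / be z with hV
        have hQV : Q = V * be z := by rw [hQ, hV, pow_succ]; ring
        have hV0 : 0 ≤ V := by positivity
        have e4 : (fo z)⁻¹ ^ (nfr Fr (n+1)) * be z ^ (n+1+1) / be z = V * be z ^ 2 := by
          rw [hV, pow_succ, pow_succ]; ring
        rw [e4, hch]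
        rw [hQV] at i1
        have h5 : T * fo z ≤ V * be z * fo z := mul_le_mul_of_nonneg_right i1 hfo.le
        have h6 : U * (1 - fo z) ≤ fo z * V * (1 - fo z) := mul_le_mul_of_nonneg_right hUb (by linarith)
        nlinarith
  intro n
  exact (main n).1

end

end Pool.Agent.H97.BP
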