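import Pool.Agent.H97.BP.Geo2
import Pool.Agent.H97.BP.Prob

/-!
# Probability bounds for spanning and for growing from one box to another
-/

set_option autoImplicit false

namespace Pool.Agent.H97.BP

open Finset H974

/-- the sides of a box -/
def dm (a b : Pt) : Fin 3 → ℕ := fun i => (b i - a i + 1).toNat

/-- the area of a face -/
def ar (x : Fin 3 → ℕ) (i : Fin 3) : ℕ := ∏ j ∈ univ.erase i, x j

/-- `A` spans the box -/
def Spn (a b : Pt) (F : Finset Pt) : Prop := Set.Icc a b ⊆ Cl ((F : Set Pt) ∩ Set.Icc a b)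

/-- `F` and the inner box fill the outer box -/
def Dev (a' b' a b : Pt) (F : Finset Pt) : Prop := Set.Icc a b ⊆ Cl (Set.Icc a' b' ∪ (F : Set Pt))

/-- two empty layers are never crossed -/
theorem layers_empty {X : Set Pt} (i : Fin 3) (c : ℤ) (h : ∀ x ∈ X, x i ≠ c ∧ x i ≠ c + 1) :
    ∀ x ∈ Cl X, x i ≠ c ∧ x i ≠ c + 1 := by
  have hc : Closed2 {x : Pt | x i ≠ c ∧ x i ≠ c + 1} := by
    intro v u u' hu hu' hne h1 h2
    simp only [Set.mem_ofPred_eq] at *
    rw [Ne, ext3] at hne
    rw [adj3] at h1 h2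
    have key : ∀ (x y : Pt), (x i = v i - 1 ∨ x i = v i + 1 ∨ x i = v i) → True := fun _ _ _ => trivial
    fin_cases i <;> simp only [Fin.zero_eta, Fin.mk_one, Fin.reduceFinMk] at * <;> omega
  intro x hx
  exact Cl_min (S := {x : Pt | x i ≠ c ∧ x i ≠ c + 1}) h hc hx

/-- a layer of a box -/
noncomputable def Fc (a b : Pt) (i : Fin 3) (c : ℤ) : Finset Pt :=
  Finset.Icc (Function.update a i c) (Function.update b i c)

theorem mem_Fc {a b : Pt} {i : Fin 3} {c : ℤ} {x : Pt} :
    x ∈ Fc a b i c ↔ x i = c ∧ ∀ j, j ≠ i → a j ≤ x j ∧ x j ≤ b j := by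
  unfold Fc
  rw [Finset.mem_Icc]
  constructor
  · rintro ⟨h1, h2⟩
    refine ⟨?_, ?_⟩
    · have g1 := h1 i
      have g2 := h2 i
      simp only [Function.update_self] at g1 g2
      exact le_antisymm g2 g1
    · intro j hj
      have g1 := h1 j
      have g2 := h2 j
      rw [Function.update_of_ne hj] at g1 g2
      exact ⟨g1, g2⟩
  · rintro ⟨h1, h2⟩
    constructor
    · intro j
      by_cases hj : j = i
      · subst hj; simp [h1]
      · rw [Function.update_of_ne hj]; exact (h2 j hj).1
    · intro j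
      by_cases hj : j = i
      · subst hj; simp [h1]
      · rw [Function.update_of_ne hj]; exact (h2 j hj).2

theorem card_Fc (a b : Pt) (i : Fin 3) (c : ℤ) : (Fc a b i c).card = ar (dm a b) i := by
  unfold Fc ar dm
  rw [Pi.card_Icc, ← Finset.mul_prod_erase _ _ (mem_univ i)]
  simp only [Function.update_self, Int.card_Icc, add_sub_cancel_left, Int.toNat_one, one_mul]
  apply Finset.prod_congr rfl
  intro j hj
  rw [Function.update_of_ne (Finset.ne_of_mem_erase hj), Function.update_of_ne (Finset.ne_of_mem_erase hj)]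
  congr 1
  ring

theorem dm_pos {a b : Pt} (hab : a ≤ b) (i : Fin 3) : 1 ≤ dm a b i := by
  have : a i ≤ b i := hab i
  unfold dm
  omega

theorem ar_pos {x : Fin 3 → ℕ} (h : ∀ i, 1 ≤ x i) (i : Fin 3) : 1 ≤ ar x i :=
  Finset.one_le_prod' (fun j _ => h j)

theorem hit_eq {p q : ℝ} (hq : Real.exp (-q) = 1 - p) (n : ℕ) : 1 - (1 - p) ^ n = fo (q * n) := by
  unfold fo
  rw [← hq, ← Real.exp_nat_mul]
  congr 2
  ring

/-- crossing bound -/
theorem seed_bound {p q : ℝ} (hp0 : 0 ≤ p) (hp1 : p ≤ 1) (hq0 : 0 < q) (hq : Real.exp (-q) = 1 - p)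
    {a b : Pt} (hab : a ≤ b) (i : Fin 3) :
    Pr (fun _ => p) (Finset.Icc a b) (Spn a b)
      ≤ Real.exp (-(((dm a b i : ℝ) - 1) * gr (q * ar (dm a b) i))) := by
  classical
  set n := dm a b i with hn
  have harpos : 0 < q * (ar (dm a b) i : ℝ) := by
    have := ar_pos (dm_pos hab) i
    positivity
  have hab' : a i ≤ b i := hab i
  set B : ℕ → Finset Pt := fun t => Fc a b i (a i + t) with hB
  have hBS : ∀ t < n, B t ⊆ Finset.Icc a b := by
    intro t ht x hx
    rw [mem_Fc] at hx
    rw [Finset.mem_Icc]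
    have hn' : n = (b i - a i + 1).toNat := rfl
    constructor
    · intro j
      by_cases hj : j = i
      · rw [hj, hx.1]; show a i ≤ a i + (t:ℤ); omega
      · exact (hx.2 j hj).1
    · intro j
      by_cases hj : j = i
      · rw [hj, hx.1]; show a i + (t:ℤ) ≤ b i; omega
      · exact (hx.2 j hj).2
  have hg := gap_bound hp0 hp1 (S := Finset.Icc a b) B (fun _ => False) n hBS (by
    intro s _ t _ hst
    rw [Finset.disjoint_left]
    intro x hx hx'
    rw [mem_Fc] at hx hx'
    have := hx.1.symm.trans hx'.1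
    omega) harpos (by
    intro t _
    rw [card_Fc, hit_eq hq]) n le_rfl
  have hnf : nfr (fun _ => False) n = 0 := by simp [nfr]
  rw [hnf, pow_zero, one_mul] at hg
  have hle : Pr (fun _ => p) (Finset.Icc a b) (Spn a b) ≤ Pr (fun _ => p) (Finset.Icc a b) (NG B (fun _ => False) n) := by
    apply Pr_mono (okc hp0 hp1)
    intro F hF hS t ht
    by_contra hcon
    push Not at hcon
    obtain ⟨⟨-, h1⟩, -, h2⟩ := hcon
    have key : ∀ x ∈ ((F : Set Pt) ∩ Set.Icc a b), x i ≠ a i + t ∧ x i ≠ a i + t + 1 := by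
      rintro x ⟨hx, hx'⟩
      constructor
      · intro h
        have : x ∈ F ∩ B t := Finset.mem_inter.2 ⟨hx, mem_Fc.2 ⟨h, fun j _ => ⟨hx'.1 j, hx'.2 j⟩⟩⟩
        rw [h1] at this
        exact absurd this (by simp)
      · intro h
        have : x ∈ F ∩ B (t+1) := Finset.mem_inter.2 ⟨hx, mem_Fc.2 ⟨by push_cast; omega, fun j _ => ⟨hx'.1 j, hx'.2 j⟩⟩⟩
        rw [h2] at this
        exact absurd this (by simp)
    have h3 := layers_empty i (a i + t) key
    have hn' : n = (b i - a i + 1).toNat := rfl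
    have h4 : Function.update a i (a i + t) ∈ Set.Icc a b := by
      constructor
      · intro j
        by_cases hj : j = i
        · subst hj; simp
        · simp [hj]
      · intro j
        by_cases hj : j = i
        · rw [hj]
          simp only [Function.update_self]; omega
        · rw [Function.update_of_ne hj]; exact hab j
    have h5 := (h3 _ (hS h4)).1
    simp at h5
  refine hle.trans (hg.trans (le_of_eq ?_))
  unfold be
  rw [← Real.exp_nat_mul, ← Real.exp_sub]
  congr 1
  ring

/-- position of the layers outside the inner box -/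
def pos (a' b' : Pt) (s : Fin 3 × Bool) (t : ℕ) : ℤ :=
  if s.2 then b' s.1 + 1 + t else a' s.1 - 1 - t

/-- number of layers outside the inner box -/
def nl (a' b' a b : Pt) (s : Fin 3 × Bool) : ℕ :=
  if s.2 then (b s.1 - b' s.1).toNat else (a' s.1 - a s.1).toNat

theorem D_bound {p q Z : ℝ} (hp0 : 0 ≤ p) (hp1 : p ≤ 1) (hq0 : 0 < q)
    (hq : Real.exp (-q) = 1 - p) (hZ : 0 < Z)
    {a b a' b' : Pt} (h1 : a ≤ a') (h2 : a' ≤ b') (h3 : b' ≤ b) (M : ℕ)
    (hM : ∀ i, dm a b i ≤ M) :
    Pr (fun _ => p) (Finset.Icc a b \ Finset.Icc a' b') (Dev a' b' a b)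
      ≤ Real.exp (6 * gr Z
        - ∑ i, ((dm a b i : ℝ) - dm a' b' i) * gr (q * ar (dm a' b') i + Z)
        + 3 * p * (fo Z)⁻¹ ^ 6 * M * (∑ i, ((dm a b i : ℝ) - dm a' b' i)) ^ 2) := by
  classical
  have hok := okc (E := Pt) hp0 hp1
  set S := Finset.Icc a b \ Finset.Icc a' b' with hS
  set B : Fin 3 × Bool → ℕ → Finset Pt := fun s t => Fc a' b' s.1 (pos a' b' s t) with hB
  set n : Fin 3 × Bool → ℕ := nl a' b' a b with hn
  set Ws : Fin 3 × Bool → Finset Pt := fun s => (range (n s)).biUnion (B s) with hWs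
  set W : Finset Pt := univ.biUnion Ws with hW
  have hc1 : ∀ i, a i ≤ a' i := fun i => h1 i
  have hc2 : ∀ i, a' i ≤ b' i := fun i => h2 i
  have hc3 : ∀ i, b' i ≤ b i := fun i => h3 i
  -- basic position facts
  have hposout : ∀ s t, ¬ (a' s.1 ≤ pos a' b' s t ∧ pos a' b' s t ≤ b' s.1) := by
    rintro ⟨i, s⟩ t
    have := hc2 i
    cases s <;> simp only [pos] <;> simp <;> omega
  have hposin : ∀ s t, t < n s → a s.1 ≤ pos a' b' s t ∧ pos a' b' s t ≤ b s.1 := by
    rintro ⟨i, s⟩ t ht
    have g1 := hc1 i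
    have g2 := hc2 i
    have g3 := hc3 i
    cases s
    · simp only [hn, nl, pos] at ht ⊢
      simp only [Bool.false_eq_true, if_false] at ht ⊢
      omega
    · simp only [hn, nl, pos] at ht ⊢
      simp only [if_true] at ht ⊢
      omega
  have hBS : ∀ s t, t < n s → B s t ⊆ S := by
    intro s t ht x hx
    rw [mem_Fc] at hx
    rw [hS, Finset.mem_sdiff, Finset.mem_Icc, Finset.mem_Icc]
    have hp := hposin s t ht
    refine ⟨⟨?_, ?_⟩, ?_⟩
    · intro j
      by_cases hj : j = s.1
      · subst hj; rw [hx.1]; exact hp.1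
      · exact (hc1 j).trans (hx.2 j hj).1
    · intro j
      by_cases hj : j = s.1
      · subst hj; rw [hx.1]; exact hp.2
      · exact (hx.2 j hj).2.trans (hc3 j)
    · rintro ⟨g1, g2⟩
      apply hposout s t
      rw [← hx.1]
      exact ⟨g1 s.1, g2 s.1⟩
  have hWsS : ∀ s, Ws s ⊆ S := fun s =>
    Finset.biUnion_subset.2 (fun t ht => hBS s t (Finset.mem_range.1 ht))
  have hWS : W ⊆ S := Finset.biUnion_subset.2 (fun s _ => hWsS s)
  -- disjointness
  have hBd : ∀ s, ∀ t < n s, ∀ t' < n s, t ≠ t' → Disjoint (B s t) (B s t') := by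
    intro s t _ t' _ htt
    rw [Finset.disjoint_left]
    intro x hx hx'
    rw [mem_Fc] at hx hx'
    have := hx.1.symm.trans hx'.1
    unfold pos at this
    split_ifs at this <;> omega
  have hWd : ∀ s s', s ≠ s' → Disjoint (Ws s) (Ws s') := by
    intro s s' hss
    rw [Finset.disjoint_left]
    intro x hx hx'
    obtain ⟨t, ht, hx⟩ := Finset.mem_biUnion.1 hx
    obtain ⟨t', ht', hx'⟩ := Finset.mem_biUnion.1 hx'
    rw [mem_Fc] at hx hx'
    by_cases hi : s.1 = s'.1
    · have hs2 : s.2 ≠ s'.2 := fun h => hss (Prod.ext hi h)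
      have := hx.1.symm.trans (hi ▸ hx'.1)
      have g2 := hc2 s.1
      have g2' := hc2 s'.1
      unfold pos at this
      rw [← hi] at this
      cases hs : s.2 <;> cases hs' : s'.2 <;> rw [hs, hs'] at this <;> simp at this
      · exact hs2 (hs.trans hs'.symm)
      · omega
      · omega
      · exact hs2 (hs.trans hs'.symm)
    · apply hposout s t
      rw [← hx.1]
      exact hx'.2 s.1 hi
  set K := S \ W with hK
  have hKW : S = K ∪ W := by rw [hK, Finset.sdiff_union_of_subset hWS]
  have hdKW : Disjoint K W := Finset.sdiff_disjoint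
  -- the free layers
  set Fr : Finset Pt → Fin 3 × Bool → ℕ → Prop := fun A s t => ∃ x ∈ A, x s.1 = pos a' b' s t with hFr
  -- deterministic part
  have hdet : ∀ A ⊆ K, ∀ F ⊆ W, Dev a' b' a b (A ∪ F) → ∀ s, NG (B s) (Fr A s) (n s) F := by
    intro A hA F hF hD s t ht
    by_contra hcon
    push Not at hcon
    obtain ⟨⟨g1, g2⟩, g3, g4⟩ := hcon
    -- no point of the configuration in a given layer
    have hlay : ∀ t, ¬ Fr A s t → F ∩ B s t = ∅ → ∀ x ∈ Set.Icc a' b' ∪ ((A ∪ F : Finset Pt) : Set Pt),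
        x s.1 ≠ pos a' b' s t := by
      intro t e1 e2 x hx hxt
      rcases hx with hx | hx
      · apply hposout s t
        rw [← hxt]; exact ⟨hx.1 s.1, hx.2 s.1⟩
      · rcases Finset.mem_union.1 (Finset.mem_coe.1 hx) with hx | hx
        · exact e1 ⟨x, hx, hxt⟩
        · obtain ⟨s', -, hx'⟩ := Finset.mem_biUnion.1 (hF hx)
          obtain ⟨t', ht', hx'⟩ := Finset.mem_biUnion.1 hx'
          rw [mem_Fc] at hx'
          by_cases hi : s.1 = s'.1
          · have : x ∈ F ∩ B s t := by
              rw [Finset.mem_inter, mem_Fc]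
              exact ⟨hx, hxt, fun j hj => hx'.2 j (by rw [← hi]; exact hj)⟩
            rw [e2] at this
            exact absurd this (by simp)
          · apply hposout s t
            rw [← hxt]; exact hx'.2 s.1 hi
    have l1 := hlay t g1 g2
    have l2 := hlay (t+1) g3 g4
    have hpt := hposin s t (by omega)
    have hpt' := hposin s (t+1) (by omega)
    -- the lower of the two layers
    obtain ⟨c, hc⟩ : ∃ c : ℤ, (pos a' b' s t = c ∧ pos a' b' s (t+1) = c + 1) ∨
        (pos a' b' s t = c + 1 ∧ pos a' b' s (t+1) = c) := by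
      unfold pos
      split_ifs
      · exact ⟨b' s.1 + 1 + t, Or.inl ⟨rfl, by push_cast; ring⟩⟩
      · exact ⟨a' s.1 - 1 - (t+1), Or.inr ⟨by ring, by push_cast; ring⟩⟩
    have hl := layers_empty s.1 c (X := Set.Icc a' b' ∪ ((A ∪ F : Finset Pt) : Set Pt)) (by
      intro x hx
      have e1 := l1 x hx
      have e2 := l2 x hx
      rcases hc with ⟨c1, c2⟩ | ⟨c1, c2⟩
      · rw [c1] at e1; rw [c2] at e2; exact ⟨e1, e2⟩
      · rw [c1] at e1; rw [c2] at e2; exact ⟨e2, e1⟩)
    have h4 : Function.update a s.1 (pos a' b' s t) ∈ Set.Icc a b := by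
      constructor
      · intro j
        by_cases hj : j = s.1
        · subst hj; simp only [Function.update_self]; exact hpt.1
        · rw [Function.update_of_ne hj]
      · intro j
        by_cases hj : j = s.1
        · subst hj; simp only [Function.update_self]; exact hpt.2
        · rw [Function.update_of_ne hj]; exact (h1.trans (h2.trans h3)) j
    have h5 := hl _ (hD h4)
    simp only [Function.update_self] at h5
    rcases hc with ⟨c1, c2⟩ | ⟨c1, c2⟩
    · exact h5.1 c1
    · exact h5.2 c1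
  -- the rates
  set z : Fin 3 → ℝ := fun i => q * ar (dm a' b') i + Z with hz
  have hzpos : ∀ i, 0 < z i := by
    intro i
    rw [hz]; positivity
  have hzZ : ∀ i, Z ≤ z i := by
    intro i
    have : 0 ≤ q * (ar (dm a' b') i : ℝ) := by positivity
    simp only [hz]; linarith
  have hfoZ := fo_pos hZ
  set κ := (fo Z)⁻¹ with hκ
  have hκ1 : 1 ≤ κ := (one_le_inv₀ hfoZ).2 (fo_lt_one Z).le
  -- bound for a fixed configuration on K
  have hfix : ∀ A ⊆ K, Ex (fun _ => p) W (fun F => ind (Dev a' b' a b (A ∪ F)))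
      ≤ (κ ^ 6) ^ A.card * ∏ s, (be (z s.1) ^ n s / be (z s.1)) := by
    intro A hA
    have e1 : Ex (fun _ => p) W (fun F => ind (Dev a' b' a b (A ∪ F)))
        ≤ Pr (fun _ => p) W (fun F => ∀ s ∈ (univ : Finset (Fin 3 × Bool)), NG (B s) (Fr A s) (n s) F) := by
      apply Ex_mono hok
      intro F hF
      apply ind_mono
      intro hD s _
      exact hdet A hA F hF hD s
    refine e1.trans ?_
    rw [Pr_forall (S := W) univ Ws (fun s => NG (B s) (Fr A s) (n s))
      (fun s hs => Finset.subset_biUnion_of_mem Ws hs)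
      (fun s _ s' _ hss => hWd s s' hss)
      (fun s _ F _ => NG_local (B s) (Fr A s) (n s) (Ws s)
        (fun t ht => Finset.subset_biUnion_of_mem (B s) (Finset.mem_range.2 ht)) F)]
    have e2 : ∀ s ∈ (univ : Finset (Fin 3 × Bool)), Pr (fun _ => p) W (NG (B s) (Fr A s) (n s))
        ≤ κ ^ A.card * (be (z s.1) ^ n s / be (z s.1)) := by
      intro s hs
      have g := gap_bound hp0 hp1 (S := W) (B s) (Fr A s) (n s)
        (fun t ht => (Finset.subset_biUnion_of_mem (B s) (Finset.mem_range.2 ht)).trans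
          (Finset.subset_biUnion_of_mem Ws hs)) (hBd s) (hzpos s.1) (by
          intro t ht
          rw [card_Fc, hit_eq hq]
          exact fo_mono (by simp only [hz]; linarith)) (n s) le_rfl
      refine g.trans ?_
      have hnf : nfr (Fr A s) (n s) ≤ A.card := by
        refine le_trans (nfr_le_card (A.image (fun x =>
          (if s.2 then x s.1 - b' s.1 - 1 else a' s.1 - 1 - x s.1).toNat)) ?_) Finset.card_image_le
        intro t _ ht
        obtain ⟨x, hx, hxt⟩ := ht
        rw [Finset.mem_image]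
        refine ⟨x, hx, ?_⟩
        unfold pos at hxt
        split_ifs at hxt with hs2
        · rw [if_pos hs2]; omega
        · rw [if_neg hs2]; omega
      have hfz : (fo (z s.1))⁻¹ ≤ κ := by
        rw [hκ]
        exact inv_anti₀ hfoZ (fo_mono (hzZ s.1))
      have hfz0 : 0 ≤ (fo (z s.1))⁻¹ := (inv_pos.2 (fo_pos (hzpos s.1))).le
      rw [mul_div_assoc]
      apply mul_le_mul_of_nonneg_right _ (div_nonneg (pow_nonneg (be_pos _).le _) (be_pos _).le)
      calc (fo (z s.1))⁻¹ ^ nfr (Fr A s) (n s) ≤ κ ^ nfr (Fr A s) (n s) :=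
            pow_le_pow_left₀ hfz0 hfz _
        _ ≤ κ ^ A.card := pow_le_pow_right₀ hκ1 hnf
    refine (Finset.prod_le_prod (fun s _ => Pr_nonneg hok _ _) e2).trans (le_of_eq ?_)
    rw [Finset.prod_mul_distrib, Finset.prod_const]
    have : (univ : Finset (Fin 3 × Bool)).card = 6 := by decide
    rw [this, ← pow_mul, ← pow_mul, mul_comm A.card 6]
  -- size of K
  set D := ∑ i, ((dm a b i : ℝ) - dm a' b' i) with hD
  have hΔ : ∀ i, (dm a b i : ℝ) - dm a' b' i = (((b i - a i) - (b' i - a' i) : ℤ) : ℝ) := by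
    intro i
    have g1 := hc1 i
    have g2 := hc2 i
    have g3 := hc3 i
    have e1 : ((dm a b i : ℕ) : ℤ) = b i - a i + 1 := by unfold dm; omega
    have e2 : ((dm a' b' i : ℕ) : ℤ) = b' i - a' i + 1 := by unfold dm; omega
    have e3 : ((dm a b i : ℕ) : ℝ) = (((dm a b i : ℕ) : ℤ) : ℝ) := by norm_cast
    have e4 : ((dm a' b' i : ℕ) : ℝ) = (((dm a' b' i : ℕ) : ℤ) : ℝ) := by norm_cast
    rw [e3, e4, e1, e2]
    push_cast
    ring
  have hΔ0 : ∀ i, 0 ≤ (dm a b i : ℝ) - dm a' b' i := by
    intro i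
    rw [hΔ]
    have g1 := hc1 i
    have g3 := hc3 i
    exact_mod_cast (by omega : 0 ≤ (b i - a i) - (b' i - a' i))
  have hΔD : ∀ i, (dm a b i : ℝ) - dm a' b' i ≤ D :=
    fun i => Finset.single_le_sum (fun j _ => hΔ0 j) (mem_univ i)
  have hD0 : 0 ≤ D := Finset.sum_nonneg (fun i _ => hΔ0 i)
  have hKcard : (K.card : ℝ) ≤ 3 * M * D ^ 2 := by
    set P : Fin 3 → Finset Pt := fun k => Fintype.piFinset (fun i => if i = k then
      Finset.Icc (a i) (b i) else Finset.Icc (a i) (b i) \ Finset.Icc (a' i) (b' i)) with hP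
    have hsub : K ⊆ univ.biUnion P := by
      intro x hx
      rw [hK, Finset.mem_sdiff, hS, Finset.mem_sdiff, Finset.mem_Icc] at hx
      obtain ⟨⟨⟨x1, x2⟩, x3⟩, x4⟩ := hx
      rw [Finset.mem_Icc] at x3
      rw [Finset.mem_biUnion]
      by_contra hcon
      push Not at hcon
      -- every k has another index inside
      have hk : ∀ k, ∃ i, i ≠ k ∧ a' i ≤ x i ∧ x i ≤ b' i := by
        intro k
        have := hcon k (mem_univ k)
        rw [hP, Fintype.mem_piFinset] at this
        push Not at this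
        obtain ⟨i, hi⟩ := this
        by_cases hik : i = k
        · rw [if_pos hik, Finset.mem_Icc] at hi
          exact absurd ⟨x1 i, x2 i⟩ hi
        · rw [if_neg hik, Finset.mem_sdiff, Finset.mem_Icc, Finset.mem_Icc] at hi
          refine ⟨i, hik, ?_⟩
          by_contra h
          exact hi ⟨⟨x1 i, x2 i⟩, h⟩
      -- some coordinate is outside
      obtain ⟨k, hk'⟩ : ∃ k, ¬ (a' k ≤ x k ∧ x k ≤ b' k) := by
        by_contra h
        push Not at h
        exact x3 ⟨fun j => (h j).1, fun j => (h j).2⟩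
      -- all other coordinates are inside
      have hall : ∀ j, j ≠ k → a' j ≤ x j ∧ x j ≤ b' j := by
        obtain ⟨i, hi1, hi2⟩ := hk k
        obtain ⟨i', hi1', hi2'⟩ := hk i
        have hi'k : i' ≠ k := by
          rintro rfl
          exact hk' hi2'
        intro j hj
        have : j = i ∨ j = i' := by
          revert hj hi1 hi1' hi'k
          clear * -
          revert i i' j k
          decide
        rcases this with rfl | rfl
        · exact hi2
        · exact hi2'
      apply x4
      rw [hW, Finset.mem_biUnion]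
      have x1k : a k ≤ x k := x1 k
      have x2k : x k ≤ b k := x2 k
      have g2 := hc2 k
      by_cases hb : b' k < x k
      · refine ⟨(k, true), mem_univ _, ?_⟩
        rw [hWs, Finset.mem_biUnion]
        refine ⟨(x k - b' k - 1).toNat, Finset.mem_range.2 ?_, ?_⟩
        · simp only [hn, nl, if_true]; omega
        · rw [mem_Fc]
          refine ⟨?_, hall⟩
          simp only [pos, if_true]; omega
      · refine ⟨(k, false), mem_univ _, ?_⟩
        rw [hWs, Finset.mem_biUnion]
        refine ⟨(a' k - 1 - x k).toNat, Finset.mem_range.2 ?_, ?_⟩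
        · simp only [hn, nl, Bool.false_eq_true, if_false]; omega
        · rw [mem_Fc]
          refine ⟨?_, hall⟩
          simp only [pos, Bool.false_eq_true, if_false]; omega
    have hPc : ∀ k ∈ (univ : Finset (Fin 3)), ((P k).card : ℝ) ≤ M * D ^ 2 := by
      intro k _
      rw [hP, Fintype.card_piFinset]
      rw [← Finset.mul_prod_erase _ _ (mem_univ k), if_pos rfl]
      push_cast
      have e1 : ((Finset.Icc (a k) (b k)).card : ℝ) ≤ M := by
        have := hM k
        have e : (Finset.Icc (a k) (b k)).card = dm a b k := by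
          rw [Int.card_Icc]; unfold dm; congr 1; ring
        rw [e]; exact_mod_cast this
      have e2 : ∏ j ∈ univ.erase k, ((if j = k then Finset.Icc (a j) (b j) else
          Finset.Icc (a j) (b j) \ Finset.Icc (a' j) (b' j)).card : ℝ) ≤ ∏ j ∈ univ.erase k, D := by
        apply Finset.prod_le_prod
        · intro j _; exact Nat.cast_nonneg _
        · intro j hj
          rw [if_neg (Finset.ne_of_mem_erase hj)]
          refine le_trans (le_of_eq ?_) (hΔD j)
          rw [hΔ, Finset.card_sdiff_of_subset (Finset.Icc_subset_Icc (hc1 j) (hc3 j)), Int.card_Icc, Int.card_Icc]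
          have g1 := hc1 j
          have g2 := hc2 j
          have g3 := hc3 j
          have : (((b j + 1 - a j).toNat - (b' j + 1 - a' j).toNat : ℕ) : ℤ) = (b j - a j) - (b' j - a' j) := by omega
          rw [← this]
          norm_cast
      have e3 : ∏ j ∈ (univ.erase k : Finset (Fin 3)), D = D ^ 2 := by
        rw [Finset.prod_const, Finset.card_erase_of_mem (mem_univ k), Finset.card_univ, Fintype.card_fin]
      rw [e3] at e2
      exact mul_le_mul e1 e2 (Finset.prod_nonneg (fun j _ => Nat.cast_nonneg _)) (Nat.cast_nonneg _)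
    calc (K.card : ℝ) ≤ ((univ.biUnion P).card : ℝ) := by exact_mod_cast Finset.card_le_card hsub
      _ ≤ ((∑ k, (P k).card : ℕ) : ℝ) := by exact_mod_cast Finset.card_biUnion_le
      _ ≤ ∑ k : Fin 3, (M * D ^ 2 : ℝ) := by push_cast; exact Finset.sum_le_sum hPc
      _ = 3 * M * D ^ 2 := by rw [Finset.sum_const, Finset.card_univ, Fintype.card_fin]; ring
  -- put together
  have hPr : Pr (fun _ => p) S (Dev a' b' a b)
      ≤ (1 - p + p * κ ^ 6) ^ K.card * ∏ s : Fin 3 × Bool, (be (z s.1) ^ n s / be (z s.1)) := by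
    unfold Pr
    rw [hKW, Ex_union hdKW]
    refine (Ex_mono hok hfix).trans ?_
    rw [Ex_mul_right, Ex_pow_card]
  refine hPr.trans ?_
  have hprod : ∏ s : Fin 3 × Bool, (be (z s.1) ^ n s / be (z s.1))
      = Real.exp (∑ i, (2 * gr (z i) - ((dm a b i : ℝ) - dm a' b' i) * gr (z i))) := by
    rw [Real.exp_sum, Fintype.prod_prod_type]
    apply Finset.prod_congr rfl
    intro i _
    rw [Fintype.prod_bool]
    unfold be
    rw [← Real.exp_nat_mul, ← Real.exp_nat_mul, ← Real.exp_sub, ← Real.exp_sub, ← Real.exp_add]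
    congr 1
    have : (n (i, true) : ℝ) + n (i, false) = (dm a b i : ℝ) - dm a' b' i := by
      rw [hΔ]
      have g1 := hc1 i
      have g2 := hc2 i
      have g3 := hc3 i
      have : ((n (i, true) + n (i, false) : ℕ) : ℤ) = (b i - a i) - (b' i - a' i) := by
        simp only [hn, nl, if_true, Bool.false_eq_true, if_false]
        omega
      rw [← this]
      push_cast
      ring
    rw [← this]
    ring
  rw [hprod]
  have hpow : (1 - p + p * κ ^ 6) ^ K.card ≤ Real.exp (3 * p * κ ^ 6 * M * D ^ 2) := by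
    have hκ6 : 1 ≤ κ ^ 6 := one_le_pow₀ hκ1
    have e1 : 1 - p + p * κ ^ 6 ≤ Real.exp (p * κ ^ 6) := by
      have := Real.add_one_le_exp (p * κ ^ 6)
      linarith
    have e0 : 0 ≤ 1 - p + p * κ ^ 6 := by nlinarith
    calc (1 - p + p * κ ^ 6) ^ K.card ≤ Real.exp (p * κ ^ 6) ^ K.card := pow_le_pow_left₀ e0 e1 _
      _ = Real.exp (K.card * (p * κ ^ 6)) := by rw [← Real.exp_nat_mul]
      _ ≤ _ := by
        apply Real.exp_le_exp.2
        have : 0 ≤ p * κ ^ 6 := by positivity
        nlinarith [mul_le_mul_of_nonneg_right hKcard this]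
  calc (1 - p + p * κ ^ 6) ^ K.card * Real.exp (∑ i, (2 * gr (z i) - ((dm a b i : ℝ) - dm a' b' i) * gr (z i)))
      ≤ Real.exp (3 * p * κ ^ 6 * M * D ^ 2) * Real.exp (∑ i, (2 * gr (z i) - ((dm a b i : ℝ) - dm a' b' i) * gr (z i))) :=
        mul_le_mul_of_nonneg_right hpow (Real.exp_pos _).le
    _ ≤ _ := by
      rw [← Real.exp_add]
      apply Real.exp_le_exp.2
      rw [Finset.sum_sub_distrib]
      have : ∑ i, 2 * gr (z i) ≤ ∑ _i : Fin 3, 2 * gr Z := by
        apply Finset.sum_le_sum
        intro i _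
        have := gr_anti hZ (hzZ i)
        linarith
      rw [Finset.sum_const, Finset.card_univ, Fintype.card_fin] at this
      simp only [nsmul_eq_mul] at this
      push_cast at this
      linarith

end Pool.Agent.H97.BP
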