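import Pool.Agent.H97.BP.Geo2

/-!
# Deterministic growth
-/

set_option autoImplicit false

namespace Pool.Agent.H97.BP

open Finset

/-- direction 0 -/
def XX0 (S : Set Pt) (n : ℕ) : Prop :=
  ∃ x ∈ S, x 0 = n ∧ (1 ≤ x 1 ∧ x 1 ≤ (n : ℤ) - 2) ∧ (1 ≤ x 2 ∧ x 2 ≤ (n : ℤ) - 2)

/-- direction 1 -/
def XX1 (S : Set Pt) (cap : ℕ → ℤ) (n : ℕ) : Prop :=
  ∃ x ∈ S, x 1 = n ∧ (1 ≤ x 0 ∧ x 0 ≤ cap n) ∧ (1 ≤ x 2 ∧ x 2 ≤ (n : ℤ) - 2)

/-- direction 2 -/
def XX2 (S : Set Pt) (cap : ℕ → ℤ) (n : ℕ) : Prop :=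
  ∃ x ∈ S, x 2 = n ∧ (1 ≤ x 0 ∧ x 0 ≤ cap n) ∧ (1 ≤ x 1 ∧ x 1 ≤ (n : ℤ) - 2)

theorem f3c (i : Fin 3) : i = 0 ∨ i = 1 ∨ i = 2 := by revert i; decide

theorem pick {P : ℕ → Prop} {K : ℕ} {m : ℕ} (h : ∀ n, 3 ≤ n → n < K → P n ∨ P (n + 1)) (hK : P K)
    (hm2 : 2 ≤ m) (hmK : m < K) : ∃ n, m < n ∧ n ≤ m + 2 ∧ n ≤ K ∧ P n := by
  by_cases h1 : m + 1 < K
  · rcases h (m+1) (by omega) h1 with h2 | h2
    · exact ⟨m+1, by omega, by omega, by omega, h2⟩
    · exact ⟨m+2, by omega, by omega, by omega, h2⟩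
  · have : m + 1 = K := by omega
    exact ⟨K, by omega, by omega, le_rfl, hK⟩

theorem det_growth {S : Set Pt} (hS : Closed2 S) {K : ℕ} (h3K : 3 ≤ K) (cap : ℕ → ℤ) (D : ℕ → Prop)
    (e : ℕ → ℕ) (h0 : Set.Icc (1 : Pt) (fun _ => 2) ⊆ S)
    (hX0 : ∀ n, 3 ≤ n → n < K → ¬ D (n - 1) → XX0 S n ∨ XX0 S (n + 1)) (hX0K : XX0 S K)
    (hD : ∀ n, D n → n + 2 ≤ K ∧ e n ≤ K ∧ ∃ x ∈ S, x 0 = (n : ℤ) + 2 ∧
      (1 ≤ x 1 ∧ x 1 ≤ e n) ∧ (1 ≤ x 2 ∧ x 2 ≤ e n))
    (hX1 : ∀ n, 3 ≤ n → n < K → XX1 S cap n ∨ XX1 S cap (n + 1)) (hX1K : XX1 S cap K)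
    (hX2 : ∀ n, 3 ≤ n → n < K → XX2 S cap n ∨ XX2 S cap (n + 1)) (hX2K : XX2 S cap K)
    (hcap : ∀ n, 3 ≤ n → cap n ≤ (n : ℤ) - 2)
    (hcapD : ∀ n0, D n0 → ∀ n, n0 < n → n ≤ e n0 + 1 → cap n ≤ n0) :
    Set.Icc (1 : Pt) (fun _ => (K : ℤ)) ⊆ S := by
  -- it suffices to be able to grow
  have hgrow : ∀ b : Pt, (∀ i, 2 ≤ b i ∧ b i ≤ K) → (∃ i, b i < K) → Set.Icc 1 b ⊆ S →
      ∃ x ∈ S, (∀ i, 1 ≤ x i ∧ x i ≤ K) ∧ (∃ i, b i < x i) ∧ dst 1 b x ≤ 2 := by
    intro b hb hlt hbS
    -- growth in direction 1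
    have g1 : b 1 ≤ b 2 → b 1 < K → (∀ n : ℕ, b 1 < n → (n : ℤ) ≤ b 1 + 2 → cap n ≤ b 0) →
        ∃ x ∈ S, (∀ i, 1 ≤ x i ∧ x i ≤ K) ∧ (∃ i, b i < x i) ∧ dst 1 b x ≤ 2 := by
      intro h12 h1K hc
      have hb0 := hb 0
      have hb1 := hb 1
      have hb2 := hb 2
      obtain ⟨n, n1, n2, n3, x, hx, x1, ⟨x2, x3⟩, x4, x5⟩ :=
        pick (P := XX1 S cap) (m := (b 1).toNat) hX1 hX1K (by omega) (by omega)
      have hcn := hc n (by omega) (by omega)
      refine ⟨x, hx, ?_, ⟨1, by omega⟩, ?_⟩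
      · intro i
        fin_cases i <;> simp only [Fin.zero_eta, Fin.mk_one, Fin.reduceFinMk] <;> omega
      · rw [dst3]
        simp only [Pi.one_apply]
        omega
    have g2 : b 2 ≤ b 1 → b 2 < K → (∀ n : ℕ, b 2 < n → (n : ℤ) ≤ b 2 + 2 → cap n ≤ b 0) →
        ∃ x ∈ S, (∀ i, 1 ≤ x i ∧ x i ≤ K) ∧ (∃ i, b i < x i) ∧ dst 1 b x ≤ 2 := by
      intro h12 h1K hc
      have hb0 := hb 0
      have hb1 := hb 1
      have hb2 := hb 2
      obtain ⟨n, n1, n2, n3, x, hx, x1, ⟨x2, x3⟩, x4, x5⟩ :=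
        pick (P := XX2 S cap) (m := (b 2).toNat) hX2 hX2K (by omega) (by omega)
      have hcn := hc n (by omega) (by omega)
      refine ⟨x, hx, ?_, ⟨2, by omega⟩, ?_⟩
      · intro i
        fin_cases i <;> simp only [Fin.zero_eta, Fin.mk_one, Fin.reduceFinMk] <;> omega
      · rw [dst3]
        simp only [Pi.one_apply]
        omega
    have hb0 := hb 0
    have hb1 := hb 1
    have hb2 := hb 2
    by_cases hA : b 0 ≤ b 1 ∧ b 0 ≤ b 2
    · have h0K : b 0 < K := by
        obtain ⟨i, hi⟩ := hlt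
        have : i = 0 ∨ i = 1 ∨ i = 2 := f3c i
        rcases this with rfl | rfl | rfl <;> omega
      by_cases hDb : D (b 0).toNat
      · obtain ⟨d1, d2, x, hx, x1, ⟨x2, x3⟩, x4, x5⟩ := hD _ hDb
        by_cases he : (e (b 0).toNat : ℤ) ≤ b 1 ∧ (e (b 0).toNat : ℤ) ≤ b 2
        · refine ⟨x, hx, ?_, ⟨0, by omega⟩, ?_⟩
          · intro i
            fin_cases i <;> simp only [Fin.zero_eta, Fin.mk_one, Fin.reduceFinMk] <;> omega
          · rw [dst3]
            simp only [Pi.one_apply]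
            omega
        · rcases le_total (b 1) (b 2) with h12 | h12
          · apply g1 h12 (by omega)
            intro n hn1 hn2
            have := hcapD _ hDb n (by omega) (by omega)
            omega
          · apply g2 h12 (by omega)
            intro n hn1 hn2
            have := hcapD _ hDb n (by omega) (by omega)
            omega
      · -- ordinary growth in direction 0
        have hp : ∃ n : ℕ, b 0 < n ∧ (n : ℤ) ≤ b 0 + 2 ∧ n ≤ K ∧ XX0 S n := by
          by_cases h1 : (b 0).toNat + 1 < K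
          · rcases hX0 ((b 0).toNat + 1) (by omega) h1 (by simpa using hDb) with h2 | h2
            · exact ⟨_, by omega, by omega, by omega, h2⟩
            · exact ⟨_, by push_cast; omega, by push_cast; omega, by omega, h2⟩
          · exact ⟨K, by omega, by omega, le_rfl, hX0K⟩
        obtain ⟨n, n1, n2, n3, x, hx, x1, ⟨x2, x3⟩, x4, x5⟩ := hp
        refine ⟨x, hx, ?_, ⟨0, by omega⟩, ?_⟩
        · intro i
          fin_cases i <;> simp only [Fin.zero_eta, Fin.mk_one, Fin.reduceFinMk] <;> omega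
        · rw [dst3]
          simp only [Pi.one_apply]
          omega
    · rcases le_total (b 1) (b 2) with h12 | h12
      · apply g1 h12 (by omega)
        intro n hn1 hn2
        have := hcap n (by omega)
        omega
      · apply g2 h12 (by omega)
        intro n hn1 hn2
        have := hcap n (by omega)
        omega
  -- the induction
  have main : ∀ (N : ℕ) (b : Pt), (∀ i, 2 ≤ b i ∧ b i ≤ K) → Set.Icc 1 b ⊆ S →
      (∑ i, ((K : ℤ) - b i).toNat) = N → Set.Icc (1 : Pt) (fun _ => (K : ℤ)) ⊆ S := by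
    intro N
    induction N using Nat.strong_induction_on with
    | _ N ih =>
      intro b hb hbS hN
      by_cases hlt : ∃ i, b i < K
      · obtain ⟨x, hx, hxK, ⟨i, hi⟩, hd⟩ := hgrow b hb hlt hbS
        have h1b : (1 : Pt) ≤ b := fun i => by have := (hb i).1; show (1:ℤ) ≤ b i; omega
        have h3 := absorb_two hS h1b hbS hx hd
        have e1 : (1 : Pt) ⊓ x = 1 := inf_eq_left.2 (fun i => (hxK i).1)
        rw [e1] at h3
        refine ih _ ?_ (b ⊔ x) ?_ h3 rfl
        · rw [← hN]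
          apply Finset.sum_lt_sum
          · intro j _
            show ((K : ℤ) - max (b j) (x j)).toNat ≤ _
            omega
          · refine ⟨i, mem_univ i, ?_⟩
            show ((K : ℤ) - max (b i) (x i)).toNat < _
            have := hxK i
            omega
        · intro j
          show 2 ≤ max (b j) (x j) ∧ max (b j) (x j) ≤ K
          have := hxK j
          have := hb j
          omega
      · push Not at hlt
        have : b = fun _ => (K : ℤ) := by
          funext i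
          exact le_antisymm (hb i).2 (hlt i)
        rw [← this]; exact hbS
  refine main _ (fun _ => 2) (fun i => ⟨le_rfl, by omega⟩) h0 rfl

/-- from a full cube to everything -/
theorem plate_growth {S : Set Pt} (hS : Closed2 S) {n K : ℕ} (hK1 : 1 ≤ K) {u : Pt}
    (hu1 : ∀ i, 1 ≤ u i) (hun : ∀ i, u i + K - 1 ≤ n)
    (h0 : Set.Icc u (fun i => u i + K - 1) ⊆ S)
    (hpl : ∀ (i : Fin 3) (v : Pt), (∀ j, 1 ≤ v j) → v i ≤ n → (∀ j, j ≠ i → v j + K - 1 ≤ n) →
      ∃ x ∈ S, x i = v i ∧ ∀ j, j ≠ i → v j ≤ x j ∧ x j ≤ v j + K - 1) :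
    Set.Icc (1 : Pt) (fun _ => (n : ℤ)) ⊆ S := by
  have main : ∀ (N : ℕ) (a b : Pt), (∀ i, 1 ≤ a i ∧ a i + K - 1 ≤ b i ∧ b i ≤ n) → Set.Icc a b ⊆ S →
      (∑ i, ((a i - 1).toNat + ((n : ℤ) - b i).toNat)) = N → Set.Icc (1 : Pt) (fun _ => (n : ℤ)) ⊆ S := by
    intro N
    induction N using Nat.strong_induction_on with
    | _ N ih =>
      intro a b hab hS' hN
      have hle : a ≤ b := fun i => by have := hab i; show a i ≤ b i; omega
      by_cases hall : ∀ i, a i = 1 ∧ b i = n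
      · have e1 : a = 1 := funext (fun i => (hall i).1)
        have e2 : b = fun _ => (n : ℤ) := funext (fun i => (hall i).2)
        rw [← e1, ← e2]; exact hS'
      · push Not at hall
        obtain ⟨i, hi⟩ := hall
        have habi := hab i
        obtain ⟨c, hc1, hc2, hc3⟩ : ∃ c : ℤ, (1 ≤ c ∧ c ≤ n) ∧ ((a i - c).toNat + (c - b i).toNat = 1) ∧
            (min (a i) c - 1).toNat + ((n : ℤ) - max (b i) c).toNat < (a i - 1).toNat + ((n : ℤ) - b i).toNat := by
          by_cases h : a i = 1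
          · have := hi h
            exact ⟨b i + 1, by omega, by omega, by omega⟩
          · exact ⟨a i - 1, by omega, by omega, by omega⟩
        obtain ⟨x, hx, hxi, hxo⟩ := hpl i (Function.update a i c) (fun j => by
            by_cases hj : j = i
            · rw [hj, Function.update_self]; exact hc1.1
            · rw [Function.update_of_ne hj]; exact (hab j).1) (by
            rw [Function.update_self]; exact hc1.2) (fun j hj => by
            rw [Function.update_of_ne hj]; have := hab j; omega)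
        rw [Function.update_self] at hxi
        have hxo' : ∀ j, j ≠ i → a j ≤ x j ∧ x j ≤ b j := by
          intro j hj
          have h1 := hxo j hj
          rw [Function.update_of_ne hj] at h1
          have h2 := hab j
          omega
        have hd : dst a b x ≤ 1 := by
          unfold dst
          rw [← Finset.sum_erase_add _ _ (mem_univ i)]
          have h0 : ∑ l ∈ univ.erase i, ((a l - x l).toNat + (x l - b l).toNat) = 0 := by
            apply Finset.sum_eq_zero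
            intro l hl
            have h3 := hxo' l (Finset.ne_of_mem_erase hl)
            omega
          rw [h0, hxi]
          omega
        have h3 := absorb_one hS hle hS' hx hd
        refine ih _ ?_ (a ⊓ x) (b ⊔ x) ?_ h3 rfl
        · rw [← hN]
          apply Finset.sum_lt_sum
          · intro j _
            show (min (a j) (x j) - 1).toNat + ((n : ℤ) - max (b j) (x j)).toNat ≤ _
            omega
          · refine ⟨i, mem_univ i, ?_⟩
            show (min (a i) (x i) - 1).toNat + ((n : ℤ) - max (b i) (x i)).toNat < _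
            rw [hxi]; exact hc3
        · intro j
          show 1 ≤ min (a j) (x j) ∧ min (a j) (x j) + K - 1 ≤ max (b j) (x j) ∧ max (b j) (x j) ≤ n
          have h4 := hab j
          by_cases hj : j = i
          · rw [hj, hxi]; rw [hj] at h4; omega
          · have := hxo' j hj
            omega
  refine main _ u _ ?_ h0 rfl
  intro i
  have := hu1 i
  have := hun i
  exact ⟨by omega, by simp, by omega⟩

end Pool.Agent.H97.BP
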