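import Pool.Agent.H97.BP.Bridge

/-!
# Bounds for the critical probability
-/

set_option autoImplicit false

namespace Pool.Agent.H97.BP

open Finset H974 Filter Topology

theorem tendsto_log_nat : Tendsto (fun n : ℕ => Real.log (n : ℝ)) atTop atTop :=
  Real.tendsto_log_atTop.comp tendsto_natCast_atTop_atTop

/-- lower bound: the first order is at least `lam0` -/
theorem pc_lower {ε : ℝ} (hε : 0 < ε) (hε' : ε < lam0) :
    ∀ᶠ n : ℕ in atTop, ((lam0 - ε) / Real.log n) ^ 2 ≤ pc n := by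
  obtain ⟨p₀, hp₀, hsm⟩ := cube_small hε hε'
  have hl : 0 < lam0 - ε := by linarith
  have hL : ∀ᶠ n : ℕ in atTop, (lam0 - ε) + (lam0 - ε) / Real.sqrt p₀ ≤ Real.log n :=
    tendsto_log_nat.eventually_ge_atTop _
  filter_upwards [hL, eventually_ge_atTop 1] with n hn hn1
  have hs₀ : 0 < Real.sqrt p₀ := Real.sqrt_pos.2 hp₀
  have hLpos : 0 < Real.log n := by
    have : 0 < (lam0 - ε) / Real.sqrt p₀ := by positivity
    linarith
  obtain ⟨x, hx⟩ : ∃ x, x = (lam0 - ε) / Real.log n := ⟨_, rfl⟩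
  have hx0 : 0 < x := by rw [hx]; positivity
  have hx1 : x ≤ 1 := by
    rw [hx, div_le_one hLpos]
    have : 0 < (lam0 - ε) / Real.sqrt p₀ := by positivity
    linarith
  have hxs : x ≤ Real.sqrt p₀ := by
    rw [hx, div_le_iff₀ hLpos]
    have : (lam0 - ε) / Real.sqrt p₀ ≤ Real.log n := by linarith
    rw [div_le_iff₀ hs₀] at this
    linarith
  have hxp : x ^ 2 ≤ p₀ := by
    calc x ^ 2 ≤ Real.sqrt p₀ ^ 2 := pow_le_pow_left₀ hx0.le hxs 2
      _ = p₀ := Real.sq_sqrt hp₀.le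
  rw [← hx]
  apply le_pc (pow_le_one₀ hx0.le hx1)
  apply hsm (x ^ 2) (by positivity) hxp n hn1
  · rw [Real.sqrt_sq hx0.le, hx]
    field_simp
  · intro i
    show (1:ℤ) ≤ n
    exact_mod_cast hn1
  · intro j
    unfold dm
    show ((n : ℤ) - 1 + 1).toNat = n
    omega

/-- upper bound with a second order term -/
theorem pc_upper : ∃ c8 : ℝ, 0 < c8 ∧ ∀ᶠ n : ℕ in atTop,
    0 ≤ lam0 / Real.log n - c8 / (Real.log n * Real.sqrt (Real.log n)) ∧
    pc n ≤ (lam0 / Real.log n - c8 / (Real.log n * Real.sqrt (Real.log n))) ^ 2 := by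
  obtain ⟨m₀, hm₀, hB⟩ := partB
  have hl := lam0_pos
  have hc6 := c6_pos
  have hsl : 0 < Real.sqrt lam0 := Real.sqrt_pos.2 hl
  obtain ⟨c7, hc7⟩ : ∃ c7, c7 = c6 / 6 / (lam0 * Real.sqrt lam0) := ⟨_, rfl⟩
  have hc7p : 0 < c7 := by rw [hc7]; positivity
  refine ⟨lam0 ^ 2 * c7 / 2, by positivity, ?_⟩
  have hL : ∀ᶠ n : ℕ in atTop, lam0 * m₀ + (lam0 * c7) ^ 2 + 1 ≤ Real.log n :=
    tendsto_log_nat.eventually_ge_atTop _
  filter_upwards [hL, eventually_ge_atTop 1] with n hn hn1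
  have hm0pos : 0 < m₀ := by linarith
  have hLpos : 0 < Real.log n := by
    have : 0 < lam0 * m₀ := by positivity
    have : 0 ≤ (lam0 * c7) ^ 2 := by positivity
    linarith
  generalize hLn : Real.log n = L at *
  obtain ⟨s, hs⟩ : ∃ s, s = Real.sqrt L := ⟨_, rfl⟩
  have hs0 : 0 < s := by rw [hs]; exact Real.sqrt_pos.2 hLpos
  have hs2 : s ^ 2 = L := by rw [hs]; exact Real.sq_sqrt hLpos.le
  have hsa : lam0 * c7 ≤ s := by
    rw [hs]
    apply Real.le_sqrt_of_sq_le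
    have : 0 < lam0 * m₀ := by positivity
    linarith
  obtain ⟨m, hm⟩ : ∃ m, m = L / lam0 + c7 * s := ⟨_, rfl⟩
  have hmL : L / lam0 ≤ m := by
    rw [hm]; have : 0 < c7 * s := by positivity
    linarith
  have hmm₀ : m₀ ≤ m := by
    refine le_trans ?_ hmL
    rw [le_div_iff₀ hl]
    have : 0 ≤ (lam0 * c7) ^ 2 := by positivity
    linarith
  have hmpos : 0 < m := by linarith
  have hlm : lam0 * m = L + lam0 * c7 * s := by rw [hm]; field_simp
  have hcond : lam0 * m - c6 / 6 * Real.sqrt m ≤ L := by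
    have h1 : s / Real.sqrt lam0 ≤ Real.sqrt m := by
      rw [hs, ← Real.sqrt_div hLpos.le]
      exact Real.sqrt_le_sqrt hmL
    have h2 : lam0 * c7 * s ≤ c6 / 6 * Real.sqrt m := by
      have h3 : lam0 * c7 * s = c6 / 6 * (s / Real.sqrt lam0) := by
        rw [hc7]; field_simp
      rw [h3]
      exact mul_le_mul_of_nonneg_left h1 (by positivity)
    linarith
  have hcond2 : L ≤ 2 * lam0 * m := by
    have h1 : 0 ≤ lam0 * c7 * s := by positivity
    have h2 : 2 * lam0 * m = 2 * (lam0 * m) := by ring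
    rw [h2, hlm]
    linarith
  obtain ⟨q, hq⟩ : ∃ q, q = 1 / m ^ 2 := ⟨_, rfl⟩
  have hq0 : 0 < q := by rw [hq]; positivity
  have hqm : q * m ^ 2 = 1 := by rw [hq]; field_simp
  have hexp1 : Real.exp (-q) ≤ 1 := Real.exp_le_one_iff.2 (by linarith)
  have hexp0 := Real.exp_pos (-q)
  have hb := hB m hmm₀ (1 - Real.exp (-q)) q (by linarith) (by linarith) (by ring) hqm n hn1
    (by rw [hLn]; exact hcond) (by rw [hLn]; exact hcond2)
  have hpc := pc_le (by linarith) (by linarith) hb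
  have hpq : 1 - Real.exp (-q) ≤ q := by
    have := Real.add_one_le_exp (-q); linarith
  -- the inequality 1 / m ≤ ...
  have hX : 1 / m ≤ lam0 / L - lam0 ^ 2 * c7 / 2 / (L * s) := by
    rw [div_le_iff₀ hmpos]
    have h1 : (lam0 / L - lam0 ^ 2 * c7 / 2 / (L * s)) * m = 1 + (lam0 * c7) / (2 * s ^ 2) * (s - lam0 * c7) := by
      rw [hm, ← hs2]
      field_simp
      ring
    rw [h1]
    have h2 : 0 ≤ (lam0 * c7) / (2 * s ^ 2) * (s - lam0 * c7) :=
      mul_nonneg (by positivity) (by linarith)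
    linarith
  rw [← hs]
  have h1m : 0 < 1 / m := by positivity
  refine ⟨h1m.le.trans hX, ?_⟩
  calc pc n ≤ q := hpc.trans hpq
    _ = (1 / m) ^ 2 := by rw [hq, div_pow, one_pow]
    _ ≤ _ := pow_le_pow_left₀ h1m.le hX 2

/-- no expansion with a second order term of order `L ^ (-7/4)` -/
theorem no_expansion : ¬ ∃ lam c C : ℝ, 0 < lam ∧ 0 < c ∧ 0 < C ∧ ∃ N : ℕ, ∀ n : ℕ, N ≤ n →
    (lam / Real.log n - C / Real.log n ^ ((7:ℝ) / 4)) ^ 2 ≤ pc n ∧
    pc n ≤ (lam / Real.log n - c / Real.log n ^ ((7:ℝ) / 4)) ^ 2 := by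
  rintro ⟨lam, c, C, hlam, hc, hC, N, hN⟩
  obtain ⟨c8, hc8, hup⟩ := pc_upper
  -- fourth root of the logarithm
  have hroot : ∀ L : ℝ, 0 < L → ∃ u : ℝ, 0 < u ∧ u ^ 4 = L ∧ L ^ ((7:ℝ) / 4) = u ^ 7 ∧ Real.sqrt L = u ^ 2 := by
    intro L hL
    refine ⟨L ^ ((1:ℝ) / 4), Real.rpow_pos_of_pos hL _, ?_, ?_, ?_⟩
    · rw [← Real.rpow_natCast, ← Real.rpow_mul hL.le]; norm_num
    · rw [← Real.rpow_natCast (L ^ ((1:ℝ) / 4)) 7, ← Real.rpow_mul hL.le]; norm_num
    · rw [Real.sqrt_eq_rpow, ← Real.rpow_natCast (L ^ ((1:ℝ) / 4)) 2, ← Real.rpow_mul hL.le]; norm_num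
  -- first order
  have hfirst : lam0 ≤ lam := by
    by_contra hcon
    push Not at hcon
    obtain ⟨ε, hε⟩ : ∃ ε, ε = (lam0 - lam) / 2 := ⟨_, rfl⟩
    have hε0 : 0 < ε := by rw [hε]; linarith
    have hε1 : ε < lam0 := by rw [hε]; linarith
    have hlow := pc_lower hε0 hε1
    have hL : ∀ᶠ n : ℕ in atTop, 1 + (c / lam) ^ 4 ≤ Real.log n := tendsto_log_nat.eventually_ge_atTop _
    obtain ⟨n, h1, h2, h3⟩ := ((hlow.and hL).and (eventually_ge_atTop N)).exists.imp
      (fun n h => (⟨h.1.1, h.1.2, h.2⟩ : _ ∧ _ ∧ _))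
    have h4 := (hN n h3).2
    have hLpos : 0 < Real.log n := by
      have : 0 ≤ (c / lam) ^ 4 := by positivity
      linarith
    obtain ⟨u, hu0, hu4, hu7, -⟩ := hroot _ hLpos
    rw [hu7] at h4
    rw [← hu4] at h1 h2 h4
    have hu1 : 1 ≤ u := by
      by_contra hc'
      push Not at hc'
      have : u ^ 4 < 1 := pow_lt_one₀ hu0.le hc' (by norm_num)
      have : 0 ≤ (c / lam) ^ 4 := by positivity
      linarith
    have hcu : c / lam ≤ u := by
      by_contra hc'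
      push Not at hc'
      have : u ^ 4 < (c / lam) ^ 4 := pow_lt_pow_left₀ hc' hu0.le (by norm_num)
      linarith
    have hx0 : 0 ≤ lam / u ^ 4 - c / u ^ 7 := by
      have e : lam / u ^ 4 - c / u ^ 7 = (lam * u ^ 3 - c) / u ^ 7 := by field_simp
      rw [e]
      apply div_nonneg _ (by positivity)
      have h5 : u ≤ u ^ 3 := le_self_pow₀ hu1 (by norm_num)
      rw [div_le_iff₀ hlam] at hcu
      nlinarith
    have h5 := h1.trans h4
    have h6 := abs_le_of_sq_le_sq h5 hx0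
    have h7 := (le_abs_self _).trans h6
    have h8 : (lam0 - ε) / u ^ 4 ≤ lam / u ^ 4 := by
      have : 0 < c / u ^ 7 := by positivity
      linarith
    rw [div_le_div_iff_of_pos_right (by positivity)] at h8
    rw [hε] at h8
    linarith
  -- second order
  have hL : ∀ᶠ n : ℕ in atTop, 1 + (C / c8 + 1) ^ 4 ≤ Real.log n := tendsto_log_nat.eventually_ge_atTop _
  obtain ⟨n, h1, h2, h3⟩ := ((hup.and hL).and (eventually_ge_atTop N)).exists.imp
    (fun n h => (⟨h.1.1, h.1.2, h.2⟩ : _ ∧ _ ∧ _))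
  obtain ⟨h4, h5⟩ := h1
  have h6 := (hN n h3).1
  have hLpos : 0 < Real.log n := by
    have : 0 ≤ (C / c8 + 1) ^ 4 := by positivity
    linarith
  obtain ⟨u, hu0, hu4, hu7, hu2⟩ := hroot _ hLpos
  rw [hu7] at h6
  rw [hu2] at h4 h5
  rw [← hu4] at h2 h4 h5 h6
  have hcu : C / c8 + 1 ≤ u := by
    by_contra hc'
    push Not at hc'
    have : u ^ 4 < (C / c8 + 1) ^ 4 := pow_lt_pow_left₀ hc' hu0.le (by norm_num)
    linarith
  have h7 := (le_abs_self _).trans (abs_le_of_sq_le_sq (h6.trans h5) h4)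
  have h8 : lam0 / u ^ 4 ≤ lam / u ^ 4 := div_le_div_of_nonneg_right hfirst (by positivity)
  have h9 : c8 / (u ^ 4 * u ^ 2) ≤ C / u ^ 7 := by linarith
  rw [div_le_div_iff₀ (by positivity) (by positivity)] at h9
  have h10 : c8 * u ≤ C := by
    have h11 : c8 * u ^ 7 = (c8 * u) * u ^ 6 := by ring
    have h12 : C * (u ^ 4 * u ^ 2) = C * u ^ 6 := by ring
    rw [h11, h12] at h9
    exact le_of_mul_le_mul_right h9 (by positivity)
  have h13 : C < c8 * u := by
    have : C / c8 < u := by linarith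
    rw [div_lt_iff₀ hc8] at this
    linarith
  linarith

end Pool.Agent.H97.BP
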