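import Mathlib

/-!
# Two-neighbour bootstrap percolation on `ℤ³`: closures and boxes
-/

set_option autoImplicit false

namespace Pool.Agent.H97.BP

open Finset

/-- points of the cubic lattice -/
abbrev Pt := Fin 3 → ℤ

/-- nearest neighbours -/
def Adj (u v : Pt) : Prop := ∑ i, (u i - v i).natAbs = 1

/-- `S` contains every point with two neighbours in `S` -/
def Closed2 (S : Set Pt) : Prop :=
  ∀ v u u' : Pt, u ∈ S → u' ∈ S → u ≠ u' → Adj u v → Adj u' v → v ∈ S

/-- the closure -/
def Cl (A : Set Pt) : Set Pt := {x | ∀ S : Set Pt, A ⊆ S → Closed2 S → x ∈ S}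

theorem subset_Cl (A : Set Pt) : A ⊆ Cl A := fun _ hx _ hS _ => hS hx

theorem Cl_min {A S : Set Pt} (h : A ⊆ S) (hS : Closed2 S) : Cl A ⊆ S := fun _ hx => hx S h hS

theorem Cl_closed (A : Set Pt) : Closed2 (Cl A) := by
  intro v u u' hu hu' hne h1 h2 S hS hc
  exact hc v u u' (hu S hS hc) (hu' S hS hc) hne h1 h2

theorem Cl_mono {A B : Set Pt} (h : A ⊆ B) : Cl A ⊆ Cl B :=
  Cl_min (h.trans (subset_Cl B)) (Cl_closed B)

theorem Cl_eq_of_closed {A : Set Pt} (h : Closed2 A) : Cl A = A :=
  Set.Subset.antisymm (Cl_min le_rfl h) (subset_Cl A)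

theorem mem_Icc3 {a b x : Pt} : x ∈ Set.Icc a b ↔
    (a 0 ≤ x 0 ∧ x 0 ≤ b 0) ∧ (a 1 ≤ x 1 ∧ x 1 ≤ b 1) ∧ (a 2 ≤ x 2 ∧ x 2 ≤ b 2) := by
  simp only [Set.mem_Icc, Pi.le_def, Fin.forall_fin_succ, Fin.succ_zero_eq_one, Fin.succ_one_eq_two,
    IsEmpty.forall_iff, and_true]
  tauto

theorem adj3 {u v : Pt} : Adj u v ↔
    (u 0 - v 0).natAbs + (u 1 - v 1).natAbs + (u 2 - v 2).natAbs = 1 := by
  unfold Adj
  rw [Fin.sum_univ_three]

theorem le3 {a b : Pt} : a ≤ b ↔ a 0 ≤ b 0 ∧ a 1 ≤ b 1 ∧ a 2 ≤ b 2 := by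
  simp only [Pi.le_def, Fin.forall_fin_succ, Fin.succ_zero_eq_one, Fin.succ_one_eq_two,
    IsEmpty.forall_iff, and_true]

theorem ext3 {a b : Pt} : a = b ↔ a 0 = b 0 ∧ a 1 = b 1 ∧ a 2 = b 2 := by
  simp only [funext_iff, Fin.forall_fin_succ, Fin.succ_zero_eq_one, Fin.succ_one_eq_two,
    IsEmpty.forall_iff, and_true]

theorem Adj.symm {u v : Pt} (h : Adj u v) : Adj v u := by
  rw [adj3] at *; omega

theorem closed_Icc (a b : Pt) : Closed2 (Set.Icc a b) := by
  intro v u u' hu hu' hne h1 h2
  rw [mem_Icc3] at *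
  rw [Ne, ext3] at hne
  rw [adj3] at *
  omega

/-- distance to a box -/
def dst (a b x : Pt) : ℕ := ∑ i, ((a i - x i).toNat + (x i - b i).toNat)

theorem dst3 (a b x : Pt) : dst a b x = ((a 0 - x 0).toNat + (x 0 - b 0).toNat) +
    ((a 1 - x 1).toNat + (x 1 - b 1).toNat) + ((a 2 - x 2).toNat + (x 2 - b 2).toNat) := by
  unfold dst
  rw [Fin.sum_univ_three]

theorem dst_zero {a b x : Pt} : dst a b x = 0 ↔ x ∈ Set.Icc a b := by
  rw [dst3, mem_Icc3]; omega

/-- filling of a layer which touches a full layer -/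
theorem layer_fill {S : Set Pt} (hS : Closed2 S) {a b : Pt} (i : Fin 3) {t s : ℤ}
    (hts : t = s + 1 ∨ t = s - 1)
    (hfull : ∀ y : Pt, y i = s → (∀ j, j ≠ i → a j ≤ y j ∧ y j ≤ b j) → y ∈ S)
    {x : Pt} (hx : x ∈ S) (hxi : x i = t) (hxr : ∀ j, j ≠ i → a j ≤ x j ∧ x j ≤ b j) :
    ∀ y : Pt, y i = t → (∀ j, j ≠ i → a j ≤ y j ∧ y j ≤ b j) → y ∈ S := by
  have main : ∀ n : ℕ, ∀ y : Pt, y i = t → (∀ j, j ≠ i → a j ≤ y j ∧ y j ≤ b j) →
      (∑ j, (y j - x j).natAbs) = n → y ∈ S := by
    intro n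
    induction n with
    | zero =>
      intro y _ _ h0
      have : y = x := by
        funext j
        have := (Finset.sum_eq_zero_iff.1 h0) j (mem_univ j)
        omega
      rw [this]; exact hx
    | succ n ih =>
      intro y hyi hyr hn
      -- a coordinate where they differ
      obtain ⟨j, hj⟩ : ∃ j, y j ≠ x j := by
        by_contra hcon
        push Not at hcon
        have : ∑ j, (y j - x j).natAbs = 0 := by
          apply Finset.sum_eq_zero
          intro j _
          rw [hcon j]; simp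
        omega
      have hji : j ≠ i := by rintro rfl; exact hj (hyi.trans hxi.symm)
      -- move one step towards x
      obtain ⟨c, hc1, hc2⟩ : ∃ c : ℤ, (c = y j + 1 ∨ c = y j - 1) ∧
          (c - x j).natAbs + 1 = (y j - x j).natAbs ∧ a j ≤ c ∧ c ≤ b j := by
        have h1 := hyr j hji
        have h2 := hxr j hji
        rcases lt_or_gt_of_ne hj with h | h
        · exact ⟨y j + 1, Or.inl rfl, by omega, by omega, by omega⟩
        · exact ⟨y j - 1, Or.inr rfl, by omega, by omega, by omega⟩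
      set z := Function.update y j c with hz
      have hzj : z j = c := by simp [hz]
      have hzo : ∀ k, k ≠ j → z k = y k := fun k hk => by simp [hz, hk]
      have hzS : z ∈ S := by
        apply ih z
        · rw [hzo i (Ne.symm hji)]; exact hyi
        · intro k hk
          by_cases hkj : k = j
          · rw [hkj, hzj]; exact hc2.2
          · rw [hzo k hkj]; exact hyr k hk
        · have h1 : ∑ k, (y k - x k).natAbs = ∑ k ∈ univ.erase j, (y k - x k).natAbs + (y j - x j).natAbs := by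
            rw [Finset.sum_erase_add _ _ (mem_univ j)]
          have h2 : ∑ k, (z k - x k).natAbs = ∑ k ∈ univ.erase j, (z k - x k).natAbs + (z j - x j).natAbs := by
            rw [Finset.sum_erase_add _ _ (mem_univ j)]
          have h3 : ∑ k ∈ univ.erase j, (z k - x k).natAbs = ∑ k ∈ univ.erase j, (y k - x k).natAbs := by
            apply Finset.sum_congr rfl
            intro k hk
            rw [hzo k (Finset.ne_of_mem_erase hk)]
          rw [hzj] at h2
          omega
      -- the neighbour in the full layer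
      set w := Function.update y i s with hw
      have hwi : w i = s := by simp [hw]
      have hwo : ∀ k, k ≠ i → w k = y k := fun k hk => by simp [hw, hk]
      have hwS : w ∈ S := hfull w hwi (fun k hk => by rw [hwo k hk]; exact hyr k hk)
      have adj_of : ∀ (p : Pt) (k : Fin 3), (∀ l, l ≠ k → p l = y l) → (p k = y k + 1 ∨ p k = y k - 1) →
          Adj p y := by
        intro p k h1 h2
        unfold Adj
        rw [← Finset.sum_erase_add _ _ (mem_univ k)]
        have : ∑ l ∈ univ.erase k, (p l - y l).natAbs = 0 := by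
          apply Finset.sum_eq_zero
          intro l hl
          rw [h1 l (Finset.ne_of_mem_erase hl)]; simp
        rw [this]
        omega
      refine hS y z w hzS hwS ?_ (adj_of z j hzo (by rw [hzj]; exact hc1))
        (adj_of w i hwo (by rw [hwi, hyi]; omega))
      intro hzw
      have := congrFun hzw i
      rw [hzo i (Ne.symm hji), hwi, hyi] at this
      omega
  intro y h1 h2
  exact main _ y h1 h2 rfl

/-- absorbing a point at distance one -/
theorem absorb_one {S : Set Pt} (hS : Closed2 S) {a b x : Pt} (hab : a ≤ b)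
    (hf : Set.Icc a b ⊆ S) (hx : x ∈ S) (hd : dst a b x ≤ 1) : Set.Icc (a ⊓ x) (b ⊔ x) ⊆ S := by
  by_cases h0 : x ∈ Set.Icc a b
  · have h1 : a ⊓ x = a := inf_eq_left.2 h0.1
    have h2 : b ⊔ x = b := sup_eq_left.2 h0.2
    rw [h1, h2]; exact hf
  -- the direction in which `x` is outside
  have hdd := dst3 a b x
  rw [le3] at hab
  rw [mem_Icc3] at h0
  obtain ⟨i, s, hts, hs, hr⟩ : ∃ (i : Fin 3) (s : ℤ), (x i = s + 1 ∨ x i = s - 1) ∧
      ((s = a i ∨ s = b i) ∧ ¬ (a i ≤ x i ∧ x i ≤ b i)) ∧ ∀ j, j ≠ i → a j ≤ x j ∧ x j ≤ b j := by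
    have key : ∀ i : Fin 3, (∀ j, j ≠ i → a j ≤ x j ∧ x j ≤ b j) → a i ≤ b i →
        (a i - x i).toNat + (x i - b i).toNat = 1 →
        ∃ (i : Fin 3) (s : ℤ), (x i = s + 1 ∨ x i = s - 1) ∧
        ((s = a i ∨ s = b i) ∧ ¬ (a i ≤ x i ∧ x i ≤ b i)) ∧ ∀ j, j ≠ i → a j ≤ x j ∧ x j ≤ b j := by
      intro i h1 h2 h3
      rcases lt_or_ge (x i) (a i) with h | h
      · exact ⟨i, a i, by omega, ⟨Or.inl rfl, by omega⟩, h1⟩
      · exact ⟨i, b i, by omega, ⟨Or.inr rfl, by omega⟩, h1⟩
    have h3 : ∀ i j : Fin 3, j ≠ i → j = 0 ∨ j = 1 ∨ j = 2 := by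
      intro i j _; fin_cases j <;> simp
    rcases Nat.lt_or_ge 0 ((a 0 - x 0).toNat + (x 0 - b 0).toNat) with g0 | g0
    · apply key 0 _ (by omega) (by omega)
      intro j hj
      rcases h3 0 j hj with rfl | rfl | rfl
      · exact absurd rfl hj
      · omega
      · omega
    rcases Nat.lt_or_ge 0 ((a 1 - x 1).toNat + (x 1 - b 1).toNat) with g1 | g1
    · apply key 1 _ (by omega) (by omega)
      intro j hj
      rcases h3 1 j hj with rfl | rfl | rfl
      · omega
      · exact absurd rfl hj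
      · omega
    · apply key 2 _ (by omega) (by omega)
      intro j hj
      rcases h3 2 j hj with rfl | rfl | rfl
      · omega
      · omega
      · exact absurd rfl hj
  have hfill := layer_fill hS (a := a) (b := b) i (t := x i) (s := s) hts
    (fun y hy hyr => hf ⟨fun j => by
        by_cases hj : j = i
        · subst hj
          rcases hs.1 with h | h
          · rw [hy, h]
          · rw [hy, h]
            fin_cases j <;> simp_all
        · exact (hyr j hj).1, fun j => by
        by_cases hj : j = i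
        · subst hj
          rcases hs.1 with h | h
          · rw [hy, h]
            fin_cases j <;> simp_all
          · rw [hy, h]
        · exact (hyr j hj).2⟩) hx rfl hr
  intro y hy
  have hy1 : ∀ j, min (a j) (x j) ≤ y j ∧ y j ≤ max (b j) (x j) := fun j => ⟨hy.1 j, hy.2 j⟩
  have hyr : ∀ j, j ≠ i → a j ≤ y j ∧ y j ≤ b j := by
    intro j hj
    have h1 := hr j hj
    have h2 := hy1 j
    omega
  by_cases hyi : y i = x i
  · exact hfill y hyi hyr
  · apply hf
    have h2 := hy1 i
    have h4 : a i ≤ y i ∧ y i ≤ b i := by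
      have hai : a i ≤ b i := by fin_cases i <;> simp_all
      rcases hs with ⟨h | h, h'⟩ <;> omega
    exact ⟨fun j => by
      by_cases hj : j = i
      · subst hj; exact h4.1
      · exact (hyr j hj).1, fun j => by
      by_cases hj : j = i
      · subst hj; exact h4.2
      · exact (hyr j hj).2⟩

end Pool.Agent.H97.BP
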