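import Pool.Agent.H97.BP.Geo

/-!
# Two-neighbour bootstrap percolation on `ℤ³`: merging of boxes and decompositions
-/

set_option autoImplicit false

namespace Pool.Agent.H97.BP

open Finset

theorem ab_i {a b : Pt} (h : a ≤ b) (i : Fin 3) : a i ≤ b i := h i

theorem adj_update {y : Pt} {i : Fin 3} {c : ℤ} (h : c = y i + 1 ∨ c = y i - 1) :
    Adj (Function.update y i c) y := by
  unfold Adj
  rw [← Finset.sum_erase_add _ _ (mem_univ i)]
  have : ∑ l ∈ univ.erase i, (Function.update y i c l - y l).natAbs = 0 := by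
    apply Finset.sum_eq_zero
    intro l hl
    rw [Function.update_of_ne (Finset.ne_of_mem_erase hl)]; simp
  rw [this]
  simp only [Function.update_self]
  omega

/-- growing a box inside a second one which it meets -/
theorem grow {S : Set Pt} (hS : Closed2 S) {a2 b2 y : Pt} (h2 : Set.Icc a2 b2 ⊆ S)
    (hy2 : y ∈ Set.Icc a2 b2) : ∀ (N : ℕ) (a b : Pt), a ≤ b → Set.Icc a b ⊆ S → y ∈ Set.Icc a b →
    (∑ i, ((a i - a2 i).toNat + (b2 i - b i).toNat)) = N → Set.Icc (a ⊓ a2) (b ⊔ b2) ⊆ S := by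
  intro N
  induction N using Nat.strong_induction_on with
  | _ N ih =>
    intro a b hab hf hy hN
    by_cases hall : ∀ i, a i ≤ a2 i ∧ b2 i ≤ b i
    · have e1 : a ⊓ a2 = a := inf_eq_left.2 (fun i => (hall i).1)
      have e2 : b ⊔ b2 = b := sup_eq_left.2 (fun i => (hall i).2)
      rw [e1, e2]; exact hf
    · push Not at hall
      obtain ⟨i, hi⟩ := hall
      have hyi : a i ≤ y i := hy.1 i
      have hyi' : y i ≤ b i := hy.2 i
      have hyi2 : a2 i ≤ y i := hy2.1 i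
      have hyi2' : y i ≤ b2 i := hy2.2 i
      obtain ⟨c, hc1, hc2, hc3⟩ : ∃ c : ℤ, (a2 i ≤ c ∧ c ≤ b2 i) ∧
          ((a i - c).toNat + (c - b i).toNat = 1) ∧
          ((min (a i) c - a2 i).toNat + (b2 i - max (b i) c).toNat
            < (a i - a2 i).toNat + (b2 i - b i).toNat) := by
        by_cases h : a2 i < a i
        · exact ⟨a i - 1, by omega, by omega, by omega⟩
        · exact ⟨b i + 1, by omega, by omega, by omega⟩
      set z := Function.update y i c with hz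
      have hzi : z i = c := by simp [hz]
      have hzo : ∀ k, k ≠ i → z k = y k := fun k hk => by simp [hz, hk]
      have hz2 : z ∈ Set.Icc a2 b2 := by
        constructor
        · intro j
          by_cases hj : j = i
          · subst hj; rw [hzi]; exact hc1.1
          · rw [hzo j hj]; exact hy2.1 j
        · intro j
          by_cases hj : j = i
          · subst hj; rw [hzi]; exact hc1.2
          · rw [hzo j hj]; exact hy2.2 j
      have hd : dst a b z ≤ 1 := by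
        unfold dst
        rw [← Finset.sum_erase_add _ _ (mem_univ i)]
        have h0 : ∑ l ∈ univ.erase i, ((a l - z l).toNat + (z l - b l).toNat) = 0 := by
          apply Finset.sum_eq_zero
          intro l hl
          rw [hzo l (Finset.ne_of_mem_erase hl)]
          have h3 : a l ≤ y l := hy.1 l
          have h4 : y l ≤ b l := hy.2 l
          omega
        rw [h0, hzi]
        omega
      have h3 := absorb_one hS hab hf (h2 hz2) hd
      have h4 := ih _ (by
        rw [← hN]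
        apply Finset.sum_lt_sum (s := univ) (f := fun j => (((a ⊓ z) j - a2 j).toNat + (b2 j - (b ⊔ z) j).toNat))
        · intro j _
          show (min (a j) (z j) - a2 j).toNat + (b2 j - max (b j) (z j)).toNat ≤ _
          omega
        · refine ⟨i, mem_univ i, ?_⟩
          show (min (a i) (z i) - a2 i).toNat + (b2 i - max (b i) (z i)).toNat < _
          rw [hzi]; exact hc3) (a ⊓ z) (b ⊔ z) (inf_le_left.trans (hab.trans le_sup_left)) h3
        ⟨inf_le_left.trans hy.1, hy.2.trans le_sup_left⟩ rfl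
      have e1 : a ⊓ z ⊓ a2 = a ⊓ a2 := by rw [inf_assoc, inf_eq_right.2 hz2.1]
      have e2 : b ⊔ z ⊔ b2 = b ⊔ b2 := by rw [sup_assoc, sup_eq_right.2 hz2.2]
      rwa [e1, e2] at h4

/-- a step towards a box -/
theorem step_to {a b x : Pt} (hab : a ≤ b) {n : ℕ} (h : dst a b x = n + 1) :
    ∃ z, Adj z x ∧ dst a b z = n ∧
      (∃ i, z = Function.update x i (z i) ∧ (a i - z i).toNat + (z i - b i).toNat + 1
        = (a i - x i).toNat + (x i - b i).toNat) := by
  obtain ⟨i, hi⟩ : ∃ i, 0 < (a i - x i).toNat + (x i - b i).toNat := by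
    by_contra hcon
    push Not at hcon
    have : dst a b x = 0 := by
      unfold dst
      apply Finset.sum_eq_zero
      intro i _
      have := hcon i
      omega
    omega
  have hi' : a i ≤ b i := hab i
  obtain ⟨c, hc1, hc2⟩ : ∃ c : ℤ, (c = x i + 1 ∨ c = x i - 1) ∧
      (a i - c).toNat + (c - b i).toNat + 1 = (a i - x i).toNat + (x i - b i).toNat := by
    by_cases h : x i < a i
    · exact ⟨x i + 1, by omega, by omega⟩
    · exact ⟨x i - 1, by omega, by omega⟩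
  refine ⟨Function.update x i c, adj_update hc1, ?_, i, by simp, by simpa using hc2⟩
  unfold dst at *
  rw [← Finset.sum_erase_add _ _ (mem_univ i)] at h ⊢
  have h3 : ∑ l ∈ univ.erase i, ((a l - Function.update x i c l).toNat + (Function.update x i c l - b l).toNat)
      = ∑ l ∈ univ.erase i, ((a l - x l).toNat + (x l - b l).toNat) := by
    apply Finset.sum_congr rfl
    intro l hl
    rw [Function.update_of_ne (Finset.ne_of_mem_erase hl)]
  rw [h3]
  simp only [Function.update_self]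
  omega

theorem dst_le_of_adj {a b x z : Pt} (h : Adj z x) : dst a b x ≤ dst a b z + 1 := by
  unfold Adj at h
  unfold dst
  rw [← h, ← Finset.sum_add_distrib]
  apply Finset.sum_le_sum
  intro i _
  omega

theorem dst_mono {a b a' b' x : Pt} (h1 : a' ≤ a) (h2 : b ≤ b') : dst a' b' x ≤ dst a b x := by
  unfold dst
  apply Finset.sum_le_sum
  intro i _
  have g1 : a' i ≤ a i := h1 i
  have g2 : b i ≤ b' i := h2 i
  omega

/-- absorbing a point at distance two -/
theorem absorb_two {S : Set Pt} (hS : Closed2 S) {a b x : Pt} (hab : a ≤ b)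
    (hf : Set.Icc a b ⊆ S) (hx : x ∈ S) (hd : dst a b x ≤ 2) : Set.Icc (a ⊓ x) (b ⊔ x) ⊆ S := by
  by_cases h1 : dst a b x ≤ 1
  · exact absorb_one hS hab hf hx h1
  have h2 : dst a b x = 1 + 1 := by omega
  obtain ⟨z, hz1, hz2, -⟩ := step_to hab h2
  obtain ⟨w, hw1, hw2, -⟩ := step_to hab (n := 0) (by rw [hz2])
  have hwS : w ∈ S := hf (dst_zero.1 hw2)
  have hne : w ≠ x := by
    rintro rfl
    omega
  have hzS : z ∈ S := hS z w x hwS hx hne hw1 hz1.symm
  have h3 := absorb_one hS hab hf hzS (by omega)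
  have hd2 : dst (a ⊓ z) (b ⊔ z) x ≤ 1 := by
    have h4 : dst (a ⊓ z) (b ⊔ z) z = 0 := by
      rw [dst_zero]; exact ⟨inf_le_right, le_sup_right⟩
    have := dst_le_of_adj (a := a ⊓ z) (b := b ⊔ z) hz1
    omega
  have h5 := absorb_one hS (inf_le_left.trans (hab.trans le_sup_left)) h3 hx hd2
  refine Set.Subset.trans (Set.Icc_subset_Icc ?_ ?_) h5
  · exact inf_le_inf_right x inf_le_left
  · exact sup_le_sup_right le_sup_left x

/-- two boxes within distance two -/
def Near (a b a2 b2 : Pt) : Prop :=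
  ∃ u ∈ Set.Icc a b, ∃ v ∈ Set.Icc a2 b2, ∑ i, (u i - v i).natAbs ≤ 2

theorem Near.symm {a b a2 b2 : Pt} (h : Near a b a2 b2) : Near a2 b2 a b := by
  obtain ⟨u, hu, v, hv, h⟩ := h
  refine ⟨v, hv, u, hu, ?_⟩
  have : ∑ i, (v i - u i).natAbs = ∑ i, (u i - v i).natAbs := by
    apply Finset.sum_congr rfl
    intro i _
    omega
  rw [this]; exact h

theorem merge {S : Set Pt} (hS : Closed2 S) {a b a2 b2 : Pt} (hab : a ≤ b)
    (hf : Set.Icc a b ⊆ S) (hf2 : Set.Icc a2 b2 ⊆ S) (hn : Near a b a2 b2) :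
    Set.Icc (a ⊓ a2) (b ⊔ b2) ⊆ S := by
  obtain ⟨u, hu, v, hv, h⟩ := hn
  have hd : dst a b v ≤ 2 := by
    refine le_trans ?_ h
    unfold dst
    apply Finset.sum_le_sum
    intro i _
    have h1 : a i ≤ u i := hu.1 i
    have h2 : u i ≤ b i := hu.2 i
    omega
  have h3 := absorb_two hS hab hf (hf2 hv) hd
  have h4 := grow hS hf2 hv _ (a ⊓ v) (b ⊔ v) (inf_le_left.trans (hab.trans le_sup_left)) h3
    ⟨inf_le_right, le_sup_right⟩ rfl
  have e1 : a ⊓ v ⊓ a2 = a ⊓ a2 := by rw [inf_assoc, inf_eq_right.2 hv.1]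
  have e2 : b ⊔ v ⊔ b2 = b ⊔ b2 := by rw [sup_assoc, sup_eq_right.2 hv.2]
  rwa [e1, e2] at h4

theorem near_side {a b a2 b2 : Pt} (hn : Near a b a2 b2) (i : Fin 3) :
    (b ⊔ b2) i - (a ⊓ a2) i + 1 ≤ (b i - a i + 1) + (b2 i - a2 i + 1) + 1 := by
  obtain ⟨u, hu, v, hv, h⟩ := hn
  have h1 : a i ≤ u i := hu.1 i
  have h2 : u i ≤ b i := hu.2 i
  have h3 : a2 i ≤ v i := hv.1 i
  have h4 : v i ≤ b2 i := hv.2 i
  have h5 : (u i - v i).natAbs ≤ 2 :=
    (Finset.single_le_sum (f := fun i => (u i - v i).natAbs) (fun _ _ => Nat.zero_le _) (mem_univ i)).trans h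
  show max (b i) (b2 i) - min (a i) (a2 i) + 1 ≤ _
  omega

theorem Cl_empty : Cl ∅ = ∅ := by
  apply Cl_eq_of_closed
  intro v u u' hu
  exact absurd hu (by simp)

theorem Cl_singleton (x : Pt) : Cl {x} = Set.Icc x x := by
  rw [Set.Icc_self]
  apply Cl_eq_of_closed
  rw [← Set.Icc_self]
  exact closed_Icc x x

theorem Icc_inj {a b a' b' : Pt} (hab : a ≤ b) (h : Set.Icc a b = Set.Icc a' b') :
    a = a' ∧ b = b' := by
  have h1 : a ∈ Set.Icc a' b' := h ▸ ⟨le_rfl, hab⟩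
  have h2 : b ∈ Set.Icc a' b' := h ▸ ⟨hab, le_rfl⟩
  have h' : a' ≤ b' := h1.1.trans h1.2
  have h3 : a' ∈ Set.Icc a b := h ▸ ⟨le_rfl, h'⟩
  have h4 : b' ∈ Set.Icc a b := h ▸ ⟨h', le_rfl⟩
  exact ⟨le_antisymm h3.1 h1.1, le_antisymm h2.2 h4.2⟩

theorem Cl_union_near {X Y : Set Pt} {a b a2 b2 : Pt} (hab : a ≤ b)
    (hX : Cl X = Set.Icc a b) (hY : Cl Y = Set.Icc a2 b2) (hn : Near a b a2 b2) :
    Cl (X ∪ Y) = Set.Icc (a ⊓ a2) (b ⊔ b2) := by
  apply Set.Subset.antisymm
  · apply Cl_min _ (closed_Icc _ _)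
    apply Set.union_subset
    · exact ((subset_Cl X).trans hX.le).trans (Set.Icc_subset_Icc inf_le_left le_sup_left)
    · exact ((subset_Cl Y).trans hY.le).trans (Set.Icc_subset_Icc inf_le_right le_sup_right)
  · exact merge (Cl_closed _) hab (hX ▸ Cl_mono Set.subset_union_left)
      (hY ▸ Cl_mono Set.subset_union_right) hn

/-- one step of a decomposition of a spanned box -/
theorem decomp {A : Finset Pt} {a b : Pt} (hab : a ≤ b) (hA : Cl (A : Set Pt) = Set.Icc a b)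
    (hne : a ≠ b) : ∃ X Y : Finset Pt, X ⊂ A ∧ Y ⊂ A ∧ Disjoint X Y ∧ ∃ a1 b1 a2 b2 : Pt,
      a1 ≤ b1 ∧ a2 ≤ b2 ∧ Cl (X : Set Pt) = Set.Icc a1 b1 ∧ Cl (Y : Set Pt) = Set.Icc a2 b2 ∧
      Near a1 b1 a2 b2 ∧ a = a1 ⊓ a2 ∧ b = b1 ⊔ b2 := by
  classical
  let good : Finset (Finset Pt) → Prop := fun P =>
    (∀ X ∈ P, ∃ a b : Pt, a ≤ b ∧ Cl (X : Set Pt) = Set.Icc a b) ∧
    (∀ X ∈ P, ∀ Y ∈ P, X ≠ Y → Disjoint X Y) ∧ P.biUnion id = A ∧ 2 ≤ P.card
  have hcard : 2 ≤ A.card := by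
    by_contra hc
    have : A.card = 0 ∨ A.card = 1 := by omega
    rcases this with h | h
    · rw [Finset.card_eq_zero] at h
      rw [h, Finset.coe_empty, Cl_empty] at hA
      have : a ∈ (∅ : Set Pt) := hA ▸ ⟨le_rfl, hab⟩
      exact this
    · obtain ⟨x, hx⟩ := Finset.card_eq_one.1 h
      rw [hx, Finset.coe_singleton, Cl_singleton] at hA
      obtain ⟨h1, h2⟩ := Icc_inj le_rfl hA
      exact hne (h1.symm.trans h2)
  have hex : ∃ n : ℕ, ∃ P, good P ∧ P.card = n := by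
    refine ⟨_, A.image (fun x => {x}), ⟨?_, ?_, ?_, ?_⟩, rfl⟩
    · intro X hX
      obtain ⟨x, -, rfl⟩ := Finset.mem_image.1 hX
      exact ⟨x, x, le_rfl, by rw [Finset.coe_singleton, Cl_singleton]⟩
    · intro X hX Y hY hXY
      obtain ⟨x, -, rfl⟩ := Finset.mem_image.1 hX
      obtain ⟨y, -, rfl⟩ := Finset.mem_image.1 hY
      rw [Finset.disjoint_singleton]
      rintro rfl
      exact hXY rfl
    · ext x
      simp
    · rw [Finset.card_image_of_injective _ Finset.singleton_injective]; exact hcard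
  obtain ⟨P, hP, hPn⟩ := Nat.find_spec hex
  obtain ⟨hbox, hdis, hun, h2⟩ := hP
  have hpne : ∀ X ∈ P, X.Nonempty := by
    intro X hX
    obtain ⟨a', b', h1, h3⟩ := hbox X hX
    rw [Finset.nonempty_iff_ne_empty]
    rintro rfl
    rw [Finset.coe_empty, Cl_empty] at h3
    have : a' ∈ (∅ : Set Pt) := h3 ▸ ⟨le_rfl, h1⟩
    exact this
  have hsub : ∀ X ∈ P, X ⊆ A := by
    intro X hX
    rw [← hun]
    exact Finset.subset_biUnion_of_mem id hX
  -- merging two near parts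
  have hmerge : ∀ X ∈ P, ∀ Y ∈ P, X ≠ Y → ∀ a1 b1 a2 b2 : Pt, a1 ≤ b1 → a2 ≤ b2 →
      Cl (X : Set Pt) = Set.Icc a1 b1 → Cl (Y : Set Pt) = Set.Icc a2 b2 → Near a1 b1 a2 b2 →
      P.card = 2 := by
    intro X hX Y hY hXY a1 b1 a2 b2 h1 h3 hXb hYb hn
    by_contra hc
    have h4 : 3 ≤ P.card := by omega
    set Q := (P.erase X).erase Y with hQ
    have hQmem : ∀ Z ∈ Q, Z ∈ P ∧ Z ≠ X ∧ Z ≠ Y := by
      intro Z hZ
      rw [hQ, Finset.mem_erase, Finset.mem_erase] at hZ
      exact ⟨hZ.2.2, hZ.2.1, hZ.1⟩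
    have hQcard : Q.card = P.card - 2 := by
      rw [hQ, Finset.card_erase_of_mem, Finset.card_erase_of_mem hX]
      · omega
      · exact Finset.mem_erase.2 ⟨fun h => hXY h.symm, hY⟩
    have hnot : X ∪ Y ∉ Q := by
      intro h
      obtain ⟨h5, h6, h7⟩ := hQmem _ h
      have h8 := hdis _ h5 X hX h6
      obtain ⟨x, hx⟩ := hpne X hX
      exact (Finset.disjoint_left.1 h8 (Finset.mem_union_left _ hx)) hx
    have hgood : good (insert (X ∪ Y) Q) := by
      refine ⟨?_, ?_, ?_, ?_⟩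
      · intro Z hZ
        rcases Finset.mem_insert.1 hZ with rfl | hZ
        · refine ⟨a1 ⊓ a2, b1 ⊔ b2, inf_le_left.trans (h1.trans le_sup_left), ?_⟩
          rw [Finset.coe_union]
          exact Cl_union_near h1 hXb hYb hn
        · exact hbox Z (hQmem Z hZ).1
      · intro Z hZ W hW hZW
        rcases Finset.mem_insert.1 hZ with rfl | hZ
        · rcases Finset.mem_insert.1 hW with rfl | hW
          · exact absurd rfl hZW
          · obtain ⟨h5, h6, h7⟩ := hQmem W hW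
            rw [Finset.disjoint_union_left]
            exact ⟨hdis X hX W h5 (Ne.symm h6), hdis Y hY W h5 (Ne.symm h7)⟩
        · obtain ⟨h5, h6, h7⟩ := hQmem Z hZ
          rcases Finset.mem_insert.1 hW with rfl | hW
          · rw [Finset.disjoint_union_right]
            exact ⟨hdis Z h5 X hX h6, hdis Z h5 Y hY h7⟩
          · exact hdis Z h5 W (hQmem W hW).1 hZW
      · rw [← hun]
        ext x
        simp only [Finset.mem_biUnion, Finset.mem_insert, id]
        constructor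
        · rintro ⟨Z, rfl | hZ, hx⟩
          · rcases Finset.mem_union.1 hx with h | h
            · exact ⟨X, hX, h⟩
            · exact ⟨Y, hY, h⟩
          · exact ⟨Z, (hQmem Z hZ).1, hx⟩
        · rintro ⟨Z, hZ, hx⟩
          by_cases h5 : Z = X
          · exact ⟨X ∪ Y, Or.inl rfl, Finset.mem_union_left _ (h5 ▸ hx)⟩
          · by_cases h6 : Z = Y
            · exact ⟨X ∪ Y, Or.inl rfl, Finset.mem_union_right _ (h6 ▸ hx)⟩
            · exact ⟨Z, Or.inr (by rw [hQ, Finset.mem_erase, Finset.mem_erase]; exact ⟨h6, h5, hZ⟩), hx⟩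
      · rw [Finset.card_insert_of_notMem hnot, hQcard]; omega
    have h9 := Nat.find_min' hex ⟨insert (X ∪ Y) Q, hgood, rfl⟩
    rw [Finset.card_insert_of_notMem hnot, hQcard] at h9
    omega
  -- is there a near pair?
  by_cases hnear : ∃ X ∈ P, ∃ Y ∈ P, X ≠ Y ∧ ∃ a1 b1 a2 b2 : Pt, a1 ≤ b1 ∧ a2 ≤ b2 ∧
      Cl (X : Set Pt) = Set.Icc a1 b1 ∧ Cl (Y : Set Pt) = Set.Icc a2 b2 ∧ Near a1 b1 a2 b2
  · obtain ⟨X, hX, Y, hY, hXY, a1, b1, a2, b2, h1, h3, hXb, hYb, hn⟩ := hnear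
    have hc2 := hmerge X hX Y hY hXY a1 b1 a2 b2 h1 h3 hXb hYb hn
    have hPe : P = {X, Y} := by
      symm
      apply Finset.eq_of_subset_of_card_le
      · intro Z hZ
        simp only [Finset.mem_insert, Finset.mem_singleton] at hZ
        rcases hZ with rfl | rfl
        · exact hX
        · exact hY
      · rw [hc2, Finset.card_pair hXY]
    have hXYA : X ∪ Y = A := by
      rw [← hun, hPe]
      ext x
      simp
    have hd := hdis X hX Y hY hXY
    refine ⟨X, Y, ?_, ?_, hd, a1, b1, a2, b2, h1, h3, hXb, hYb, hn, ?_⟩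
    · refine ⟨hsub X hX, ?_⟩
      intro h
      obtain ⟨y, hy⟩ := hpne Y hY
      exact Finset.disjoint_left.1 hd (h (hsub Y hY hy)) hy
    · refine ⟨hsub Y hY, ?_⟩
      intro h
      obtain ⟨y, hy⟩ := hpne X hX
      exact Finset.disjoint_left.1 hd hy (h (hsub X hX hy))
    · have h5 := Cl_union_near h1 hXb hYb hn
      rw [← Finset.coe_union, hXYA, hA] at h5
      exact Icc_inj hab h5
  · exfalso
    -- all parts far apart: the union of boxes is closed
    have hfar : ∀ X ∈ P, ∀ Y ∈ P, X ≠ Y → ∀ u ∈ Cl (X : Set Pt), ∀ v ∈ Cl (Y : Set Pt),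
        2 < ∑ i, (u i - v i).natAbs := by
      intro X hX Y hY hXY u hu v hv
      by_contra hc
      obtain ⟨a1, b1, h1, h3⟩ := hbox X hX
      obtain ⟨a2, b2, h4, h5⟩ := hbox Y hY
      exact hnear ⟨X, hX, Y, hY, hXY, a1, b1, a2, b2, h1, h4, h3, h5, u, h3 ▸ hu, v, h5 ▸ hv,
        by omega⟩
    set U : Set Pt := {x | ∃ X ∈ P, x ∈ Cl (X : Set Pt)} with hU
    have hUc : Closed2 U := by
      intro v u u' hu hu' hne' h1 h3
      obtain ⟨X, hX, hu⟩ := hu
      obtain ⟨Y, hY, hu'⟩ := hu'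
      by_cases hXY : X = Y
      · subst hXY
        exact ⟨X, hX, Cl_closed _ v u u' hu hu' hne' h1 h3⟩
      · exfalso
        have h4 := hfar X hX Y hY hXY u hu u' hu'
        rw [adj3] at h1 h3
        rw [Fin.sum_univ_three] at h4
        omega
    have hAU : (A : Set Pt) ⊆ U := by
      intro x hx
      rw [← hun] at hx
      obtain ⟨X, hX, hx⟩ := Finset.mem_biUnion.1 (Finset.mem_coe.1 hx)
      exact ⟨X, hX, subset_Cl _ hx⟩
    have hIU : Set.Icc a b ⊆ U := hA ▸ Cl_min hAU hUc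
    have hUI : ∀ X ∈ P, Cl (X : Set Pt) ⊆ Set.Icc a b := by
      intro X hX
      rw [← hA]
      exact Cl_mono (by exact_mod_cast hsub X hX)
    obtain ⟨X, hX, Y, hY, hXY⟩ := Finset.one_lt_card.1 (by omega : 1 < P.card)
    obtain ⟨a1, b1, h1, h3⟩ := hbox X hX
    have h1i : a ≤ a1 ∧ b1 ≤ b := by
      have := hUI X hX
      rw [h3] at this
      exact ⟨(this ⟨le_rfl, h1⟩).1, (this ⟨h1, le_rfl⟩).2⟩
    have hstrict : ¬ (a1 = a ∧ b1 = b) := by
      rintro ⟨rfl, rfl⟩
      obtain ⟨a2, b2, h4, h5⟩ := hbox Y hY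
      have h6 : a2 ∈ Cl (Y : Set Pt) := h5 ▸ ⟨le_rfl, h4⟩
      have h7 : a2 ∈ Cl (X : Set Pt) := h3 ▸ hUI Y hY h6
      have h8 := hfar X hX Y hY hXY a2 h7 a2 h6
      simp at h8
    obtain ⟨i, hi⟩ : ∃ i, a i < a1 i ∨ b1 i < b i := by
      by_contra hc
      push Not at hc
      exact hstrict ⟨le_antisymm (fun i => (hc i).1) h1i.1, le_antisymm h1i.2 (fun i => (hc i).2)⟩
    obtain ⟨u, z, hu, hz, huz, hzX⟩ : ∃ u z : Pt, u ∈ Set.Icc a1 b1 ∧ z ∈ Set.Icc a b ∧ Adj z u ∧
        z ∉ Set.Icc a1 b1 := by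
      rcases hi with hi | hi
      · refine ⟨a1, Function.update a1 i (a1 i - 1), ⟨le_rfl, h1⟩, ⟨?_, ?_⟩, adj_update (Or.inr rfl), ?_⟩
        · intro j
          by_cases hj : j = i
          · subst hj; simp; omega
          · simp [hj]; exact h1i.1 j
        · intro j
          by_cases hj : j = i
          · subst hj
            simp only [Function.update_self]
            have g1 : a1 j ≤ b1 j := h1 j
            have g2 : b1 j ≤ b j := h1i.2 j
            omega
          · simp only [Function.update_of_ne hj]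
            exact (h1.trans h1i.2) j
        · intro h
          have := h.1 i
          simp at this
      · refine ⟨b1, Function.update b1 i (b1 i + 1), ⟨h1, le_rfl⟩, ⟨?_, ?_⟩, adj_update (Or.inl rfl), ?_⟩
        · intro j
          by_cases hj : j = i
          · subst hj
            simp only [Function.update_self]
            have g1 : a1 j ≤ b1 j := h1 j
            have g2 : a j ≤ a1 j := h1i.1 j
            omega
          · simp only [Function.update_of_ne hj]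
            exact (h1i.1.trans h1) j
        · intro j
          by_cases hj : j = i
          · subst hj
            simp only [Function.update_self]
            omega
          · simp only [Function.update_of_ne hj]
            exact h1i.2 j
        · intro h
          have := h.2 i
          simp at this
    obtain ⟨W, hW, hzW⟩ := hIU hz
    have hWX : X ≠ W := by
      rintro rfl
      exact hzX (h3 ▸ hzW)
    have h8 := hfar X hX W hW hWX u (h3 ▸ hu) z hzW
    rw [adj3] at huz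
    rw [Fin.sum_univ_three] at h8
    omega

/-- the semi-perimeter -/
def phi (a b : Pt) : ℤ := ∑ i, (b i - a i + 1)

theorem phi3 (a b : Pt) : phi a b = (b 0 - a 0 + 1) + (b 1 - a 1 + 1) + (b 2 - a 2 + 1) := by
  unfold phi
  rw [Fin.sum_univ_three]

theorem ne_of_phi {a b : Pt} (h : 3 < phi a b) : a ≠ b := by
  rintro rfl
  rw [phi3] at h
  omega

/-- Aizenman-Lebowitz lemma -/
theorem al_lemma (k : ℤ) : ∀ (n : ℕ) (A : Finset Pt) (a b : Pt), A.card = n → a ≤ b →
    Cl (A : Set Pt) = Set.Icc a b → (∃ i, k ≤ b i - a i + 1) → 1 ≤ k →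
    ∃ X ⊆ A, ∃ a1 b1 : Pt, a1 ≤ b1 ∧ Cl (X : Set Pt) = Set.Icc a1 b1 ∧ a ≤ a1 ∧ b1 ≤ b ∧
      (∃ i, k ≤ b1 i - a1 i + 1) ∧ ∀ i, b1 i - a1 i + 1 ≤ 2 * k + 1 := by
  intro n
  induction n using Nat.strong_induction_on with
  | _ n ih =>
    intro A a b hn hab hA hk hk1
    by_cases hs : ∀ i, b i - a i + 1 ≤ 2 * k + 1
    · exact ⟨A, Finset.Subset.refl A, a, b, hab, hA, le_rfl, le_rfl, hk, hs⟩
    · push Not at hs
      obtain ⟨i, hi⟩ := hs
      have hne : a ≠ b := by
        rintro rfl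
        omega
      obtain ⟨X, Y, hX, hY, -, a1, b1, a2, b2, h1, h2, hXb, hYb, hn', hae, hbe⟩ := decomp hab hA hne
      have hside := near_side hn' i
      rw [← hae, ← hbe] at hside
      have hcase : k ≤ b1 i - a1 i + 1 ∨ k ≤ b2 i - a2 i + 1 := by omega
      rcases hcase with h | h
      · obtain ⟨X', hX', a', b', g1, g2, g3, g4, g5, g6⟩ :=
          ih X.card (hn ▸ Finset.card_lt_card hX) X a1 b1 rfl h1 hXb ⟨i, h⟩ hk1
        exact ⟨X', hX'.trans hX.1, a', b', g1, g2, (hae ▸ inf_le_left).trans g3,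
          g4.trans (hbe ▸ le_sup_left), g5, g6⟩
      · obtain ⟨X', hX', a', b', g1, g2, g3, g4, g5, g6⟩ :=
          ih Y.card (hn ▸ Finset.card_lt_card hY) Y a2 b2 rfl h2 hYb ⟨i, h⟩ hk1
        exact ⟨X', hX'.trans hY.1, a', b', g1, g2, (hae ▸ inf_le_right).trans g3,
          g4.trans (hbe ▸ le_sup_right), g5, g6⟩

/-- the chain lemma -/
theorem chain_lemma (S T : ℤ) (hT : 3 < T) : ∀ (n : ℕ) (A : Finset Pt) (a b : Pt),
    A.card = n → a ≤ b → Cl (A : Set Pt) = Set.Icc a b → T ≤ phi a b →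
    (∃ X ⊆ A, ∃ a1 b1 : Pt, a1 ≤ b1 ∧ Cl (X : Set Pt) = Set.Icc a1 b1 ∧ a ≤ a1 ∧ b1 ≤ b ∧
      S ≤ phi a1 b1 ∧ phi a1 b1 < T) ∨
    (∃ X ⊆ A, ∃ Y ⊆ A, Disjoint X Y ∧ ∃ a1 b1 a2 b2 : Pt, a1 ≤ b1 ∧ a2 ≤ b2 ∧
      Cl (X : Set Pt) = Set.Icc a1 b1 ∧ Cl (Y : Set Pt) = Set.Icc a2 b2 ∧ Near a1 b1 a2 b2 ∧
      a ≤ a1 ⊓ a2 ∧ b1 ⊔ b2 ≤ b ∧ phi a1 b1 < S ∧ phi a2 b2 < S ∧
      T ≤ phi (a1 ⊓ a2) (b1 ⊔ b2)) := by
  intro n
  induction n using Nat.strong_induction_on with
  | _ n ih =>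
    intro A a b hn hab hA hphi
    have hne : a ≠ b := ne_of_phi (by omega)
    obtain ⟨X, Y, hX, hY, hd, a1, b1, a2, b2, h1, h2, hXb, hYb, hn', hae, hbe⟩ := decomp hab hA hne
    have ha1 : a ≤ a1 := hae ▸ inf_le_left
    have ha2 : a ≤ a2 := hae ▸ inf_le_right
    have hb1 : b1 ≤ b := hbe ▸ le_sup_left
    have hb2 : b2 ≤ b := hbe ▸ le_sup_right
    by_cases hT1 : T ≤ phi a1 b1
    · rcases ih X.card (hn ▸ Finset.card_lt_card hX) X a1 b1 rfl h1 hXb hT1 with
        ⟨X', hX', c, d, g1, g2, g3, g4, g5⟩ | ⟨X', hX', Y', hY', gd, c, d, c2, d2, g1, g2, g3, g4, g5, g6, g7, g8⟩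
      · exact Or.inl ⟨X', hX'.trans hX.1, c, d, g1, g2, ha1.trans g3, g4.trans hb1, g5⟩
      · exact Or.inr ⟨X', hX'.trans hX.1, Y', hY'.trans hX.1, gd, c, d, c2, d2, g1, g2, g3, g4, g5,
          ha1.trans g6, g7.trans hb1, g8⟩
    by_cases hT2 : T ≤ phi a2 b2
    · rcases ih Y.card (hn ▸ Finset.card_lt_card hY) Y a2 b2 rfl h2 hYb hT2 with
        ⟨X', hX', c, d, g1, g2, g3, g4, g5⟩ | ⟨X', hX', Y', hY', gd, c, d, c2, d2, g1, g2, g3, g4, g5, g6, g7, g8⟩
      · exact Or.inl ⟨X', hX'.trans hY.1, c, d, g1, g2, ha2.trans g3, g4.trans hb2, g5⟩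
      · exact Or.inr ⟨X', hX'.trans hY.1, Y', hY'.trans hY.1, gd, c, d, c2, d2, g1, g2, g3, g4, g5,
          ha2.trans g6, g7.trans hb2, g8⟩
    push Not at hT1 hT2
    by_cases hS1 : S ≤ phi a1 b1
    · exact Or.inl ⟨X, hX.1, a1, b1, h1, hXb, ha1, hb1, hS1, hT1⟩
    by_cases hS2 : S ≤ phi a2 b2
    · exact Or.inl ⟨Y, hY.1, a2, b2, h2, hYb, ha2, hb2, hS2, hT2⟩
    push Not at hS1 hS2
    exact Or.inr ⟨X, hX.1, Y, hY.1, hd, a1, b1, a2, b2, h1, h2, hXb, hYb, hn', hae.le, hbe.ge, hS1,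
      hS2, by rw [← hae, ← hbe]; exact hphi⟩

end Pool.Agent.H97.BP
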