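import Pool.Agent.H97.BP.Gf

/-!
# The constant `lam0 = ∫₀^∞ gr (x²) dx`, as a supremum of lower Riemann sums
-/

set_option autoImplicit false

namespace Pool.Agent.H97.BP

open Real Filter Topology Finset

/-- lower Riemann sum of `x ↦ gr (x ^ 2)` with mesh `√q` -/
noncomputable def rs (q : ℝ) (N : ℕ) : ℝ := Real.sqrt q * ∑ j ∈ range N, gr (q * ((j : ℝ) + 1) ^ 2)

/-- the set of all lower Riemann sums -/
def RS : Set ℝ := {x | ∃ q : ℝ, 0 < q ∧ ∃ N : ℕ, x = rs q N}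

/-- the sharp constant -/
noncomputable def lam0 : ℝ := sSup RS

theorem gr_sq_le {s : ℝ} (hs : 0 < s) : gr ((s ^ 2) ^ 2) ≤ 16 / (s * (1 + s) ^ 2) := by
  have hz : 0 < (s ^ 2) ^ 2 := by positivity
  have h1 := gr_le_log hz
  rcases le_total 1 s with h | h
  · have h2 := gr_le_inv hz
    refine h2.trans ?_
    rw [div_le_div_iff₀ hz (by positivity)]
    have h3 : (1 + s) ^ 2 ≤ 4 * s ^ 2 := by nlinarith
    have h4 : s * (1 + s) ^ 2 ≤ s * (4 * s ^ 2) := by gcongr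
    have h5 : s ^ 3 ≤ s ^ 4 := pow_le_pow_right₀ h (by norm_num)
    nlinarith [pow_pos hs 4]
  · refine h1.trans ?_
    have h2 : 1 + 1 / (s ^ 2) ^ 2 ≤ (1 + 1 / s) ^ 4 := by
      have e : 1 / (s ^ 2) ^ 2 = (1 / s) ^ 4 := by
        rw [div_pow, one_pow]; ring_nf
      rw [e]
      have : 0 < 1 / s := by positivity
      set t := 1 / s
      nlinarith [pow_pos this 2, pow_pos this 3, pow_pos this 4]
    have h3 : Real.log (1 + 1 / (s ^ 2) ^ 2) ≤ 4 * (1 / s) := by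
      refine (Real.log_le_log (by positivity) h2).trans ?_
      rw [Real.log_pow]
      have h4 := Real.log_le_sub_one_of_pos (show 0 < 1 + 1 / s by positivity)
      push_cast
      linarith
    refine h3.trans ?_
    rw [mul_one_div, div_le_div_iff₀ hs (by positivity)]
    have h5 : (1 + s) ^ 2 ≤ 4 := by nlinarith
    nlinarith [mul_le_mul_of_nonneg_left h5 hs.le]

/-- one telescoping step -/
theorem tel {s t : ℝ} (ht : 0 ≤ t) (hts : t ≤ s) (hs : 0 < s) :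
    (s ^ 2 - t ^ 2) * (16 / (s * (1 + s) ^ 2)) ≤ 32 * (1 / (1 + t) - 1 / (1 + s)) := by
  have h1 : 1 / (1 + t) - 1 / (1 + s) = (s - t) / ((1 + t) * (1 + s)) := by
    field_simp
    ring
  rw [h1, mul_div_assoc', mul_div_assoc', div_le_div_iff₀ (by positivity) (by positivity)]
  have h2 : (s ^ 2 - t ^ 2) * 16 * ((1 + t) * (1 + s)) = 16 * (s - t) * (1 + s) * ((s + t) * (1 + t)) := by
    ring
  have h3 : 32 * (s - t) * (s * (1 + s) ^ 2) = 16 * (s - t) * (1 + s) * ((2 * s) * (1 + s)) := by ring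
  rw [h2, h3]
  have h4 : (s + t) * (1 + t) ≤ (2 * s) * (1 + s) := by
    apply mul_le_mul <;> linarith
  have h5 : 0 ≤ 16 * (s - t) * (1 + s) := by
    have : 0 ≤ s - t := by linarith
    positivity
  exact mul_le_mul_of_nonneg_left h4 h5

theorem rs_le (q : ℝ) (hq : 0 < q) (N : ℕ) : rs q N ≤ 32 := by
  set d := Real.sqrt q with hd
  have hd0 : 0 < d := Real.sqrt_pos.2 hq
  have hdq : d ^ 2 = q := Real.sq_sqrt hq.le
  have key : ∀ N : ℕ, rs q N ≤ 32 * (1 - 1 / (1 + Real.sqrt (d * N))) := by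
    intro N
    induction N with
    | zero => simp [rs]
    | succ n ih =>
      have e : rs q (n + 1) = rs q n + d * gr (q * ((n : ℝ) + 1) ^ 2) := by
        unfold rs
        rw [sum_range_succ, mul_add]
      rw [e]
      set s := Real.sqrt (d * ((n : ℝ) + 1)) with hs
      set t := Real.sqrt (d * (n : ℝ)) with ht
      have hs0 : 0 < s := Real.sqrt_pos.2 (by positivity)
      have ht0 : 0 ≤ t := Real.sqrt_nonneg _
      have hts : t ≤ s := Real.sqrt_le_sqrt (by nlinarith)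
      have hs2 : s ^ 2 = d * ((n : ℝ) + 1) := Real.sq_sqrt (by positivity)
      have ht2 : t ^ 2 = d * (n : ℝ) := Real.sq_sqrt (by positivity)
      have h1 := tel ht0 hts hs0
      have h2 := gr_sq_le hs0
      have h3 : (s ^ 2) ^ 2 = q * ((n : ℝ) + 1) ^ 2 := by
        rw [hs2, mul_pow, hdq]
      rw [h3] at h2
      have h4 : s ^ 2 - t ^ 2 = d := by rw [hs2, ht2]; ring
      rw [h4] at h1
      have h5 := mul_le_mul_of_nonneg_left h2 hd0.le
      push_cast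
      rw [← hs]
      linarith
  refine (key N).trans ?_
  have : 0 ≤ 1 / (1 + Real.sqrt (d * N)) := by positivity
  linarith

theorem bddAbove_RS : BddAbove RS := by
  refine ⟨32, ?_⟩
  rintro x ⟨q, hq, N, rfl⟩
  exact rs_le q hq N

theorem RS_nonempty : RS.Nonempty := ⟨rs 1 0, 1, one_pos, 0, rfl⟩

theorem rs_le_lam0 {q : ℝ} (hq : 0 < q) (N : ℕ) : rs q N ≤ lam0 :=
  le_csSup bddAbove_RS ⟨q, hq, N, rfl⟩

theorem lam0_pos : 0 < lam0 := by
  refine lt_of_lt_of_le ?_ (rs_le_lam0 one_pos 1)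
  unfold rs
  simp only [Real.sqrt_one, range_one, sum_singleton, one_mul]
  apply gr_pos
  positivity

/-- upper bound for sums of `gr (q j²)` -/
theorem sum_gr_le {q : ℝ} (hq : 0 < q) (N : ℕ) :
    ∑ j ∈ range N, gr (q * ((j : ℝ) + 1) ^ 2) ≤ lam0 / Real.sqrt q := by
  rw [le_div_iff₀ (Real.sqrt_pos.2 hq), mul_comm]
  exact rs_le_lam0 hq N

theorem sum_block (f : ℕ → ℝ) (M : ℕ) : ∀ N : ℕ,
    ∑ k ∈ range (M * N), f k = ∑ j ∈ range N, ∑ i ∈ range M, f (M * j + i) := by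
  intro N
  induction N with
  | zero => simp
  | succ n ih =>
    rw [Nat.mul_succ, sum_range_succ, ← ih, sum_range_add_sum_range_sub_aux f (M * n) M]
where
  sum_range_add_sum_range_sub_aux (f : ℕ → ℝ) (a b : ℕ) :
    ∑ k ∈ range (a + b), f k = ∑ k ∈ range a, f k + ∑ i ∈ range b, f (a + i) := by
    exact Finset.sum_range_add f a b

/-- lower bound for sums of the shifted rate function -/
theorem sum_shift_ge {ε : ℝ} (hε : 0 < ε) : ∃ Z₀ : ℝ, 0 < Z₀ ∧ ∀ Z : ℝ, 0 < Z → Z ≤ Z₀ →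
    ∃ B : ℝ, 0 < B ∧ ∃ q₀ : ℝ, 0 < q₀ ∧
    ∀ q : ℝ, 0 < q → q ≤ q₀ → ∀ K : ℕ, B / Real.sqrt q ≤ K →
      (lam0 - ε) / Real.sqrt q ≤ ∑ k ∈ range K, gr (q * (k : ℝ) ^ 2 + Z) := by
  obtain ⟨x, ⟨q₁, hq₁, N, rfl⟩, hx⟩ := exists_lt_of_lt_csSup RS_nonempty
    (show lam0 - ε / 3 < sSup RS by have : lam0 = sSup RS := rfl; linarith)
  set d₁ := Real.sqrt q₁ with hd₁
  have hd₁0 : 0 < d₁ := Real.sqrt_pos.2 hq₁
  have hcont : ContinuousAt (fun Z : ℝ => d₁ * ∑ j ∈ range N, gr (q₁ * ((j : ℝ) + 1) ^ 2 + Z)) 0 := by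
    apply ContinuousAt.mul continuousAt_const
    apply tendsto_finsetSum
    intro j _
    have h1 : ContinuousAt gr (q₁ * ((j : ℝ) + 1) ^ 2 + 0) := continuousAt_gr (by positivity)
    exact ContinuousAt.comp (f := fun Z : ℝ => q₁ * ((j : ℝ) + 1) ^ 2 + Z) h1
      (continuousAt_const.add continuousAt_id)
  have hev : ∀ᶠ Z in 𝓝 (0:ℝ), lam0 - 2 * ε / 3 <
      d₁ * ∑ j ∈ range N, gr (q₁ * ((j : ℝ) + 1) ^ 2 + Z) := by
    apply hcont.eventually (lt_mem_nhds _)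
    have h2 : d₁ * ∑ j ∈ range N, gr (q₁ * ((j : ℝ) + 1) ^ 2 + 0) = rs q₁ N := by
      simp [rs, hd₁]
    simp only [h2]
    linarith
  obtain ⟨η, hη, hball⟩ := Metric.eventually_nhds_iff.1 hev
  refine ⟨η / 2, by positivity, ?_⟩
  intro Z hZ hZ'
  have hZb : lam0 - 2 * ε / 3 < d₁ * ∑ j ∈ range N, gr (q₁ * ((j : ℝ) + 1) ^ 2 + Z) := by
    apply hball
    rw [Real.dist_eq, sub_zero, abs_of_pos hZ]
    linarith
  set G₁ := ∑ j ∈ range N, gr (q₁ * ((j : ℝ) + 1) ^ 2 + Z) with hG₁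
  have hG₁0 : 0 ≤ G₁ := sum_nonneg fun j _ => gr_nonneg (by positivity)
  refine ⟨d₁ * N + 1, by positivity, min 1 ((ε / (3 * (G₁ + 1))) ^ 2), by positivity, ?_⟩
  intro q hq hq0 K hK
  set d := Real.sqrt q with hd
  have hd0 : 0 < d := Real.sqrt_pos.2 hq
  have hdq : d ^ 2 = q := Real.sq_sqrt hq.le
  have hd1 : d ≤ 1 := by
    rw [hd, Real.sqrt_le_one]
    exact hq0.trans (min_le_left _ _)
  have hdε : d ≤ ε / (3 * (G₁ + 1)) := by
    rw [hd, Real.sqrt_le_left (by positivity)]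
    exact hq0.trans (min_le_right _ _)
  set M := ⌊d₁ / d⌋₊ with hM
  have hM1 : (M : ℝ) ≤ d₁ / d := Nat.floor_le (by positivity)
  have hM2 : d₁ / d < M + 1 := Nat.lt_floor_add_one _
  have hMN : M * N + 1 ≤ K := by
    have : ((M * N + 1 : ℕ) : ℝ) ≤ K := by
      refine le_trans ?_ hK
      push_cast
      rw [le_div_iff₀ hd0]
      have h1 : (M : ℝ) * d ≤ d₁ := by rwa [le_div_iff₀ hd0] at hM1
      have h2 : (M : ℝ) * N * d ≤ d₁ * N := by
        have : (0:ℝ) ≤ N := by positivity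
        nlinarith
      nlinarith
    exact_mod_cast this
  have hpos : ∀ k : ℕ, 0 ≤ gr (q * (k : ℝ) ^ 2 + Z) := fun k => gr_nonneg (by positivity)
  have h1 : ∑ k ∈ range (M * N), gr (q * ((k : ℝ) + 1) ^ 2 + Z) ≤
      ∑ k ∈ range K, gr (q * (k : ℝ) ^ 2 + Z) := by
    calc ∑ k ∈ range (M * N), gr (q * ((k : ℝ) + 1) ^ 2 + Z)
        ≤ ∑ k ∈ range (M * N + 1), gr (q * (k : ℝ) ^ 2 + Z) := by
          rw [sum_range_succ']
          have := hpos 0
          push_cast at *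
          linarith
      _ ≤ _ := sum_le_sum_of_subset_of_nonneg (range_subset_range.2 hMN) (fun k _ _ => hpos k)
  refine le_trans ?_ h1
  rw [sum_block (fun k : ℕ => gr (q * ((k : ℝ) + 1) ^ 2 + Z))]
  have h2 : ∀ j ∈ range N, (M : ℝ) * gr (q₁ * ((j : ℝ) + 1) ^ 2 + Z) ≤
      ∑ i ∈ range M, gr (q * (((M * j + i : ℕ) : ℝ) + 1) ^ 2 + Z) := by
    intro j _
    have : (M : ℝ) * gr (q₁ * ((j : ℝ) + 1) ^ 2 + Z) =
        ∑ i ∈ range M, gr (q₁ * ((j : ℝ) + 1) ^ 2 + Z) := by simp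
    rw [this]
    apply sum_le_sum
    intro i hi
    rw [mem_range] at hi
    apply gr_anti (by positivity)
    have h3 : (((M * j + i : ℕ) : ℝ) + 1) * d ≤ d₁ * ((j : ℝ) + 1) := by
      have h4 : ((M * j + i : ℕ) : ℝ) + 1 ≤ M * ((j : ℝ) + 1) := by
        have : M * j + i + 1 ≤ M * (j + 1) := by rw [Nat.mul_succ]; omega
        exact_mod_cast this
      have h1 : (M : ℝ) * d ≤ d₁ := by rwa [le_div_iff₀ hd0] at hM1
      calc (((M * j + i : ℕ) : ℝ) + 1) * d ≤ (M * ((j : ℝ) + 1)) * d := by gcongr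
        _ = (M * d) * ((j : ℝ) + 1) := by ring
        _ ≤ _ := by gcongr
    have h5 : q * (((M * j + i : ℕ) : ℝ) + 1) ^ 2 ≤ q₁ * ((j : ℝ) + 1) ^ 2 := by
      have e1 : q * (((M * j + i : ℕ) : ℝ) + 1) ^ 2 = ((((M * j + i : ℕ) : ℝ) + 1) * d) ^ 2 := by
        rw [mul_pow, hdq]; ring
      have e2 : q₁ * ((j : ℝ) + 1) ^ 2 = (d₁ * ((j : ℝ) + 1)) ^ 2 := by
        rw [mul_pow, hd₁, Real.sq_sqrt hq₁.le]
      rw [e1, e2]
      apply pow_le_pow_left₀ (by positivity) h3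
    linarith
  refine le_trans ?_ (sum_le_sum h2)
  rw [← mul_sum, ← hG₁]
  rw [div_le_iff₀ hd0]
  have h6 : d₁ - d ≤ M * d := by
    rw [div_lt_iff₀ hd0] at hM2
    nlinarith
  have h7 : d * G₁ ≤ ε / 3 := by
    rw [le_div_iff₀ (by positivity)] at hdε
    nlinarith
  nlinarith

end Pool.Agent.H97.BP
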