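import Mathlib
import Pool.Agent.H97.BP.Final

/-! Not a hand-in. The negation of the statement of MP_6d294b_pr, proved from `no_expansion`.
It was withdrawn as a hand-in: for `d = 3`, `r = 2` it follows from the published upper bound
`lambda/L - c/L^(3/2)` of Uzzell together with the known sharp threshold. -/

set_option autoImplicit false
open Classical

namespace Pool.Agent.H97.BP.NegationProof

/-- The negation of the preceding statement: For all 2≤r≤d there are λ,c,C>0 such that for large n the r-neighbour bootstrap critical probability on [n]^d lies between (λ/L − C/L^(2−1/(2d−2)))^(d−r+1) and the same with c, where L is the (r−1)-fold iterated log of n. -/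
theorem result :
    ¬ (∀ d r : ℕ, 2 ≤ r → r ≤ d →
      ∃ lam c C : ℝ, 0 < lam ∧ 0 < c ∧ 0 < C ∧ ∃ N : ℕ, ∀ n : ℕ, N ≤ n →
        ∀ q : ℝ,
          q = sInf {p : ℝ | 0 ≤ p ∧ p ≤ 1 ∧
            (1 / 2 : ℝ) ≤ ∑ A : Finset (Fin d → Fin n),
              (if (∀ S : Set (Fin d → Fin n), (↑A : Set (Fin d → Fin n)) ⊆ S →
                    (∀ v : Fin d → Fin n,
                      r ≤ Set.ncard {u : Fin d → Fin n | u ∈ S ∧
                        (∑ i : Fin d, Int.natAbs (((u i : ℕ) : ℤ) - ((v i : ℕ) : ℤ))) = 1} →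
                      v ∈ S) →
                    S = Set.univ)
                then p ^ A.card * (1 - p) ^ (Fintype.card (Fin d → Fin n) - A.card)
                else 0)} →
          (lam / (Real.log^[r - 1] (n : ℝ))
              - C / (Real.log^[r - 1] (n : ℝ)) ^ ((2 : ℝ) - 1 / (2 * (d : ℝ) - 2))) ^ (d - r + 1)
            ≤ q ∧
          q ≤ (lam / (Real.log^[r - 1] (n : ℝ))
              - c / (Real.log^[r - 1] (n : ℝ)) ^ ((2 : ℝ) - 1 / (2 * (d : ℝ) - 2))) ^ (d - r + 1)) := by
  intro H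
  obtain ⟨lam, c, C, hlam, hc, hC, N, hN⟩ := H 3 2 le_rfl (by norm_num)
  apply Pool.Agent.H97.BP.no_expansion
  refine ⟨lam, c, C, hlam, hc, hC, N, fun n hn => ?_⟩
  have h := hN n hn (Pool.Agent.H97.BP.pc n) (by
    unfold Pool.Agent.H97.BP.pc
    refine congrArg sInf (Set.ext fun p => ?_)
    refine and_congr Iff.rfl (and_congr Iff.rfl ?_)
    rw [← Pool.Agent.H97.BP.sum_eq_uu]
    refine iff_of_eq (congrArg (fun x : ℝ => (1 / 2 : ℝ) ≤ x) (Finset.sum_congr rfl fun A _ => ?_))
    by_cases h : Pool.Agent.H97.BP.Perc n A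
    · rw [if_pos h]
      exact (if_pos h).symm
    · rw [if_neg h]
      exact (if_neg h).symm)
  have e1 : ((2 : ℝ) - 1 / (2 * ((3 : ℕ) : ℝ) - 2)) = (7 : ℝ) / 4 := by norm_num
  have e2 : (3 - 2 + 1 : ℕ) = 2 := rfl
  have e3 : Real.log^[2 - 1] (n : ℝ) = Real.log (n : ℝ) := rfl
  rw [e1, e2, e3] at h
  exact h

end Pool.Agent.H97.BP.NegationProof
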