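import Pool.Agent.H97.BP.Ind
import Pool.Agent.H97.BP.Lam

/-!
# Long boxes are unlikely to be spanned
-/

set_option autoImplicit false

namespace Pool.Agent.H97.BP

open Finset H974

theorem sum_shift_le {q Z : ℝ} (hq : 0 < q) (hZ : 0 < Z) (K : ℕ) :
    ∑ k ∈ range K, gr (q * ((k : ℝ) * k) + Z) ≤ gr Z + lam0 / Real.sqrt q := by
  have hl : 0 ≤ lam0 / Real.sqrt q := div_nonneg lam0_pos.le (Real.sqrt_nonneg q)
  cases K with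
  | zero => simp only [range_zero, sum_empty]; exact add_nonneg (gr_nonneg hZ) hl
  | succ K =>
    rw [Finset.sum_range_succ']
    have h1 : ∑ k ∈ range K, gr (q * ((((k + 1 : ℕ) : ℝ)) * (((k + 1 : ℕ) : ℝ))) + Z)
        ≤ ∑ k ∈ range K, gr (q * ((k : ℝ) + 1) ^ 2) := by
      apply Finset.sum_le_sum
      intro k _
      apply gr_anti (by positivity)
      push_cast
      nlinarith
    have h2 := sum_gr_le hq K
    have h3 : gr (q * ((((0 : ℕ) : ℝ)) * (((0 : ℕ) : ℝ))) + Z) = gr Z := by simp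
    rw [h3]
    linarith

/-- the choice of `K` and `A` -/
theorem KA_choice {q r Z B₁ B₂ η : ℝ} (hr1 : 1 ≤ r) (hqr : q * r ^ 2 = 1) (hq0 : 0 < q)
    (hsq : Real.sqrt q = 1 / r) (hZ : 0 < Z) (hB₁ : 0 < B₁)
    (hB₂a : B₁ + 2 ≤ B₂) (hB₂b : 3 * (gr Z + lam0) ≤ (B₂ - B₁ - 1) * gr ((B₁ + 1) ^ 2 + Z))
    (hB₂c : B₁ + 1 ≤ B₂ * (η * B₁)) :
    ∃ K A : ℕ, B₁ * r ≤ K ∧ B₂ * r ≤ A ∧ (A : ℝ) ≤ (B₂ + 1) * r ∧ K < A ∧
      3 * ∑ k ∈ range K, gr (q * ((k : ℝ) * k) + Z)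
        ≤ ((A : ℝ) - K) * gr (q * ((K : ℝ) * K) + Z) ∧
      (K : ℝ) * gr (q * ((A : ℝ) * K) + Z) ≤ η * r := by
  have hr0 : 0 < r := by linarith
  have hlam := lam0_pos
  have hgrZ : 0 < gr Z := gr_pos hZ
  have hB₂0 : 0 < B₂ := by linarith
  refine ⟨⌈B₁ * r⌉₊, ⌈B₂ * r⌉₊, Nat.le_ceil _, Nat.le_ceil _, ?_, ?_, ?_, ?_⟩
  · have := Nat.ceil_lt_add_one (show 0 ≤ B₂ * r by positivity)
    linarith
  · have h1 := Nat.ceil_lt_add_one (show 0 ≤ B₁ * r by positivity)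
    have h2 := Nat.le_ceil (B₂ * r)
    have : (⌈B₁ * r⌉₊ : ℝ) < (⌈B₂ * r⌉₊ : ℝ) := by nlinarith
    exact_mod_cast this
  · have hK2 : (⌈B₁ * r⌉₊ : ℝ) ≤ (B₁ + 1) * r := by
      have := Nat.ceil_lt_add_one (show 0 ≤ B₁ * r by positivity)
      linarith
    have hA1 := Nat.le_ceil (B₂ * r)
    generalize ⌈B₁ * r⌉₊ = K at *
    generalize ⌈B₂ * r⌉₊ = A at *
    have hK0 : (0:ℝ) ≤ K := by positivity
    have hqK : q * ((K : ℝ) * K) ≤ (B₁ + 1) ^ 2 := by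
      have : (K : ℝ) * K ≤ ((B₁ + 1) * r) * ((B₁ + 1) * r) := mul_le_mul hK2 hK2 hK0 (by positivity)
      calc q * ((K : ℝ) * K) ≤ q * (((B₁ + 1) * r) * ((B₁ + 1) * r)) := mul_le_mul_of_nonneg_left this hq0.le
        _ = (q * r ^ 2) * (B₁ + 1) ^ 2 := by ring
        _ = (B₁ + 1) ^ 2 := by rw [hqr, one_mul]
    have h1 := sum_shift_le hq0 hZ K
    rw [hsq, div_div_eq_mul_div, div_one] at h1
    have hg10 : 0 < gr ((B₁ + 1) ^ 2 + Z) := gr_pos (by positivity)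
    have h2 : gr ((B₁ + 1) ^ 2 + Z) ≤ gr (q * ((K : ℝ) * K) + Z) := gr_anti (by positivity) (by linarith)
    have h3 : (B₂ - B₁ - 1) * r ≤ (A : ℝ) - K := by linarith
    have h5 : ((B₂ - B₁ - 1) * r) * gr ((B₁ + 1) ^ 2 + Z) ≤ ((A : ℝ) - K) * gr (q * ((K : ℝ) * K) + Z) := by
      apply mul_le_mul h3 h2 hg10.le
      have : 0 ≤ (B₂ - B₁ - 1) * r := mul_nonneg (by linarith) hr0.le
      linarith
    have h6 : 3 * (gr Z + lam0) * r ≤ (B₂ - B₁ - 1) * gr ((B₁ + 1) ^ 2 + Z) * r :=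
      mul_le_mul_of_nonneg_right hB₂b hr0.le
    have h7 : gr Z ≤ gr Z * r := by nlinarith
    generalize (∑ k ∈ range K, gr (q * ((k : ℝ) * k) + Z)) = S at *
    linarith
  · have hK2 : (⌈B₁ * r⌉₊ : ℝ) ≤ (B₁ + 1) * r := by
      have := Nat.ceil_lt_add_one (show 0 ≤ B₁ * r by positivity)
      linarith
    have hK1 := Nat.le_ceil (B₁ * r)
    have hA1 := Nat.le_ceil (B₂ * r)
    generalize ⌈B₁ * r⌉₊ = K at *
    generalize ⌈B₂ * r⌉₊ = A at *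
    have h1 : B₁ * B₂ ≤ q * ((A : ℝ) * K) := by
      have h2 : (B₂ * r) * (B₁ * r) ≤ (A : ℝ) * K := mul_le_mul hA1 hK1 (by positivity) (by positivity)
      calc B₁ * B₂ = (q * r ^ 2) * (B₁ * B₂) := by rw [hqr, one_mul]
        _ = q * ((B₂ * r) * (B₁ * r)) := by ring
        _ ≤ _ := mul_le_mul_of_nonneg_left h2 hq0.le
    have h2 : gr (q * ((A : ℝ) * K) + Z) ≤ 1 / (B₁ * B₂) :=
      (gr_anti (by positivity) (by linarith)).trans (gr_le_inv (by positivity))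
    have h3 : (K : ℝ) * gr (q * ((A : ℝ) * K) + Z) ≤ ((B₁ + 1) * r) * (1 / (B₁ * B₂)) :=
      mul_le_mul hK2 h2 (gr_nonneg (by positivity)) (by positivity)
    refine h3.trans ?_
    rw [mul_one_div, div_le_iff₀ (by positivity)]
    nlinarith

/-- the choice of `s` -/
theorem s_choice {q r Z' σ : ℝ} (hqr : q * r ^ 2 = 1) (hq0 : 0 < q) (hr0 : 0 < r)
    (hZ'0 : 0 < Z') (hσ0 : 0 < σ) (hσ1 : σ ≤ Real.sqrt Z' / 2) (hr2 : 3 ≤ Real.sqrt Z' / 2 * r)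
    (hr3 : 2 ≤ σ * r) :
    ∃ s : ℕ, (s : ℝ) ≤ σ * r ∧ σ * r / 2 ≤ s ∧ q * ((s : ℝ) + 3) ^ 2 ≤ Z' := by
  have hs1 := Nat.floor_le (show 0 ≤ σ * r by positivity)
  have hs2 := Nat.lt_floor_add_one (σ * r)
  refine ⟨⌊σ * r⌋₊, hs1, by linarith, ?_⟩
  generalize ⌊σ * r⌋₊ = s at *
  have h1 : (s : ℝ) + 3 ≤ Real.sqrt Z' * r := by
    have h3 : σ * r ≤ Real.sqrt Z' / 2 * r := mul_le_mul_of_nonneg_right hσ1 hr0.le
    linarith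
  have h2 : ((s : ℝ) + 3) ^ 2 ≤ (Real.sqrt Z' * r) ^ 2 := pow_le_pow_left₀ (by positivity) h1 2
  calc q * ((s : ℝ) + 3) ^ 2 ≤ q * (Real.sqrt Z' * r) ^ 2 := mul_le_mul_of_nonneg_left h2 hq0.le
    _ = (q * r ^ 2) * (Real.sqrt Z') ^ 2 := by ring
    _ = Z' := by rw [hqr, one_mul, Real.sq_sqrt hZ'0.le]

theorem exp_real {δ η r C₀ Cc l : ℝ} (hδ0 : 0 ≤ δ) (hδ1 : δ ≤ 1) (hδ2 : δ * l ≤ η)
    (hr : 0 ≤ r) (hη : 0 ≤ η) (hC₀ : 0 ≤ C₀) (hcst : (3 * l - 4 * η) * r - C₀ ≤ Cc) :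
    (3 * l - 8 * η) * r - C₀ ≤ (1 - δ) * Cc := by
  have h1 : (1 - δ) * ((3 * l - 4 * η) * r - C₀) ≤ (1 - δ) * Cc :=
    mul_le_mul_of_nonneg_left hcst (by linarith)
  refine le_trans ?_ h1
  have h2 : δ * l * r ≤ η * r := mul_le_mul_of_nonneg_right hδ2 hr
  have h3 : 0 ≤ δ * C₀ := by positivity
  have h4 : 0 ≤ δ * η * r := by positivity
  have h5 : 0 ≤ η * r := by positivity
  have e : (1 - δ) * ((3 * l - 4 * η) * r - C₀)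
      = (3 * l - 4 * η) * r - C₀ - 3 * (δ * l * r) + 4 * (δ * η * r) + δ * C₀ := by ring
  rw [e]
  linarith

theorem span_core {p q r Z Z' δ σ η B₁ B₂ B₃ : ℝ} {k : ℕ}
    (hp0 : 0 ≤ p) (hp1 : p ≤ 1) (hq : Real.exp (-q) = 1 - p) (hr1 : 1 ≤ r) (hqr : q * r ^ 2 = 1)
    (hZ : 0 < Z) (hB₁ : 0 < B₁) (hη0 : 0 < η)
    (hB₂a : B₁ + 2 ≤ B₂) (hB₂b : 3 * (gr Z + lam0) ≤ (B₂ - B₁ - 1) * gr ((B₁ + 1) ^ 2 + Z))
    (hB₂c : B₁ + 1 ≤ B₂ * (η * B₁)) (hB₃ : B₃ = 2 * B₂ + 3)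
    (hδ0 : 0 < δ) (hδ1 : δ ≤ 1) (hδ2 : δ * lam0 ≤ η)
    (hZ'0 : 0 < Z') (hZ' : ∀ z : ℝ, 0 < z → z ≤ Z' → 3 * gr Z ≤ gr z)
    (hσ0 : 0 < σ) (hσ1 : σ ≤ Real.sqrt Z' / 2)
    (hσ2 : 6 * (fo Z)⁻¹ ^ 6 * B₃ * σ ≤ δ * gr (B₃ ^ 2 + Z))
    (hr2 : 3 ≤ Real.sqrt Z' / 2 * r) (hr3 : 2 ≤ σ * r) (hk : 6 * B₃ / σ ≤ k)
    (hsum : ∀ K : ℕ, B₁ / Real.sqrt q ≤ K →
      (lam0 - η) / Real.sqrt q ≤ ∑ k ∈ range K, gr (q * (k : ℝ) ^ 2 + Z)) :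
    ∃ A : ℕ, 1 ≤ A ∧ (A : ℝ) ≤ (B₂ + 1) * r ∧ ∀ a b : Pt, a ≤ b → (∃ j, A ≤ dm a b j) →
        (∀ j, dm a b j ≤ 2 * A + 1) →
        uu p a b ≤ (2 * B₃ ^ 12 * Real.exp (9 * gr Z)) ^ (2 ^ k - 1) * Real.exp (6 * dg (rr Z) * B₃ ^ 2)
          * r ^ (12 * (2 ^ k - 1)) * Real.exp (-((3 * lam0 - 8 * η) * r)) := by
  have hr0 : 0 < r := by linarith
  have hqe : q = 1 / r ^ 2 := by field_simp; exact hqr
  have hq0 : 0 < q := by rw [hqe]; positivity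
  have hsq : Real.sqrt q = 1 / r := by
    rw [hqe, Real.sqrt_div zero_le_one, Real.sqrt_one, Real.sqrt_sq hr0.le]
  have hpq : p ≤ q := by
    have := Real.add_one_le_exp (-q)
    linarith
  have hB₂0 : 0 < B₂ := by linarith
  have hB₃0 : 0 < B₃ := by linarith
  obtain ⟨K, A, hK1, hA1, hA2, hKA, hbig, hext⟩ := KA_choice hr1 hqr hq0 hsq hZ hB₁ hB₂a hB₂b hB₂c
  obtain ⟨s, hs1, hs2, hsmall⟩ := s_choice hqr hq0 hr0 hZ'0 hσ0 hσ1 hr2 hr3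
  obtain ⟨M, hM⟩ : ∃ M : ℕ, M = 2 * A + 1 := ⟨_, rfl⟩
  have hMr : (M : ℝ) ≤ B₃ * r := by
    rw [hM, hB₃]; push_cast; linarith
  have hM0 : (0:ℝ) ≤ M := by positivity
  have hqM : q * ((M : ℝ) * M) ≤ B₃ ^ 2 := by
    have : (M : ℝ) * M ≤ (B₃ * r) * (B₃ * r) := mul_le_mul hMr hMr hM0 (by positivity)
    calc q * ((M : ℝ) * M) ≤ q * ((B₃ * r) * (B₃ * r)) := mul_le_mul_of_nonneg_left this hq0.le
      _ = (q * r ^ 2) * B₃ ^ 2 := by ring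
      _ = B₃ ^ 2 := by rw [hqr, one_mul]
  have hκ60 : 0 < (fo Z)⁻¹ ^ 6 := pow_pos (inv_pos.2 (fo_pos hZ)) 6
  have hδc : 6 * p * (fo Z)⁻¹ ^ 6 * M * s ≤ δ * gr (q * ((M : ℝ) * M) + Z) := by
    have h1 : gr (B₃ ^ 2 + Z) ≤ gr (q * ((M : ℝ) * M) + Z) := gr_anti (by positivity) (by linarith)
    have h2 : δ * gr (B₃ ^ 2 + Z) ≤ δ * gr (q * ((M : ℝ) * M) + Z) := mul_le_mul_of_nonneg_left h1 hδ0.le
    have h3 : (M : ℝ) * s ≤ (B₃ * r) * (σ * r) := mul_le_mul hMr hs1 (by positivity) (by positivity)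
    have h4 : 6 * p * (fo Z)⁻¹ ^ 6 * M * s ≤ 6 * q * (fo Z)⁻¹ ^ 6 * ((B₃ * r) * (σ * r)) := by
      calc 6 * p * (fo Z)⁻¹ ^ 6 * M * s = (6 * (fo Z)⁻¹ ^ 6) * (p * ((M : ℝ) * s)) := by ring
        _ ≤ (6 * (fo Z)⁻¹ ^ 6) * (q * ((B₃ * r) * (σ * r))) := by
            apply mul_le_mul_of_nonneg_left _ (by positivity)
            exact mul_le_mul hpq h3 (by positivity) hq0.le
        _ = _ := by ring
    have h5 : 6 * q * (fo Z)⁻¹ ^ 6 * ((B₃ * r) * (σ * r)) = (q * r ^ 2) * (6 * (fo Z)⁻¹ ^ 6 * B₃ * σ) := by ring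
    rw [h5, hqr, one_mul] at h4
    linarith
  have hM1 : 1 ≤ M := by omega
  have hind := main_ind (M := M) (s := s) (H := 2 * (M : ℝ) ^ 12 * Real.exp (9 * gr Z)) hp0 hp1 hq0 hq hZ
    hδ0.le hδ1 hZ' hsmall hδc le_rfl hM1 k
  have hGG : GoodG (fun z => gr (z + Z)) (dg (rr Z)) := goodG_shift hZ
  have hLip0 : 0 ≤ dg (rr Z) := dg_nonneg (one_lt_rr hZ).le
  have hsumK := hsum K (by rw [hsq, div_div_eq_mul_div, div_one]; exact hK1)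
  rw [hsq, div_div_eq_mul_div, div_one] at hsumK
  have hsumK' : (lam0 - η) * r ≤ ∑ k ∈ range K, gr (q * ((k : ℝ) * k) + Z) := by
    refine hsumK.trans (le_of_eq ?_)
    apply Finset.sum_congr rfl
    intro j _
    rw [pow_two]
  have herr : 6 * dg (rr Z) * q * (M : ℝ) ^ 2 ≤ 6 * dg (rr Z) * B₃ ^ 2 := by
    calc 6 * dg (rr Z) * q * (M : ℝ) ^ 2 = (6 * dg (rr Z)) * (q * ((M : ℝ) * M)) := by ring
      _ ≤ (6 * dg (rr Z)) * B₃ ^ 2 := mul_le_mul_of_nonneg_left hqM (by positivity)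
  refine ⟨A, by omega, hA2, ?_⟩
  intro a b hab hlong hsides
  have hsides' : ∀ j, dm a b j ≤ M := fun j => by rw [hM]; exact hsides j
  have hphi : phi a b ≤ k * s := by
    have h1 : (phi a b : ℝ) ≤ 3 * M := by
      rw [← sum_dm hab]
      calc ∑ i, (dm a b i : ℝ) ≤ ∑ _i : Fin 3, (M : ℝ) :=
            Finset.sum_le_sum (fun i _ => by exact_mod_cast hsides' i)
        _ = 3 * M := by rw [Finset.sum_const, Finset.card_univ, Fintype.card_fin]; ring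
    have h3 : (6 * B₃ / σ) * (σ * r / 2) ≤ (k : ℝ) * s := mul_le_mul hk hs2 (by positivity) (by positivity)
    have h4 : (6 * B₃ / σ) * (σ * r / 2) = 3 * (B₃ * r) := by field_simp; ring
    rw [h4] at h3
    have h5 : (phi a b : ℝ) ≤ (k : ℝ) * s := by linarith
    exact_mod_cast h5
  have hu := hind a b hab hsides' hphi
  have hlb := cst_lb hGG hq0.le hLip0 (M := M) (K := K) (A := A) (x := dm a b) hsides' (by omega) hKA hlong hbig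
  generalize cst (fun z => gr (z + Z)) q (dm a b) = Cc at *
  have hcst : (3 * lam0 - 4 * η) * r - 6 * dg (rr Z) * B₃ ^ 2 ≤ Cc := by linarith
  have hH : (2 * (M : ℝ) ^ 12 * Real.exp (9 * gr Z)) ^ (2 ^ k - 1)
      ≤ (2 * B₃ ^ 12 * Real.exp (9 * gr Z)) ^ (2 ^ k - 1) * r ^ (12 * (2 ^ k - 1)) := by
    have h1 : 2 * (M : ℝ) ^ 12 * Real.exp (9 * gr Z) ≤ (2 * B₃ ^ 12 * Real.exp (9 * gr Z)) * r ^ 12 := by
      have : (M : ℝ) ^ 12 ≤ (B₃ * r) ^ 12 := pow_le_pow_left₀ hM0 hMr 12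
      calc 2 * (M : ℝ) ^ 12 * Real.exp (9 * gr Z) ≤ 2 * (B₃ * r) ^ 12 * Real.exp (9 * gr Z) := by
            apply mul_le_mul_of_nonneg_right _ (Real.exp_pos _).le
            linarith
        _ = _ := by ring
    calc (2 * (M : ℝ) ^ 12 * Real.exp (9 * gr Z)) ^ (2 ^ k - 1)
        ≤ ((2 * B₃ ^ 12 * Real.exp (9 * gr Z)) * r ^ 12) ^ (2 ^ k - 1) :=
          pow_le_pow_left₀ (by positivity) h1 _
      _ = _ := by rw [mul_pow, ← pow_mul]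
  generalize (2 * (M : ℝ) ^ 12 * Real.exp (9 * gr Z)) ^ (2 ^ k - 1) = HM at *
  generalize (2 * B₃ ^ 12 * Real.exp (9 * gr Z)) ^ (2 ^ k - 1) = H0 at *
  generalize r ^ (12 * (2 ^ k - 1)) = rN at *
  have hC₀0 : 0 ≤ 6 * dg (rr Z) * B₃ ^ 2 := by positivity
  generalize 6 * dg (rr Z) * B₃ ^ 2 = C₀ at *
  have hHM0 : 0 ≤ HM := by
    by_contra h
    push Not at h
    have h1 : uu p a b < 0 := lt_of_le_of_lt hu (mul_neg_of_neg_of_pos h (Real.exp_pos _))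
    have h2 : 0 ≤ uu p a b := Pr_nonneg (okc hp0 hp1) _ _
    linarith
  have hexp : (3 * lam0 - 8 * η) * r - C₀ ≤ (1 - δ) * Cc :=
    exp_real hδ0.le hδ1 hδ2 hr0.le hη0.le hC₀0 hcst
  calc uu p a b ≤ HM * Real.exp (-((1 - δ) * Cc)) := hu
    _ ≤ (H0 * rN) * Real.exp (C₀ + -((3 * lam0 - 8 * η) * r)) := by
        apply mul_le_mul hH _ (Real.exp_pos _).le (le_trans hHM0 hH)
        apply Real.exp_le_exp.2
        linarith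
    _ = H0 * Real.exp C₀ * rN * Real.exp (-((3 * lam0 - 8 * η) * r)) := by
        rw [Real.exp_add]; ring

theorem span_small {ε : ℝ} (hε : 0 < ε) : ∃ (C : ℝ) (N : ℕ) (r₀ : ℝ), 1 ≤ C ∧ 1 ≤ r₀ ∧
    ∀ p q r : ℝ, 0 ≤ p → p ≤ 1 → Real.exp (-q) = 1 - p → r₀ ≤ r → q * r ^ 2 = 1 →
      ∃ A : ℕ, 1 ≤ A ∧ (A : ℝ) ≤ C * r ∧ ∀ a b : Pt, a ≤ b → (∃ j, A ≤ dm a b j) →
        (∀ j, dm a b j ≤ 2 * A + 1) →
        uu p a b ≤ C * r ^ N * Real.exp (-((3 * lam0 - ε) * r)) := by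
  have hlam := lam0_pos
  obtain ⟨η, hη⟩ : ∃ η, η = ε / 8 := ⟨_, rfl⟩
  have hη0 : 0 < η := by rw [hη]; positivity
  obtain ⟨Z, hZ, hZ2⟩ := sum_shift_ge hη0
  obtain ⟨B₁, hB₁, q₀, hq₀, hsum⟩ := hZ2 Z hZ le_rfl
  have hgrZ : 0 < gr Z := gr_pos hZ
  obtain ⟨B₂, hB₂a, hB₂b, hB₂c⟩ : ∃ B₂, B₁ + 2 ≤ B₂ ∧
      3 * (gr Z + lam0) ≤ (B₂ - B₁ - 1) * gr ((B₁ + 1) ^ 2 + Z) ∧ B₁ + 1 ≤ B₂ * (η * B₁) := by
    have hg₁0 : 0 < gr ((B₁ + 1) ^ 2 + Z) := gr_pos (by positivity)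
    generalize gr ((B₁ + 1) ^ 2 + Z) = g₁ at *
    have t1 : 0 ≤ 3 * (gr Z + lam0) / g₁ := by positivity
    have t2 : 0 ≤ (B₁ + 1) / (η * B₁) := by positivity
    refine ⟨B₁ + 2 + 3 * (gr Z + lam0) / g₁ + (B₁ + 1) / (η * B₁), by linarith, ?_, ?_⟩
    · rw [← div_le_iff₀ hg₁0]; linarith
    · rw [← div_le_iff₀ (by positivity)]; linarith
  have hB₂0 : 0 < B₂ := by linarith
  obtain ⟨B₃, hB₃⟩ : ∃ B₃, B₃ = 2 * B₂ + 3 := ⟨_, rfl⟩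
  have hB₃0 : 0 < B₃ := by rw [hB₃]; positivity
  obtain ⟨δ, hδ0, hδ1, hδ2⟩ : ∃ δ, 0 < δ ∧ δ ≤ 1 ∧ δ * lam0 ≤ η := by
    refine ⟨min 1 (η / lam0), lt_min one_pos (by positivity), min_le_left _ _, ?_⟩
    have : min 1 (η / lam0) ≤ η / lam0 := min_le_right _ _
    rwa [le_div_iff₀ hlam] at this
  obtain ⟨Z', hZ'0, hZ'⟩ := gr_large (3 * gr Z)
  have hsZ' : 0 < Real.sqrt Z' := Real.sqrt_pos.2 hZ'0
  obtain ⟨σ, hσ0, hσ1, hσ2⟩ : ∃ σ, 0 < σ ∧ σ ≤ Real.sqrt Z' / 2 ∧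
      6 * (fo Z)⁻¹ ^ 6 * B₃ * σ ≤ δ * gr (B₃ ^ 2 + Z) := by
    have hg₂0 : 0 < gr (B₃ ^ 2 + Z) := gr_pos (by positivity)
    have hκ60 : 0 < (fo Z)⁻¹ ^ 6 := pow_pos (inv_pos.2 (fo_pos hZ)) 6
    generalize gr (B₃ ^ 2 + Z) = g₂ at *
    generalize (fo Z)⁻¹ ^ 6 = κ6 at *
    refine ⟨min (Real.sqrt Z' / 2) (δ * g₂ / (6 * κ6 * B₃)), lt_min (by positivity) (by positivity),
      min_le_left _ _, ?_⟩
    have : min (Real.sqrt Z' / 2) (δ * g₂ / (6 * κ6 * B₃)) ≤ δ * g₂ / (6 * κ6 * B₃) := min_le_right _ _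
    rw [le_div_iff₀ (by positivity)] at this
    linarith
  obtain ⟨k, hk⟩ : ∃ k : ℕ, 6 * B₃ / σ ≤ k := ⟨_, Nat.le_ceil _⟩
  obtain ⟨C₁, hC₁⟩ : ∃ C₁, C₁ = (2 * B₃ ^ 12 * Real.exp (9 * gr Z)) ^ (2 ^ k - 1) *
    Real.exp (6 * dg (rr Z) * B₃ ^ 2) := ⟨_, rfl⟩
  have hC₁0 : 0 < C₁ := by rw [hC₁]; positivity
  refine ⟨B₂ + 1 + C₁, 12 * (2 ^ k - 1), max (max 1 (6 / Real.sqrt Z')) (max (2 / σ) (1 / Real.sqrt q₀)),
    by linarith, (le_max_left _ _).trans (le_max_left _ _), ?_⟩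
  intro p q r hp0 hp1 hq hr hqr
  have hr1 : 1 ≤ r := ((le_max_left _ _).trans (le_max_left _ _)).trans hr
  have hr2 : 6 / Real.sqrt Z' ≤ r := ((le_max_right _ _).trans (le_max_left _ _)).trans hr
  have hr3 : 2 / σ ≤ r := ((le_max_left _ _).trans (le_max_right _ _)).trans hr
  have hr4 : 1 / Real.sqrt q₀ ≤ r := ((le_max_right _ _).trans (le_max_right _ _)).trans hr
  have hr0 : 0 < r := by linarith
  have hqe : q = 1 / r ^ 2 := by field_simp; exact hqr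
  have hq0 : 0 < q := by rw [hqe]; positivity
  have hqq₀ : q ≤ q₀ := by
    have h1 : 1 ≤ r * Real.sqrt q₀ := by
      rw [div_le_iff₀ (Real.sqrt_pos.2 hq₀)] at hr4; exact hr4
    have h2 : 1 ≤ (r * Real.sqrt q₀) ^ 2 := one_le_pow₀ h1
    rw [mul_pow, Real.sq_sqrt hq₀.le] at h2
    rw [hqe, div_le_iff₀ (by positivity)]
    linarith
  rw [div_le_iff₀ hsZ'] at hr2
  rw [div_le_iff₀ hσ0] at hr3
  obtain ⟨A, hA1, hA2, hA3⟩ := span_core hp0 hp1 hq hr1 hqr hZ hB₁ hη0 hB₂a hB₂b hB₂c hB₃ hδ0 hδ1 hδ2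
    hZ'0 hZ' hσ0 hσ1 hσ2 (by linarith) (by linarith) hk (hsum q hq0 hqq₀)
  rw [← hC₁] at hA3
  refine ⟨A, hA1, ?_, ?_⟩
  · have : 0 ≤ C₁ * r := by positivity
    linarith
  · intro a b hab hlong hsides
    refine (hA3 a b hab hlong hsides).trans ?_
    rw [show 8 * η = ε by rw [hη]; ring]
    apply mul_le_mul_of_nonneg_right _ (Real.exp_pos _).le
    apply mul_le_mul_of_nonneg_right _ (pow_nonneg hr0.le _)
    linarith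

end Pool.Agent.H97.BP
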