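import Pool.Agent.H97.BP.PartA

/-!
# Cubes are unlikely to be spanned below the threshold
-/

set_option autoImplicit false

namespace Pool.Agent.H97.BP

open Finset H974 Filter Topology

theorem small_ev (C : ℝ) (N : ℕ) {c : ℝ} (hc : 0 < c) :
    ∀ᶠ r : ℝ in atTop, C * r ^ N * Real.exp (-(c * r)) < 1 / 2 := by
  have h1 := Real.tendsto_pow_mul_exp_neg_atTop_nhds_zero N
  have h2 : Tendsto (fun r : ℝ => c * r) atTop atTop := tendsto_id.const_mul_atTop hc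
  have h3 := h1.comp h2
  have h4 : Tendsto (fun r : ℝ => (C / c ^ N) * ((c * r) ^ N * Real.exp (-(c * r)))) atTop (𝓝 ((C / c ^ N) * 0)) :=
    h3.const_mul _
  rw [mul_zero] at h4
  have h5 := h4.eventually (gt_mem_nhds (show (0:ℝ) < 1 / 2 by norm_num))
  filter_upwards [h5] with r hr
  have : C * r ^ N * Real.exp (-(c * r)) = (C / c ^ N) * ((c * r) ^ N * Real.exp (-(c * r))) := by
    rw [mul_pow]
    field_simp
  rw [this]
  exact hr

theorem pq_facts {p : ℝ} (hp : 0 < p) (hp2 : p ≤ 1 / 2) :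
    0 < -Real.log (1 - p) ∧ Real.exp (-(-Real.log (1 - p))) = 1 - p ∧ p ≤ -Real.log (1 - p) ∧
      -Real.log (1 - p) ≤ 2 * p ∧ -Real.log (1 - p) * (1 - p) ≤ p := by
  have h1 : 0 < 1 - p := by linarith
  have h2 : Real.exp (-(-Real.log (1 - p))) = 1 - p := by rw [neg_neg, Real.exp_log h1]
  have h3 : p ≤ -Real.log (1 - p) := by
    have := Real.log_le_sub_one_of_pos h1
    linarith
  have h4 := Real.one_sub_inv_le_log_of_pos h1
  have h5 : -Real.log (1 - p) * (1 - p) ≤ p := by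
    have h6 : -Real.log (1 - p) ≤ (1 - p)⁻¹ - 1 := by linarith
    calc -Real.log (1 - p) * (1 - p) ≤ ((1 - p)⁻¹ - 1) * (1 - p) := mul_le_mul_of_nonneg_right h6 h1.le
      _ = p := by field_simp; ring
  refine ⟨by linarith, h2, h3, ?_, h5⟩
  nlinarith

theorem r_facts {p q r : ℝ} (hp : 0 < p) (hp2 : p ≤ 1 / 2) (hpq : p ≤ q) (hq2 : q * (1 - p) ≤ p)
    (hr : 1 ≤ r) (hqr : q * r ^ 2 = 1) : r ≤ 1 / Real.sqrt p ∧ 1 / Real.sqrt p ≤ r + 1 := by
  have hs : 0 < Real.sqrt p := Real.sqrt_pos.2 hp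
  have hsp : Real.sqrt p ^ 2 = p := Real.sq_sqrt hp.le
  constructor
  · rw [le_div_iff₀ hs]
    have h1 : (r * Real.sqrt p) ^ 2 ≤ 1 ^ 2 := by
      rw [mul_pow, hsp, one_pow]
      nlinarith [mul_le_mul_of_nonneg_left hpq (sq_nonneg r)]
    exact (le_abs_self _).trans (abs_le_of_sq_le_sq h1 zero_le_one)
  · rw [div_le_iff₀ hs]
    have h0 : 0 ≤ (r + 1) * Real.sqrt p := by positivity
    have h1 : (1:ℝ) ^ 2 ≤ ((r + 1) * Real.sqrt p) ^ 2 := by
      rw [mul_pow, hsp, one_pow]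
      -- (1 - p) ≤ p r^2
      have h2 : (1 - p) ≤ p * r ^ 2 := by
        have := mul_le_mul_of_nonneg_right hq2 (sq_nonneg r)
        nlinarith
      nlinarith
    exact (le_abs_self _).trans (abs_le_of_sq_le_sq h1 h0)

theorem uu_cube_le {p : ℝ} (hp0 : 0 ≤ p) (hp1 : p ≤ 1) {a b : Pt} (hab : a ≤ b) {n A : ℕ}
    (hn : ∀ j, dm a b j = n) (hA1 : 1 ≤ A) (hAn : A ≤ n) {X : ℝ} (hX0 : 0 ≤ X)
    (hX : ∀ a' b' : Pt, a' ≤ b' → (∃ j, A ≤ dm a' b' j) → (∀ j, dm a' b' j ≤ 2 * A + 1) →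
      uu p a' b' ≤ X) :
    uu p a b ≤ (n : ℝ) ^ 3 * (2 * A + 1) ^ 3 * X := by
  classical
  have hok := okc (E := Pt) hp0 hp1
  set V : Finset Pt := Finset.Icc (0 : Pt) (fun _ => (2 * A : ℤ)) with hV
  set I : Finset (Pt × Pt) := ((Finset.Icc a b) ×ˢ V).filter (fun c =>
    c.1 + c.2 ≤ b ∧ (∃ j, A ≤ dm c.1 (c.1 + c.2) j) ∧ ∀ j, dm c.1 (c.1 + c.2) j ≤ 2 * A + 1) with hI
  have hincl : ∀ F, F ⊆ Finset.Icc a b → Spn a b F → ∃ c ∈ I, Spn c.1 (c.1 + c.2) F := by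
    intro F hF hS
    have hFI : (F : Set Pt) ⊆ Set.Icc a b := fun x hx => Finset.mem_Icc.1 (hF hx)
    have hFI' : (F : Set Pt) ∩ Set.Icc a b = F := Set.inter_eq_left.2 hFI
    unfold Spn at hS
    rw [hFI'] at hS
    have hCl : Cl (F : Set Pt) = Set.Icc a b :=
      Set.Subset.antisymm (Cl_min hFI (closed_Icc a b)) hS
    obtain ⟨X, hXF, a1, b1, g1, g2, g3, g4, ⟨j, g5⟩, g6⟩ := al_lemma (A : ℤ) _ F a b rfl hab hCl
      ⟨0, by rw [← dm_cast hab 0, hn 0]; exact_mod_cast hAn⟩ (by exact_mod_cast hA1)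
    have e : a1 + (b1 - a1) = b1 := by abel
    refine ⟨(a1, b1 - a1), ?_, ?_⟩
    · rw [hI, Finset.mem_filter, Finset.mem_product, Finset.mem_Icc, hV, Finset.mem_Icc]
      simp only [e]
      refine ⟨⟨⟨g3, g1.trans g4⟩, ⟨sub_nonneg.2 g1, ?_⟩⟩, g4, ⟨j, ?_⟩, ?_⟩
      · intro i
        have := g6 i
        show b1 i - a1 i ≤ 2 * A
        linarith
      · have := dm_cast g1 j
        omega
      · intro i
        have := dm_cast g1 i
        have := g6 i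
        omega
    · simp only [e]
      apply Spn_mono hXF
      unfold Spn
      rw [← g2]
      apply Cl_mono
      intro x hx
      exact ⟨hx, subset_Cl _ hx⟩
  have hcard : (I.card : ℝ) ≤ (n : ℝ) ^ 3 * (2 * A + 1) ^ 3 := by
    have h1 : (Finset.Icc a b).card ≤ n ^ 3 := by
      have := card_Icc_le (a := a) (b := b) (M := n) (fun i => (hn i).le)
      exact_mod_cast this
    have h2 : V.card ≤ (2 * A + 1) ^ 3 := by
      have := card_Icc_le (a := (0 : Pt)) (b := fun _ => (2 * A : ℤ)) (M := 2 * A + 1) (fun i => by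
        show ((2 * (A : ℤ)) - 0 + 1).toNat ≤ 2 * A + 1
        omega)
      rw [← hV] at this
      exact_mod_cast this
    have h3 : I.card ≤ n ^ 3 * (2 * A + 1) ^ 3 := by
      refine (Finset.card_filter_le _ _).trans ?_
      rw [Finset.card_product]
      exact Nat.mul_le_mul h1 h2
    exact_mod_cast h3
  calc uu p a b ≤ Pr (fun _ => p) (Finset.Icc a b) (fun F => ∃ c ∈ I, Spn c.1 (c.1 + c.2) F) :=
        Pr_mono hok (fun F hF hS => hincl F hF hS)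
    _ ≤ ∑ c ∈ I, Pr (fun _ => p) (Finset.Icc a b) (Spn c.1 (c.1 + c.2)) := Pr_exists_le hok _ _ _
    _ ≤ ∑ _c ∈ I, X := by
        apply Finset.sum_le_sum
        rintro ⟨a1, v⟩ hc
        rw [hI, Finset.mem_filter, Finset.mem_product, Finset.mem_Icc, hV, Finset.mem_Icc] at hc
        obtain ⟨⟨⟨g1, g2⟩, ⟨g3, g4⟩⟩, g5, g6, g7⟩ := hc
        rw [uu_eq (Finset.Icc_subset_Icc g1 g5)]
        exact hX a1 (a1 + v) (le_add_of_nonneg_right g3) g6 g7
    _ = (I.card : ℝ) * X := by rw [Finset.sum_const, nsmul_eq_mul]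
    _ ≤ _ := mul_le_mul_of_nonneg_right hcard hX0

theorem cube_small {ε : ℝ} (hε : 0 < ε) (hε' : ε < lam0) : ∃ p₀ : ℝ, 0 < p₀ ∧ ∀ p : ℝ, 0 < p → p ≤ p₀ →
    ∀ n : ℕ, 1 ≤ n → Real.log n = (lam0 - ε) / Real.sqrt p → ∀ a b : Pt, a ≤ b → (∀ j, dm a b j = n) →
      uu p a b < 1 / 2 := by
  obtain ⟨C, N, r₀, hC, hr₀, hsp⟩ := span_small hε
  have hl : 0 < lam0 - ε := by linarith
  -- thresholds
  have ev1 := small_ev ((3 * C) ^ 3 * C * Real.exp (3 * lam0)) (N + 3) (show 0 < 2 * ε by positivity)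
  have ev2 := small_ev C 1 hl
  obtain ⟨r₁, hr₁⟩ := Filter.eventually_atTop.1 (ev1.and ev2)
  obtain ⟨ρ, hρ⟩ : ∃ ρ, ρ = max r₀ r₁ := ⟨_, rfl⟩
  have hρ1 : 1 ≤ ρ := by rw [hρ]; exact hr₀.trans (le_max_left _ _)
  refine ⟨min (1 / 2) (1 / (2 * ρ ^ 2)), by positivity, ?_⟩
  intro p hp hpp n hn1 hlog a b hab hdm
  have hp2 : p ≤ 1 / 2 := hpp.trans (min_le_left _ _)
  have hp3 : p ≤ 1 / (2 * ρ ^ 2) := hpp.trans (min_le_right _ _)
  have hp1 : p ≤ 1 := by linarith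
  obtain ⟨f1, f2, f3, f4, f5⟩ := pq_facts hp hp2
  generalize -Real.log (1 - p) = q at *
  obtain ⟨r, hr⟩ : ∃ r, r = 1 / Real.sqrt q := ⟨_, rfl⟩
  have hsq : 0 < Real.sqrt q := Real.sqrt_pos.2 f1
  have hr0 : 0 < r := by rw [hr]; positivity
  have hqr : q * r ^ 2 = 1 := by
    rw [hr, div_pow, Real.sq_sqrt f1.le]; field_simp
  have hρr : ρ ≤ r := by
    have h1 : q ≤ 1 / ρ ^ 2 := by
      have : 2 * p ≤ 1 / ρ ^ 2 := by
        calc 2 * p ≤ 2 * (1 / (2 * ρ ^ 2)) := by linarith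
          _ = 1 / ρ ^ 2 := by field_simp
      linarith
    have h2 : Real.sqrt q ≤ 1 / ρ := by
      rw [Real.sqrt_le_left (by positivity)]
      rw [div_pow, one_pow]; exact h1
    rw [hr, le_div_iff₀ hsq]
    calc ρ * Real.sqrt q ≤ ρ * (1 / ρ) := mul_le_mul_of_nonneg_left h2 (by linarith)
      _ = 1 := by field_simp
  have hr1 : 1 ≤ r := hρ1.trans hρr
  have hrr₀ : r₀ ≤ r := (by rw [hρ]; exact le_max_left _ _ : r₀ ≤ ρ).trans hρr
  have hrr₁ : r₁ ≤ r := (by rw [hρ]; exact le_max_right _ _ : r₁ ≤ ρ).trans hρr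
  obtain ⟨g1, g2⟩ := r_facts hp hp2 f3 f5 hr1 hqr
  obtain ⟨e1, e2⟩ := hr₁ r hrr₁
  obtain ⟨A, hA1, hA2, hA3⟩ := hsp p q r hp.le hp1 f2 hrr₀ hqr
  have hn0 : (0:ℝ) < n := by exact_mod_cast (by omega : 0 < n)
  -- A ≤ n
  have hlogn : (lam0 - ε) * r ≤ Real.log n := by
    rw [hlog, div_eq_mul_one_div]
    exact mul_le_mul_of_nonneg_left g1 hl.le
  have hnexp : Real.exp ((lam0 - ε) * r) ≤ n := by
    rw [← Real.exp_log hn0]
    exact Real.exp_le_exp.2 hlogn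
  have hAn : A ≤ n := by
    have h1 : C * r ^ 1 ≤ Real.exp ((lam0 - ε) * r) := by
      have h2 := Real.exp_pos ((lam0 - ε) * r)
      rw [Real.exp_neg, ← div_eq_mul_inv, div_lt_iff₀ h2] at e2
      linarith
    rw [pow_one] at h1
    have : (A : ℝ) ≤ n := by linarith
    exact_mod_cast this
  have hX0 : 0 ≤ C * r ^ N * Real.exp (-((3 * lam0 - ε) * r)) := by positivity
  have hub := uu_cube_le hp.le hp1 hab hdm hA1 hAn hX0 hA3
  refine lt_of_le_of_lt (hub.trans ?_) e1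
  -- the numerical bound
  have hn3 : (n : ℝ) ^ 3 ≤ Real.exp (3 * lam0) * Real.exp (3 * (lam0 - ε) * r) := by
    have h1 : (n : ℝ) ^ 3 = Real.exp (3 * Real.log n) := by
      rw [show 3 * Real.log n = ((3 : ℕ) : ℝ) * Real.log n by norm_num, Real.exp_nat_mul, Real.exp_log hn0]
    rw [h1, ← Real.exp_add]
    apply Real.exp_le_exp.2
    rw [hlog, div_eq_mul_one_div]
    have := mul_le_mul_of_nonneg_left g2 hl.le
    nlinarith
  have hA3' : (2 * (A : ℝ) + 1) ^ 3 ≤ (3 * C) ^ 3 * r ^ 3 := by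
    rw [← mul_pow]
    apply pow_le_pow_left₀ (by positivity)
    nlinarith
  calc (n : ℝ) ^ 3 * (2 * A + 1) ^ 3 * (C * r ^ N * Real.exp (-((3 * lam0 - ε) * r)))
      ≤ (Real.exp (3 * lam0) * Real.exp (3 * (lam0 - ε) * r)) * ((3 * C) ^ 3 * r ^ 3) *
        (C * r ^ N * Real.exp (-((3 * lam0 - ε) * r))) := by
        apply mul_le_mul_of_nonneg_right _ hX0
        exact mul_le_mul hn3 hA3' (by positivity) (by positivity)
    _ = (3 * C) ^ 3 * C * Real.exp (3 * lam0) * r ^ (N + 3) *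
        (Real.exp (3 * (lam0 - ε) * r) * Real.exp (-((3 * lam0 - ε) * r))) := by
        rw [pow_add]; ring
    _ = (3 * C) ^ 3 * C * Real.exp (3 * lam0) * r ^ (N + 3) * Real.exp (-(2 * ε * r)) := by
        rw [← Real.exp_add]
        congr 2
        ring

end Pool.Agent.H97.BP
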