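import Pool.Agent.H97.BP.PercLB

/-!
# Cubes are likely to be spanned above an improved threshold
-/

set_option autoImplicit false

namespace Pool.Agent.H97.BP

open Finset H974 Filter Topology

/-- the gain per window -/
noncomputable def x0 : ℝ := c1 * Real.exp (-(6 * dg (rr (1 / 4)))) / 16

theorem x0_pos : 0 < x0 := by
  unfold x0
  have := c1_pos
  positivity

/-- the exponent of the total gain -/
noncomputable def c6 : ℝ := Real.log (1 + x0) / 2

theorem c6_pos : 0 < c6 := by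
  unfold c6
  have := Real.log_pos (show 1 < 1 + x0 by linarith [x0_pos])
  positivity

theorem cube_lb' {p q m : ℝ} (hp0 : 0 ≤ p) (hp1 : p ≤ 1) (hq : Real.exp (-q) = 1 - p)
    (hm : 100 ≤ m) (hqm : q * m ^ 2 = 1) {K : ℕ} (hK : 2 * m + 4 ≤ K) :
    p ^ 8 / 8 * Real.exp (-(3 * lam0 * m) + c6 * Real.sqrt m) ≤ uu p (1 : Pt) (fun _ => (K : ℤ)) := by
  have hm0 : 0 < m := by linarith
  have hq0 : 0 < q := by
    have : q = 1 / m ^ 2 := by field_simp; exact hqm
    rw [this]; positivity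
  have hsm : Real.sqrt m * Real.sqrt m = m := Real.mul_self_sqrt hm0.le
  have hs10 : 10 ≤ Real.sqrt m := by
    rw [Real.le_sqrt (by norm_num) hm0.le]; norm_num; exact hm
  obtain ⟨w, hw1, hw2⟩ : ∃ w : ℕ, (w : ℝ) ≤ Real.sqrt m ∧ Real.sqrt m < w + 1 :=
    ⟨⌊Real.sqrt m⌋₊, Nat.floor_le (Real.sqrt_nonneg m), Nat.lt_floor_add_one _⟩
  obtain ⟨k0, hk1, hk2⟩ : ∃ k0 : ℕ, m ≤ k0 ∧ (k0 : ℝ) ≤ m + 1 :=
    ⟨⌈m⌉₊, Nat.le_ceil _, (Nat.ceil_lt_add_one hm0.le).le⟩
  have hw8 : 8 ≤ w := by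
    have : (8:ℝ) < w := by linarith
    exact_mod_cast this.le
  have hww : (w : ℝ) * w ≤ m := by nlinarith [Nat.cast_nonneg (α := ℝ) w]
  have hwhalf : Real.sqrt m / 2 ≤ w := by linarith
  have hw0 : (0:ℝ) < w := by exact_mod_cast (by omega : 0 < w)
  have hK1 : k0 + w * w + 1 ≤ K := by
    have : (k0 : ℝ) + w * w + 1 ≤ K := by linarith
    exact_mod_cast this
  have hb := cube_lb (T := w) (h := w / 2) hp0 hp1 hq0 hq (by linarith) hqm hk1 hk2 (by push_cast; exact hww)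
    hww hw8 (by omega) (by linarith) hK1
  refine le_trans ?_ hb
  have hgain : Real.exp (c6 * Real.sqrt m) ≤
      (1 + ((w / 2 : ℕ) : ℝ) * (c1 * w / m * Real.exp (-(6 * dg (rr (1 / 4)))))) ^ w := by
    have hh : (w : ℝ) / 4 ≤ ((w / 2 : ℕ) : ℝ) := by
      have : w ≤ 4 * (w / 2) := by omega
      have : (w : ℝ) ≤ 4 * ((w / 2 : ℕ) : ℝ) := by exact_mod_cast this
      linarith
    have hE : 0 < Real.exp (-(6 * dg (rr (1 / 4)))) := Real.exp_pos _
    have hc1 := c1_pos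
    have hx : x0 ≤ ((w / 2 : ℕ) : ℝ) * (c1 * w / m * Real.exp (-(6 * dg (rr (1 / 4))))) := by
      have h1 : m / 4 ≤ (w : ℝ) * w := by
        have : (Real.sqrt m / 2) * (Real.sqrt m / 2) ≤ (w : ℝ) * w :=
          mul_le_mul hwhalf hwhalf (by positivity) hw0.le
        nlinarith
      have h2 : ((w : ℝ) / 4) * (c1 * w / m * Real.exp (-(6 * dg (rr (1 / 4)))))
          ≤ ((w / 2 : ℕ) : ℝ) * (c1 * w / m * Real.exp (-(6 * dg (rr (1 / 4))))) :=
        mul_le_mul_of_nonneg_right hh (by positivity)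
      refine le_trans ?_ h2
      unfold x0
      have h3 : ((w : ℝ) / 4) * (c1 * w / m * Real.exp (-(6 * dg (rr (1 / 4)))))
          = c1 * Real.exp (-(6 * dg (rr (1 / 4)))) / 4 * ((w * w) / m) := by ring
      have h4 : (1:ℝ) / 4 ≤ (w * w) / m := by rw [le_div_iff₀ hm0]; linarith
      rw [h3]
      calc c1 * Real.exp (-(6 * dg (rr (1 / 4)))) / 16
          = c1 * Real.exp (-(6 * dg (rr (1 / 4)))) / 4 * (1 / 4) := by ring
        _ ≤ _ := mul_le_mul_of_nonneg_left h4 (by positivity)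
    have hx0 := x0_pos
    calc Real.exp (c6 * Real.sqrt m) ≤ Real.exp (w * Real.log (1 + x0)) := by
          apply Real.exp_le_exp.2
          unfold c6
          have := Real.log_pos (show 1 < 1 + x0 by linarith)
          nlinarith
      _ = (1 + x0) ^ w := by
          rw [Real.exp_nat_mul, Real.exp_log (by linarith)]
      _ ≤ _ := by
          apply pow_le_pow_left₀ (by linarith)
          linarith
  rw [Real.exp_add, ← mul_assoc]
  exact mul_le_mul_of_nonneg_left hgain (by positivity)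

/-- eventually true numerical facts -/
theorem ev_B : ∃ m₀ : ℝ, 100 ≤ m₀ ∧ ∀ m : ℝ, m₀ ≤ m →
    2 * (2 ^ 23 * m ^ 25) ≤ Real.exp (c6 / 2 * Real.sqrt m) ∧
    3 * Real.exp (6 * lam0 * m - m ^ 4) ≤ 1 / 4 ∧
    16 * m ^ 3 ≤ Real.exp (lam0 * m - c6 / 6 * Real.sqrt m) := by
  have hc6 := c6_pos
  have hl := lam0_pos
  -- first
  have e1 : ∀ᶠ m : ℝ in atTop, 2 * (2 ^ 23 * m ^ 25) ≤ Real.exp (c6 / 2 * Real.sqrt m) := by
    have h1 := small_ev (2 ^ 24) 50 (show 0 < c6 / 2 by positivity)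
    have h2 := Real.tendsto_sqrt_atTop.eventually h1
    filter_upwards [h2, eventually_ge_atTop 0] with m hm hm0
    have h3 : Real.sqrt m ^ 50 = m ^ 25 := by
      rw [show (50:ℕ) = 2 * 25 by norm_num, pow_mul, Real.sq_sqrt hm0]
    rw [h3, Real.exp_neg, ← div_eq_mul_inv, div_lt_iff₀ (Real.exp_pos _)] at hm
    have : 0 < Real.exp (c6 / 2 * Real.sqrt m) := Real.exp_pos _
    linarith
  have e2 : ∀ᶠ m : ℝ in atTop, 3 * Real.exp (6 * lam0 * m - m ^ 4) ≤ 1 / 4 := by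
    have h1 := small_ev 6 0 (show (0:ℝ) < 1 by norm_num)
    filter_upwards [h1, eventually_ge_atTop (6 * lam0 + 1), eventually_ge_atTop 1] with m hm hm1 hm2
    rw [pow_zero, mul_one, one_mul] at hm
    have h2 : Real.exp (6 * lam0 * m - m ^ 4) ≤ Real.exp (-m) := by
      apply Real.exp_le_exp.2
      have h3 : (6 * lam0 + 1) * m ≤ m * m := mul_le_mul_of_nonneg_right hm1 (by linarith)
      have h4 : m * m ≤ m ^ 4 := by
        calc m * m = m ^ 2 := by ring
          _ ≤ m ^ 4 := pow_le_pow_right₀ hm2 (by norm_num)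
      linarith
    linarith
  have e3 : ∀ᶠ m : ℝ in atTop, 16 * m ^ 3 ≤ Real.exp (lam0 * m - c6 / 6 * Real.sqrt m) := by
    have h1 := small_ev 16 3 (show 0 < lam0 / 2 by positivity)
    filter_upwards [h1, eventually_ge_atTop ((c6 / (3 * lam0)) ^ 2), eventually_ge_atTop 1] with m hm hm1 hm2
    rw [Real.exp_neg, ← div_eq_mul_inv, div_lt_iff₀ (Real.exp_pos _)] at hm
    have h2 : lam0 / 2 * m ≤ lam0 * m - c6 / 6 * Real.sqrt m := by
      have h3 : c6 / (3 * lam0) ≤ Real.sqrt m := Real.le_sqrt_of_sq_le hm1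
      have h4 : Real.sqrt m * Real.sqrt m = m := Real.mul_self_sqrt (by linarith)
      have h5 : c6 / 6 * Real.sqrt m ≤ lam0 / 2 * m := by
        rw [div_le_iff₀ (by positivity)] at h3
        nlinarith [Real.sqrt_nonneg m]
      linarith
    have h6 := Real.exp_le_exp.2 h2
    have h7 := Real.exp_pos (lam0 / 2 * m)
    linarith
  obtain ⟨m₁, hm₁⟩ := Filter.eventually_atTop.1 (e1.and (e2.and e3))
  refine ⟨max 100 m₁, le_max_left _ _, ?_⟩
  intro m hm
  exact hm₁ m ((le_max_right _ _).trans hm)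

theorem partB : ∃ m₀ : ℝ, 100 ≤ m₀ ∧ ∀ m : ℝ, m₀ ≤ m → ∀ p q : ℝ, 0 ≤ p → p ≤ 1 → Real.exp (-q) = 1 - p →
    q * m ^ 2 = 1 → ∀ n : ℕ, 1 ≤ n → lam0 * m - c6 / 6 * Real.sqrt m ≤ Real.log n → Real.log n ≤ 2 * lam0 * m →
      1 / 2 ≤ uu p (1 : Pt) (fun _ => (n : ℤ)) := by
  obtain ⟨m₀, hm₀, hev⟩ := ev_B
  refine ⟨m₀, hm₀, ?_⟩
  intro m hm p q hp0 hp1 hq hqm n hn1 hlog1 hlog2
  obtain ⟨v1, v2, v3⟩ := hev m hm
  have hm100 : 100 ≤ m := hm₀.trans hm
  have hm0 : 0 < m := by linarith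
  have hqe : q = 1 / m ^ 2 := by field_simp; exact hqm
  have hq0 : 0 < q := by rw [hqe]; positivity
  have hn0 : (0:ℝ) < n := by exact_mod_cast (by omega : 0 < n)
  -- K
  obtain ⟨K, hK1, hK2⟩ : ∃ K : ℕ, m ^ 3 ≤ K ∧ (K : ℝ) ≤ 2 * m ^ 3 := by
    refine ⟨⌈m ^ 3⌉₊, Nat.le_ceil _, ?_⟩
    have h1 := Nat.ceil_lt_add_one (show 0 ≤ m ^ 3 by positivity)
    have h2 : 1 ≤ m ^ 3 := one_le_pow₀ (by linarith)
    linarith
  have hm3 : 2 * m + 4 ≤ m ^ 3 := by
    have : 100 * m ≤ m ^ 2 * m := by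
      apply mul_le_mul_of_nonneg_right _ hm0.le
      nlinarith
    have e : m ^ 3 = m ^ 2 * m := by ring
    rw [e]; linarith
  have hKpos : (0:ℝ) < K := by
    have : 0 < m ^ 3 := by positivity
    linarith
  have hKn1 : 1 ≤ K := by exact_mod_cast (Nat.cast_pos.1 hKpos)
  have hcb := cube_lb' hp0 hp1 hq hm100 hqm (K := K) (by linarith)
  -- N
  obtain ⟨N, hN⟩ : ∃ N, N = n / K := ⟨_, rfl⟩
  have hKN : K * N ≤ n := by rw [hN]; exact Nat.mul_div_le n K
  have hnK : 8 * K ≤ (n : ℝ) := by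
    have h1 : Real.exp (lam0 * m - c6 / 6 * Real.sqrt m) ≤ n := by
      rw [← Real.exp_log hn0]; exact Real.exp_le_exp.2 hlog1
    linarith
  have hN2 : (n : ℝ) / (2 * K) ≤ N := by
    have h1 : n < K * (N + 1) := by
      rw [hN]; exact Nat.lt_mul_div_succ n (by omega)
    have h2 : (n : ℝ) < K * (N + 1) := by exact_mod_cast h1
    rw [div_le_iff₀ (by positivity)]
    nlinarith
  have hperc := perc_lb hp0 hp1 (n := n) (K := K) (N := N) hKn1 hKN
  -- the first error term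
  set PK := uu p (1 : Pt) (fun _ => (K : ℤ)) with hPK
  have hPK0 : 0 ≤ PK := Pr_nonneg (okc hp0 hp1) _ _
  have hPK1 : PK ≤ 1 := Pr_le_one (okc hp0 hp1) _ _
  have hp2 : 1 / (2 * m ^ 2) ≤ p := by
    -- p = 1 - exp (-q) >= q / 2
    have h1 := fo_ge_half (x := q) hq0.le (by
      rw [hqe, div_le_one (by positivity)]
      exact one_le_pow₀ (by linarith))
    have h2 : fo q = p := by unfold fo; rw [hq]; ring
    rw [h2, hqe] at h1
    calc 1 / (2 * m ^ 2) = 1 / m ^ 2 / 2 := by field_simp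
      _ ≤ p := h1
  have hbig : 2 ≤ PK * (N : ℝ) ^ 3 := by
    have h1 : 1 / (2 ^ 11 * m ^ 16) ≤ p ^ 8 / 8 := by
      have : (1 / (2 * m ^ 2)) ^ 8 ≤ p ^ 8 := pow_le_pow_left₀ (by positivity) hp2 8
      calc 1 / (2 ^ 11 * m ^ 16) = (1 / (2 * m ^ 2)) ^ 8 / 8 := by field_simp; norm_num
        _ ≤ _ := by linarith
    have h2 : (n : ℝ) ^ 3 / (2 ^ 12 * m ^ 9) ≤ (N : ℝ) ^ 3 := by
      have h3 : (n : ℝ) / (4 * m ^ 3) ≤ (N : ℝ) := by
        refine le_trans ?_ hN2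
        apply div_le_div_of_nonneg_left hn0.le (by positivity)
        linarith
      have h4 : ((n : ℝ) / (4 * m ^ 3)) ^ 3 ≤ (N : ℝ) ^ 3 := pow_le_pow_left₀ (by positivity) h3 3
      refine le_trans ?_ h4
      rw [div_pow, mul_pow]
      apply div_le_div_of_nonneg_left (by positivity) (by positivity)
      have : (m ^ 3) ^ 3 = m ^ 9 := by ring
      rw [this]
      have : 0 < m ^ 9 := by positivity
      nlinarith
    have h5 : Real.exp (3 * lam0 * m - c6 / 2 * Real.sqrt m) ≤ (n : ℝ) ^ 3 := by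
      have : (n : ℝ) ^ 3 = Real.exp (3 * Real.log n) := by
        rw [show 3 * Real.log n = ((3 : ℕ) : ℝ) * Real.log n by norm_num, Real.exp_nat_mul, Real.exp_log hn0]
      rw [this]
      apply Real.exp_le_exp.2
      linarith
    have h6 : (1 / (2 ^ 11 * m ^ 16)) * Real.exp (-(3 * lam0 * m) + c6 * Real.sqrt m) ≤ PK :=
      (mul_le_mul_of_nonneg_right h1 (Real.exp_pos _).le).trans hcb
    have h7 : Real.exp (3 * lam0 * m - c6 / 2 * Real.sqrt m) / (2 ^ 12 * m ^ 9) ≤ (N : ℝ) ^ 3 :=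
      (div_le_div_of_nonneg_right h5 (by positivity)).trans h2
    have h8 := mul_le_mul h6 h7 (by positivity) hPK0
    refine le_trans ?_ h8
    have h9 : (1 / (2 ^ 11 * m ^ 16)) * Real.exp (-(3 * lam0 * m) + c6 * Real.sqrt m) *
        (Real.exp (3 * lam0 * m - c6 / 2 * Real.sqrt m) / (2 ^ 12 * m ^ 9))
        = Real.exp (c6 / 2 * Real.sqrt m) / (2 ^ 23 * m ^ 25) := by
      have : Real.exp (-(3 * lam0 * m) + c6 * Real.sqrt m) * Real.exp (3 * lam0 * m - c6 / 2 * Real.sqrt m)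
          = Real.exp (c6 / 2 * Real.sqrt m) := by
        rw [← Real.exp_add]; congr 1; ring
      rw [← this]
      field_simp
    rw [h9, le_div_iff₀ (by positivity)]
    exact v1
  have herr1 : (1 - PK) ^ (N ^ 3) ≤ 1 / 4 := by
    have h1 : 1 - PK ≤ Real.exp (-PK) := by
      have := Real.add_one_le_exp (-PK); linarith
    calc (1 - PK) ^ (N ^ 3) ≤ Real.exp (-PK) ^ (N ^ 3) := pow_le_pow_left₀ (by linarith) h1 _
      _ = Real.exp (-(PK * (N : ℝ) ^ 3)) := by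
          rw [← Real.exp_nat_mul]; congr 1; push_cast; ring
      _ ≤ Real.exp (-2) := Real.exp_le_exp.2 (by linarith)
      _ ≤ 1 / 4 := by
          have h2 : Real.exp 2 = Real.exp 1 ^ 2 := by rw [← Real.exp_nat_mul]; norm_num
          have h3 : (2:ℝ) ≤ Real.exp 1 := by have := Real.add_one_le_exp (1:ℝ); linarith
          rw [Real.exp_neg, inv_eq_one_div]
          apply one_div_le_one_div_of_le (by norm_num)
          rw [h2]; nlinarith
  have herr2 : 3 * (n : ℝ) ^ 3 * (1 - p) ^ (K * K) ≤ 1 / 4 := by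
    refine le_trans ?_ v2
    have h1 : (n : ℝ) ^ 3 = Real.exp (3 * Real.log n) := by
      rw [show 3 * Real.log n = ((3 : ℕ) : ℝ) * Real.log n by norm_num, Real.exp_nat_mul, Real.exp_log hn0]
    rw [h1, ← hq, ← Real.exp_nat_mul, mul_assoc, ← Real.exp_add]
    apply mul_le_mul_of_nonneg_left _ (by norm_num)
    apply Real.exp_le_exp.2
    have h2 : m ^ 4 ≤ ((K * K : ℕ) : ℝ) * q := by
      push_cast
      have h3 : m ^ 3 * m ^ 3 ≤ (K : ℝ) * K := mul_le_mul hK1 hK1 (by positivity) hKpos.le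
      calc m ^ 4 = (m ^ 3 * m ^ 3) * q := by rw [hqe]; field_simp
        _ ≤ _ := mul_le_mul_of_nonneg_right h3 hq0.le
    linarith
  linarith

end Pool.Agent.H97.BP
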