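import Pool.Agent.H97.BP.Sigma2

/-!
# From spanned cubes of moderate size to the whole cube
-/

set_option autoImplicit false

namespace Pool.Agent.H97.BP

open Finset H974

theorem Closed2_shift {S : Set Pt} (hS : Closed2 S) (v : Pt) : Closed2 {x | x + v ∈ S} := by
  intro y u u' hu hu' hne h1 h2
  have hadj : ∀ a b : Pt, Adj a b → Adj (a + v) (b + v) := by
    intro a b h
    unfold Adj at *
    rw [← h]
    apply Finset.sum_congr rfl
    intro i _
    show ((a i + v i) - (b i + v i)).natAbs = _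
    congr 1
    ring
  exact hS (y + v) (u + v) (u' + v) hu hu' (fun h => hne (add_right_cancel h)) (hadj _ _ h1) (hadj _ _ h2)

/-- the shift -/
def shf (v : Pt) : Pt ↪ Pt := ⟨fun x => x + v, fun _ _ h => add_right_cancel h⟩

theorem Spn_shift {a b v : Pt} {F : Finset Pt} (h : Spn a b F) : Spn (a + v) (b + v) (F.map (shf v)) := by
  intro x hx S hS hc
  have h1 : x - v ∈ Set.Icc a b := ⟨le_sub_iff_add_le.2 hx.1, sub_le_iff_le_add.2 hx.2⟩
  have h2 := h h1 {x | x + v ∈ S} (by
    rintro y ⟨hy, hy'⟩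
    apply hS
    refine ⟨?_, add_le_add_left hy'.1 v, add_le_add_left hy'.2 v⟩
    exact Finset.mem_coe.2 (Finset.mem_map.2 ⟨y, hy, rfl⟩)) (Closed2_shift hc v)
  have h3 : x - v + v ∈ S := h2
  rwa [sub_add_cancel] at h3

theorem uu_shift_le {p : ℝ} (hp0 : 0 ≤ p) (hp1 : p ≤ 1) (a b v : Pt) : uu p a b ≤ uu p (a + v) (b + v) := by
  have hmap : (Finset.Icc a b).map (shf v) = Finset.Icc (a + v) (b + v) := by
    ext x
    rw [Finset.mem_map, Finset.mem_Icc]
    constructor
    · rintro ⟨y, hy, rfl⟩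
      rw [Finset.mem_Icc] at hy
      exact ⟨add_le_add_left hy.1 v, add_le_add_left hy.2 v⟩
    · rintro ⟨h1, h2⟩
      refine ⟨x - v, Finset.mem_Icc.2 ⟨le_sub_iff_add_le.2 h1, sub_le_iff_le_add.2 h2⟩, ?_⟩
      show x - v + v = x
      exact sub_add_cancel x v
  unfold uu
  rw [← hmap, Pr_map]
  exact Pr_mono (okc hp0 hp1) (fun F _ h => Spn_shift h)

/-- the plates -/
noncomputable def Pl (K : ℕ) (i : Fin 3) (v : Pt) : Finset Pt :=
  Finset.Icc v (fun j => if j = i then v i else v j + K - 1)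

theorem card_Pl {K : ℕ} (i : Fin 3) (v : Pt) : (Pl K i v).card = K * K := by
  unfold Pl
  rw [Pi.card_Icc, ← Finset.mul_prod_erase _ _ (mem_univ i)]
  have h1 : ∏ j ∈ univ.erase i, (Finset.Icc (v j) (if j = i then v i else v j + K - 1)).card
      = ∏ _j ∈ univ.erase i, K := by
    apply Finset.prod_congr rfl
    intro j hj
    rw [if_neg (Finset.ne_of_mem_erase hj), Int.card_Icc]
    omega
  rw [h1, Finset.prod_const, Finset.card_erase_of_mem (mem_univ i), Finset.card_univ, Fintype.card_fin]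
  simp
  ring

theorem mem_Pl {K : ℕ} {i : Fin 3} {v x : Pt} : x ∈ Pl K i v ↔
    x i = v i ∧ ∀ j, j ≠ i → v j ≤ x j ∧ x j ≤ v j + K - 1 := by
  unfold Pl
  rw [Finset.mem_Icc]
  constructor
  · rintro ⟨h1, h2⟩
    refine ⟨?_, ?_⟩
    · have g1 : v i ≤ x i := h1 i
      have g2 : x i ≤ if i = i then v i else v i + K - 1 := h2 i
      rw [if_pos rfl] at g2
      omega
    · intro j hj
      have g1 : v j ≤ x j := h1 j
      have g2 : x j ≤ if j = i then v i else v j + K - 1 := h2 j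
      rw [if_neg hj] at g2
      exact ⟨g1, g2⟩
  · rintro ⟨h1, h2⟩
    constructor
    · intro j
      by_cases hj : j = i
      · rw [hj, h1]
      · exact (h2 j hj).1
    · intro j
      show x j ≤ if j = i then v i else v j + K - 1
      by_cases hj : j = i
      · rw [if_pos hj, hj, h1]
      · rw [if_neg hj]; exact (h2 j hj).2

theorem perc_lb {p : ℝ} (hp0 : 0 ≤ p) (hp1 : p ≤ 1) {n K N : ℕ} (hK1 : 1 ≤ K) (hN : K * N ≤ n) :
    1 - (1 - uu p (1 : Pt) (fun _ => (K : ℤ))) ^ (N ^ 3) - 3 * (n : ℝ) ^ 3 * (1 - p) ^ (K * K)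
      ≤ uu p (1 : Pt) (fun _ => (n : ℤ)) := by
  classical
  have hok := okc (E := Pt) hp0 hp1
  set S := Finset.Icc (1 : Pt) (fun _ => (n : ℤ)) with hS
  -- the small cubes
  set V : Finset Pt := Finset.Icc (0 : Pt) (fun _ => (N : ℤ) - 1) with hV
  have hVc : V.card = N ^ 3 := by
    rw [hV, Pi.card_Icc]
    have : ∀ i : Fin 3, (Finset.Icc ((0 : Pt) i) ((N : ℤ) - 1)).card = N := by
      intro i
      rw [Int.card_Icc]
      show ((N : ℤ) - 1 + 1 - 0).toNat = N
      omega
    rw [Finset.prod_congr rfl (fun i _ => this i), Finset.prod_const, Finset.card_univ, Fintype.card_fin]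
  set lo : Pt → Pt := fun v => 1 + (fun i => (K : ℤ) * v i) with hlo
  set hi : Pt → Pt := fun v => (fun _ => (K : ℤ)) + (fun i => (K : ℤ) * v i) with hhi
  have hloi : ∀ v i, lo v i = 1 + (K : ℤ) * v i := fun _ _ => rfl
  have hhii : ∀ v i, hi v i = (K : ℤ) + (K : ℤ) * v i := fun _ _ => rfl
  have hvr : ∀ v ∈ V, ∀ i, 0 ≤ v i ∧ v i ≤ (N : ℤ) - 1 := by
    intro v hv i
    rw [hV, Finset.mem_Icc] at hv
    exact ⟨hv.1 i, hv.2 i⟩
  have hKN : (K : ℤ) * N ≤ n := by exact_mod_cast hN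
  have hQS : ∀ v ∈ V, Finset.Icc (lo v) (hi v) ⊆ S := by
    intro v hv
    apply Finset.Icc_subset_Icc
    · intro i
      have h1 := hvr v hv i
      have h2 : 0 ≤ (K : ℤ) * v i := mul_nonneg (by positivity) h1.1
      show (1:ℤ) ≤ 1 + (K : ℤ) * v i
      omega
    · intro i
      have h1 := hvr v hv i
      have h2 : (K : ℤ) * v i ≤ K * (N - 1) := mul_le_mul_of_nonneg_left h1.2 (by positivity)
      show (K : ℤ) + (K : ℤ) * v i ≤ n
      have h3 : (K : ℤ) * (N - 1) = K * N - K := by ring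
      omega
  have hQd : ∀ v ∈ V, ∀ v' ∈ V, v ≠ v' → Disjoint (Finset.Icc (lo v) (hi v)) (Finset.Icc (lo v') (hi v')) := by
    intro v _ v' _ hne
    rw [Finset.disjoint_left]
    intro x hx hx'
    apply hne
    funext i
    rw [Finset.mem_Icc] at hx hx'
    have a1 : 1 + (K : ℤ) * v i ≤ x i := hx.1 i
    have a2 : x i ≤ (K : ℤ) + (K : ℤ) * v i := hx.2 i
    have a3 : 1 + (K : ℤ) * v' i ≤ x i := hx'.1 i
    have a4 : x i ≤ (K : ℤ) + (K : ℤ) * v' i := hx'.2 i
    have hKp : (0:ℤ) < K := by exact_mod_cast hK1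
    by_contra hc
    rcases lt_or_gt_of_ne hc with h | h
    · have : (K : ℤ) * (v i + 1) ≤ K * v' i := mul_le_mul_of_nonneg_left h hKp.le
      have e : (K : ℤ) * (v i + 1) = K * v i + K := by ring
      omega
    · have : (K : ℤ) * (v' i + 1) ≤ K * v i := mul_le_mul_of_nonneg_left h hKp.le
      have e : (K : ℤ) * (v' i + 1) = K * v' i + K := by ring
      omega
  set PK := uu p (1 : Pt) (fun _ => (K : ℤ)) with hPK
  have hPK1 : PK ≤ 1 := Pr_le_one hok _ _
  -- no spanned cube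
  have hnone : Pr (fun _ => p) S (fun F => ∀ v ∈ V, ¬ Spn (lo v) (hi v) F) ≤ (1 - PK) ^ (N ^ 3) := by
    rw [Pr_forall V (fun v => Finset.Icc (lo v) (hi v)) (fun v F => ¬ Spn (lo v) (hi v) F) hQS hQd
      (fun v _ F _ => not_congr (Spn_local F _ (Finset.Subset.refl _)))]
    rw [← hVc, ← Finset.prod_const]
    apply Finset.prod_le_prod
    · intro v _; exact Pr_nonneg hok _ _
    · intro v hv
      rw [Pr_not, uu_eq (hQS v hv)]
      have := uu_shift_le hp0 hp1 (1 : Pt) (fun _ => (K : ℤ)) (fun i => (K : ℤ) * v i)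
      show 1 - uu p (lo v) (hi v) ≤ 1 - PK
      linarith
  -- an empty plate
  set I : Finset (Fin 3 × Pt) := (univ ×ˢ S).filter (fun c => ∀ j, j ≠ c.1 → c.2 j + K - 1 ≤ n) with hI
  have hPS : ∀ c ∈ I, Pl K c.1 c.2 ⊆ S := by
    rintro ⟨i, v⟩ hc x hx
    rw [hI, Finset.mem_filter, Finset.mem_product, hS, Finset.mem_Icc] at hc
    obtain ⟨⟨-, h1, h2⟩, h3⟩ := hc
    rw [mem_Pl] at hx
    rw [hS, Finset.mem_Icc]
    simp only at h1 h2 h3 hx
    constructor
    · intro j
      have g1 : (1:ℤ) ≤ v j := h1 j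
      by_cases hj : j = i
      · rw [hj, hx.1]; exact h1 i
      · have := hx.2 j hj
        show (1:ℤ) ≤ x j
        omega
    · intro j
      by_cases hj : j = i
      · rw [hj, hx.1]; exact h2 i
      · have := hx.2 j hj
        have := h3 j hj
        show x j ≤ n
        omega
  have hempty : Pr (fun _ => p) S (fun F => ∃ c ∈ I, F ∩ Pl K c.1 c.2 = ∅) ≤ 3 * (n : ℝ) ^ 3 * (1 - p) ^ (K * K) := by
    refine (Pr_exists_le hok _ _ _).trans ?_
    have h1 : ∀ c ∈ I, Pr (fun _ => p) S (fun F => F ∩ Pl K c.1 c.2 = ∅) = (1 - p) ^ (K * K) := by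
      intro c hc
      rw [Pr_empty_inter p (hPS c hc), card_Pl]
    rw [Finset.sum_congr rfl h1, Finset.sum_const, nsmul_eq_mul]
    apply mul_le_mul_of_nonneg_right _ (pow_nonneg (by linarith) _)
    have h2 : I.card ≤ 3 * n ^ 3 := by
      refine (Finset.card_filter_le _ _).trans ?_
      rw [Finset.card_product, Finset.card_univ, Fintype.card_fin, hS, Pi.card_Icc]
      apply Nat.mul_le_mul_left
      have : ∀ i : Fin 3, (Finset.Icc ((1 : Pt) i) ((n : ℤ))).card = n := by
        intro i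
        rw [Int.card_Icc]
        show ((n : ℤ) + 1 - 1).toNat = n
        omega
      rw [Finset.prod_congr rfl (fun i _ => this i), Finset.prod_const, Finset.card_univ, Fintype.card_fin]
    exact_mod_cast h2
  -- the complement
  have hcompl : Pr (fun _ => p) S (fun F => ¬ Spn (1 : Pt) (fun _ => (n : ℤ)) F)
      ≤ Pr (fun _ => p) S (fun F => (∀ v ∈ V, ¬ Spn (lo v) (hi v) F) ∨ (∃ c ∈ I, F ∩ Pl K c.1 c.2 = ∅)) := by
    apply Pr_mono hok
    intro F hF hnot
    by_contra hcon
    push Not at hcon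
    obtain ⟨⟨v, hv, hspn⟩, hpl⟩ := hcon
    apply hnot
    have hFs : (F : Set Pt) ∩ Set.Icc (1 : Pt) (fun _ => (n : ℤ)) = F := by
      apply Set.inter_eq_left.2
      intro x hx
      exact Finset.mem_Icc.1 (hF hx)
    unfold Spn
    rw [hFs]
    have hsub := subset_Cl (F : Set Pt)
    have hvr' := hvr v hv
    refine plate_growth (Cl_closed _) hK1 (u := lo v) ?_ ?_ ?_ ?_
    · intro i
      have h2 : 0 ≤ (K : ℤ) * v i := mul_nonneg (by positivity) (hvr' i).1
      rw [hloi]; omega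
    · intro i
      have h2 : (K : ℤ) * v i ≤ K * (N - 1) := mul_le_mul_of_nonneg_left (hvr' i).2 (by positivity)
      have h3 : (K : ℤ) * (N - 1) = K * N - K := by ring
      rw [hloi]; omega
    · have e1 : (fun i => lo v i + K - 1) = hi v := by
        funext i
        rw [hloi, hhii]; ring
      rw [e1]
      exact hspn.trans (Cl_mono Set.inter_subset_left)
    · intro i u hu1 hui huo
      have hmem : (i, u) ∈ I := by
        rw [hI, Finset.mem_filter, Finset.mem_product, hS, Finset.mem_Icc]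
        refine ⟨⟨mem_univ _, fun j => hu1 j, fun j => ?_⟩, huo⟩
        by_cases hj : j = i
        · rw [hj]; exact hui
        · have := huo j hj
          have hKp : (1:ℤ) ≤ K := by exact_mod_cast hK1
          show u j ≤ n
          omega
      obtain ⟨x, hx⟩ := hpl (i, u) hmem
      rw [Finset.mem_inter, mem_Pl] at hx
      exact ⟨x, hsub hx.1, hx.2⟩
  have hfin := hcompl.trans ((Pr_or_le hok _ _ _).trans (add_le_add hnone hempty))
  rw [Pr_not] at hfin
  have : Pr (fun _ => p) S (Spn (1 : Pt) (fun _ => (n : ℤ))) = uu p (1 : Pt) (fun _ => (n : ℤ)) := rfl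
  rw [this] at hfin
  linarith

end Pool.Agent.H97.BP
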