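import Pool.Agent.H97.BP.Cube
import Pool.Agent.H97.BP.PartA2

/-!
# Summing over the sets of double gaps
-/

set_option autoImplicit false

namespace Pool.Agent.H97.BP

open Finset H974

/-- positions of the gaps -/
def Dg (k0 w : ℕ) (σ : ℕ → ℕ) (n : ℕ) : Prop := ∃ t, σ t ≠ 0 ∧ n = k0 + w * t + σ t

/-- end of the window -/
def eg (k0 w : ℕ) (n : ℕ) : ℕ := k0 + w * ((n - k0 - 1) / w + 1) - 1

open Classical in
/-- the cap -/
noncomputable def capg (k0 w : ℕ) (σ : ℕ → ℕ) (n : ℕ) : ℕ :=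
  if k0 < n ∧ σ ((n - k0 - 1) / w) ≠ 0 then min (k0 + w * ((n - k0 - 1) / w)) (n - 2) else n - 2

theorem div_win {k0 w t v : ℕ} (hw : 0 < w) (hv1 : 1 ≤ v) (hvw : v ≤ w) :
    (k0 + w * t + v - k0 - 1) / w = t := by
  have : k0 + w * t + v - k0 - 1 = w * t + (v - 1) := by omega
  rw [this, Nat.mul_add_div hw, Nat.div_eq_of_lt (by omega), add_zero]

theorem win_unique {w t t' v v' : ℕ} (hv1 : 1 ≤ v) (hv1' : 1 ≤ v') (hvw : v ≤ w) (hvw' : v' ≤ w)
    (h : w * t + v = w * t' + v') : t = t' ∧ v = v' := by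
  have key : ∀ a b u u' : ℕ, 1 ≤ u → 1 ≤ u' → u ≤ w → u' ≤ w → w * a + u = w * b + u' → ¬ a < b := by
    intro a b u u' h1 h2 h3 h4 h5 hlt
    have : w * a + w ≤ w * b := by
      rw [← Nat.mul_succ]
      exact Nat.mul_le_mul_left w hlt
    omega
  have h1 := key t t' v v' hv1 hv1' hvw hvw' h
  have h2 := key t' t v' v hv1' hv1 hvw' hvw h.symm
  have : t = t' := by omega
  subst this
  exact ⟨rfl, by omega⟩

structure SigOk (k0 w T h K : ℕ) (σ : ℕ → ℕ) : Prop where
  hk0 : 3 ≤ k0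
  hhw : h + 3 ≤ w
  hσ : ∀ t, σ t ≤ h
  hT : ∀ t, T ≤ t → σ t = 0
  hK : k0 + w * T ≤ K

section

variable {k0 w T h K : ℕ} {σ : ℕ → ℕ}

theorem SigOk.win (hs : SigOk k0 w T h K σ) {t : ℕ} (ht : σ t ≠ 0) : w * t + w ≤ w * T := by
  have : t < T := by
    by_contra hc
    exact ht (hs.hT t (by omega))
  rw [← Nat.mul_succ]
  exact Nat.mul_le_mul_left w this

theorem eg_eq (hs : SigOk k0 w T h K σ) {t : ℕ} (ht : σ t ≠ 0) :
    eg k0 w (k0 + w * t + σ t) = k0 + w * t + w - 1 := by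
  unfold eg
  have h1 := hs.hσ t
  have h2 := hs.hhw
  rw [div_win (by omega) (by omega) (by omega), Nat.mul_add, Nat.mul_one]
  omega

theorem good_sig (hs : SigOk k0 w T h K σ) : Good (Dg k0 w σ) (eg k0 w) (capg k0 w σ) K where
  h3K := by have := hs.hk0; have := hs.hK; omega
  D3 := by
    rintro j ⟨t, ht, rfl⟩
    have := hs.hk0
    omega
  DK := by
    rintro j ⟨t, ht, rfl⟩
    have h1 := hs.win ht
    have h2 := hs.hσ t
    have h3 := hs.hhw
    have h4 := hs.hK
    omega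
  Ds := by
    rintro j j' ⟨t, ht, rfl⟩ ⟨t', ht', rfl⟩ hlt
    have h1 := hs.hσ t
    have h2 := hs.hσ t'
    have h3 := hs.hhw
    rcases Nat.lt_trichotomy t t' with h4 | h4 | h4
    · have : w * t + w ≤ w * t' := by
        rw [← Nat.mul_succ]; exact Nat.mul_le_mul_left w h4
      omega
    · subst h4; omega
    · have : w * t' + w ≤ w * t := by
        rw [← Nat.mul_succ]; exact Nat.mul_le_mul_left w h4
      omega
  eK := by
    rintro j ⟨t, ht, rfl⟩
    rw [eg_eq hs ht]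
    have h1 := hs.win ht
    have h4 := hs.hK
    omega
  cap2 := by
    intro j hj
    unfold capg
    split_ifs
    · omega
    · omega
  capD := by
    rintro n0 ⟨t, ht, rfl⟩ n hn hne
    rw [eg_eq hs ht] at hne
    have h1 := hs.hσ t
    have h3 := hs.hhw
    obtain ⟨v, rfl⟩ : ∃ v, n = k0 + w * t + v := ⟨n - (k0 + w * t), by omega⟩
    unfold capg
    have hd : (k0 + w * t + v - k0 - 1) / w = t := div_win (by omega) (by omega) (by omega)
    rw [hd]
    split_ifs with hc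
    · omega
    · exact absurd ⟨by omega, ht⟩ hc

open Classical in
/-- the number of gaps -/
noncomputable def NN (T : ℕ) (σ : ℕ → ℕ) : ℕ := ((range T).filter (fun t => σ t ≠ 0)).card

theorem cnt_le (hs : SigOk k0 w T h K σ) : cnt (Dg k0 w σ) 3 K ≤ NN T σ := by
  classical
  unfold cnt NN
  refine le_trans (Finset.card_le_card (t := ((range T).filter (fun t => σ t ≠ 0)).image (fun t => k0 + w * t + σ t)) ?_)
    Finset.card_image_le
  intro n hn
  simp only [Finset.mem_filter] at hn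
  obtain ⟨-, t, ht, rfl⟩ := hn
  rw [Finset.mem_image]
  refine ⟨t, ?_, rfl⟩
  rw [Finset.mem_filter, Finset.mem_range]
  refine ⟨?_, ht⟩
  by_contra hc
  exact ht (hs.hT t (by omega))

theorem capg_mono (j : ℕ) (hj : 3 ≤ j) :
    capg k0 w σ j * (j - 2) ≤ capg k0 w σ (j + 1) * (j + 1 - 2) := by
  apply Nat.mul_le_mul _ (by omega)
  unfold capg
  by_cases hw : w = 0
  · subst hw
    simp only [Nat.div_zero, Nat.zero_mul, Nat.add_zero]
    split_ifs with h1 h2 h2
    · omega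
    · omega
    · have : ¬ k0 < j := fun hk => h1 ⟨hk, h2.2⟩
      omega
    · omega
  have hw' : 0 < w := Nat.pos_of_ne_zero hw
  have hdj : w * ((j - k0 - 1) / w) ≤ j - k0 - 1 := Nat.mul_div_le _ _
  have hdj1 : w * ((j + 1 - k0 - 1) / w) ≤ j + 1 - k0 - 1 := Nat.mul_div_le _ _
  have hmono : w * ((j - k0 - 1) / w) ≤ w * ((j + 1 - k0 - 1) / w) :=
    Nat.mul_le_mul_left w (Nat.div_le_div_right (by omega))
  split_ifs with h1 h2 h2
  · omega
  · omega
  · -- from an ordinary window to a gap window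
    by_cases hk : k0 < j
    · -- same window impossible
      have hne : (j - k0 - 1) / w ≠ (j + 1 - k0 - 1) / w := by
        intro he
        apply h1
        exact ⟨hk, by rw [he]; exact h2.2⟩
      have hlt : (j - k0 - 1) / w < (j + 1 - k0 - 1) / w := by
        have := Nat.div_le_div_right (c := w) (show j - k0 - 1 ≤ j + 1 - k0 - 1 by omega)
        omega
      have h5 : w * ((j - k0 - 1) / w) + w ≤ w * ((j + 1 - k0 - 1) / w) := by
        rw [← Nat.mul_succ]; exact Nat.mul_le_mul_left w hlt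
      have h6 := Nat.div_add_mod (j - k0 - 1) w
      have h7 := Nat.mod_lt (j - k0 - 1) hw'
      omega
    · omega
  · omega

end

/-! ### Analytic bounds -/

theorem prod_be (s : Finset ℕ) (z : ℕ → ℝ) : ∏ j ∈ s, be (z j) = Real.exp (-∑ j ∈ s, gr (z j)) := by
  unfold be
  rw [← Real.exp_sum, Finset.sum_neg_distrib]

theorem sum_z0_le {q : ℝ} (hq : 0 < q) {K : ℕ} (hK : 3 ≤ K) :
    ∑ j ∈ Finset.Icc 3 K, gr (q * (((j - 2) * (j - 2) : ℕ) : ℝ)) ≤ lam0 / Real.sqrt q := by
  refine le_trans (le_of_eq ?_) (sum_gr_le hq (K - 2))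
  have h1 : Finset.Icc 3 K = (range (K - 2)).image (fun i => i + 3) := by
    ext x
    simp only [Finset.mem_Icc, Finset.mem_image, Finset.mem_range]
    constructor
    · intro h; exact ⟨x - 3, by omega, by omega⟩
    · rintro ⟨y, h2, rfl⟩; omega
  rw [h1, Finset.sum_image (fun a _ b _ h => by simpa using h)]
  apply Finset.sum_congr rfl
  intro i _
  have h2 : i + 3 - 2 = i + 1 := by omega
  rw [h2]
  push_cast
  ring_nf

theorem fo_ge_half {x : ℝ} (h0 : 0 ≤ x) (h1 : x ≤ 1) : x / 2 ≤ fo x := by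
  unfold fo
  have h2 : Real.exp (-x) ≤ 1 / (1 + x) := by
    rw [Real.exp_neg, ← one_div]
    apply one_div_le_one_div_of_le (by linarith)
    have := Real.add_one_le_exp x
    linarith
  have h3 : 1 / (1 + x) ≤ 1 - x / 2 := by
    rw [div_le_iff₀ (by linarith)]
    nlinarith
  linarith

theorem capg_ge {k0 w : ℕ} {σ : ℕ → ℕ} {j : ℕ} (hj : k0 ≤ j) (hj2 : 2 ≤ k0) : k0 - 2 ≤ capg k0 w σ j := by
  unfold capg
  split_ifs
  · omega
  · omega

/-- the total loss in the two other directions -/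
theorem loss_le {q m : ℝ} {k0 w T h K : ℕ} {σ : ℕ → ℕ} (hs : SigOk k0 w T h K σ) (hq0 : 0 < q)
    (hm : 4 ≤ m) (hqm : q * m ^ 2 = 1) (hk0 : m ≤ k0) (hk0' : (k0 : ℝ) ≤ m + 1)
    (hwT : ((w * T : ℕ) : ℝ) ≤ m) (hww : (w : ℝ) * w ≤ m) :
    ∑ j ∈ Finset.Icc 3 K, gr (q * ((capg k0 w σ j * (j - 2) : ℕ) : ℝ))
      ≤ ∑ j ∈ Finset.Icc 3 K, gr (q * (((j - 2) * (j - 2) : ℕ) : ℝ))
        + (NN T σ) * (3 * dg (rr (1 / 4))) := by
  classical
  have hLip : 0 ≤ dg (rr (1 / 4)) := dg_nonneg (one_lt_rr (by norm_num)).le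
  have hm0 : 0 < m := by linarith
  set Bad := (Finset.Icc 3 K).filter (fun j => capg k0 w σ j ≠ j - 2) with hBad
  -- positions which are capped
  have hbad : ∀ j, capg k0 w σ j ≠ j - 2 → ∃ t v, σ t ≠ 0 ∧ 1 ≤ v ∧ v ≤ w ∧ j = k0 + w * t + v ∧
      capg k0 w σ j = k0 + w * t := by
    intro j hj
    unfold capg at hj ⊢
    split_ifs at hj ⊢ with hc
    · have hw' : 0 < w := by have := hs.hhw; omega
      have h6 := Nat.div_add_mod (j - k0 - 1) w
      have h7 := Nat.mod_lt (j - k0 - 1) hw'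
      refine ⟨(j - k0 - 1) / w, (j - k0 - 1) % w + 1, hc.2, by omega, by omega, by omega, ?_⟩
      omega
    · exact absurd rfl hj
  have hcard : (Bad.card : ℝ) ≤ (NN T σ) * w := by
    have : Bad.card ≤ NN T σ * w := by
      unfold NN
      have e1 : Bad ⊆ (((range T).filter (fun t => σ t ≠ 0)) ×ˢ (Finset.Icc 1 w)).image (fun c => k0 + w * c.1 + c.2) := by
        intro j hj
        rw [hBad, Finset.mem_filter] at hj
        obtain ⟨t, v, g1, g2, g3, g4, -⟩ := hbad j hj.2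
        rw [Finset.mem_image]
        refine ⟨(t, v), ?_, g4.symm⟩
        rw [Finset.mem_product, Finset.mem_filter, Finset.mem_range, Finset.mem_Icc]
        refine ⟨⟨?_, g1⟩, g2, g3⟩
        by_contra hc
        exact g1 (hs.hT t (by simpa using hc))
      refine (Finset.card_le_card e1).trans (Finset.card_image_le.trans ?_)
      rw [Finset.card_product, Nat.card_Icc]
      simp
    exact_mod_cast this
  have hone : ∀ j ∈ Finset.Icc 3 K, gr (q * ((capg k0 w σ j * (j - 2) : ℕ) : ℝ))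
      - gr (q * (((j - 2) * (j - 2) : ℕ) : ℝ)) ≤ if j ∈ Bad then dg (rr (1 / 4)) * (3 * w / m) else 0 := by
    intro j hj
    by_cases hjb : j ∈ Bad
    · rw [if_pos hjb]
      rw [hBad, Finset.mem_filter] at hjb
      obtain ⟨t, v, g1, g2, g3, g4, g5⟩ := hbad j hjb.2
      have hwin := hs.win g1
      rw [g5]
      have hjr : (j : ℝ) ≤ 3 * m := by
        have : j ≤ k0 + w * T := by omega
        have : (j : ℝ) ≤ k0 + ((w * T : ℕ) : ℝ) := by exact_mod_cast this
        linarith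
      have hwt : k0 + w * t < j := by omega
      -- real versions
      have hj2 : ((j - 2 : ℕ) : ℝ) = (j : ℝ) - 2 := by
        rw [Nat.cast_sub (by have := hs.hk0; omega)]; norm_num
      have hjlow : m - 2 ≤ (j : ℝ) - 2 := by
        have : (k0 : ℝ) ≤ j := by exact_mod_cast (by omega : k0 ≤ j)
        linarith
      have hA1 : m / 2 ≤ ((j - 2 : ℕ) : ℝ) := by rw [hj2]; linarith
      have hA2 : m / 2 ≤ ((k0 + w * t : ℕ) : ℝ) := by
        have : (k0 : ℝ) ≤ ((k0 + w * t : ℕ) : ℝ) := by exact_mod_cast (by omega : k0 ≤ k0 + w * t)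
        linarith
      have hA3 : ((k0 + w * t : ℕ) : ℝ) * ((j - 2 : ℕ) : ℝ) ≥ (m / 2) * (m / 2) :=
        mul_le_mul hA2 hA1 (by positivity) (by positivity)
      have hz1 : 1 / 4 ≤ q * (((k0 + w * t) * (j - 2) : ℕ) : ℝ) := by
        rw [Nat.cast_mul]
        calc (1:ℝ) / 4 = (q * m ^ 2) * (1 / 4) := by rw [hqm]; ring
          _ = q * ((m / 2) * (m / 2)) := by ring
          _ ≤ _ := mul_le_mul_of_nonneg_left hA3 hq0.le
      have hcle : k0 + w * t ≤ j - 2 := by
        have h8 := (good_sig hs).cap2 j (by have := hs.hk0; omega)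
        rw [g5] at h8
        omega
      have hz2 : q * (((k0 + w * t) * (j - 2) : ℕ) : ℝ) ≤ q * (((j - 2) * (j - 2) : ℕ) : ℝ) := by
        apply mul_le_mul_of_nonneg_left _ hq0.le
        exact_mod_cast Nat.mul_le_mul_right _ hcle
      have h9 := gr_lip (Z := 1 / 4) (by norm_num) hz1 hz2
      refine h9.trans ?_
      apply mul_le_mul_of_nonneg_left _ hLip
      rw [← mul_sub, Nat.cast_mul, Nat.cast_mul, ← sub_mul]
      have h10 : ((j - 2 : ℕ) : ℝ) - ((k0 + w * t : ℕ) : ℝ) ≤ w := by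
        have : j - 2 ≤ k0 + w * t + w := by omega
        have : ((j - 2 : ℕ) : ℝ) ≤ ((k0 + w * t : ℕ) : ℝ) + w := by exact_mod_cast this
        linarith
      have h11 : ((j - 2 : ℕ) : ℝ) ≤ 3 * m := by rw [hj2]; linarith
      have h12 : (((j - 2 : ℕ) : ℝ) - ((k0 + w * t : ℕ) : ℝ)) * ((j - 2 : ℕ) : ℝ) ≤ w * (3 * m) := by
        apply mul_le_mul h10 h11 (by positivity) (by positivity)
      calc q * ((((j - 2 : ℕ) : ℝ) - ((k0 + w * t : ℕ) : ℝ)) * ((j - 2 : ℕ) : ℝ)) ≤ q * (w * (3 * m)) :=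
            mul_le_mul_of_nonneg_left h12 hq0.le
        _ = (q * m ^ 2) * (3 * w / m) := by field_simp
        _ = 3 * w / m := by rw [hqm, one_mul]
    · rw [if_neg hjb]
      have : capg k0 w σ j = j - 2 := by
        by_contra hc
        exact hjb (by rw [hBad, Finset.mem_filter]; exact ⟨hj, hc⟩)
      rw [this]; simp
  have hsum := Finset.sum_le_sum hone
  rw [Finset.sum_sub_distrib, ← Finset.sum_filter] at hsum
  have e2 : (Finset.Icc 3 K).filter (fun j => j ∈ Bad) = Bad := by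
    rw [hBad]
    ext j
    simp only [Finset.mem_filter, Finset.mem_Icc]
    tauto
  rw [e2, Finset.sum_const, nsmul_eq_mul] at hsum
  have h13 : (Bad.card : ℝ) * (dg (rr (1 / 4)) * (3 * w / m)) ≤ (NN T σ) * (3 * dg (rr (1 / 4))) := by
    have h14 : 0 ≤ dg (rr (1 / 4)) * (3 * w / m) := by positivity
    calc (Bad.card : ℝ) * (dg (rr (1 / 4)) * (3 * w / m)) ≤ ((NN T σ) * w) * (dg (rr (1 / 4)) * (3 * w / m)) :=
          mul_le_mul_of_nonneg_right hcard h14
      _ = (NN T σ) * (3 * dg (rr (1 / 4))) * ((w * w) / m) := by field_simp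
      _ ≤ (NN T σ) * (3 * dg (rr (1 / 4))) * 1 := by
          apply mul_le_mul_of_nonneg_left _ (by positivity)
          rw [div_le_one hm0]; exact hww
      _ = _ := by ring
  linarith

end Pool.Agent.H97.BP
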