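import Pool.Agent.H97.BP.Sigma

/-!
# The lower bound for the probability that a cube is spanned
-/

set_option autoImplicit false

namespace Pool.Agent.H97.BP

open Finset H974

/-- constant in the weight of a gap -/
noncomputable def c1 : ℝ := fo (1 / 4) ^ 2 * Real.exp (-18) / 4

theorem c1_pos : 0 < c1 := by
  unfold c1
  have := fo_pos (show (0:ℝ) < 1 / 4 by norm_num)
  positivity

theorem one_sub_fo (z : ℝ) : 1 - fo z = Real.exp (-z) := by unfold fo; ring

theorem cap_end {k0 w T h K : ℕ} {σ : ℕ → ℕ} (hs : SigOk k0 w T h K σ) (hK1 : k0 + w * T + 1 ≤ K) :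
    capg k0 w σ K = K - 2 := by
  unfold capg
  rw [if_neg]
  rintro ⟨h1, h2⟩
  apply h2
  apply hs.hT
  rw [Nat.le_div_iff_mul_le (by have := hs.hhw; omega), Nat.mul_comm]
  omega

theorem dir_lb {p q m : ℝ} {k0 w T h K : ℕ} {σ : ℕ → ℕ} (hs : SigOk k0 w T h K σ)
    (hp0 : 0 ≤ p) (hp1 : p ≤ 1) (hq0 : 0 < q) (hq : Real.exp (-q) = 1 - p)
    (hm : 4 ≤ m) (hqm : q * m ^ 2 = 1) (hk0 : m ≤ k0) (hk0' : (k0 : ℝ) ≤ m + 1)
    (hwT : ((w * T : ℕ) : ℝ) ≤ m) (hww : (w : ℝ) * w ≤ m) (hK1 : k0 + w * T + 1 ≤ K)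
    (hKm : m + 2 ≤ K) (B : ℕ → Finset Pt) (hBS : ∀ j, j ≤ K → B j ⊆ Finset.Icc (1 : Pt) (fun _ => (K : ℤ)))
    (hBd : ∀ i j, i ≠ j → Disjoint (B i) (B j))
    (hBc : ∀ j, 3 ≤ j → (B j).card = capg k0 w σ j * (j - 2)) :
    (1 / 2) * Real.exp (-(lam0 * m + (NN T σ) * (3 * dg (rr (1 / 4)))))
      ≤ Pr (fun _ => p) (Finset.Icc (1 : Pt) (fun _ => (K : ℤ))) (Suf B NoY NoD K 3) := by
  have h3K : 3 ≤ K := (good_sig hs).h3K
  have hm0 : 0 < m := by linarith
  have hk03 := hs.hk0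
  have hsq : Real.sqrt q = 1 / m := by
    have hqe : q = 1 / m ^ 2 := by field_simp; exact hqm
    rw [hqe, Real.sqrt_div zero_le_one, Real.sqrt_one, Real.sqrt_sq hm0.le]
  have hcap1 : ∀ j, 3 ≤ j → 1 ≤ capg k0 w σ j := by
    intro j hj
    unfold capg
    split_ifs <;> omega
  have hK2 : (((K - 2 : ℕ)) : ℝ) = (K : ℝ) - 2 := by
    rw [Nat.cast_sub (by omega)]; norm_num
  have hfK : (1:ℝ) / 2 ≤ fo (q * (B K).card) := by
    rw [hBc K h3K, cap_end hs hK1]
    have h1 : (1:ℝ) ≤ q * (((K - 2) * (K - 2) : ℕ) : ℝ) := by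
      rw [Nat.cast_mul, hK2]
      have h2 : m * m ≤ ((K : ℝ) - 2) * ((K : ℝ) - 2) :=
        mul_le_mul (by linarith) (by linarith) hm0.le (by linarith)
      calc (1:ℝ) = q * (m * m) := by rw [← hqm]; ring
        _ ≤ _ := mul_le_mul_of_nonneg_left h2 hq0.le
    have h3 := fo_ge_half zero_le_one le_rfl
    exact h3.trans (fo_mono h1)
  have hb := suf_bound hp0 hp1 hq0 hq (S := Finset.Icc (1 : Pt) (fun _ => (K : ℤ))) (B := B) (Y := NoY)
    (Λ := B) (D := NoD) (K := K) (c := 1 / 2) (ρ := 0) hBS hBd (fun _ => Finset.Subset.refl _)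
    (fun _ h => h.elim) (fun _ h => h.elim) (fun _ h => h.elim) (fun _ _ h => h.elim)
    (fun j => q * (B j).card) (fun _ => rfl) 3 (by
      intro j hj
      show 0 < q * ((B j).card : ℝ)
      rw [hBc j hj]
      have h1 := hcap1 j hj
      have : 1 ≤ capg k0 w σ j * (j - 2) := Nat.mul_pos h1 (by omega)
      have : (1:ℝ) ≤ ((capg k0 w σ j * (j - 2) : ℕ) : ℝ) := by exact_mod_cast this
      nlinarith) (by
      intro j hj
      show q * ((B j).card : ℝ) ≤ q * ((B (j+1)).card : ℝ)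
      rw [hBc j hj, hBc (j+1) (by omega)]
      apply mul_le_mul_of_nonneg_left _ hq0.le
      exact_mod_cast capg_mono j hj) (by norm_num) hfK le_rfl (fun _ h => h.elim) (K - 3) 3 (by omega) le_rfl
      (fun _ h => h.elim)
  have hc0 : cnt NoD 3 K = 0 := by
    unfold cnt NoD
    simp
  refine le_trans ?_ hb.1
  rw [hc0, pow_zero, mul_one, prod_be]
  apply mul_le_mul_of_nonneg_left _ (by norm_num)
  apply Real.exp_le_exp.2
  apply neg_le_neg
  have h1 : ∑ j ∈ Finset.Icc 3 K, gr (q * ((B j).card : ℝ))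
      = ∑ j ∈ Finset.Icc 3 K, gr (q * ((capg k0 w σ j * (j - 2) : ℕ) : ℝ)) := by
    apply Finset.sum_congr rfl
    intro j hj
    rw [hBc j (Finset.mem_Icc.1 hj).1]
  have h2 := loss_le hs hq0 hm hqm hk0 hk0' hwT hww
  have h3 := sum_z0_le hq0 h3K
  rw [hsq, div_div_eq_mul_div, div_one] at h3
  show ∑ j ∈ Finset.Icc 3 K, gr (q * ((B j).card : ℝ)) ≤ _
  rw [h1]
  linarith

theorem dir0_lb {p q m : ℝ} {k0 w T h K : ℕ} {σ : ℕ → ℕ} (hs : SigOk k0 w T h K σ)
    (hp0 : 0 ≤ p) (hp1 : p ≤ 1) (hq0 : 0 < q) (hq : Real.exp (-q) = 1 - p)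
    (hm : 4 ≤ m) (hqm : q * m ^ 2 = 1) (hk0 : m ≤ k0) (hk0' : (k0 : ℝ) ≤ m + 1)
    (hwT : ((w * T : ℕ) : ℝ) ≤ m) (hww : (w : ℝ) * w ≤ m) (hw8 : 8 ≤ w) (hh : 2 * h ≤ w)
    (hKm : m + 2 ≤ K) :
    (1 / 2) * Real.exp (-(lam0 * m)) * (c1 * w / m) ^ (NN T σ)
      ≤ Pr (fun _ => p) (Finset.Icc (1 : Pt) (fun _ => (K : ℤ))) (Suf B0 (Yy (eg k0 w)) (Dg k0 w σ) K 3) := by
  have hg := good_sig hs
  have h3K : 3 ≤ K := hg.h3K
  have hm0 : 0 < m := by linarith
  have hk03 := hs.hk0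
  have hsq : Real.sqrt q = 1 / m := by
    have hqe : q = 1 / m ^ 2 := by field_simp; exact hqm
    rw [hqe, Real.sqrt_div zero_le_one, Real.sqrt_one, Real.sqrt_sq hm0.le]
  have hK2 : (((K - 2 : ℕ)) : ℝ) = (K : ℝ) - 2 := by
    rw [Nat.cast_sub (by omega)]; norm_num
  have hfK : (1:ℝ) / 2 ≤ fo (q * (B0 K).card) := by
    rw [card_B0 K (by omega)]
    have h1 : (1:ℝ) ≤ q * (((K - 2) * (K - 2) : ℕ) : ℝ) := by
      rw [Nat.cast_mul, hK2]
      have h2 : m * m ≤ ((K : ℝ) - 2) * ((K : ℝ) - 2) :=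
        mul_le_mul (by linarith) (by linarith) hm0.le (by linarith)
      calc (1:ℝ) = q * (m * m) := by rw [← hqm]; ring
        _ ≤ _ := mul_le_mul_of_nonneg_left h2 hq0.le
    have h3 := fo_ge_half zero_le_one le_rfl
    exact h3.trans (fo_mono h1)
  have hw0 : (0:ℝ) < w := by exact_mod_cast (by omega : 0 < w)
  have hwm : (w : ℝ) ≤ m := by
    have : (1:ℝ) ≤ w := by exact_mod_cast (by omega : 1 ≤ w)
    nlinarith
  have hρ0 : 0 ≤ c1 * w / m := by have := c1_pos; positivity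
  have hf4 := fo_pos (show (0:ℝ) < 1 / 4 by norm_num)
  have hρ1 : c1 * w / m ≤ 1 := by
    have h1 : c1 ≤ 1 := by
      unfold c1
      have h2 := fo_lt_one (1 / 4)
      have h3 : Real.exp (-18) ≤ 1 := Real.exp_le_one_iff.2 (by norm_num)
      have h4 := Real.exp_pos (-18)
      have h5 : fo (1 / 4) ^ 2 ≤ 1 := pow_le_one₀ hf4.le h2.le
      nlinarith
    rw [div_le_one hm0]
    have := c1_pos
    nlinarith
  have hb := suf_bound hp0 hp1 hq0 hq (S := Finset.Icc (1 : Pt) (fun _ => (K : ℤ))) (B := B0)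
    (Y := Yy (eg k0 w)) (Λ := L0 (Dg k0 w σ) (eg k0 w)) (D := Dg k0 w σ) (K := K) (c := 1 / 2)
    (ρ := c1 * w / m) (fun j hj => L0_S hg j hj) L0_disj B0_L0 Yy_L0 (fun j _ => Yy_B0 j) hg.DK hg.Ds
    (fun j => q * (B0 j).card) (fun _ => rfl) 3 (by
      intro j hj
      show 0 < q * ((B0 j).card : ℝ)
      rw [card_B0 j (by omega)]
      have : 1 ≤ (j - 2) * (j - 2) := Nat.mul_pos (by omega) (by omega)
      have : (1:ℝ) ≤ (((j - 2) * (j - 2) : ℕ) : ℝ) := by exact_mod_cast this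
      nlinarith) (by
      intro j hj
      show q * ((B0 j).card : ℝ) ≤ q * ((B0 (j+1)).card : ℝ)
      rw [card_B0 j (by omega), card_B0 (j+1) (by omega)]
      apply mul_le_mul_of_nonneg_left _ hq0.le
      exact_mod_cast Nat.mul_le_mul (by omega) (by omega)) (by norm_num) hfK hρ0 (by
      rintro j ⟨t, ht, rfl⟩
      have hwin := hs.win ht
      have hσh := hs.hσ t
      obtain ⟨j, hj⟩ : ∃ j, j = k0 + w * t + σ t := ⟨_, rfl⟩
      rw [← hj]
      have hj1 : k0 ≤ j := by omega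
      have hj2 : j + 3 ≤ k0 + w * T := by have := hs.hhw; omega
      have hjr1 : m ≤ j := by
        have : (k0 : ℝ) ≤ j := by exact_mod_cast hj1
        linarith
      have hjr2 : (j : ℝ) + 3 ≤ 3 * m := by
        have : (j : ℝ) + 3 ≤ k0 + ((w * T : ℕ) : ℝ) := by exact_mod_cast hj2
        linarith
      -- z at a position i close to j
      have hzlow : ∀ i : ℕ, j ≤ i → 1 / 4 ≤ q * ((B0 i).card : ℝ) := by
        intro i hi
        rw [card_B0 i (by omega), Nat.cast_mul]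
        have h1 : m / 2 ≤ ((i - 2 : ℕ) : ℝ) := by
          rw [Nat.cast_sub (by omega)]
          have : (j : ℝ) ≤ i := by exact_mod_cast hi
          push_cast
          linarith
        have h2 : (m / 2) * (m / 2) ≤ ((i - 2 : ℕ) : ℝ) * ((i - 2 : ℕ) : ℝ) :=
          mul_le_mul h1 h1 (by positivity) (by positivity)
        calc (1:ℝ) / 4 = (q * m ^ 2) * (1 / 4) := by rw [hqm]; ring
          _ = q * ((m / 2) * (m / 2)) := by ring
          _ ≤ _ := mul_le_mul_of_nonneg_left h2 hq0.le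
      have hzhigh : ∀ i : ℕ, 2 ≤ i → i ≤ j + 2 → q * ((B0 i).card : ℝ) ≤ 9 := by
        intro i hi0 hi
        rw [card_B0 i hi0, Nat.cast_mul]
        have h1 : ((i - 2 : ℕ) : ℝ) ≤ 3 * m := by
          have : i - 2 ≤ j := by omega
          have : ((i - 2 : ℕ) : ℝ) ≤ j := by exact_mod_cast this
          linarith
        have h2 : ((i - 2 : ℕ) : ℝ) * ((i - 2 : ℕ) : ℝ) ≤ (3 * m) * (3 * m) :=
          mul_le_mul h1 h1 (by positivity) (by positivity)
        calc q * (((i - 2 : ℕ) : ℝ) * ((i - 2 : ℕ) : ℝ)) ≤ q * ((3 * m) * (3 * m)) :=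
              mul_le_mul_of_nonneg_left h2 hq0.le
          _ = (q * m ^ 2) * 9 := by ring
          _ = 9 := by rw [hqm]; ring
      have f1 : fo (1 / 4) ≤ fo (q * ((B0 j).card : ℝ)) := fo_mono (hzlow j le_rfl)
      have f4 : fo (1 / 4) ≤ fo (q * ((B0 (j + 3)).card : ℝ)) := fo_mono (hzlow (j + 3) (by omega))
      have f2 : Real.exp (-9) ≤ 1 - fo (q * ((B0 (j + 1)).card : ℝ)) := by
        rw [one_sub_fo]
        exact Real.exp_le_exp.2 (by have := hzhigh (j+1) (by omega) (by omega); linarith)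
      have f3 : Real.exp (-9) ≤ 1 - fo (q * ((B0 (j + 2)).card : ℝ)) := by
        rw [one_sub_fo]
        exact Real.exp_le_exp.2 (by have := hzhigh (j+2) (by omega) (by omega); linarith)
      have hej : eg k0 w j = k0 + w * t + w - 1 := by rw [hj]; exact eg_eq hs ht
      have fy : w / (4 * m) ≤ fo (q * ((Yy (eg k0 w) j).card : ℝ)) := by
        have hle : j ≤ eg k0 w j := by rw [hej]; omega
        rw [card_Yy _ _ hle]
        have h1 : w * j ≤ 2 * (eg k0 w j * eg k0 w j - j * j) := by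
          have h2 : w ≤ 4 * (eg k0 w j - j) := by rw [hej]; omega
          have h3 : eg k0 w j * eg k0 w j - j * j = (eg k0 w j + j) * (eg k0 w j - j) := Nat.mul_self_sub_mul_self_eq _ _
          rw [h3]
          calc w * j ≤ (4 * (eg k0 w j - j)) * j := Nat.mul_le_mul_right j h2
            _ = 2 * ((j + j) * (eg k0 w j - j)) := by ring
            _ ≤ 2 * ((eg k0 w j + j) * (eg k0 w j - j)) := by
                apply Nat.mul_le_mul_left
                apply Nat.mul_le_mul_right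
                omega
        have h4 : (w : ℝ) * m / 2 ≤ ((eg k0 w j * eg k0 w j - j * j : ℕ) : ℝ) := by
          have h5 : (w : ℝ) * j ≤ 2 * ((eg k0 w j * eg k0 w j - j * j : ℕ) : ℝ) := by exact_mod_cast h1
          have h6 : (w : ℝ) * m ≤ w * j := mul_le_mul_of_nonneg_left hjr1 hw0.le
          linarith
        have h7 : (w : ℝ) / (2 * m) ≤ q * ((eg k0 w j * eg k0 w j - j * j : ℕ) : ℝ) := by
          calc (w : ℝ) / (2 * m) = (q * m ^ 2) * ((w : ℝ) / (2 * m)) := by rw [hqm, one_mul]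
            _ = q * ((w : ℝ) * m / 2) := by field_simp
            _ ≤ _ := mul_le_mul_of_nonneg_left h4 hq0.le
        have h8 : (w : ℝ) / (2 * m) ≤ 1 := by
          rw [div_le_one (by positivity)]; linarith
        have h9 := fo_ge_half (x := (w : ℝ) / (2 * m)) (by positivity) h8
        calc (w : ℝ) / (4 * m) = (w : ℝ) / (2 * m) / 2 := by field_simp; ring
          _ ≤ fo ((w : ℝ) / (2 * m)) := h9
          _ ≤ _ := fo_mono h7
      have he9 := Real.exp_pos (-9 : ℝ)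
      have hwm0 : 0 ≤ (w : ℝ) / (4 * m) := by positivity
      calc c1 * w / m = fo (1 / 4) * Real.exp (-9) * (Real.exp (-9) * ((w : ℝ) / (4 * m))) * fo (1 / 4) := by
            unfold c1
            rw [show (-18 : ℝ) = -9 + -9 by norm_num, Real.exp_add]
            field_simp
        _ ≤ _ := by
            apply mul_le_mul _ f4 hf4.le
            · apply mul_nonneg (mul_nonneg (hf4.le.trans f1) (he9.le.trans f2))
              exact mul_nonneg (he9.le.trans f3) (hwm0.trans fy)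
            · apply mul_le_mul _ _ (mul_nonneg he9.le hwm0) (mul_nonneg (hf4.le.trans f1) (he9.le.trans f2))
              · exact mul_le_mul f1 f2 he9.le (hf4.le.trans f1)
              · exact mul_le_mul f3 fy hwm0 (he9.le.trans f3)) (K - 3) 3 (by omega) le_rfl
      (fun j hD hj => by have := hg.D3 j hD; omega)
  refine le_trans ?_ hb.1
  rw [prod_be]
  have h1 : Real.exp (-(lam0 * m)) ≤ Real.exp (-∑ j ∈ Finset.Icc 3 K, gr (q * ((B0 j).card : ℝ))) := by
    apply Real.exp_le_exp.2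
    apply neg_le_neg
    have h3 := sum_z0_le hq0 h3K
    rw [hsq, div_div_eq_mul_div, div_one] at h3
    refine le_trans (le_of_eq ?_) h3
    apply Finset.sum_congr rfl
    intro j hj
    rw [card_B0 j (by have := (Finset.mem_Icc.1 hj).1; omega)]
  have h2 : (c1 * w / m) ^ (NN T σ) ≤ (c1 * w / m) ^ (cnt (Dg k0 w σ) 3 K) :=
    pow_le_pow_of_le_one hρ0 hρ1 (cnt_le hs)
  apply mul_le_mul _ h2 (pow_nonneg hρ0 _) (by positivity)
  exact mul_le_mul_of_nonneg_left h1 (by norm_num)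

/-- lower bound for one set of gaps -/
theorem sig_lb {p q m : ℝ} {k0 w T h K : ℕ} {σ : ℕ → ℕ} (hs : SigOk k0 w T h K σ)
    (hp0 : 0 ≤ p) (hp1 : p ≤ 1) (hq0 : 0 < q) (hq : Real.exp (-q) = 1 - p)
    (hm : 4 ≤ m) (hqm : q * m ^ 2 = 1) (hk0 : m ≤ k0) (hk0' : (k0 : ℝ) ≤ m + 1)
    (hwT : ((w * T : ℕ) : ℝ) ≤ m) (hww : (w : ℝ) * w ≤ m) (hw8 : 8 ≤ w) (hh : 2 * h ≤ w)
    (hKm : m + 2 ≤ K) (hK1 : k0 + w * T + 1 ≤ K) :
    p ^ 8 / 8 * Real.exp (-(3 * lam0 * m)) * (c1 * w / m * Real.exp (-(6 * dg (rr (1 / 4))))) ^ (NN T σ)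
      ≤ Pr (fun _ => p) (Finset.Icc (1 : Pt) (fun _ => (K : ℤ)))
        (Ev (Dg k0 w σ) (eg k0 w) (capg k0 w σ) K) := by
  have hg := good_sig hs
  have h3K : 3 ≤ K := hg.h3K
  have hok := okc (E := Pt) hp0 hp1
  rw [Pr_Ev hg]
  have d0 := dir0_lb hs hp0 hp1 hq0 hq hm hqm hk0 hk0' hwT hww hw8 hh hKm
  have hb1 : ∀ j, j ≤ K → B1 (capg k0 w σ) j ⊆ Finset.Icc (1 : Pt) (fun _ => (K : ℤ)) := by
    intro j hj
    by_cases h3 : 3 ≤ j
    · exact B1_S hg j h3 hj
    · intro x hx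
      have := mem_B1.1 hx
      omega
  have hb2 : ∀ j, j ≤ K → B2 (capg k0 w σ) j ⊆ Finset.Icc (1 : Pt) (fun _ => (K : ℤ)) := by
    intro j hj
    by_cases h3 : 3 ≤ j
    · exact B2_S hg j h3 hj
    · intro x hx
      have := mem_B2.1 hx
      omega
  have d1 := dir_lb hs hp0 hp1 hq0 hq hm hqm hk0 hk0' hwT hww hK1 hKm (B1 (capg k0 w σ)) hb1 B1_disj
    (fun j hj => card_B1 _ j (by omega))
  have d2 := dir_lb hs hp0 hp1 hq0 hq hm hqm hk0 hk0' hwT hww hK1 hKm (B2 (capg k0 w σ)) hb2 B2_disj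
    (fun j hj => card_B2 _ j (by omega))
  have hρ0 : 0 ≤ c1 * w / m := by have := c1_pos; positivity
  have hX : p ^ 8 / 8 * Real.exp (-(3 * lam0 * m)) * (c1 * w / m * Real.exp (-(6 * dg (rr (1 / 4))))) ^ (NN T σ)
      = p ^ 8 * (((1 / 2) * Real.exp (-(lam0 * m)) * (c1 * w / m) ^ (NN T σ)) *
        (((1 / 2) * Real.exp (-(lam0 * m + (NN T σ) * (3 * dg (rr (1 / 4)))))) *
         ((1 / 2) * Real.exp (-(lam0 * m + (NN T σ) * (3 * dg (rr (1 / 4)))))))) := by
    rw [mul_pow, ← Real.exp_nat_mul]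
    have e1 : Real.exp (-(3 * lam0 * m)) * Real.exp ((NN T σ) * (-(6 * dg (rr (1 / 4)))))
        = Real.exp (-(lam0 * m)) * (Real.exp (-(lam0 * m + (NN T σ) * (3 * dg (rr (1 / 4))))) *
          Real.exp (-(lam0 * m + (NN T σ) * (3 * dg (rr (1 / 4)))))) := by
      rw [← Real.exp_add, ← Real.exp_add, ← Real.exp_add]
      congr 1
      ring
    calc p ^ 8 / 8 * Real.exp (-(3 * lam0 * m)) * ((c1 * w / m) ^ (NN T σ) * Real.exp ((NN T σ) * (-(6 * dg (rr (1 / 4))))))
        = p ^ 8 / 8 * (c1 * w / m) ^ (NN T σ) * (Real.exp (-(3 * lam0 * m)) * Real.exp ((NN T σ) * (-(6 * dg (rr (1 / 4)))))) := by ring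
      _ = _ := by rw [e1]; ring
  rw [hX]
  apply mul_le_mul_of_nonneg_left _ (by positivity)
  apply mul_le_mul d0 _ (by positivity) (Pr_nonneg hok _ _)
  exact mul_le_mul d1 d2 (by positivity) (Pr_nonneg hok _ _)

/-- extension of a choice -/
def ext (T h : ℕ) (s : Fin T → Fin (h + 1)) : ℕ → ℕ := fun t => if ht : t < T then (s ⟨t, ht⟩ : ℕ) else 0

theorem NN_ext (T h : ℕ) (s : Fin T → Fin (h + 1)) (x : ℝ) :
    x ^ (NN T (ext T h s)) = ∏ t : Fin T, (if s t = 0 then 1 else x) := by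
  classical
  unfold NN
  have h1 : ∏ t : Fin T, (if s t = 0 then (1:ℝ) else x) = ∏ t ∈ range T, (if ext T h s t ≠ 0 then x else 1) := by
    rw [← Fin.prod_univ_eq_prod_range (fun t => if ext T h s t ≠ 0 then x else 1) T]
    apply Finset.prod_congr rfl
    intro t _
    have : ext T h s (t : ℕ) = (s t : ℕ) := by
      unfold ext
      rw [dif_pos t.2]
    rw [this]
    by_cases h0 : s t = 0
    · rw [if_pos h0, h0]; simp
    · rw [if_neg h0, if_pos]
      intro h2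
      apply h0
      exact Fin.ext (by simpa using h2)
  rw [h1, ← Finset.prod_filter, Finset.prod_const]

theorem cube_lb {p q m : ℝ} {k0 w T h K : ℕ}
    (hp0 : 0 ≤ p) (hp1 : p ≤ 1) (hq0 : 0 < q) (hq : Real.exp (-q) = 1 - p)
    (hm : 4 ≤ m) (hqm : q * m ^ 2 = 1) (hk0 : m ≤ k0) (hk0' : (k0 : ℝ) ≤ m + 1)
    (hwT : ((w * T : ℕ) : ℝ) ≤ m) (hww : (w : ℝ) * w ≤ m) (hw8 : 8 ≤ w) (hh : 2 * h ≤ w)
    (hKm : m + 2 ≤ K) (hK1 : k0 + w * T + 1 ≤ K) :
    p ^ 8 / 8 * Real.exp (-(3 * lam0 * m)) * (1 + h * (c1 * w / m * Real.exp (-(6 * dg (rr (1 / 4)))))) ^ T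
      ≤ uu p (1 : Pt) (fun _ => (K : ℤ)) := by
  classical
  have hok := okc (E := Pt) hp0 hp1
  have hk03 : 3 ≤ k0 := by
    have : (3:ℝ) ≤ k0 := by linarith
    exact_mod_cast this
  have hs : ∀ s : Fin T → Fin (h + 1), SigOk k0 w T h K (ext T h s) := fun s =>
    { hk0 := hk03
      hhw := by omega
      hσ := by
        intro t
        unfold ext
        split_ifs with ht
        · have := (s ⟨t, ht⟩).2; omega
        · omega
      hT := by
        intro t ht
        unfold ext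
        rw [dif_neg (by omega)]
      hK := by omega }
  set x := c1 * w / m * Real.exp (-(6 * dg (rr (1 / 4)))) with hx
  have hsum : ∑ s : Fin T → Fin (h + 1), Pr (fun _ => p) (Finset.Icc (1 : Pt) (fun _ => (K : ℤ)))
        (Ev (Dg k0 w (ext T h s)) (eg k0 w) (capg k0 w (ext T h s)) K)
      ≤ uu p (1 : Pt) (fun _ => (K : ℤ)) := by
    unfold uu
    apply Pr_sum_le hok
    · intro s _ s' _ hne F _ ⟨hF, hF'⟩
      -- the gap sets agree
      have hD : ∀ j, 3 ≤ j → j + 1 < K → (Dg k0 w (ext T h s) j ↔ Dg k0 w (ext T h s') j) := by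
        intro j hj hjK
        rw [Ev_det (good_sig (hs s)) hF j hj hjK, Ev_det (good_sig (hs s')) hF' j hj hjK]
      have key : ∀ a b : Fin T → Fin (h + 1), (∀ j, 3 ≤ j → j + 1 < K → (Dg k0 w (ext T h a) j → Dg k0 w (ext T h b) j)) →
          ∀ t, ext T h a t ≠ 0 → ext T h b t = ext T h a t := by
        intro a b hab t ht
        have hD1 : Dg k0 w (ext T h a) (k0 + w * t + ext T h a t) := ⟨t, ht, rfl⟩
        have h3 := (good_sig (hs a)).DK _ hD1
        obtain ⟨t', ht', he⟩ := hab _ (by omega) (by omega) hD1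
        have h4 := (hs a).hσ t
        have h5 := (hs b).hσ t'
        obtain ⟨h6, h7⟩ := win_unique (w := w) (t := t) (t' := t') (v := ext T h a t) (v' := ext T h b t')
          (by omega) (by omega) (by omega) (by omega) (by omega)
        subst h6
        exact h7.symm
      apply hne
      funext t
      have e1 : ∀ u : Fin T → Fin (h + 1), ext T h u (t : ℕ) = (u t : ℕ) := by
        intro u
        unfold ext
        rw [dif_pos t.2]
      apply Fin.ext
      rw [← e1 s, ← e1 s']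
      by_cases h0 : ext T h s (t : ℕ) = 0
      · by_cases h0' : ext T h s' (t : ℕ) = 0
        · rw [h0, h0']
        · exact key s' s (fun j a b => (hD j a b).2) t h0'
      · exact (key s s' (fun j a b => (hD j a b).1) t h0).symm
    · intro s _ F hF hE
      exact Ev_spn (good_sig (hs s)) hF hE
  refine le_trans ?_ hsum
  have hone : ∀ s ∈ (univ : Finset (Fin T → Fin (h + 1))),
      p ^ 8 / 8 * Real.exp (-(3 * lam0 * m)) * (∏ t : Fin T, (if s t = 0 then 1 else x))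
      ≤ Pr (fun _ => p) (Finset.Icc (1 : Pt) (fun _ => (K : ℤ)))
        (Ev (Dg k0 w (ext T h s)) (eg k0 w) (capg k0 w (ext T h s)) K) := by
    intro s _
    rw [← NN_ext]
    exact sig_lb (hs s) hp0 hp1 hq0 hq hm hqm hk0 hk0' hwT hww hw8 hh hKm hK1
  refine le_trans (le_of_eq ?_) (Finset.sum_le_sum hone)
  rw [← Finset.mul_sum]
  congr 1
  have h1 := Finset.prod_univ_sum (fun _ : Fin T => (univ : Finset (Fin (h + 1))))
    (fun _ v => if v = 0 then (1:ℝ) else x)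
  rw [Fintype.piFinset_univ] at h1
  rw [← h1, Finset.prod_const, Finset.card_univ, Fintype.card_fin]
  congr 1
  rw [Fin.sum_univ_succ]
  simp [Fin.succ_ne_zero]

end Pool.Agent.H97.BP
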